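import Mathlib

/-!
# Bogoliubov's value for one mode
-/

namespace Pool.Agent.H993.LY

/-- `x coth x`, with the value one at zero. -/
noncomputable def xcoth (x : ℝ) : ℝ := if x = 0 then 1 else x * Real.cosh x / Real.sinh x

/-- Bogoliubov's value for one mode. -/
noncomputable def sB (U J β l : ℝ) : ℝ := xcoth (β * Real.sqrt (2 * U * J * l) / 2) / (β * J * l)

end Pool.Agent.H993.LY
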