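import Mathlib
import Pool.Agent.H993.TR.Tra
import Pool.Agent.H993.LY.Defs

/-!
# The neutral system without cut-off: the state on the shifts, and limits of traces
-/

namespace Pool.Agent.H993.LY

open Filter Topology NormedSpace Matrix
open Pool.Agent.H993.TR

variable {V : Type} [Fintype V] [DecidableEq V]

/-- The kernel of `- β H`, `H = U ∑ n_x² - ∑ w x y cos (θ_x - θ_y)`. -/
noncomputable def AA (β U : ℝ) (w : V → V → ℝ) : (V → ℤ) → (V → ℤ) → ℝ :=
  rotK β (U • (1 : Matrix V V ℝ)) w 0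

/-- A finite set of neutral configurations, as a set of configurations. -/
noncomputable def nR (R : Finset (Sec V 0)) : Finset (V → ℤ) := R.map (se V 0)

/-- The kernel of `exp (- β H)` in the sector of charge zero. -/
noncomputable def EI (A : (V → ℤ) → (V → ℤ) → ℝ) (a b : V → ℤ) : ℝ :=
  ⨆ R : Finset (Sec V 0), EE A (nR R) a b

/-- `Z ⟨exp (i t θ)⟩`. -/
noncomputable def WW (A : (V → ℤ) → (V → ℤ) → ℝ) (t : V → ℤ) : ℝ := ∑' m : V → ℤ, EI A (m + t) m

/-- `∑ x, n_x²`. -/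
noncomputable def nsq (m : V → ℤ) : ℝ := ∑ x, (m x : ℝ) ^ 2

/-- `Z ⟨∑ x, n_x²⟩`. -/
noncomputable def M2 (A : (V → ℤ) → (V → ℤ) → ℝ) : ℝ := ∑' m : V → ℤ, nsq m * EI A m m

/-- A weighted shift, truncated. -/
noncomputable def tw (R : Finset (V → ℤ)) (b : (V → ℤ) → ℝ) (v : V → ℤ) : Matrix R R ℝ :=
  fun n m => if (n : V → ℤ) = m + v then b m else 0

/-- The kernel on the torus, nearest neighbour hopping. -/
noncomputable def NN (d L : ℕ) [NeZero L] (β U J : ℝ) :
    ((Fin d → ZMod L) → ℤ) → ((Fin d → ZMod L) → ℤ) → ℝ :=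
  AA β U (Pool.Agent.N657.QR.nnw J : (Fin d → ZMod L) → (Fin d → ZMod L) → ℝ)

theorem mem_nR (R : Finset (Sec V 0)) (m : V → ℤ) :
    m ∈ nR R ↔ ∃ h : ∑ x, m x = 0, (⟨m, h⟩ : Sec V 0) ∈ R := by
  unfold nR
  rw [Finset.mem_map]
  constructor
  · rintro ⟨a, ha, rfl⟩
    exact ⟨a.2, ha⟩
  · rintro ⟨h, ha⟩
    exact ⟨⟨m, h⟩, ha, rfl⟩

theorem nR_charge {R : Finset (Sec V 0)} {m : V → ℤ} (h : m ∈ nR R) : ∑ x, m x = 0 :=
  ((mem_nR R m).1 h).1

theorem nR_mono {R R' : Finset (Sec V 0)} (h : R ⊆ R') : nR R ⊆ nR R' := by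
  intro m hm
  obtain ⟨h1, h2⟩ := (mem_nR R m).1 hm
  exact (mem_nR R' m).2 ⟨h1, h h2⟩

/-- Every neutral configuration is eventually in the set. -/
theorem eventually_mem_nR (m : V → ℤ) (h : ∑ x, m x = 0) : ∀ᶠ R in atTop, m ∈ nR R := by
  filter_upwards [eventually_ge_atTop ({(⟨m, h⟩ : Sec V 0)} : Finset (Sec V 0))] with R hR
  exact (mem_nR R m).2 ⟨h, hR (Finset.mem_singleton_self _)⟩

theorem tw_mul (R : Finset (V → ℤ)) (b c : (V → ℤ) → ℝ) (v u : V → ℤ) :
    tw R b v * tw R c u =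
      tw R (fun m => (if m + u ∈ R then b (m + u) else 0) * c m) (u + v) := by
  ext n m
  rw [Matrix.mul_apply]
  unfold tw
  by_cases h : (m : V → ℤ) + u ∈ R
  · rw [Finset.sum_eq_single (⟨(m : V → ℤ) + u, h⟩ : R)]
    · simp only [if_true, if_pos h, add_assoc]
      split_ifs <;> ring
    · intro k _ hk
      rw [if_neg (fun h' : (k : V → ℤ) = m + u => hk (Subtype.ext h')), mul_zero]
    · intro h'; exact absurd (Finset.mem_univ _) h'
  · simp only [if_neg h, zero_mul]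
    rw [ite_self]
    refine Finset.sum_eq_zero fun k _ => ?_
    rw [if_neg (fun h' : (k : V → ℤ) = m + u => h (h' ▸ k.2)), mul_zero]

theorem tw_transpose (R : Finset (V → ℤ)) (b : (V → ℤ) → ℝ) (v : V → ℤ) :
    (tw R b v)ᵀ = tw R (fun m => b (m - v)) (-v) := by
  ext n m
  rw [Matrix.transpose_apply]
  unfold tw
  by_cases h : (m : V → ℤ) = n + v
  · have h' : (n : V → ℤ) = m + -v := by rw [h]; abel
    rw [if_pos h, if_pos h', h]
    show b n = b (n + v - v)
    rw [add_sub_cancel_right]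
  · have h' : ¬ (n : V → ℤ) = m + -v := by
      intro h'
      apply h
      rw [h']; abel
    rw [if_neg h, if_neg h']

theorem trace_tw (A : (V → ℤ) → (V → ℤ) → ℝ) (R : Finset (V → ℤ)) (b : (V → ℤ) → ℝ)
    (v : V → ℤ) : (tw R b v * exp (mt A R)).trace = ∑ m ∈ R, b m * EE A R m (m + v) := by
  rw [Matrix.trace]
  simp only [Matrix.diag_apply, Matrix.mul_apply]
  rw [Finset.sum_comm, ← Finset.sum_coe_sort R]
  refine Finset.sum_congr rfl fun m _ => ?_
  unfold tw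
  by_cases h : (m : V → ℤ) + v ∈ R
  · rw [Finset.sum_eq_single (⟨(m : V → ℤ) + v, h⟩ : R)]
    · simp only [if_true]
      rw [EE_eq A R m ⟨(m : V → ℤ) + v, h⟩]
    · intro k _ hk
      rw [if_neg (fun h' : (k : V → ℤ) = m + v => hk (Subtype.ext h')), zero_mul]
    · intro h'; exact absurd (Finset.mem_univ _) h'
  · rw [EE_zero_right h, mul_zero]
    refine Finset.sum_eq_zero fun k _ => ?_
    rw [if_neg (fun h' : (k : V → ℤ) = m + v => h (h' ▸ k.2)), zero_mul]

theorem mt_cosK (R : Finset (V → ℤ)) (x y : V) :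
    mt (cosK x y) R = (1 / 2 : ℝ) • (tw R (fun _ => 1) (eta x y) + tw R (fun _ => 1) (-eta x y)) := by
  ext n m
  rw [Matrix.smul_apply, Matrix.add_apply]
  unfold Pool.Agent.H993.TR.mt tw cosK
  have h : ((m : V → ℤ) = n + eta x y) ↔ ((n : V → ℤ) = m + -eta x y) := by
    constructor
    · intro h; rw [h]; abel
    · intro h; rw [h]; abel
  simp only [h, smul_eq_mul]
  ring

theorem AA_apply (β U : ℝ) (w : V → V → ℝ) (n m : V → ℤ) :
    AA β U w n m = (if n = m then -(β * U * nsq n) else 0) + β * ∑ x, ∑ y, w x y * cosK x y n m := by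
  unfold AA rotK
  rw [pot_neutral]
  unfold nsq
  rw [mul_assoc]

theorem mt_AA (β U : ℝ) (w : V → V → ℝ) (R : Finset (V → ℤ)) :
    mt (AA β U w) R = tw R (fun m => -(β * U * nsq m)) 0 +
      β • ∑ x, ∑ y, w x y • mt (cosK x y) R := by
  ext n m
  rw [Matrix.add_apply, Matrix.smul_apply, Matrix.sum_apply]
  simp only [Matrix.sum_apply, Matrix.smul_apply, smul_eq_mul]
  unfold tw
  show AA β U w n m = _
  rw [AA_apply, add_zero]
  congr 1
  by_cases h : (n : V → ℤ) = m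
  · rw [if_pos h, if_pos h, h]
  · rw [if_neg h, if_neg h]

theorem AA_adm {β U : ℝ} (hβ : 0 < β) {w : V → V → ℝ} (hw : ∀ x y, 0 ≤ w x y) :
    Adm (AA β U w) := rotK_adm hβ.le _ hw 0

theorem AA_bdd {β U : ℝ} (hβ : 0 < β) (hU : 0 < U) {w : V → V → ℝ} (hw : ∀ x y, 0 ≤ w x y) :
    Bdd (AA β U w) := rotK_bdd' hβ (Matrix.PosDef.one.smul hU) hw 0

theorem nsq_nonneg (m : V → ℤ) : 0 ≤ nsq m := Finset.sum_nonneg fun _ _ => sq_nonneg _

section general

variable {A : (V → ℤ) → (V → ℤ) → ℝ}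

theorem EE_diag_le_TI (hA : Adm A) (hB : Bdd A) (R : Finset (Sec V 0)) (a : V → ℤ) :
    EE A (nR R) a a ≤ TI (rs A 0) id := by
  have h1 : TS A id (nR R) ≤ TI (rs A 0) id := by
    have h := TS_rs_id A 0 R
    unfold nR
    rw [← h]
    exact TS_le_TI (rs_adm hA 0) (rs_bdd hA hB 0) Function.injective_id _
  refine le_trans ?_ h1
  by_cases h : a ∈ nR R
  · exact Finset.single_le_sum (f := fun a => EE A (nR R) (id a) a)
      (fun b _ => EE_nonneg hA _ _ _) h
  · rw [EE_zero_left h]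
    exact TS_nonneg hA _ _

theorem EE_bddAbove (hA : Adm A) (hB : Bdd A) (a b : V → ℤ) :
    BddAbove (Set.range fun R : Finset (Sec V 0) => EE A (nR R) a b) := by
  refine ⟨TI (rs A 0) id, ?_⟩
  rintro _ ⟨R, rfl⟩
  refine (EE_le hA (nR R) a b).trans ?_
  have h1 := EE_diag_le_TI hA hB R a
  have h2 := EE_diag_le_TI hA hB R b
  linarith

theorem EE_le_EI (hA : Adm A) (hB : Bdd A) (R : Finset (Sec V 0)) (a b : V → ℤ) :
    EE A (nR R) a b ≤ EI A a b :=
  le_ciSup (EE_bddAbove hA hB a b) R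

theorem EE_tendsto (hA : Adm A) (hB : Bdd A) (a b : V → ℤ) :
    Tendsto (fun R : Finset (Sec V 0) => EE A (nR R) a b) atTop (𝓝 (EI A a b)) :=
  tendsto_atTop_ciSup (fun _ _ h => EE_mono hA (nR_mono h) a b) (EE_bddAbove hA hB a b)

theorem EI_symm_gen (hA : Adm A) (a b : V → ℤ) : EI A a b = EI A b a := by
  unfold EI
  congr 1
  funext R
  exact EE_symm hA _ _ _

theorem EI_nonneg_gen (hA : Adm A) (a b : V → ℤ) : 0 ≤ EI A a b :=
  Real.iSup_nonneg fun R => EE_nonneg hA (nR R) a b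

theorem EI_le (hA : Adm A) (hB : Bdd A) (a b : V → ℤ) : EI A a b ≤ (EI A a a + EI A b b) / 2 := by
  refine le_of_tendsto' (EE_tendsto hA hB a b) fun R => ?_
  refine (EE_le hA (nR R) a b).trans ?_
  have h1 := EE_le_EI hA hB R a a
  have h2 := EE_le_EI hA hB R b b
  linarith

theorem EI_zero_right {a b : V → ℤ} (h : ∑ x, b x ≠ 0) : EI A a b = 0 := by
  unfold EI
  have : ∀ R : Finset (Sec V 0), EE A (nR R) a b = 0 := fun R =>
    EE_zero_right fun h' => h (nR_charge h')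
  simp only [this]
  exact ciSup_const

end general

/-- Moments are finite. -/
theorem mom_bound {β U : ℝ} (hβ : 0 < β) (hU : 0 < U) {w : V → V → ℝ} (hw : ∀ x y, 0 ≤ w x y) :
    ∃ K : ℝ, ∀ R : Finset (Sec V 0),
      ∑ m ∈ nR R, (1 + nsq m) * EE (AA β U w) (nR R) m m ≤ K := by
  have hU2 : 0 < U / 2 := by linarith
  set A := AA β U w with hA
  set A' := AA β (U / 2) w with hA'
  have hAdm : Adm A := AA_adm hβ hw
  have hAdm' : Adm A' := AA_adm hβ hw
  have hB' : Bdd A' := AA_bdd hβ hU2 hw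
  set q := 1 + 2 / (β * U) with hq
  have hq0 : 0 ≤ q := by positivity
  refine ⟨q * TI (rs A' 0) id, fun R => ?_⟩
  have h1 := trace_exp_convex (mt A (nR R)) (tw (nR R) (fun m => β * (U / 2) * nsq m) 0)
    (mt_symm hAdm _) (by rw [tw_transpose]; simp)
  have h2 : mt A (nR R) + tw (nR R) (fun m => β * (U / 2) * nsq m) 0 = mt A' (nR R) := by
    rw [hA, hA', mt_AA, mt_AA]
    ext n m
    simp only [Matrix.add_apply]
    unfold tw
    split_ifs <;> ring
  rw [h2, trace_tw] at h1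
  have h3 : (exp (mt A' (nR R))).trace ≤ TI (rs A' 0) id := by
    have h := TS_rs_id A' 0 R
    rw [← TS_id]
    unfold nR
    rw [← h]
    exact TS_le_TI (rs_adm hAdm' 0) (rs_bdd hAdm' hB' 0) Function.injective_id _
  have h4 : (exp (mt A (nR R))).trace = ∑ m ∈ nR R, EE A (nR R) m m := (TS_id A (nR R)).symm
  have h5 : ∑ m ∈ nR R, (1 + nsq m) * EE A (nR R) m m ≤
      q * (∑ m ∈ nR R, EE A (nR R) m m +
        ∑ m ∈ nR R, β * (U / 2) * nsq m * EE A (nR R) m (m + 0)) := by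
    rw [← Finset.sum_add_distrib, Finset.mul_sum]
    refine Finset.sum_le_sum fun m _ => ?_
    rw [add_zero]
    have e1 := EE_nonneg hAdm (nR R) m m
    have e2 := nsq_nonneg m
    have e3 : q * (EE A (nR R) m m + β * (U / 2) * nsq m * EE A (nR R) m m) =
        (q + (q * (β * (U / 2))) * nsq m) * EE A (nR R) m m := by ring
    rw [e3]
    refine mul_le_mul_of_nonneg_right ?_ e1
    have e4 : 1 ≤ q := by rw [hq]; linarith [div_pos (by norm_num : (0:ℝ) < 2) (mul_pos hβ hU)]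
    have e5 : 1 ≤ q * (β * (U / 2)) := by
      have : q * (β * (U / 2)) = β * (U / 2) + 1 := by
        rw [hq]; field_simp
      rw [this]
      have := mul_pos hβ hU2
      linarith
    nlinarith
  refine h5.trans (mul_le_mul_of_nonneg_left ?_ hq0)
  linarith

theorem mom_summable {β U : ℝ} (hβ : 0 < β) (hU : 0 < U) {w : V → V → ℝ}
    (hw : ∀ x y, 0 ≤ w x y) : Summable fun m : V → ℤ => (1 + nsq m) * EI (AA β U w) m m := by
  obtain ⟨K, hK⟩ := mom_bound hβ hU hw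
  have hAdm : Adm (AA β U w) := AA_adm hβ hw
  have hB : Bdd (AA β U w) := AA_bdd hβ hU hw
  refine summable_of_sum_le (c := K) (fun m => mul_nonneg (by have := nsq_nonneg m; linarith)
    (EI_nonneg_gen hAdm m m)) fun S => ?_
  have hlim : Tendsto (fun R : Finset (Sec V 0) => ∑ m ∈ S, (1 + nsq m) *
      EE (AA β U w) (nR R) m m) atTop (𝓝 (∑ m ∈ S, (1 + nsq m) * EI (AA β U w) m m)) :=
    tendsto_finsetSum _ fun m _ => (EE_tendsto hAdm hB m m).const_mul _
  refine le_of_tendsto' hlim fun R => ?_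
  refine le_trans ?_ (hK R)
  have h1 : ∑ m ∈ S, (1 + nsq m) * EE (AA β U w) (nR R) m m =
      ∑ m ∈ S.filter (· ∈ nR R), (1 + nsq m) * EE (AA β U w) (nR R) m m := by
    rw [Finset.sum_filter]
    refine Finset.sum_congr rfl fun m _ => ?_
    split_ifs with h
    · rfl
    · rw [EE_zero_left h, mul_zero]
  rw [h1]
  refine Finset.sum_le_sum_of_subset_of_nonneg ?_ fun m _ _ =>
    mul_nonneg (by have := nsq_nonneg m; linarith) (EE_nonneg hAdm _ _ _)
  intro m hm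
  exact (Finset.mem_filter.1 hm).2

theorem nsq_add_le (m t : V → ℤ) : 1 + nsq m ≤ 2 * (1 + nsq t) * (1 + nsq (m + t)) := by
  have h1 : nsq m ≤ 2 * nsq (m + t) + 2 * nsq t := by
    unfold nsq
    rw [Finset.mul_sum, Finset.mul_sum, ← Finset.sum_add_distrib]
    refine Finset.sum_le_sum fun x _ => ?_
    rw [Pi.add_apply]
    push_cast
    nlinarith [sq_nonneg ((m x : ℝ) + 2 * t x)]
  have h2 := nsq_nonneg t
  have h3 := nsq_nonneg (m + t)
  nlinarith [mul_nonneg h2 h3]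

theorem shift_summable {β U : ℝ} (hβ : 0 < β) (hU : 0 < U) {w : V → V → ℝ}
    (hw : ∀ x y, 0 ≤ w x y) (t : V → ℤ) :
    Summable fun m : V → ℤ => (1 + nsq m) * EI (AA β U w) (m + t) m := by
  have hAdm : Adm (AA β U w) := AA_adm hβ hw
  have hB : Bdd (AA β U w) := AA_bdd hβ hU hw
  have h0 := mom_summable hβ hU hw
  have h1 : Summable fun m : V → ℤ => (1 + nsq (m + t)) * EI (AA β U w) (m + t) (m + t) :=
    (Equiv.addRight t).summable_iff.2 h0
  have h2 : Summable fun m : V → ℤ => (1 + nsq t) * ((1 + nsq (m + t)) *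
      EI (AA β U w) (m + t) (m + t)) + (1 / 2) * ((1 + nsq m) * EI (AA β U w) m m) :=
    (h1.mul_left _).add (h0.mul_left _)
  refine Summable.of_nonneg_of_le (fun m => mul_nonneg (by have := nsq_nonneg m; linarith)
    (EI_nonneg_gen hAdm _ _)) (fun m => ?_) h2
  have e1 := EI_le hAdm hB (m + t) m
  have e2 := nsq_add_le m t
  have e3 := EI_nonneg_gen hAdm (m + t) (m + t)
  have e4 := nsq_nonneg m
  have e5 := mul_le_mul_of_nonneg_left e1 (by linarith : (0:ℝ) ≤ 1 + nsq m)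
  have e6 := mul_le_mul_of_nonneg_right e2 e3
  calc (1 + nsq m) * EI (AA β U w) (m + t) m
      ≤ (1 + nsq m) * ((EI (AA β U w) (m + t) (m + t) + EI (AA β U w) m m) / 2) := e5
    _ = (1 / 2) * ((1 + nsq m) * EI (AA β U w) (m + t) (m + t)) +
        (1 / 2) * ((1 + nsq m) * EI (AA β U w) m m) := by ring
    _ ≤ _ := by linarith

/-- Limits of weighted traces. -/
theorem lim_w {β U : ℝ} (hβ : 0 < β) (hU : 0 < U) {w : V → V → ℝ} (hw : ∀ x y, 0 ≤ w x y)
    (t : V → ℤ) (b : Finset (Sec V 0) → (V → ℤ) → ℝ) (b' : (V → ℤ) → ℝ) (c : ℝ)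
    (hb : ∀ R m, |b R m| ≤ c * (1 + nsq m))
    (hlim : ∀ m, ∑ x, m x = 0 → ∀ᶠ R in atTop, b R m = b' m) :
    Summable (fun m => b' m * EI (AA β U w) (m + t) m) ∧
    Tendsto (fun R => ∑ m ∈ nR R, b R m * EE (AA β U w) (nR R) (m + t) m) atTop
      (𝓝 (∑' m, b' m * EI (AA β U w) (m + t) m)) := by
  have hAdm : Adm (AA β U w) := AA_adm hβ hw
  have hB : Bdd (AA β U w) := AA_bdd hβ hU hw
  have hs := (shift_summable hβ hU hw t).mul_left c
  have hb' : ∀ m, ∑ x, m x = 0 → |b' m| ≤ c * (1 + nsq m) := by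
    intro m hm
    obtain ⟨R, hR⟩ := (hlim m hm).exists
    rw [← hR]
    exact hb R m
  have hbd : ∀ m, |b' m * EI (AA β U w) (m + t) m| ≤
      c * ((1 + nsq m) * EI (AA β U w) (m + t) m) := by
    intro m
    rw [abs_mul, abs_of_nonneg (EI_nonneg_gen hAdm (m + t) m)]
    by_cases hm : ∑ x, m x = 0
    · refine (mul_le_mul_of_nonneg_right (hb' m hm) (EI_nonneg_gen hAdm _ _)).trans (le_of_eq ?_)
      ring
    · rw [EI_zero_right hm]; simp
  refine ⟨Summable.of_abs (Summable.of_nonneg_of_le (fun m => abs_nonneg _) hbd hs), ?_⟩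
  have heq : ∀ R : Finset (Sec V 0), ∑ m ∈ nR R, b R m * EE (AA β U w) (nR R) (m + t) m =
      ∑' m, b R m * EE (AA β U w) (nR R) (m + t) m := by
    intro R
    rw [tsum_eq_sum]
    intro m hm
    rw [EE_zero_right hm, mul_zero]
  simp only [heq]
  refine tendsto_tsum_of_dominated_convergence hs (fun m => ?_) (Eventually.of_forall fun R m => ?_)
  · by_cases hm : ∑ x, m x = 0
    · refine Tendsto.mul ?_ (EE_tendsto hAdm hB _ _)
      exact Tendsto.congr' (by filter_upwards [hlim m hm] with R hR using hR.symm)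
        tendsto_const_nhds
    · have h1 : ∀ R : Finset (Sec V 0), b R m * EE (AA β U w) (nR R) (m + t) m = 0 := by
        intro R
        rw [EE_zero_right fun h' => hm (nR_charge h'), mul_zero]
      simp only [h1]
      rw [EI_zero_right hm, mul_zero]
      exact tendsto_const_nhds
  · rw [Real.norm_eq_abs, abs_mul, abs_of_nonneg (EE_nonneg hAdm _ _ _)]
    have h1 := hb R m
    have h2 := EE_le_EI hAdm hB R (m + t) m
    have h3 := EE_nonneg hAdm (nR R) (m + t) m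
    have h4 : 0 ≤ c * (1 + nsq m) := (abs_nonneg _).trans h1
    calc |b R m| * EE (AA β U w) (nR R) (m + t) m
        ≤ (c * (1 + nsq m)) * EI (AA β U w) (m + t) m := mul_le_mul h1 h2 h3 h4
      _ = _ := by ring

theorem EI_symm {β U : ℝ} (hβ : 0 < β) {w : V → V → ℝ} (hw : ∀ x y, 0 ≤ w x y)
    (a b : V → ℤ) : EI (AA β U w) a b = EI (AA β U w) b a :=
  EI_symm_gen (AA_adm hβ hw) a b

/-- Plain limits. -/
theorem lim_WW {β U : ℝ} (hβ : 0 < β) (hU : 0 < U) {w : V → V → ℝ} (hw : ∀ x y, 0 ≤ w x y)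
    (t : V → ℤ) : Tendsto (fun R : Finset (Sec V 0) => ∑ m ∈ nR R, EE (AA β U w) (nR R) (m + t) m)
      atTop (𝓝 (WW (AA β U w) t)) := by
  have h := (lim_w hβ hU hw t (fun _ _ => 1) (fun _ => 1) 1 (fun R m => by
    have := nsq_nonneg m
    rw [abs_one]; linarith) (fun m _ => Eventually.of_forall fun _ => rfl)).2
  simp only [one_mul] at h
  exact h

theorem WW_nonneg {β U : ℝ} (hβ : 0 < β) {w : V → V → ℝ} (hw : ∀ x y, 0 ≤ w x y)
    (t : V → ℤ) : 0 ≤ WW (AA β U w) t :=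
  tsum_nonneg fun _ => EI_nonneg_gen (AA_adm hβ hw) _ _

theorem EI_nonneg {β U : ℝ} (hβ : 0 < β) {w : V → V → ℝ} (hw : ∀ x y, 0 ≤ w x y)
    (a b : V → ℤ) : 0 ≤ EI (AA β U w) a b :=
  EI_nonneg_gen (AA_adm hβ hw) _ _

theorem WW_eta {β U : ℝ} (hβ : 0 < β) (hU : 0 < U) {w : V → V → ℝ} (hw : ∀ x y, 0 ≤ w x y)
    (x y : V) : WW (AA β U w) (eta x y) = TI (rs (AA β U w) 0) (sh 0 x y) := by
  have hAdm : Adm (AA β U w) := AA_adm hβ hw
  have hB : Bdd (AA β U w) := AA_bdd hβ hU hw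
  have h1 := lim_WW hβ hU hw (eta x y)
  have h2 := TS_tendsto (rs_adm hAdm 0) (rs_bdd hAdm hB 0) (sh_inj 0 x y)
  refine tendsto_nhds_unique h1 (h2.congr fun R => ?_)
  rw [TS_rs]
  rfl

theorem WW_zero {β U : ℝ} (hβ : 0 < β) (hU : 0 < U) {w : V → V → ℝ} (hw : ∀ x y, 0 ≤ w x y) :
    WW (AA β U w) 0 = TI (rs (AA β U w) 0) id := by
  have hAdm : Adm (AA β U w) := AA_adm hβ hw
  have hB : Bdd (AA β U w) := AA_bdd hβ hU hw
  have h1 := lim_WW hβ hU hw 0
  have h2 := TS_tendsto (rs_adm hAdm 0) (rs_bdd hAdm hB 0)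
    (Function.injective_id : Function.Injective (id : Sec V 0 → Sec V 0))
  refine tendsto_nhds_unique h1 (h2.congr fun R => ?_)
  rw [TS_rs_id]
  unfold TS nR
  simp only [add_zero, id]

theorem WW_zero_pos {β U : ℝ} (hβ : 0 < β) (hU : 0 < U) {w : V → V → ℝ}
    (hw : ∀ x y, 0 ≤ w x y) : 0 < WW (AA β U w) 0 := by
  rw [WW_zero hβ hU hw]
  have : Nonempty (Sec V 0) := ⟨⟨0, by simp⟩⟩
  exact TI_pos (rs_adm (AA_adm hβ hw) 0) (rs_bdd (AA_adm hβ hw) (AA_bdd hβ hU hw) 0)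

theorem WW_neg {β U : ℝ} (hβ : 0 < β) {w : V → V → ℝ} (hw : ∀ x y, 0 ≤ w x y)
    (t : V → ℤ) : WW (AA β U w) (-t) = WW (AA β U w) t := by
  unfold WW
  rw [← (Equiv.addRight t).tsum_eq (fun m => EI (AA β U w) (m + -t) m)]
  refine tsum_congr fun m => ?_
  simp only [Equiv.coe_addRight]
  rw [EI_symm hβ hw]
  congr 1
  abel

theorem WW_le {β U : ℝ} (hβ : 0 < β) (hU : 0 < U) {w : V → V → ℝ} (hw : ∀ x y, 0 ≤ w x y)
    (t : V → ℤ) : WW (AA β U w) t ≤ WW (AA β U w) 0 := by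
  have hAdm : Adm (AA β U w) := AA_adm hβ hw
  have hB : Bdd (AA β U w) := AA_bdd hβ hU hw
  have hs : ∀ t : V → ℤ, Summable fun m : V → ℤ => EI (AA β U w) (m + t) m := by
    intro t
    have h := (lim_w hβ hU hw t (fun _ _ => 1) (fun _ => 1) 1 (fun R m => by
      have := nsq_nonneg m
      rw [abs_one]; linarith) (fun m _ => Eventually.of_forall fun _ => rfl)).1
    simpa only [one_mul] using h
  have h0 : Summable fun m : V → ℤ => EI (AA β U w) m m := by simpa using hs 0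
  have h1 : Summable fun m : V → ℤ => EI (AA β U w) (m + t) (m + t) :=
    (Equiv.addRight t).summable_iff.2 h0
  have h2 : ∑' m : V → ℤ, EI (AA β U w) (m + t) (m + t) = ∑' m : V → ℤ, EI (AA β U w) m m :=
    (Equiv.addRight t).tsum_eq (fun m => EI (AA β U w) m m)
  unfold WW
  calc ∑' m : V → ℤ, EI (AA β U w) (m + t) m
      ≤ ∑' m : V → ℤ, (EI (AA β U w) (m + t) (m + t) + EI (AA β U w) m m) / 2 :=
        (hs t).tsum_le_tsum (fun m => EI_le hAdm hB _ _) ((h1.add h0).div_const 2)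
    _ = (∑' m : V → ℤ, EI (AA β U w) (m + t) (m + t) + ∑' m : V → ℤ, EI (AA β U w) m m) / 2 := by
        rw [tsum_div_const, h1.tsum_add h0]
    _ = ∑' m : V → ℤ, EI (AA β U w) (m + 0) m := by
        rw [h2]; simp

end Pool.Agent.H993.LY
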