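import Mathlib
import Pool.Agent.H993.LY.Base

/-!
# Definitions for the assembly
-/

namespace Pool.Agent.H993.LY

open Filter Topology NormedSpace Matrix
open Pool.Agent.H993.TR
open Pool.Agent.N157.QR_FOU (BB)
open Pool.Agent.N657.QR (ee nnw lam)

/-- The fraction of the particles outside of the condensate, in the sector of charge zero. -/
noncomputable def depl {V : Type} [Fintype V] [DecidableEq V]
    (A : (V → ℤ) → (V → ℤ) → ℝ) : ℝ :=
  1 - (∑ x, ∑ y, WW A (eta x y)) / ((Fintype.card V : ℝ) ^ 2 * WW A 0)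

/-- The fluctuations in one Fourier mode. -/
noncomputable def TT {d L : ℕ} [NeZero L]
    (A : ((Fin d → ZMod L) → ℤ) → ((Fin d → ZMod L) → ℤ) → ℝ) (k : Fin d → ZMod L) : ℝ :=
  BB (fun x y => WW A (eta x y)) (Pool.Agent.N157.QR_FOU.cc k) +
    BB (fun x y => WW A (eta x y)) (Pool.Agent.N157.QR_FOU.ss k)

/-- Nearest neighbour hopping plus a mean field term. -/
noncomputable def wgm {d L : ℕ} [NeZero L] (J γ : ℝ) (x y : Fin d → ZMod L) : ℝ :=
  nnw J x y + γ / (Fintype.card (Fin d → ZMod L) : ℝ)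

/-- Bogoliubov's value of the depletion. -/
noncomputable def bog (d L : ℕ) [NeZero L] (U J β : ℝ) : ℝ :=
  (∑ k ∈ (Finset.univ : Finset (Fin d → ZMod L)).erase 0, sB U J β (lam k)) /
    (Fintype.card (Fin d → ZMod L) : ℝ)

end Pool.Agent.H993.LY
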