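import Mathlib
import Pool.Agent.H993.LY.Base

/-!
# Positive definiteness of the state on the shifts (tasks 11a, 11b, 11c of the project LY)
-/

namespace Pool.Agent.H993.LY.P11

open Filter Topology NormedSpace Matrix MeasureTheory
open Pool.Agent.H993.TR
open Pool.Agent.H993.LY

variable {V : Type} [Fintype V] [DecidableEq V]

lemma trace_nonneg_sq {n : Type} [Fintype n] [DecidableEq n] (G X : Matrix n n ℝ) (hG : Gᵀ = G) :
    0 ≤ (X * Xᵀ * exp G).trace := by
  have hE : exp G = exp ((1 / 2 : ℝ) • G) * exp ((1 / 2 : ℝ) • G) := by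
    rw [← Matrix.exp_add_of_commute _ _ (Commute.refl _), ← add_smul]
    norm_num
  have hEt : (exp ((1 / 2 : ℝ) • G))ᵀ = exp ((1 / 2 : ℝ) • G) := by
    rw [← Matrix.exp_transpose, Matrix.transpose_smul, hG]
  set E := exp ((1 / 2 : ℝ) • G) with hEdef
  have h1 : (X * Xᵀ * exp G).trace = ((E * X) * (E * X)ᵀ).trace := by
    rw [Matrix.transpose_mul, hEt, hE, ← Matrix.mul_assoc (X * Xᵀ) E E, Matrix.trace_mul_comm]
    simp only [Matrix.mul_assoc]
  rw [h1, Matrix.trace]
  refine Finset.sum_nonneg fun i _ => ?_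
  rw [Matrix.diag_apply, Matrix.mul_apply]
  exact Finset.sum_nonneg fun j _ => by
    rw [Matrix.transpose_apply]
    exact mul_self_nonneg _

/-- TASK 11a. `WW` is a positive definite function of the neutral shifts. -/
theorem task_psd {β U : ℝ} (hβ : 0 < β) (hU : 0 < U) {w : V → V → ℝ} (hw : ∀ x y, 0 ≤ w x y)
    {ι : Type} [Fintype ι] (c : ι → ℝ) (s : ι → V → ℤ) (hs : ∀ i, ∑ x, s i x = 0) :
    0 ≤ ∑ i, ∑ j, c i * c j * WW (AA β U w) (s i - s j) := by
  classical
  have hA : Adm (AA β U w) := AA_adm hβ hw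
  -- the trace in a region
  have htr : ∀ R : Finset (Sec V 0), 0 ≤ ∑ i, ∑ j, c i * c j *
      ∑ m ∈ nR R, (if m + -s j ∈ nR R then (1 : ℝ) else 0) *
        EE (AA β U w) (nR R) (m + (s i - s j)) m := by
    intro R
    set X : Matrix (nR R) (nR R) ℝ := ∑ i, c i • tw (nR R) (fun _ => 1) (s i) with hX
    have h0 := trace_nonneg_sq (mt (AA β U w) (nR R)) X (mt_symm hA _)
    refine le_trans h0 (le_of_eq ?_)
    have hXt : Xᵀ = ∑ j, c j • tw (nR R) (fun _ => 1) (-s j) := by
      rw [hX, Matrix.transpose_sum]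
      refine Finset.sum_congr rfl fun j _ => ?_
      rw [Matrix.transpose_smul, tw_transpose]
    rw [hXt, hX, Finset.sum_mul, Finset.sum_mul, Matrix.trace_sum]
    refine Finset.sum_congr rfl fun i _ => ?_
    rw [Finset.mul_sum, Finset.sum_mul, Matrix.trace_sum]
    refine Finset.sum_congr rfl fun j _ => ?_
    rw [Matrix.smul_mul, Matrix.mul_smul, Matrix.smul_mul, Matrix.smul_mul, Matrix.trace_smul,
      Matrix.trace_smul, tw_mul, trace_tw, smul_eq_mul, smul_eq_mul, ← mul_assoc]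
    congr 1
    refine Finset.sum_congr rfl fun m _ => ?_
    rw [mul_one, EE_symm hA]
    congr 2
    abel
  -- the limit
  have hlim : Tendsto (fun R : Finset (Sec V 0) => ∑ i, ∑ j, c i * c j *
      ∑ m ∈ nR R, (if m + -s j ∈ nR R then (1 : ℝ) else 0) *
        EE (AA β U w) (nR R) (m + (s i - s j)) m) atTop
      (𝓝 (∑ i, ∑ j, c i * c j * WW (AA β U w) (s i - s j))) := by
    refine tendsto_finsetSum _ fun i _ => tendsto_finsetSum _ fun j _ => ?_
    refine Tendsto.const_mul _ ?_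
    have h := (lim_w hβ hU hw (s i - s j)
      (fun R m => if m + -s j ∈ nR R then (1 : ℝ) else 0) (fun _ => 1) 1 ?_ ?_).2
    · simpa only [one_mul, WW] using h
    · intro R m
      have hn : 0 ≤ nsq m := Finset.sum_nonneg fun x _ => sq_nonneg _
      split_ifs
      · rw [abs_one]; linarith
      · rw [abs_zero]; linarith
    · intro m hm
      have hm' : ∑ x, (m + -s j) x = 0 := by
        simp only [Pi.add_apply, Pi.neg_apply, Finset.sum_add_distrib, Finset.sum_neg_distrib, hm,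
          hs j]
        norm_num
      filter_upwards [eventually_mem_nR _ hm'] with R hR
      rw [if_pos hR]
  exact ge_of_tendsto' hlim htr

/-- The quadratic form of the two functions `1 - cos u`, `1 - cos v`. -/
theorem quad {β U : ℝ} (hβ : 0 < β) (hU : 0 < U) {w : V → V → ℝ} (hw : ∀ x y, 0 ≤ w x y)
    (u v : V → ℤ) (hu : ∑ x, u x = 0) (hv : ∑ x, v x = 0) (a b : ℝ) :
    0 ≤ a ^ 2 * (3 / 2 * WW (AA β U w) 0 - 2 * WW (AA β U w) u + WW (AA β U w) (2 • u) / 2) +
      2 * a * b * (WW (AA β U w) 0 - WW (AA β U w) u - WW (AA β U w) v +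
        (WW (AA β U w) (u + v) + WW (AA β U w) (u - v)) / 2) +
      b ^ 2 * (3 / 2 * WW (AA β U w) 0 - 2 * WW (AA β U w) v + WW (AA β U w) (2 • v) / 2) := by
  have h := task_psd hβ hU hw (ι := Fin 5) ![a + b, -a / 2, -a / 2, -b / 2, -b / 2]
    ![0, u, -u, v, -v] (by
      intro i
      fin_cases i
      · simp
      · simpa using hu
      · simpa using hu
      · simpa using hv
      · simpa using hv)
  set W := WW (AA β U w) with hW
  have hneg : ∀ t, W (-t) = W t := fun t => WW_neg hβ hw t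
  have e1 : W (u - -u) = W (2 • u) := by congr 1; rw [two_nsmul]; abel
  have e2 : W (-u - u) = W (2 • u) := by rw [← hneg (2 • u)]; congr 1; rw [two_nsmul]; abel
  have e3 : W (v - -v) = W (2 • v) := by congr 1; rw [two_nsmul]; abel
  have e4 : W (-v - v) = W (2 • v) := by rw [← hneg (2 • v)]; congr 1; rw [two_nsmul]; abel
  have e5 : W (u - -v) = W (u + v) := by congr 1; abel
  have e6 : W (-u - v) = W (u + v) := by rw [← hneg (u + v)]; congr 1; abel
  have e7 : W (-u - -v) = W (u - v) := by rw [← hneg (u - v)]; congr 1; abel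
  have e8 : W (v - u) = W (u - v) := by rw [← hneg (u - v)]; congr 1; abel
  have e9 : W (v - -u) = W (u + v) := by congr 1; abel
  have e10 : W (-v - u) = W (u + v) := by rw [← hneg (u + v)]; congr 1; abel
  have e11 : W (-v - -u) = W (u - v) := by congr 1; abel
  refine le_trans h (le_of_eq ?_)
  simp only [Fin.sum_univ_five]
  simp only [Matrix.cons_val_zero, Matrix.cons_val_one, Matrix.cons_val_two, Matrix.cons_val_three,
    Matrix.cons_val_four, Matrix.head_cons, Matrix.tail_cons]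
  simp only [sub_self, sub_zero, zero_sub, hneg, neg_neg, e1, e2, e3, e4, e5, e6, e7, e8, e9, e10,
    e11]
  ring

/-- TASK 11b. Cauchy-Schwarz for `1 - cos u` and `1 - cos v` in the state. -/
theorem task_cs2 {β U : ℝ} (hβ : 0 < β) (hU : 0 < U) {w : V → V → ℝ} (hw : ∀ x y, 0 ≤ w x y)
    (u v : V → ℤ) (hu : ∑ x, u x = 0) (hv : ∑ x, v x = 0) :
    (WW (AA β U w) 0 - WW (AA β U w) u - WW (AA β U w) v +
        (WW (AA β U w) (u + v) + WW (AA β U w) (u - v)) / 2) ^ 2 ≤
      (3 / 2 * WW (AA β U w) 0 - 2 * WW (AA β U w) u + WW (AA β U w) (2 • u) / 2) *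
      (3 / 2 * WW (AA β U w) 0 - 2 * WW (AA β U w) v + WW (AA β U w) (2 • v) / 2) := by
  have h : ∀ x : ℝ, 0 ≤
      (3 / 2 * WW (AA β U w) 0 - 2 * WW (AA β U w) u + WW (AA β U w) (2 • u) / 2) * (x * x) +
      (2 * (WW (AA β U w) 0 - WW (AA β U w) u - WW (AA β U w) v +
        (WW (AA β U w) (u + v) + WW (AA β U w) (u - v)) / 2)) * x +
      (3 / 2 * WW (AA β U w) 0 - 2 * WW (AA β U w) v + WW (AA β U w) (2 • v) / 2) := by
    intro x
    refine le_trans (quad hβ hU hw u v hu hv x 1) (le_of_eq ?_)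
    ring
  have hd := discrim_le_zero h
  rw [discrim] at hd
  nlinarith [hd]

/-- TASK 11c. `⟨(1 - cos u)²⟩ ≥ 0`, as `0 ≤ 3/2 - 2 ⟨cos u⟩ + ⟨cos 2u⟩ / 2`. -/
theorem task_sq_nonneg {β U : ℝ} (hβ : 0 < β) (hU : 0 < U) {w : V → V → ℝ}
    (hw : ∀ x y, 0 ≤ w x y) (u : V → ℤ) (hu : ∑ x, u x = 0) :
    0 ≤ 3 / 2 * WW (AA β U w) 0 - 2 * WW (AA β U w) u + WW (AA β U w) (2 • u) / 2 := by
  refine le_trans (quad hβ hU hw u u hu hu 1 0) (le_of_eq ?_)
  ring

end Pool.Agent.H993.LY.P11
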