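import Mathlib
import Pool.Agent.H993.TR.Lim
import Pool.Agent.H993.TR.Duh

/-!
# Second differences of `trace (exp (G + s C))`
-/

set_option autoImplicit false

namespace Pool.Agent.H993.LY.P2

open Filter Topology NormedSpace Matrix MeasureTheory Pool.Agent.H993.TR

/-! ### the classes of functions -/

/-- exponential sums with nonnegative coefficients -/
inductive ClE : (ℝ → ℝ) → Prop
  | exp (w x : ℝ) (hw : 0 ≤ w) : ClE (fun s => w * Real.exp (x * s))
  | add (f g : ℝ → ℝ) (hf : ClE f) (hg : ClE g) : ClE (fun s => f s + g s)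

/-- polynomials in `s₀ + s` with nonnegative coefficients -/
inductive ClP (s₀ : ℝ) : (ℝ → ℝ) → Prop
  | pow (w : ℝ) (k : ℕ) (hw : 0 ≤ w) : ClP s₀ (fun s => w * (s₀ + s) ^ k)
  | add (f g : ℝ → ℝ) (hf : ClP s₀ f) (hg : ClP s₀ g) : ClP s₀ (fun s => f s + g s)

lemma ClE.const (c : ℝ) (hc : 0 ≤ c) : ClE (fun _ => c) := by
  have := ClE.exp c 0 hc
  simpa using this

lemma ClP.const (s₀ c : ℝ) (hc : 0 ≤ c) : ClP s₀ (fun _ => c) := by
  have := ClP.pow (s₀ := s₀) c 0 hc
  simpa using this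

lemma ClE.mul {f g : ℝ → ℝ} (hf : ClE f) (hg : ClE g) : ClE (fun s => f s * g s) := by
  induction hf with
  | exp w x hw =>
    induction hg with
    | exp w' x' hw' =>
      have h := ClE.exp (w * w') (x + x') (mul_nonneg hw hw')
      convert h using 2 with s
      rw [add_mul, Real.exp_add]; ring
    | add g1 g2 _ _ ih1 ih2 =>
      have h := ClE.add _ _ ih1 ih2
      convert h using 2 with s
      ring
  | add f1 f2 _ _ ih1 ih2 =>
    have h := ClE.add _ _ ih1 ih2
    convert h using 2 with s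
    ring

lemma ClP.mul {s₀ : ℝ} {f g : ℝ → ℝ} (hf : ClP s₀ f) (hg : ClP s₀ g) : ClP s₀ (fun s => f s * g s) := by
  induction hf with
  | pow w k hw =>
    induction hg with
    | pow w' k' hw' =>
      have h := ClP.pow (s₀ := s₀) (w * w') (k + k') (mul_nonneg hw hw')
      convert h using 2 with s
      rw [pow_add]; ring
    | add g1 g2 _ _ ih1 ih2 =>
      have h := ClP.add _ _ ih1 ih2
      convert h using 2 with s
      ring
  | add f1 f2 _ _ ih1 ih2 =>
    have h := ClP.add _ _ ih1 ih2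
    convert h using 2 with s
    ring

lemma cl_sum {Cl : (ℝ → ℝ) → Prop} (h0 : Cl (fun _ => 0))
    (hadd : ∀ f g, Cl f → Cl g → Cl (fun s => f s + g s)) {ι : Type} (S : Finset ι) (f : ι → ℝ → ℝ)
    (hf : ∀ i ∈ S, Cl (f i)) : Cl (fun s => ∑ i ∈ S, f i s) := by
  classical
  induction S using Finset.induction_on with
  | empty => simpa using h0
  | insert a S ha ih =>
    have h1 := hadd _ _ (hf a (Finset.mem_insert_self a S))
      (ih fun i hi => hf i (Finset.mem_insert_of_mem hi))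
    convert h1 using 2 with s
    rw [Finset.sum_insert ha]

lemma cl_pow_entries {Cl : (ℝ → ℝ) → Prop} (h0 : Cl (fun _ => 0)) (h1 : Cl (fun _ => 1))
    (hadd : ∀ f g, Cl f → Cl g → Cl (fun s => f s + g s))
    (hmul : ∀ f g, Cl f → Cl g → Cl (fun s => f s * g s))
    {n : Type} [Fintype n] [DecidableEq n] (X : ℝ → Matrix n n ℝ)
    (hX : ∀ i j, Cl (fun s => X s i j)) (k : ℕ) : ∀ i j, Cl (fun s => (X s ^ k) i j) := by
  induction k with
  | zero =>
    intro i j
    by_cases hij : i = j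
    · subst hij; simpa using h1
    · simpa [Matrix.one_apply_ne hij] using h0
  | succ k ih =>
    intro i j
    have : (fun s => (X s ^ (k + 1)) i j) = fun s => ∑ l, (X s ^ k) i l * X s l j := by
      ext s
      rw [pow_succ, Matrix.mul_apply]
    rw [this]
    exact cl_sum h0 hadd _ _ fun l _ => hmul _ _ (ih i l) (hX l j)

lemma cl_trace {Cl : (ℝ → ℝ) → Prop} (h0 : Cl (fun _ => 0)) (h1 : Cl (fun _ => 1))
    (hadd : ∀ f g, Cl f → Cl g → Cl (fun s => f s + g s))
    (hmul : ∀ f g, Cl f → Cl g → Cl (fun s => f s * g s))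
    {n : Type} [Fintype n] [DecidableEq n] (X : ℝ → Matrix n n ℝ)
    (hX : ∀ i j, Cl (fun s => X s i j)) (k : ℕ) : Cl (fun s => (X s ^ k).trace) := by
  have : (fun s => (X s ^ k).trace) = fun s => ∑ i, (X s ^ k) i i := by
    ext s; rfl
  rw [this]
  exact cl_sum h0 hadd _ _ fun i _ => cl_pow_entries h0 h1 hadd hmul X hX k i i

/-! ### the second difference quotient -/

/-- the second difference quotient increases -/
def QI (f : ℝ → ℝ) (r s : ℝ) : Prop := (f r + f (-r) - 2 * f 0) * s ^ 2 ≤ (f s + f (-s) - 2 * f 0) * r ^ 2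

lemma QI.add {f g : ℝ → ℝ} {r s : ℝ} (hf : QI f r s) (hg : QI g r s) : QI (fun s => f s + g s) r s := by
  unfold QI at *
  nlinarith

/-- termwise comparison -/
lemma term_le (r s : ℝ) (hr : 0 < r) (hrs : r ≤ s) (j : ℕ) :
    (r ^ (j + 1) + (-r) ^ (j + 1)) * s ^ 2 ≤ (s ^ (j + 1) + (-s) ^ (j + 1)) * r ^ 2 := by
  have hs : 0 < s := hr.trans_le hrs
  rcases Nat.even_or_odd (j + 1) with h | h
  · rw [h.neg_pow, h.neg_pow]
    obtain ⟨i, hi⟩ := h
    have hi1 : 1 ≤ i := by omega
    obtain ⟨m, rfl⟩ : ∃ m, i = m + 1 := ⟨i - 1, by omega⟩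
    have e : j + 1 = 2 * m + 2 := by omega
    rw [e, pow_add r, pow_add s]
    have h1 : r ^ (2 * m) ≤ s ^ (2 * m) := pow_le_pow_left₀ hr.le hrs _
    have h2 : 0 ≤ r ^ 2 * s ^ 2 := by positivity
    nlinarith [mul_le_mul_of_nonneg_left h1 h2]
  · rw [h.neg_pow, h.neg_pow]
    simp

lemma QI_exp (w x r s : ℝ) (hw : 0 ≤ w) (hr : 0 < r) (hrs : r ≤ s) :
    QI (fun s => w * Real.exp (x * s)) r s := by
  have hs : 0 < s := hr.trans_le hrs
  have key : ∀ t : ℝ, HasSum (fun j : ℕ => |x| ^ (j + 1) * (t ^ (j + 1) + (-t) ^ (j + 1)) / (j + 1).factorial)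
      (Real.exp (|x| * t) + Real.exp (-(|x| * t)) - 2) := by
    intro t
    have h1 : ∀ y : ℝ, HasSum (fun j : ℕ => y ^ (j + 1) / (j + 1).factorial) (Real.exp y - 1) := by
      intro y
      have h2 : HasSum (fun j : ℕ => y ^ j / j.factorial) (Real.exp y) := by
        rw [Real.exp_eq_exp_ℝ]
        exact NormedSpace.expSeries_div_hasSum_exp y
      have h3 := (hasSum_nat_add_iff' 1).2 h2
      simpa using h3
    have h4 := (h1 (|x| * t)).add (h1 (-(|x| * t)))
    convert h4 using 1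
    · ext j
      rw [show -(|x| * t) = |x| * (-t) by ring, mul_pow, mul_pow]
      ring
    · ring
  have hkr := (key r).mul_right (s ^ 2)
  have hks := (key s).mul_right (r ^ 2)
  have hle := hasSum_le (fun j => by
    have h1 := term_le r s hr hrs j
    have h2 : 0 ≤ |x| ^ (j + 1) / ((j + 1).factorial : ℝ) := by positivity
    calc |x| ^ (j + 1) * (r ^ (j + 1) + (-r) ^ (j + 1)) / ((j + 1).factorial : ℝ) * s ^ 2
        = |x| ^ (j + 1) / ((j + 1).factorial : ℝ) * ((r ^ (j + 1) + (-r) ^ (j + 1)) * s ^ 2) := by ring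
      _ ≤ |x| ^ (j + 1) / ((j + 1).factorial : ℝ) * ((s ^ (j + 1) + (-s) ^ (j + 1)) * r ^ 2) :=
          mul_le_mul_of_nonneg_left h1 h2
      _ = |x| ^ (j + 1) * (s ^ (j + 1) + (-s) ^ (j + 1)) / ((j + 1).factorial : ℝ) * r ^ 2 := by ring)
    hkr hks
  have habs : ∀ t : ℝ, Real.exp (x * t) + Real.exp (x * (-t)) = Real.exp (|x| * t) + Real.exp (-(|x| * t)) := by
    intro t
    rcases le_total 0 x with h | h
    · rw [abs_of_nonneg h, mul_neg]
    · rw [abs_of_nonpos h]
      rw [show -x * t = x * (-t) by ring, show -(x * (-t)) = x * t by ring, add_comm]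
  unfold QI
  simp only [mul_zero, Real.exp_zero, mul_one]
  have e1 := habs r
  have e2 := habs s
  have e3 : w * Real.exp (x * r) + w * Real.exp (x * (-r)) - 2 * w =
      w * (Real.exp (|x| * r) + Real.exp (-(|x| * r)) - 2) := by rw [← e1]; ring
  have e4 : w * Real.exp (x * s) + w * Real.exp (x * (-s)) - 2 * w =
      w * (Real.exp (|x| * s) + Real.exp (-(|x| * s)) - 2) := by rw [← e2]; ring
  rw [e3, e4, mul_assoc, mul_assoc]
  exact mul_le_mul_of_nonneg_left hle hw

lemma QI_E {f : ℝ → ℝ} (hf : ClE f) {r s : ℝ} (hr : 0 < r) (hrs : r ≤ s) : QI f r s := by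
  induction hf with
  | exp w x hw => exact QI_exp w x r s hw hr hrs
  | add f g _ _ ih1 ih2 => exact ih1.add ih2

lemma QI_pow (s₀ w : ℝ) (k : ℕ) (r s : ℝ) (hs0 : 0 ≤ s₀) (hw : 0 ≤ w) (hr : 0 < r) (hrs : r ≤ s) :
    QI (fun s => w * (s₀ + s) ^ k) r s := by
  have hs : 0 < s := hr.trans_le hrs
  have key : ∀ t : ℝ, (s₀ + t) ^ k + (s₀ + -t) ^ k - 2 * s₀ ^ k =
      ∑ j ∈ Finset.range k, (t ^ (j + 1) + (-t) ^ (j + 1)) * (s₀ ^ (k - (j + 1)) * (k.choose (j + 1) : ℝ)) := by
    intro t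
    rw [add_comm s₀ t, add_comm s₀ (-t), add_pow, add_pow, Finset.sum_range_succ', Finset.sum_range_succ']
    simp only [pow_zero, Nat.sub_zero, one_mul, Nat.choose_zero_right, Nat.cast_one, mul_one]
    rw [Finset.sum_congr rfl (fun j _ => add_mul _ _ _), Finset.sum_add_distrib]
    simp only [mul_assoc]
    ring
  unfold QI
  simp only [add_zero]
  have e : ∀ t : ℝ, w * (s₀ + t) ^ k + w * (s₀ + -t) ^ k - 2 * (w * s₀ ^ k) =
      w * ((s₀ + t) ^ k + (s₀ + -t) ^ k - 2 * s₀ ^ k) := by intro t; ring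
  rw [e, e, key r, key s, mul_assoc, mul_assoc, Finset.sum_mul, Finset.sum_mul]
  apply mul_le_mul_of_nonneg_left _ hw
  refine Finset.sum_le_sum fun j _ => ?_
  have h1 := term_le r s hr hrs j
  have h2 : 0 ≤ s₀ ^ (k - (j + 1)) * (k.choose (j + 1) : ℝ) := by positivity
  nlinarith [mul_le_mul_of_nonneg_left h1 h2]

lemma QI_P {s₀ : ℝ} (hs0 : 0 ≤ s₀) {f : ℝ → ℝ} (hf : ClP s₀ f) {r s : ℝ} (hr : 0 < r) (hrs : r ≤ s) :
    QI f r s := by
  induction hf with
  | pow w k hw => exact QI_pow s₀ w k r s hs0 hw hr hrs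
  | add f g _ _ ih1 ih2 => exact ih1.add ih2

lemma QI_lim {f : ℕ → ℝ → ℝ} {g : ℝ → ℝ} {r s : ℝ} (h : ∀ t, Tendsto (fun k => f k t) atTop (𝓝 (g t)))
    (hf : ∀ᶠ k in atTop, QI (f k) r s) : QI g r s := by
  unfold QI at *
  exact le_of_tendsto_of_tendsto
    ((((h r).add (h (-r))).sub ((h 0).const_mul 2)).mul_const _)
    ((((h s).add (h (-s))).sub ((h 0).const_mul 2)).mul_const _) hf

/-! ### the derivative at zero -/

variable {n : Type} [Fintype n] [DecidableEq n]

theorem duh_quot (G C : Matrix n n ℝ) (hG : Gᵀ = G) (hC : Cᵀ = C) (κ r₀ : ℝ) (hr₀ : 0 < r₀)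
    (h : ∀ r : ℝ, 0 < r → r ≤ r₀ →
      (exp (G + r • C)).trace + (exp (G - r • C)).trace - 2 * (exp G).trace ≤ κ * r ^ 2) :
    duh G C 0 ≤ κ := by
  set φ0 := (exp G).trace with hφ0
  have hψ : ∀ t, (C * exp (G + t • C)).trace = (C * exp G).trace + t * duh G C t := by
    intro t
    have := duhamel_trace G C t
    unfold duh
    linarith
  have hk : ∀ k : ℕ, ((k:ℝ) * (k - 1)) * duh G C 0 ≤ k ^ 2 * κ := by
    intro k
    rcases Nat.eq_zero_or_pos k with hk0 | hk0
    · subst hk0; simp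
    have hkR : (0 : ℝ) < k := by exact_mod_cast hk0
    have hs : ∀ s : ℝ, 0 < s → s ≤ r₀ / k → ∑ j ∈ Finset.range k, (j:ℝ) * (duh G C (j * s) + duh G C (-(j * s)))
        ≤ k ^ 2 * κ := by
      intro s hs0 hsr
      have h1 := phi_lower G C hG hC s k
      have h2 := phi_lower G C hG hC (-s) k
      simp only [hψ] at h1 h2
      have hks : (k : ℝ) * s ≤ r₀ := by
        rw [le_div_iff₀ hkR] at hsr; linarith
      have h3 := h (k * s) (by positivity) hks
      have e0 : G + ((k : ℝ) * (-s)) • C = G - ((k : ℝ) * s) • C := by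
        rw [mul_neg, neg_smul, sub_eq_add_neg]
      rw [e0] at h2
      have h5 : s ^ 2 * ∑ j ∈ Finset.range k, (j:ℝ) * (duh G C (j * s) + duh G C (-(j * s))) =
          (∑ j ∈ Finset.range k, s * ((C * exp G).trace + j * s * duh G C (j * s))) +
          ∑ j ∈ Finset.range k, (-s) * ((C * exp G).trace + j * (-s) * duh G C (j * (-s))) := by
        rw [← Finset.sum_add_distrib, Finset.mul_sum]
        refine Finset.sum_congr rfl fun j _ => ?_
        have : (j:ℝ) * (-s) = -(j * s) := by ring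
        rw [this]
        ring
      have hs2 : 0 < s ^ 2 := by positivity
      have h6 : s ^ 2 * ∑ j ∈ Finset.range k, (j:ℝ) * (duh G C (j * s) + duh G C (-(j * s))) ≤
          s ^ 2 * (k ^ 2 * κ) := by
        rw [h5]
        nlinarith
      exact le_of_mul_le_mul_left h6 hs2
    have hlim2 : Tendsto (fun s : ℝ => ∑ j ∈ Finset.range k, (j:ℝ) * (duh G C (j * s) +
        duh G C (-(j * s)))) (𝓝[>] 0) (𝓝 (∑ j ∈ Finset.range k, (j:ℝ) * (duh G C 0 + duh G C 0))) := by
      have hc : Continuous fun s : ℝ => ∑ j ∈ Finset.range k, (j:ℝ) * (duh G C (j * s) +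
        duh G C (-(j * s))) := by
        refine continuous_finsetSum _ fun j _ => continuous_const.mul ?_
        exact ((duh_continuous G C).comp (by fun_prop)).add ((duh_continuous G C).comp (by fun_prop))
      have := hc.tendsto 0
      simp only [mul_zero, neg_zero] at this
      exact this.mono_left nhdsWithin_le_nhds
    have hle := le_of_tendsto hlim2 (by
      have : Set.Ioc (0 : ℝ) (r₀ / k) ∈ 𝓝[>] (0 : ℝ) := Ioc_mem_nhdsGT (by positivity)
      filter_upwards [this] with s hs' using hs s hs'.1 hs'.2)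
    have hsum : ∑ j ∈ Finset.range k, (j:ℝ) * (duh G C 0 + duh G C 0) =
        ((k:ℝ) * (k - 1)) * duh G C 0 := by
      rw [← Finset.sum_mul]
      rw [gauss_sum k]; ring
    rw [hsum] at hle
    linarith
  have hlim : Tendsto (fun k : ℕ => (1 - (k:ℝ)⁻¹) * duh G C 0) atTop (𝓝 ((1 - 0) * duh G C 0)) :=
    (tendsto_inv_atTop_nhds_zero_nat.const_sub 1).mul_const _
  rw [sub_zero, one_mul] at hlim
  refine le_of_tendsto hlim ?_
  filter_upwards [eventually_gt_atTop 0] with k hk0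
  have hk' : (0:ℝ) < k := by exact_mod_cast hk0
  have h1 := hk k
  have h2 : (1 - (k:ℝ)⁻¹) * duh G C 0 = ((k:ℝ) * (k - 1)) * duh G C 0 / k ^ 2 := by
    field_simp
  rw [h2, div_le_iff₀ (by positivity)]
  linarith

theorem duh_zero_eq (G C : Matrix n n ℝ) : duh G C 0 =
    ∫ u in (0:ℝ)..1, (C * exp ((1 - u) • G) * C * exp (u • G)).trace := by
  unfold duh duI
  simp

theorem main_of_QI (G C : Matrix n n ℝ) (hG : Gᵀ = G) (hC : Cᵀ = C) (s : ℝ) (hs : 0 < s)
    (h : ∀ r : ℝ, 0 < r → r ≤ s → QI (fun t => (exp (G + t • C)).trace) r s) :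
    s ^ 2 * ∫ u in (0:ℝ)..1, (C * exp ((1 - u) • G) * C * exp (u • G)).trace ≤
      (exp (G + s • C)).trace + (exp (G - s • C)).trace - 2 * (exp G).trace := by
  rw [← duh_zero_eq]
  have hs2 : 0 < s ^ 2 := by positivity
  set A := (exp (G + s • C)).trace + (exp (G - s • C)).trace - 2 * (exp G).trace with hA
  have hd := duh_quot G C hG hC (A / s ^ 2) s hs (by
    intro r hr hrs
    have h1 := h r hr hrs
    unfold QI at h1
    simp only [zero_smul, add_zero, neg_smul, ← sub_eq_add_neg] at h1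
    rw [div_mul_eq_mul_div, le_div_iff₀ hs2]
    exact h1)
  rw [le_div_iff₀ hs2] at hd
  linarith

theorem task_qm_pos (G C : Matrix n n ℝ)
    (hG : Gᵀ = G) (hC : Cᵀ = C) (hC0 : ∀ i j, 0 ≤ C i j) (s₀ : ℝ)
    (hoff : ∀ i j, i ≠ j → 0 ≤ G i j - s₀ * C i j) (s : ℝ) (hs : 0 < s) (hs0 : s ≤ s₀) :
    s ^ 2 * ∫ u in (0:ℝ)..1, (C * exp ((1 - u) • G) * C * exp (u • G)).trace ≤
      (exp (G + s • C)).trace + (exp (G - s • C)).trace - 2 * (exp G).trace := by
  have hs00 : 0 ≤ s₀ := hs.le.trans hs0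
  apply main_of_QI G C hG hC s hs
  intro r hr hrs
  -- approximants
  set X : ℕ → ℝ → Matrix n n ℝ := fun k t => 1 + (k : ℝ)⁻¹ • (G + t • C) with hX
  have hlim : ∀ t, Tendsto (fun k => (X k t ^ k).trace) atTop (𝓝 ((exp (G + t • C)).trace)) := by
    intro t
    have h1 : Tendsto (fun k => X k t ^ k) atTop (𝓝 (exp (G + t • C))) := by
      apply mat_tendsto_pow_exp (fun k => X k t)
      refine tendsto_const_nhds.congr' ?_
      filter_upwards [eventually_gt_atTop 0] with k hk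
      have hk' : (k : ℝ) ≠ 0 := by positivity
      simp only [hX, add_sub_cancel_left, smul_smul, mul_inv_cancel₀ hk', one_smul]
    exact (continuous_id.matrix_trace.tendsto _).comp h1
  refine QI_lim (f := fun k t => (X k t ^ k).trace) hlim ?_
  -- nonnegative diagonal
  have hdiag : ∀ᶠ k : ℕ in atTop, ∀ i, 0 ≤ 1 + (k : ℝ)⁻¹ * (G i i - s₀ * C i i) := by
    rw [eventually_all]
    intro i
    have h1 : Tendsto (fun k : ℕ => 1 + (k : ℝ)⁻¹ * (G i i - s₀ * C i i)) atTop (𝓝 (1 + 0 * (G i i - s₀ * C i i))) :=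
      (tendsto_inv_atTop_nhds_zero_nat.mul_const _).const_add 1
    rw [zero_mul, add_zero] at h1
    exact (h1.eventually (lt_mem_nhds one_pos)).mono fun k hk => hk.le
  filter_upwards [hdiag] with k hk
  apply QI_P hs00 _ hr hrs
  apply cl_trace (Cl := ClP s₀) (ClP.const s₀ 0 le_rfl) (ClP.const s₀ 1 zero_le_one) ClP.add
    (fun f g hf hg => hf.mul hg) (X k)
  intro i j
  have hkinv : 0 ≤ (k : ℝ)⁻¹ := by positivity
  have e : (fun t => X k t i j) = fun t => ((1 : Matrix n n ℝ) i j + (k : ℝ)⁻¹ * (G i j - s₀ * C i j)) +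
      ((k : ℝ)⁻¹ * C i j) * (s₀ + t) ^ 1 := by
    ext t
    simp only [hX, Matrix.add_apply, Matrix.smul_apply, smul_eq_mul, pow_one]
    ring
  rw [e]
  refine ClP.add _ _ (ClP.const s₀ _ ?_) (ClP.pow _ 1 (mul_nonneg hkinv (hC0 i j)))
  by_cases hij : i = j
  · subst hij
    rw [Matrix.one_apply_eq]
    exact hk i
  · rw [Matrix.one_apply_ne hij, zero_add]
    exact mul_nonneg hkinv (hoff i j hij)

lemma tendsto_mul_exp_sub (a : ℝ) :
    Tendsto (fun k : ℕ => (k : ℝ) * (Real.exp (a / k) - 1)) atTop (𝓝 a) := by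
  have h1 : HasDerivAt (fun t : ℝ => Real.exp (t * a)) a 0 := by
    have := ((hasDerivAt_id (0:ℝ)).mul_const a).exp
    simpa using this
  have h2 := h1.tendsto_slope_zero_right
  have h3 : Tendsto (fun k : ℕ => ((k : ℝ))⁻¹) atTop (𝓝[>] 0) := by
    refine tendsto_nhdsWithin_iff.2 ⟨tendsto_inv_atTop_nhds_zero_nat, ?_⟩
    filter_upwards [eventually_gt_atTop 0] with k hk
    have : (0:ℝ) < k := by exact_mod_cast hk
    exact Set.mem_Ioi.2 (inv_pos.2 this)
  have h4 := h2.comp h3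
  refine h4.congr fun k => ?_
  simp only [Function.comp, inv_inv, zero_add, zero_mul, Real.exp_zero, smul_eq_mul]
  rw [div_eq_inv_mul]

theorem task_qm_diag (G : Matrix n n ℝ) (D : n → ℝ)
    (hG : Gᵀ = G) (hoff : ∀ i j, i ≠ j → 0 ≤ G i j) (s : ℝ) (hs : 0 < s) :
    s ^ 2 * ∫ u in (0:ℝ)..1,
        (diagonal D * exp ((1 - u) • G) * diagonal D * exp (u • G)).trace ≤
      (exp (G + s • diagonal D)).trace + (exp (G - s • diagonal D)).trace - 2 * (exp G).trace := by
  apply main_of_QI G (diagonal D) hG (diagonal_transpose D) s hs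
  intro r hr hrs
  set X : ℕ → ℝ → Matrix n n ℝ := fun k t =>
    (1 + (k : ℝ)⁻¹ • G) * diagonal (fun i => Real.exp (t * D i / k)) with hX
  have hlim : ∀ t, Tendsto (fun k => (X k t ^ k).trace) atTop (𝓝 ((exp (G + t • diagonal D)).trace)) := by
    intro t
    have h1 : Tendsto (fun k => X k t ^ k) atTop (𝓝 (exp (G + t • diagonal D))) := by
      apply mat_tendsto_pow_exp (fun k => X k t)
      refine tendsto_pi_nhds.2 fun i => tendsto_pi_nhds.2 fun j => ?_
      have hmain := tendsto_mul_exp_sub (t * D j)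
      have hexp : Tendsto (fun k : ℕ => Real.exp (t * D j / k)) atTop (𝓝 1) := by
        have h2 : Tendsto (fun k : ℕ => t * D j / (k : ℝ)) atTop (𝓝 0) :=
          tendsto_const_div_atTop_nhds_zero_nat (t * D j)
        have h3 := (Real.continuous_exp.tendsto 0).comp h2
        rwa [Real.exp_zero] at h3
      have hG2 : Tendsto (fun k : ℕ => G i j * Real.exp (t * D j / k)) atTop (𝓝 (G i j * 1)) :=
        hexp.const_mul _
      have hsum : Tendsto (fun k : ℕ => (1 : Matrix n n ℝ) i j * ((k : ℝ) * (Real.exp (t * D j / k) - 1)) +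
          G i j * Real.exp (t * D j / k)) atTop (𝓝 ((1 : Matrix n n ℝ) i j * (t * D j) + G i j * 1)) :=
        (hmain.const_mul _).add hG2
      have hval : (G + t • diagonal D) i j = (1 : Matrix n n ℝ) i j * (t * D j) + G i j * 1 := by
        rw [Matrix.add_apply, Matrix.smul_apply, smul_eq_mul, mul_one]
        by_cases hij : i = j
        · subst hij; rw [diagonal_apply_eq, one_apply_eq]; ring
        · rw [diagonal_apply_ne _ hij, one_apply_ne hij]; ring
      rw [hval]
      refine hsum.congr' ?_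
      filter_upwards [eventually_gt_atTop 0] with k hk
      have hk' : (k : ℝ) ≠ 0 := by positivity
      have e1 : ((k : ℝ) • (X k t - 1)) i j = (k : ℝ) * (((1 : Matrix n n ℝ) i j + (k : ℝ)⁻¹ * G i j) *
          Real.exp (t * D j / k) - (1 : Matrix n n ℝ) i j) := by
        simp only [hX, Matrix.smul_apply, Matrix.sub_apply, Matrix.mul_diagonal, Matrix.add_apply, smul_eq_mul]
      rw [e1]
      field_simp
      ring
    exact (continuous_id.matrix_trace.tendsto _).comp h1
  refine QI_lim (f := fun k t => (X k t ^ k).trace) hlim ?_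
  have hdiag : ∀ᶠ k : ℕ in atTop, ∀ i, 0 ≤ 1 + (k : ℝ)⁻¹ * G i i := by
    rw [eventually_all]
    intro i
    have h1 : Tendsto (fun k : ℕ => 1 + (k : ℝ)⁻¹ * G i i) atTop (𝓝 (1 + 0 * G i i)) :=
      (tendsto_inv_atTop_nhds_zero_nat.mul_const _).const_add 1
    rw [zero_mul, add_zero] at h1
    exact (h1.eventually (lt_mem_nhds one_pos)).mono fun k hk => hk.le
  filter_upwards [hdiag] with k hk
  apply QI_E _ hr hrs
  apply cl_trace (Cl := ClE) (ClE.const 0 le_rfl) (ClE.const 1 zero_le_one) ClE.add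
    (fun f g hf hg => hf.mul hg) (X k)
  intro i j
  have hkinv : 0 ≤ (k : ℝ)⁻¹ := by positivity
  have e : (fun t => X k t i j) = fun t => ((1 : Matrix n n ℝ) i j + (k : ℝ)⁻¹ * G i j) *
      Real.exp ((D j / k) * t) := by
    ext t
    simp only [hX, Matrix.mul_diagonal, Matrix.add_apply, Matrix.smul_apply, smul_eq_mul]
    congr 2
    ring
  rw [e]
  refine ClE.exp _ _ ?_
  by_cases hij : i = j
  · subst hij
    rw [Matrix.one_apply_eq]
    exact hk i
  · rw [Matrix.one_apply_ne hij, zero_add]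
    exact mul_nonneg hkinv (hoff i j hij)

end Pool.Agent.H993.LY.P2
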