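import Mathlib
import Pool.Agent.H993.LY.P11
import Pool.Agent.H993.LY.P2
import Pool.Agent.H993.LY.Base

/-!
# LY task 13: Peierls-Bogoliubov and the second moment of `cos` on one edge
-/

namespace Pool.Agent.H993.LY.P13

open Pool.Agent.H993.LY.P2 (task_qm_pos)
open Pool.Agent.H993.LY.P11 (task_sq_nonneg)

open Filter Topology NormedSpace Matrix MeasureTheory
open Pool.Agent.H993.TR Pool.Agent.H993.LY
open Pool.Agent.N657.QR (ee nnw lam)

variable {V : Type} [Fintype V] [DecidableEq V]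

/-- TASK 13a. The inequality of Peierls and Bogoliubov. -/
theorem task_pb {n : Type} [Fintype n] [DecidableEq n] [Nonempty n] (X Y : Matrix n n ℝ)
    (hX : Xᵀ = X) (hY : Yᵀ = Y) :
    (exp X).trace * Real.exp ((Y * exp X).trace / (exp X).trace) ≤ (exp (X + Y)).trace := by
  obtain ⟨U, x, h1, h2, h3⟩ := spectral X hX
  set Y' := Uᵀ * Y * U with hY'
  have hYU : Y = U * Y' * Uᵀ := by
    rw [hY']
    calc Y = (U * Uᵀ) * Y * (U * Uᵀ) := by rw [h2]; simp
      _ = _ := by simp only [Matrix.mul_assoc]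
  have hY's : Y'ᵀ = Y' := by
    rw [hY', Matrix.transpose_mul, Matrix.transpose_mul, hY, Matrix.transpose_transpose,
      Matrix.mul_assoc]
  have hsum : X + Y = U * (diagonal x + Y') * Uᵀ := by
    rw [Matrix.mul_add, Matrix.add_mul, ← h3, ← hYU]
  have hs : (diagonal x + Y')ᵀ = diagonal x + Y' := by
    rw [Matrix.transpose_add, Matrix.diagonal_transpose, hY's]
  have e1 : (exp X).trace = ∑ i, Real.exp (x i) := by
    rw [h3, exp_conj_orth U h1 h2, trace_conj_orth U h1, exp_diag_real, Matrix.trace_diagonal]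
  have e2 : (Y * exp X).trace = ∑ i, Y' i i * Real.exp (x i) := by
    rw [h3, exp_conj_orth U h1 h2, exp_diag_real]
    have : Y * (U * diagonal (fun i => Real.exp (x i)) * Uᵀ) =
        U * (Y' * diagonal (fun i => Real.exp (x i))) * Uᵀ := by
      rw [hYU]
      calc U * Y' * Uᵀ * (U * diagonal (fun i => Real.exp (x i)) * Uᵀ)
          = U * Y' * (Uᵀ * U) * diagonal (fun i => Real.exp (x i)) * Uᵀ := by
            simp only [Matrix.mul_assoc]
        _ = _ := by rw [h1]; simp only [Matrix.mul_assoc, Matrix.one_mul]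
    rw [this, trace_conj_orth U h1]
    simp only [Matrix.trace, Matrix.diag_apply, Matrix.mul_diagonal]
  have e3 : (exp (X + Y)).trace = ∑ i, exp (diagonal x + Y') i i := by
    rw [hsum, exp_conj_orth U h1 h2, trace_conj_orth U h1]
    rfl
  have hZ : 0 < ∑ i, Real.exp (x i) :=
    Finset.sum_pos (fun i _ => Real.exp_pos _) Finset.univ_nonempty
  rw [e1, e2, e3]
  obtain ⟨S, hS⟩ : ∃ S, S = ∑ i, Real.exp (x i) := ⟨_, rfl⟩
  rw [← hS] at hZ ⊢
  have hj := convexOn_exp.map_sum_le (t := Finset.univ)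
    (w := fun i => Real.exp (x i) / S) (p := fun i => Y' i i)
    (fun i _ => div_nonneg (Real.exp_pos _).le hZ.le)
    (by rw [← Finset.sum_div, ← hS, div_self hZ.ne'])
    (fun i _ => Set.mem_univ _)
  simp only [smul_eq_mul] at hj
  have e4 : (∑ i, Y' i i * Real.exp (x i)) / S = ∑ i, Real.exp (x i) / S * Y' i i := by
    rw [Finset.sum_div]
    exact Finset.sum_congr rfl fun i _ => by ring
  rw [e4]
  calc S * Real.exp (∑ i, Real.exp (x i) / S * Y' i i)
      ≤ S * ∑ i, Real.exp (x i) / S * Real.exp (Y' i i) :=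
        mul_le_mul_of_nonneg_left hj hZ.le
    _ = ∑ i, Real.exp (x i + Y' i i) := by
        rw [Finset.mul_sum]
        refine Finset.sum_congr rfl fun i _ => ?_
        rw [Real.exp_add, ← mul_assoc, mul_div_cancel₀ _ hZ.ne']
    _ ≤ _ := by
        refine Finset.sum_le_sum fun i _ => ?_
        refine le_trans (le_of_eq ?_) (peierls _ hs i)
        rw [Matrix.add_apply, Matrix.diagonal_apply_eq]

/-- The hopping with `δ` added on one (oriented) edge. -/
def addE (w : V → V → ℝ) (a b : V) (δ : ℝ) (x y : V) : ℝ :=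
  w x y + (if x = a ∧ y = b then δ else 0)

/-! ### Limits of traces of truncated shifts -/

omit [DecidableEq V] in
theorem nsq_nonneg (m : V → ℤ) : 0 ≤ nsq m := Finset.sum_nonneg fun _ _ => sq_nonneg _

omit [DecidableEq V] in
theorem nsq_add_le (m u : V → ℤ) : nsq (m + u) ≤ 2 * nsq m + 2 * nsq u := by
  unfold nsq
  rw [Finset.mul_sum, Finset.mul_sum, ← Finset.sum_add_distrib]
  refine Finset.sum_le_sum fun x _ => ?_
  rw [Pi.add_apply]
  push_cast
  nlinarith [sq_nonneg ((m x : ℝ) - u x)]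

theorem lim_tw {β U : ℝ} (hβ : 0 < β) (hU : 0 < U) {w : V → V → ℝ} (hw : ∀ x y, 0 ≤ w x y)
    (t : V → ℤ) (b : Finset (Sec V 0) → (V → ℤ) → ℝ) (b' : (V → ℤ) → ℝ) (c : ℝ)
    (hb : ∀ R m, |b R m| ≤ c * (1 + nsq m))
    (hlim : ∀ m, ∑ x, m x = 0 → ∀ᶠ R in atTop, b R m = b' m) :
    Tendsto (fun R => (tw (nR R) (b R) t * exp (mt (AA β U w) (nR R))).trace) atTop
      (𝓝 (∑' m, b' m * EI (AA β U w) (m + t) m)) := by
  refine (lim_w hβ hU hw t b b' c hb hlim).2.congr fun R => ?_
  rw [trace_tw]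
  exact Finset.sum_congr rfl fun m _ => by rw [EE_symm (AA_adm hβ hw)]

theorem lim_T {β U : ℝ} (hβ : 0 < β) (hU : 0 < U) {w : V → V → ℝ} (hw : ∀ x y, 0 ≤ w x y)
    (t : V → ℤ) :
    Tendsto (fun R => (tw (nR R) (fun _ => 1) t * exp (mt (AA β U w) (nR R))).trace) atTop
      (𝓝 (WW (AA β U w) t)) := by
  have := lim_tw hβ hU hw t (fun _ _ => 1) (fun _ => 1) 1 (fun R m => by
    rw [abs_one, one_mul]
    linarith [nsq_nonneg m]) (fun m _ => Eventually.of_forall fun R => rfl)
  simp only [one_mul] at this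
  exact this

omit [DecidableEq V] in
theorem tw_zero_one (R : Finset (V → ℤ)) : tw R (fun _ => 1) 0 = 1 := by
  ext n m
  unfold tw
  rw [add_zero, Matrix.one_apply]
  by_cases h : n = m
  · rw [if_pos h, if_pos (congrArg _ h)]
  · rw [if_neg h, if_neg (fun h' => h (Subtype.ext h'))]

theorem lim_Z {β U : ℝ} (hβ : 0 < β) (hU : 0 < U) {w : V → V → ℝ} (hw : ∀ x y, 0 ≤ w x y) :
    Tendsto (fun R => (exp (mt (AA β U w) (nR R))).trace) atTop (𝓝 (WW (AA β U w) 0)) := by
  have := lim_T hβ hU hw 0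
  simp only [tw_zero_one, one_mul] at this
  exact this

theorem lim_C {β U : ℝ} (hβ : 0 < β) (hU : 0 < U) {w : V → V → ℝ} (hw : ∀ x y, 0 ≤ w x y)
    (a b : V) :
    Tendsto (fun R => (mt (cosK a b) (nR R) * exp (mt (AA β U w) (nR R))).trace) atTop
      (𝓝 (WW (AA β U w) (eta a b))) := by
  have h1 := lim_T hβ hU hw (eta a b)
  have h2 := lim_T hβ hU hw (-eta a b)
  rw [WW_neg hβ hw] at h2
  have h3 := (h1.add h2).const_mul (1 / 2)
  have e : 1 / 2 * (WW (AA β U w) (eta a b) + WW (AA β U w) (eta a b)) =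
      WW (AA β U w) (eta a b) := by ring
  rw [e] at h3
  refine h3.congr fun R => ?_
  rw [mt_cosK, Matrix.smul_mul, Matrix.add_mul, Matrix.trace_smul, Matrix.trace_add, smul_eq_mul]

/-- the commutator part -/
def qq {n : Type} [Fintype n] (P S X : Matrix n n ℝ) : Matrix n n ℝ :=
  P * S * X + X * (P * S) - (2 : ℝ) • (P * X * S)

omit [DecidableEq V] in
theorem charge_add {m u : V → ℤ} (hm : ∑ x, m x = 0) (hu : ∑ x, u x = 0) :
    ∑ x, (m + u) x = 0 := by
  simp only [Pi.add_apply, Finset.sum_add_distrib, hm, hu, add_zero]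

theorem eta_neg_charge (a b : V) : ∑ x, (-eta a b) x = 0 := by
  simp only [Pi.neg_apply, Finset.sum_neg_distrib, eta_charge, neg_zero]

theorem lim_q {β U : ℝ} (hβ : 0 < β) (hU : 0 < U) {w : V → V → ℝ} (hw : ∀ x y, 0 ≤ w x y)
    (u v t : V → ℤ) (hu : ∑ x, u x = 0) (hv : ∑ x, v x = 0) (ht : ∑ x, t x = 0)
    (c : (V → ℤ) → ℝ) (k : ℝ) (hk : 0 ≤ k) (hc : ∀ m, |c m| ≤ k * (1 + nsq m)) :
    Summable (fun m => (c m + c (m + (v + u)) - 2 * c (m + v)) *
      EI (AA β U w) (m + (t + (v + u))) m) ∧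
    Tendsto (fun R => (qq (tw (nR R) (fun _ => 1) u) (tw (nR R) (fun _ => 1) v) (tw (nR R) c t) *
      exp (mt (AA β U w) (nR R))).trace) atTop
      (𝓝 (∑' m, (c m + c (m + (v + u)) - 2 * c (m + v)) *
        EI (AA β U w) (m + (t + (v + u))) m)) := by
  have hck : ∀ x : V → ℤ, ∀ m, |c (m + x)| ≤ k * (2 + 2 * nsq x) * (1 + nsq m) := by
    intro x m
    refine (hc _).trans ?_
    rw [mul_assoc]
    refine mul_le_mul_of_nonneg_left ?_ hk
    have h1 := nsq_add_le m x
    have h2 := nsq_nonneg m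
    have h3 := nsq_nonneg x
    nlinarith
  have hind : ∀ (P : Prop) [Decidable P] (r : ℝ), |if P then r else 0| ≤ |r| := by
    intro P _ r
    split_ifs
    · exact le_rfl
    · rw [abs_zero]
      exact abs_nonneg _
  -- the three products as weighted shifts
  set b1 : Finset (Sec V 0) → (V → ℤ) → ℝ := fun R m =>
    (if m + t ∈ nR R then (if m + t + v ∈ nR R then 1 else 0) * 1 else 0) * c m with hb1
  set b2 : Finset (Sec V 0) → (V → ℤ) → ℝ := fun R m =>
    (if m + (v + u) ∈ nR R then c (m + (v + u)) else 0) * ((if m + v ∈ nR R then 1 else 0) * 1)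
    with hb2
  set b3 : Finset (Sec V 0) → (V → ℤ) → ℝ := fun R m =>
    (if m + v ∈ nR R then (if m + v + t ∈ nR R then 1 else 0) * c (m + v) else 0) * 1 with hb3
  have e1 : ∀ R : Finset (Sec V 0), tw (nR R) (fun _ => 1) u * tw (nR R) (fun _ => 1) v *
      tw (nR R) c t = tw (nR R) (b1 R) (t + (v + u)) := by
    intro R
    rw [tw_mul, tw_mul]
  have e2 : ∀ R : Finset (Sec V 0), tw (nR R) c t * (tw (nR R) (fun _ => 1) u *
      tw (nR R) (fun _ => 1) v) = tw (nR R) (b2 R) (t + (v + u)) := by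
    intro R
    rw [tw_mul, tw_mul, add_comm t]
  have e3 : ∀ R : Finset (Sec V 0), tw (nR R) (fun _ => 1) u * tw (nR R) c t *
      tw (nR R) (fun _ => 1) v = tw (nR R) (b3 R) (t + (v + u)) := by
    intro R
    rw [tw_mul, tw_mul, show v + (t + u) = t + (v + u) by abel]
  have ht1 : ∀ (m : V → ℤ), ∑ x, m x = 0 → ∀ᶠ R in atTop, b1 R m = c m := by
    intro m hm
    filter_upwards [eventually_mem_nR (m + t) (charge_add hm ht),
      eventually_mem_nR (m + t + v) (charge_add (charge_add hm ht) hv)] with R h1 h2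
    simp only [hb1]
    rw [if_pos h1, if_pos h2]
    ring
  have ht2 : ∀ (m : V → ℤ), ∑ x, m x = 0 → ∀ᶠ R in atTop, b2 R m = c (m + (v + u)) := by
    intro m hm
    filter_upwards [eventually_mem_nR (m + (v + u)) (charge_add hm (charge_add hv hu)),
      eventually_mem_nR (m + v) (charge_add hm hv)] with R h1 h2
    simp only [hb2]
    rw [if_pos h1, if_pos h2]
    ring
  have ht3 : ∀ (m : V → ℤ), ∑ x, m x = 0 → ∀ᶠ R in atTop, b3 R m = c (m + v) := by
    intro m hm
    filter_upwards [eventually_mem_nR (m + v) (charge_add hm hv),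
      eventually_mem_nR (m + v + t) (charge_add (charge_add hm hv) ht)] with R h1 h2
    simp only [hb3]
    rw [if_pos h1, if_pos h2]
    ring
  have hbd1 : ∀ R m, |b1 R m| ≤ k * (1 + nsq m) := by
    intro R m
    simp only [hb1]
    rw [abs_mul]
    refine le_trans ?_ (hc m)
    refine mul_le_of_le_one_left (abs_nonneg _) ?_
    split_ifs <;> norm_num
  have hbd2 : ∀ R m, |b2 R m| ≤ k * (2 + 2 * nsq (v + u)) * (1 + nsq m) := by
    intro R m
    simp only [hb2]
    rw [abs_mul]
    refine le_trans ?_ (hck (v + u) m)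
    refine (mul_le_of_le_one_right (abs_nonneg _) ?_).trans (hind _ _)
    split_ifs <;> norm_num
  have hbd3 : ∀ R m, |b3 R m| ≤ k * (2 + 2 * nsq v) * (1 + nsq m) := by
    intro R m
    simp only [hb3]
    rw [mul_one]
    refine le_trans (hind _ _) ?_
    rw [abs_mul]
    refine le_trans ?_ (hck v m)
    refine mul_le_of_le_one_left (abs_nonneg _) ?_
    split_ifs <;> norm_num
  have s1 := (lim_w hβ hU hw (t + (v + u)) b1 c k hbd1 ht1).1
  have s2 := (lim_w hβ hU hw (t + (v + u)) b2 (fun m => c (m + (v + u))) _ hbd2 ht2).1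
  have s3 := (lim_w hβ hU hw (t + (v + u)) b3 (fun m => c (m + v)) _ hbd3 ht3).1
  have l1 := lim_tw hβ hU hw (t + (v + u)) b1 c k hbd1 ht1
  have l2 := lim_tw hβ hU hw (t + (v + u)) b2 (fun m => c (m + (v + u))) _ hbd2 ht2
  have l3 := lim_tw hβ hU hw (t + (v + u)) b3 (fun m => c (m + v)) _ hbd3 ht3
  have hs := (s1.add s2).sub (s3.mul_left 2)
  have he : ∀ m, c m * EI (AA β U w) (m + (t + (v + u))) m +
      c (m + (v + u)) * EI (AA β U w) (m + (t + (v + u))) m -
      2 * (c (m + v) * EI (AA β U w) (m + (t + (v + u))) m) =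
      (c m + c (m + (v + u)) - 2 * c (m + v)) * EI (AA β U w) (m + (t + (v + u))) m := by
    intro m
    ring
  refine ⟨hs.congr he, ?_⟩
  have hts : ∑' m, (c m + c (m + (v + u)) - 2 * c (m + v)) *
        EI (AA β U w) (m + (t + (v + u))) m =
      ∑' m, c m * EI (AA β U w) (m + (t + (v + u))) m +
      ∑' m, c (m + (v + u)) * EI (AA β U w) (m + (t + (v + u))) m -
      2 * ∑' m, c (m + v) * EI (AA β U w) (m + (t + (v + u))) m := by
    rw [← tsum_mul_left, ← s1.tsum_add s2, ← (s1.add s2).tsum_sub (s3.mul_left 2)]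
    exact tsum_congr fun m => (he m).symm
  rw [hts]
  refine ((l1.add l2).sub (l3.const_mul 2)).congr fun R => ?_
  unfold qq
  rw [e1, e2, e3, Matrix.sub_mul, Matrix.add_mul, Matrix.smul_mul, Matrix.trace_sub,
    Matrix.trace_add, Matrix.trace_smul, smul_eq_mul]

/-! ### Algebra -/

section alg

variable {n : Type} [Fintype n] [DecidableEq n]

omit [DecidableEq n] in
theorem qq_add (P S X Y : Matrix n n ℝ) : qq P S (X + Y) = qq P S X + qq P S Y := by
  unfold qq
  simp only [Matrix.mul_add, Matrix.add_mul, smul_add]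
  abel

omit [DecidableEq n] in
theorem qq_smul (P S X : Matrix n n ℝ) (r : ℝ) : qq P S (r • X) = r • qq P S X := by
  unfold qq
  simp only [Matrix.mul_smul, Matrix.smul_mul, smul_add, smul_sub]
  rw [smul_comm (2 : ℝ) r]

theorem qq_zero (P S : Matrix n n ℝ) : qq P S 0 = 0 := by
  unfold qq
  simp

theorem qq_sum {κ : Type} (s : Finset κ) (P S : Matrix n n ℝ) (X : κ → Matrix n n ℝ) :
    qq P S (∑ i ∈ s, X i) = ∑ i ∈ s, qq P S (X i) := by
  classical
  induction s using Finset.induction_on with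
  | empty => simp [qq_zero]
  | insert a s ha ih => rw [Finset.sum_insert ha, Finset.sum_insert ha, qq_add, ih]

theorem dcm_half (G P S C : Matrix n n ℝ) (hC : C = (1 / 2 : ℝ) • (P + S)) :
    dcm G C = 1 / 4 * ((qq P P G * exp G).trace + (qq P S G * exp G).trace +
      (qq S P G * exp G).trace + (qq S S G * exp G).trace) := by
  have h : C * C * G + G * (C * C) - (2:ℝ) • (C * G * C) =
      (1 / 4 : ℝ) • (qq P P G + qq P S G + qq S P G + qq S S G) := by
    rw [hC]
    unfold qq
    simp only [Matrix.mul_add, Matrix.add_mul, Matrix.mul_smul, Matrix.smul_mul]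
    module
  unfold dcm
  rw [h, Matrix.smul_mul, Matrix.trace_smul, smul_eq_mul, Matrix.add_mul, Matrix.add_mul,
    Matrix.add_mul, Matrix.trace_add, Matrix.trace_add, Matrix.trace_add]

theorem dcm_shift (G C : Matrix n n ℝ) (g : ℝ) : dcm G (C - g • 1) = dcm G C := by
  unfold dcm
  congr 2
  simp only [Matrix.mul_sub, Matrix.sub_mul, Matrix.mul_smul, Matrix.smul_mul, Matrix.one_mul,
    Matrix.mul_one]
  module

theorem sq_shift (G C : Matrix n n ℝ) (g : ℝ) : ((C - g • 1) * (C - g • 1) * exp G).trace =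
    (C * C * exp G).trace - 2 * g * (C * exp G).trace + g ^ 2 * (exp G).trace := by
  have h : (C - g • 1) * (C - g • 1) * exp G =
      C * C * exp G - (2 * g) • (C * exp G) + (g ^ 2) • exp G := by
    simp only [Matrix.mul_sub, Matrix.sub_mul, Matrix.mul_smul, Matrix.smul_mul, Matrix.one_mul,
      Matrix.mul_one]
    module
  rw [h, Matrix.trace_add, Matrix.trace_sub, Matrix.trace_smul, Matrix.trace_smul, smul_eq_mul,
    smul_eq_mul]

theorem exp_split (G : Matrix n n ℝ) (u : ℝ) : exp ((1 - u) • G) * exp (u • G) = exp G := by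
  rw [← Matrix.exp_add_of_commute]
  · rw [← add_smul]
    congr 1
    rw [sub_add_cancel, one_smul]
  · exact ((Commute.refl G).smul_left _).smul_right _

theorem duI_cont0 (G C : Matrix n n ℝ) : Continuous (fun u : ℝ => duI G C 0 u) := by
  have h := duI_continuous G C
  have h1 : Continuous (fun u : ℝ => ((0 : ℝ), u)) := by fun_prop
  generalize hF : (fun p : ℝ × ℝ => duI G C p.1 p.2) = F at h
  have h2 : (fun u : ℝ => duI G C 0 u) = fun u => F (0, u) := by rw [← hF]
  rw [h2]
  exact h.comp h1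

omit [Fintype n] [DecidableEq n] in
theorem int_add_const {f : ℝ → ℝ} (hf : Continuous f) (k : ℝ) :
    ∫ u in (0:ℝ)..1, (f u + k) = (∫ u in (0:ℝ)..1, f u) + k := by
  rw [intervalIntegral.integral_add (hf.intervalIntegrable 0 1)
      (continuous_const.intervalIntegrable 0 1), intervalIntegral.integral_const, sub_zero,
      one_smul]

theorem duh_shift (G C : Matrix n n ℝ) (g : ℝ) : duh G (C - g • 1) 0 =
    duh G C 0 - 2 * g * (C * exp G).trace + g ^ 2 * (exp G).trace := by
  unfold duh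
  have h : ∀ u, duI G (C - g • 1) 0 u =
      duI G C 0 u + (-(2 * g * (C * exp G).trace) + g ^ 2 * (exp G).trace) := by
    intro u
    unfold duI
    simp only [zero_smul, add_zero]
    have h1 : (C - g • 1) * exp ((1 - u) • G) * (C - g • 1) * exp (u • G) =
        C * exp ((1 - u) • G) * C * exp (u • G) - g • (C * (exp ((1 - u) • G) * exp (u • G))) -
        g • (exp ((1 - u) • G) * (C * exp (u • G))) +
        (g ^ 2) • (exp ((1 - u) • G) * exp (u • G)) := by
      simp only [Matrix.mul_sub, Matrix.sub_mul, Matrix.mul_smul, Matrix.smul_mul, Matrix.one_mul,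
        Matrix.mul_one, Matrix.mul_assoc]
      module
    have h2 : (exp ((1 - u) • G) * (C * exp (u • G))).trace = (C * exp G).trace := by
      rw [Matrix.trace_mul_comm, Matrix.mul_assoc]
      congr 2
      have := exp_split G (1 - u)
      rwa [sub_sub_cancel] at this
    rw [h1, exp_split, Matrix.trace_add, Matrix.trace_sub, Matrix.trace_sub, Matrix.trace_smul,
      Matrix.trace_smul, Matrix.trace_smul, h2]
    simp only [smul_eq_mul]
    ring
  have h2 : ∫ u in (0:ℝ)..1, duI G (C - g • 1) 0 u = (∫ u in (0:ℝ)..1, duI G C 0 u) +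
      (-(2 * g * (C * exp G).trace) + g ^ 2 * (exp G).trace) := by
    rw [intervalIntegral.integral_congr (fun u _ => h u)]
    exact int_add_const (duI_cont0 G C) _
  rw [h2]
  ring

end alg

/-! ### The limit of the double commutator -/

omit [DecidableEq V] in
theorem nsq_add (m u : V → ℤ) : nsq (m + u) = nsq m + 2 * ∑ x, (m x : ℝ) * u x + nsq u := by
  unfold nsq
  rw [Finset.mul_sum, ← Finset.sum_add_distrib, ← Finset.sum_add_distrib]
  refine Finset.sum_congr rfl fun x _ => ?_
  rw [Pi.add_apply]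
  push_cast
  ring

omit [DecidableEq V] in
theorem nsq_neg (u : V → ℤ) : nsq (-u) = nsq u := by
  unfold nsq
  refine Finset.sum_congr rfl fun x _ => ?_
  rw [Pi.neg_apply]
  push_cast
  ring

theorem nsq_eta {a b : V} (hab : a ≠ b) : nsq (eta a b) = 2 := by
  unfold nsq eta
  have h : ∀ x, (((Pi.single a 1 - Pi.single b 1 : V → ℤ) x : ℤ) : ℝ) ^ 2 =
      (if x = a then 1 else 0) + (if x = b then 1 else 0) := by
    intro x
    rw [Pi.sub_apply, Pi.single_apply, Pi.single_apply]
    by_cases h1 : x = a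
    · have h2 : x ≠ b := fun h2 => hab (h1.symm.trans h2)
      simp [h1, hab]
    · by_cases h2 : x = b
      · simp [h2, hab.symm]
      · simp [h1, h2]
  rw [Finset.sum_congr rfl fun x _ => h x, Finset.sum_add_distrib]
  simp
  norm_num

theorem lim_hop {β U : ℝ} (hβ : 0 < β) (hU : 0 < U) {w : V → V → ℝ} (hw : ∀ x y, 0 ≤ w x y)
    (u v : V → ℤ) (hu : ∑ x, u x = 0) (hv : ∑ x, v x = 0) (x y : V) :
    Tendsto (fun R => (qq (tw (nR R) (fun _ => 1) u) (tw (nR R) (fun _ => 1) v)
      (mt (cosK x y) (nR R)) * exp (mt (AA β U w) (nR R))).trace) atTop (𝓝 0) := by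
  have key : ∀ t : V → ℤ, ∑ x, t x = 0 → Tendsto (fun R => (qq (tw (nR R) (fun _ => 1) u)
      (tw (nR R) (fun _ => 1) v) (tw (nR R) (fun _ => 1) t) *
      exp (mt (AA β U w) (nR R))).trace) atTop (𝓝 0) := by
    intro t ht
    have := (lim_q hβ hU hw u v t hu hv ht (fun _ => 1) 1 zero_le_one (fun m => by
      rw [abs_one, one_mul]
      linarith [nsq_nonneg m])).2
    have e : ∑' m : V → ℤ, (((1 : ℝ) + 1 - 2 * 1)) * EI (AA β U w) (m + (t + (v + u))) m = 0 := by
      norm_num
    rwa [e] at this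
  have h1 := key (eta x y) (eta_charge x y)
  have h2 := key (-eta x y) (eta_neg_charge x y)
  have h3 := (h1.add h2).const_mul (1 / 2)
  rw [add_zero, mul_zero] at h3
  refine h3.congr fun R => ?_
  rw [mt_cosK, qq_smul, qq_add, Matrix.smul_mul, Matrix.add_mul, Matrix.trace_smul,
    Matrix.trace_add, smul_eq_mul]

theorem lim_qG {β U : ℝ} (hβ : 0 < β) (hU : 0 < U) {w : V → V → ℝ} (hw : ∀ x y, 0 ≤ w x y)
    (u v : V → ℤ) (hu : ∑ x, u x = 0) (hv : ∑ x, v x = 0) :
    Summable (fun m => (-(β * U * nsq m) + -(β * U * nsq (m + (v + u))) -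
      2 * -(β * U * nsq (m + v))) * EI (AA β U w) (m + (v + u)) m) ∧
    Tendsto (fun R => (qq (tw (nR R) (fun _ => 1) u) (tw (nR R) (fun _ => 1) v)
      (mt (AA β U w) (nR R)) * exp (mt (AA β U w) (nR R))).trace) atTop
      (𝓝 (∑' m, (-(β * U * nsq m) + -(β * U * nsq (m + (v + u))) -
      2 * -(β * U * nsq (m + v))) * EI (AA β U w) (m + (v + u)) m)) := by
  have h1 := lim_q hβ hU hw u v 0 hu hv (by simp) (fun m => -(β * U * nsq m)) (β * U)
    (by positivity) (fun m => by
      have h2 := nsq_nonneg m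
      rw [abs_neg, abs_of_nonneg (by positivity)]
      have : 0 < β * U := by positivity
      nlinarith)
  simp only [zero_add] at h1
  refine ⟨h1.1, ?_⟩
  have h2 : Tendsto (fun R => β * ∑ x, ∑ y, w x y * (qq (tw (nR R) (fun _ => 1) u)
      (tw (nR R) (fun _ => 1) v) (mt (cosK x y) (nR R)) *
      exp (mt (AA β U w) (nR R))).trace) atTop (𝓝 (β * ∑ x : V, ∑ y : V, w x y * 0)) :=
    (tendsto_finsetSum _ fun x _ => tendsto_finsetSum _ fun y _ =>
      (lim_hop hβ hU hw u v hu hv x y).const_mul _).const_mul _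
  have h3 := h1.2.add h2
  simp only [mul_zero, Finset.sum_const_zero, add_zero] at h3
  refine h3.congr fun R => ?_
  have e : qq (tw (nR R) (fun _ => 1) u) (tw (nR R) (fun _ => 1) v) (mt (AA β U w) (nR R)) =
      qq (tw (nR R) (fun _ => 1) u) (tw (nR R) (fun _ => 1) v)
        (tw (nR R) (fun m => -(β * U * nsq m)) 0) +
      β • ∑ x, ∑ y, w x y • qq (tw (nR R) (fun _ => 1) u) (tw (nR R) (fun _ => 1) v)
        (mt (cosK x y) (nR R)) := by
    conv_lhs => rw [mt_AA]
    rw [qq_add, qq_smul, qq_sum]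
    congr 2
    refine Finset.sum_congr rfl fun x _ => ?_
    rw [qq_sum]
    exact Finset.sum_congr rfl fun y _ => by rw [qq_smul]
  rw [e, Matrix.add_mul, Matrix.trace_add, Matrix.smul_mul, Matrix.trace_smul, smul_eq_mul,
    Finset.sum_mul, Matrix.trace_sum]
  congr 2
  refine Finset.sum_congr rfl fun x _ => ?_
  rw [Finset.sum_mul, Matrix.trace_sum]
  exact Finset.sum_congr rfl fun y _ => by rw [Matrix.smul_mul, Matrix.trace_smul, smul_eq_mul]

theorem lim_dcm {β U : ℝ} (hβ : 0 < β) (hU : 0 < U) {w : V → V → ℝ} (hw : ∀ x y, 0 ≤ w x y)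
    {a b : V} (hab : a ≠ b) :
    Tendsto (fun R => dcm (mt (AA β U w) (nR R)) (mt (cosK a b) (nR R))) atTop
      (𝓝 (2 * β * U * (WW (AA β U w) 0 - WW (AA β U w) (2 • eta a b)))) := by
  have hc := eta_charge a b
  have hc' := eta_neg_charge a b
  have he := nsq_eta hab
  set e := eta a b with hedef
  have q1 := lim_qG hβ hU hw e e hc hc
  have q2 := lim_qG hβ hU hw e (-e) hc hc'
  have q3 := lim_qG hβ hU hw (-e) e hc' hc
  have q4 := lim_qG hβ hU hw (-e) (-e) hc' hc'
  have hl := (((q1.2.add q2.2).add q3.2).add q4.2).const_mul (1 / 4)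
  have hval : 1 / 4 * (∑' m, (-(β * U * nsq m) + -(β * U * nsq (m + (e + e))) -
      2 * -(β * U * nsq (m + e))) * EI (AA β U w) (m + (e + e)) m +
      ∑' m, (-(β * U * nsq m) + -(β * U * nsq (m + (-e + e))) -
      2 * -(β * U * nsq (m + -e))) * EI (AA β U w) (m + (-e + e)) m +
      ∑' m, (-(β * U * nsq m) + -(β * U * nsq (m + (e + -e))) -
      2 * -(β * U * nsq (m + e))) * EI (AA β U w) (m + (e + -e)) m +
      ∑' m, (-(β * U * nsq m) + -(β * U * nsq (m + (-e + -e))) -
      2 * -(β * U * nsq (m + -e))) * EI (AA β U w) (m + (-e + -e)) m) =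
      2 * β * U * (WW (AA β U w) 0 - WW (AA β U w) (2 • e)) := by
    have t1 : ∑' m, (-(β * U * nsq m) + -(β * U * nsq (m + (e + e))) -
        2 * -(β * U * nsq (m + e))) * EI (AA β U w) (m + (e + e)) m =
        -(4 * β * U) * WW (AA β U w) (2 • e) := by
      unfold WW
      rw [← tsum_mul_left]
      refine tsum_congr fun m => ?_
      have h1 : nsq (m + (e + e)) = nsq m + 2 * (2 * ∑ x, (m x : ℝ) * e x) + 4 * nsq e := by
        rw [nsq_add]
        congr 1
        · congr 2
          rw [Finset.mul_sum]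
          refine Finset.sum_congr rfl fun x _ => ?_
          rw [Pi.add_apply]
          push_cast
          ring
        · unfold nsq
          rw [Finset.mul_sum]
          refine Finset.sum_congr rfl fun x _ => ?_
          rw [Pi.add_apply]
          push_cast
          ring
      rw [h1, nsq_add m e, he, two_smul]
      ring
    have t4 : ∑' m, (-(β * U * nsq m) + -(β * U * nsq (m + (-e + -e))) -
        2 * -(β * U * nsq (m + -e))) * EI (AA β U w) (m + (-e + -e)) m =
        -(4 * β * U) * WW (AA β U w) (2 • e) := by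
      rw [← WW_neg hβ hw (2 • e)]
      unfold WW
      rw [← tsum_mul_left]
      refine tsum_congr fun m => ?_
      have h1 : nsq (m + (-e + -e)) = nsq m - 2 * (2 * ∑ x, (m x : ℝ) * e x) + 4 * nsq e := by
        rw [nsq_add]
        have h2 : ∑ x, (m x : ℝ) * ((-e + -e) x : ℤ) = -(2 * ∑ x, (m x : ℝ) * e x) := by
          rw [Finset.mul_sum, ← Finset.sum_neg_distrib]
          refine Finset.sum_congr rfl fun x _ => ?_
          rw [Pi.add_apply, Pi.neg_apply]
          push_cast
          ring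
        have h3 : nsq (-e + -e) = 4 * nsq e := by
          unfold nsq
          rw [Finset.mul_sum]
          refine Finset.sum_congr rfl fun x _ => ?_
          rw [Pi.add_apply, Pi.neg_apply]
          push_cast
          ring
        rw [h2, h3]
        ring
      have h4 : nsq (m + -e) = nsq m - 2 * ∑ x, (m x : ℝ) * e x + nsq e := by
        rw [nsq_add, nsq_neg]
        have h2 : ∑ x, (m x : ℝ) * ((-e) x : ℤ) = -∑ x, (m x : ℝ) * e x := by
          rw [← Finset.sum_neg_distrib]
          refine Finset.sum_congr rfl fun x _ => ?_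
          rw [Pi.neg_apply]
          push_cast
          ring
        rw [h2]
        ring
      rw [h1, h4, he, two_smul, neg_add]
      ring
    have t23 : ∑' m, (-(β * U * nsq m) + -(β * U * nsq (m + (-e + e))) -
        2 * -(β * U * nsq (m + -e))) * EI (AA β U w) (m + (-e + e)) m +
        ∑' m, (-(β * U * nsq m) + -(β * U * nsq (m + (e + -e))) -
        2 * -(β * U * nsq (m + e))) * EI (AA β U w) (m + (e + -e)) m =
        8 * β * U * WW (AA β U w) 0 := by
      rw [← q2.1.tsum_add q3.1]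
      unfold WW
      rw [← tsum_mul_left]
      refine tsum_congr fun m => ?_
      have h4 : nsq (m + -e) = nsq m - 2 * ∑ x, (m x : ℝ) * e x + nsq e := by
        rw [nsq_add, nsq_neg]
        have h2 : ∑ x, (m x : ℝ) * ((-e) x : ℤ) = -∑ x, (m x : ℝ) * e x := by
          rw [← Finset.sum_neg_distrib]
          refine Finset.sum_congr rfl fun x _ => ?_
          rw [Pi.neg_apply]
          push_cast
          ring
        rw [h2]
        ring
      rw [neg_add_cancel, add_neg_cancel, add_zero, h4, nsq_add m e, he]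
      ring
    rw [add_assoc (∑' m, _), t23, t1, t4]
    ring
  rw [hval] at hl
  refine hl.congr fun R => ?_
  rw [dcm_half _ _ _ _ (mt_cosK (nR R) a b)]

theorem lim_CC {β U : ℝ} (hβ : 0 < β) (hU : 0 < U) {w : V → V → ℝ} (hw : ∀ x y, 0 ≤ w x y)
    (a b : V) :
    Tendsto (fun R => (mt (cosK a b) (nR R) * mt (cosK a b) (nR R) *
      exp (mt (AA β U w) (nR R))).trace) atTop
      (𝓝 ((WW (AA β U w) 0 + WW (AA β U w) (2 • eta a b)) / 2)) := by
  have hc := eta_charge a b
  have hc' := eta_neg_charge a b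
  set e := eta a b with hedef
  have key : ∀ u v : V → ℤ, ∑ x, u x = 0 → ∑ x, v x = 0 →
      Tendsto (fun R => (tw (nR R) (fun _ => 1) u * tw (nR R) (fun _ => 1) v *
      exp (mt (AA β U w) (nR R))).trace) atTop (𝓝 (WW (AA β U w) (v + u))) := by
    intro u v hu hv
    have := lim_tw hβ hU hw (v + u) (fun R m => (if m + v ∈ nR R then 1 else 0) * 1) (fun _ => 1) 1
      (fun R m => by
        have := nsq_nonneg m
        split_ifs
        · norm_num
          exact this
        · norm_num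
          linarith) (fun m hm => by
        filter_upwards [eventually_mem_nR (m + v) (charge_add hm hv)] with R h1
        rw [if_pos h1, one_mul])
    simp only [one_mul] at this
    refine Tendsto.congr (fun R => ?_) this
    rw [tw_mul]
  have h1 := key e e hc hc
  have h2 := key e (-e) hc hc'
  have h3 := key (-e) e hc' hc
  have h4 := key (-e) (-e) hc' hc'
  have hl := (((h1.add h2).add h3).add h4).const_mul (1 / 4)
  have hval : 1 / 4 * (WW (AA β U w) (e + e) + WW (AA β U w) (-e + e) + WW (AA β U w) (e + -e) +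
      WW (AA β U w) (-e + -e)) = (WW (AA β U w) 0 + WW (AA β U w) (2 • e)) / 2 := by
    rw [neg_add_cancel, add_neg_cancel, ← neg_add, WW_neg hβ hw, two_smul]
    ring
  rw [hval] at hl
  refine hl.congr fun R => ?_
  have h : mt (cosK a b) (nR R) * mt (cosK a b) (nR R) = (1 / 4 : ℝ) •
      (tw (nR R) (fun _ => 1) e * tw (nR R) (fun _ => 1) e +
      tw (nR R) (fun _ => 1) e * tw (nR R) (fun _ => 1) (-e) +
      tw (nR R) (fun _ => 1) (-e) * tw (nR R) (fun _ => 1) e +
      tw (nR R) (fun _ => 1) (-e) * tw (nR R) (fun _ => 1) (-e)) := by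
    rw [mt_cosK]
    simp only [Matrix.mul_add, Matrix.add_mul, Matrix.mul_smul, Matrix.smul_mul, ← hedef]
    module
  rw [h, Matrix.smul_mul, Matrix.trace_smul, smul_eq_mul, Matrix.add_mul, Matrix.add_mul,
    Matrix.add_mul, Matrix.trace_add, Matrix.trace_add, Matrix.trace_add]

/-! ### The elementary inequality -/

theorem exp_cub {x : ℝ} (hx : |x| ≤ 1) : Real.exp x ≤ 1 + x + x ^ 2 / 2 + |x| ^ 3 := by
  have h := Real.exp_bound' (x := |x|) (abs_nonneg _) hx (n := 3) (by norm_num)
  have h2 := Real.exp_bound (x := x) hx (n := 3) (by norm_num)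
  rw [abs_le] at h2
  have h3 := h2.2
  simp only [Finset.sum_range_succ, Finset.sum_range_zero, Nat.factorial] at h3
  norm_num at h3
  have h4 : 0 ≤ |x| ^ 3 := by positivity
  linarith

theorem v_bound {g gp gm s : ℝ} (hs : 0 < s) (hs1 : s ≤ 1) (h0 : 0 ≤ gm) (h1 : gm ≤ g)
    (h2 : g ≤ gp) (h3 : gp ≤ 1) :
    (Real.exp (s * gp) + Real.exp (-(s * gm)) - 2) / s ^ 2 - g ^ 2 ≤
      (gp - gm) * (1 + s) / s + 10 * s := by
  have hg0 : 0 ≤ g := h0.trans h1
  have hgp0 : 0 ≤ gp := hg0.trans h2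
  have a1 : |s * gp| ≤ 1 := by
    rw [abs_of_nonneg (by positivity)]
    nlinarith
  have a2 : |-(s * gm)| ≤ 1 := by
    rw [abs_neg, abs_of_nonneg (by positivity)]
    nlinarith
  have e1 := exp_cub a1
  have e2 := exp_cub a2
  rw [abs_of_nonneg (by positivity : 0 ≤ s * gp)] at e1
  rw [abs_neg, abs_of_nonneg (by positivity : 0 ≤ s * gm)] at e2
  have c1 : (s * gp) ^ 3 ≤ s ^ 3 := by
    rw [mul_pow]
    exact mul_le_of_le_one_right (by positivity) (pow_le_one₀ hgp0 h3)
  have c2 : (s * gm) ^ 3 ≤ s ^ 3 := by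
    rw [mul_pow]
    exact mul_le_of_le_one_right (by positivity) (pow_le_one₀ h0 (by linarith))
  have hnum : Real.exp (s * gp) + Real.exp (-(s * gm)) - 2 ≤
      s * (gp - gm) + s ^ 2 * ((gp ^ 2 + gm ^ 2) / 2) + 2 * s ^ 3 := by
    nlinarith
  have hq : (gp ^ 2 + gm ^ 2) / 2 - g ^ 2 ≤ gp - gm := by
    nlinarith [mul_nonneg (sub_nonneg.2 h2) (sub_nonneg.2 h3), mul_nonneg h0 (sub_nonneg.2 h1)]
  have h4 : (Real.exp (s * gp) + Real.exp (-(s * gm)) - 2) / s ^ 2 ≤
      (gp - gm) / s + (gp ^ 2 + gm ^ 2) / 2 + 2 * s := by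
    rw [div_le_iff₀ (by positivity)]
    have : ((gp - gm) / s + (gp ^ 2 + gm ^ 2) / 2 + 2 * s) * s ^ 2 =
        s * (gp - gm) + s ^ 2 * ((gp ^ 2 + gm ^ 2) / 2) + 2 * s ^ 3 := by
      field_simp
    rw [this]
    exact hnum
  have h5 : (gp - gm) * (1 + s) / s = (gp - gm) / s + (gp - gm) := by
    field_simp
  rw [h5]
  linarith

/-! ### The theorem -/

theorem mt_addE (β U : ℝ) (hβ : 0 < β) (w : V → V → ℝ) (a b : V) (s : ℝ) (R : Finset (V → ℤ)) :
    mt (AA β U (addE w a b (s / β))) R = mt (AA β U w) R + s • mt (cosK a b) R := by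
  rw [mt_AA, mt_AA, add_assoc]
  congr 1
  have h : ∑ x, ∑ y, addE w a b (s / β) x y • mt (cosK x y) R =
      ∑ x, ∑ y, w x y • mt (cosK x y) R + (s / β) • mt (cosK a b) R := by
    unfold addE
    simp only [add_smul, Finset.sum_add_distrib]
    congr 1
    rw [Finset.sum_eq_single a]
    · rw [Finset.sum_eq_single b]
      · simp
      · intro y _ hy
        simp [hy]
      · intro hb
        exact absurd (Finset.mem_univ b) hb
    · intro x _ hx
      simp [hx]
    · intro ha
      exact absurd (Finset.mem_univ a) ha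
  rw [h, smul_add, smul_smul, mul_div_cancel₀ _ hβ.ne']

theorem mono_g {β U : ℝ} (hβ : 0 < β) (hU : 0 < U) {w₁ w₂ : V → V → ℝ} (hw₂ : ∀ x y, 0 ≤ w₂ x y)
    (hw : ∀ x y, w₂ x y ≤ w₁ x y) (a b : V) :
    WW (AA β U w₂) (eta a b) / WW (AA β U w₂) 0 ≤ WW (AA β U w₁) (eta a b) / WW (AA β U w₁) 0 := by
  have hw₁ : ∀ x y, 0 ≤ w₁ x y := fun x y => (hw₂ x y).trans (hw x y)
  have hpd : (U • (1 : Matrix V V ℝ)).PosDef := Matrix.PosDef.one.smul hU
  have h := cmp_sec hβ (K₁ := U • (1 : Matrix V V ℝ)) (K₂ := U • (1 : Matrix V V ℝ)) (0 : V → ℝ)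
    (by rw [sub_self]; exact Matrix.PosSemidef.zero) hpd hpd hw₂ hw 0 a b
  have e1 := WW_eta hβ hU hw₁ a b
  have e2 := WW_eta hβ hU hw₂ a b
  have e3 := WW_zero hβ hU hw₁
  have e4 := WW_zero hβ hU hw₂
  unfold AA at e1 e2 e3 e4
  have p1 := WW_zero_pos hβ hU hw₁
  have p2 := WW_zero_pos hβ hU hw₂
  rw [div_le_div_iff₀ p2 p1]
  unfold AA
  rw [e1, e2, e3, e4]
  linarith

/-- TASK 13b. The second moment of `cos (θ_a - θ_b)`. -/
theorem task_var {β U : ℝ} (hβ : 0 < β) (hU : 0 < U) {w : V → V → ℝ} (hw : ∀ x y, 0 ≤ w x y)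
    (a b : V) (hab : a ≠ b) (s : ℝ) (hs : 0 < s) (hs1 : s ≤ 1) (hsw : s ≤ β * w a b)
    (g g2 gp gm v : ℝ)
    (hg : g = WW (AA β U w) (eta a b) / WW (AA β U w) 0)
    (hg2 : g2 = WW (AA β U w) (2 • eta a b) / WW (AA β U w) 0)
    (hgp : gp = WW (AA β U (addE w a b (s / β))) (eta a b) / WW (AA β U (addE w a b (s / β))) 0)
    (hgm : gm = WW (AA β U (addE w a b (-(s / β)))) (eta a b) /
      WW (AA β U (addE w a b (-(s / β)))) 0)
    (hv : v = (gp - gm) * (1 + s) / s + 10 * s) :
    (1 + g2) / 2 - g ^ 2 ≤ v + Real.sqrt (v * (8 * β * U * (1 - g))) / 2 := by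
  have hsβ : 0 < s / β := by positivity
  have hwp : ∀ x y, 0 ≤ addE w a b (s / β) x y := by
    intro x y
    unfold addE
    have := hw x y
    split_ifs <;> linarith
  have hwm : ∀ x y, 0 ≤ addE w a b (-(s / β)) x y := by
    intro x y
    unfold addE
    split_ifs with h
    · rw [h.1, h.2]
      have : s / β ≤ w a b := by
        rw [div_le_iff₀ hβ]
        linarith
      linarith
    · rw [add_zero]
      exact hw x y
  have hmp : ∀ x y, w x y ≤ addE w a b (s / β) x y := by
    intro x y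
    unfold addE
    split_ifs <;> linarith
  have hmm : ∀ x y, addE w a b (-(s / β)) x y ≤ w x y := by
    intro x y
    unfold addE
    split_ifs <;> linarith
  have hZ := WW_zero_pos hβ hU hw
  set Z := WW (AA β U w) 0 with hZd
  have o1 : gm ≤ g := by
    rw [hg, hgm]
    exact mono_g hβ hU hwm hmm a b
  have o2 : g ≤ gp := by
    rw [hg, hgp]
    exact mono_g hβ hU hw hmp a b
  have o3 : gp ≤ 1 := by
    rw [hgp]
    exact div_le_one_of_le₀ (WW_le hβ hU hwp _) (WW_nonneg hβ hwp _)
  have o0 : 0 ≤ gm := by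
    rw [hgm]
    exact div_nonneg (WW_nonneg hβ hwm _) (WW_nonneg hβ hwm _)
  have hvb := v_bound hs hs1 o0 o1 o2 o3
  rw [← hv] at hvb
  have hv0 : 0 ≤ v := by
    rw [hv]
    have : 0 ≤ gp - gm := by linarith
    positivity
  -- the limits
  have l0 := lim_Z hβ hU hw
  have l1 := lim_C hβ hU hw a b
  have l2 := lim_CC hβ hU hw a b
  have l3 := lim_dcm hβ hU hw hab
  rw [← hZd] at l0 l2 l3
  have lp0 := lim_Z hβ hU hwp
  have lp1 := lim_C hβ hU hwp a b
  have lm0 := lim_Z hβ hU hwm
  have lm1 := lim_C hβ hU hwm a b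
  have lp : Tendsto (fun R => (mt (cosK a b) (nR R) *
      exp (mt (AA β U (addE w a b (s / β))) (nR R))).trace /
      (exp (mt (AA β U (addE w a b (s / β))) (nR R))).trace) atTop (𝓝 gp) := by
    rw [hgp]
    exact lp1.div lp0 (WW_zero_pos hβ hU hwp).ne'
  have lm : Tendsto (fun R => (mt (cosK a b) (nR R) *
      exp (mt (AA β U (addE w a b (-(s / β)))) (nR R))).trace /
      (exp (mt (AA β U (addE w a b (-(s / β)))) (nR R))).trace) atTop (𝓝 gm) := by
    rw [hgm]
    exact lm1.div lm0 (WW_zero_pos hβ hU hwm).ne'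
  set cp : Finset (Sec V 0) → ℝ := fun R => (mt (cosK a b) (nR R) *
      exp (mt (AA β U (addE w a b (s / β))) (nR R))).trace /
      (exp (mt (AA β U (addE w a b (s / β))) (nR R))).trace with hcp
  set cm : Finset (Sec V 0) → ℝ := fun R => (mt (cosK a b) (nR R) *
      exp (mt (AA β U (addE w a b (-(s / β)))) (nR R))).trace /
      (exp (mt (AA β U (addE w a b (-(s / β)))) (nR R))).trace with hcm
  set G : (R : Finset (Sec V 0)) → Matrix (nR R) (nR R) ℝ := fun R => mt (AA β U w) (nR R) with hG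
  set C : (R : Finset (Sec V 0)) → Matrix (nR R) (nR R) ℝ := fun R => mt (cosK a b) (nR R) with hC
  have hGs : ∀ R, (G R)ᵀ = G R := fun R => mt_symm (AA_adm hβ hw) (nR R)
  have hCs : ∀ R, (C R)ᵀ = C R := by
    intro R
    ext n m
    exact cosK_symm a b _ _
  have hGp : ∀ R, mt (AA β U (addE w a b (s / β))) (nR R) = G R + s • C R := fun R =>
    mt_addE β U hβ w a b s (nR R)
  have hGm : ∀ R, mt (AA β U (addE w a b (-(s / β)))) (nR R) = G R - s • C R := by
    intro R
    have := mt_addE β U hβ w a b (-s) (nR R)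
    rw [neg_div, neg_smul, ← sub_eq_add_neg] at this
    exact this
  -- the upper bound for the Duhamel function
  set D : Finset (Sec V 0) → ℝ := fun R =>
    (exp (G R)).trace * ((Real.exp (s * cp R) + Real.exp (-(s * cm R)) - 2) / s ^ 2) -
      2 * g * (C R * exp (G R)).trace + g ^ 2 * (exp (G R)).trace with hD
  have hne : ∀ᶠ R : Finset (Sec V 0) in atTop, Nonempty (nR R) := by
    filter_upwards [eventually_mem_nR (0 : V → ℤ) (by simp)] with R hR
    exact ⟨⟨0, hR⟩⟩
  have hduh : ∀ᶠ R in atTop, duh (G R) (C R - g • 1) 0 ≤ D R := by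
    filter_upwards [hne] with R hR
    have q1 := task_qm_pos (G R) (C R) (hGs R) (hCs R) (fun i j => cosK_nonneg a b _ _) s
      (fun i j hij => by
        have h1 : 0 ≤ mt (AA β U (addE w a b (-(s / β)))) (nR R) i j :=
          mt_off (AA_adm hβ hwm) (nR R) i j hij
        rw [hGm, Matrix.sub_apply, Matrix.smul_apply, smul_eq_mul] at h1
        exact h1) s hs le_rfl
    have q2 : ∫ u in (0:ℝ)..1, (C R * exp ((1 - u) • G R) * C R * exp (u • G R)).trace =
        duh (G R) (C R) 0 := by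
      unfold duh duI
      simp only [zero_smul, add_zero]
    rw [q2] at q1
    have p1 := task_pb (G R + s • C R) (-(s • C R))
      (by rw [Matrix.transpose_add, Matrix.transpose_smul, hGs, hCs])
      (by rw [Matrix.transpose_neg, Matrix.transpose_smul, hCs])
    have p2 := task_pb (G R - s • C R) (s • C R)
      (by rw [Matrix.transpose_sub, Matrix.transpose_smul, hGs, hCs])
      (by rw [Matrix.transpose_smul, hCs])
    rw [add_neg_cancel_right, Matrix.neg_mul, Matrix.smul_mul, Matrix.trace_neg,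
      Matrix.trace_smul, smul_eq_mul] at p1
    rw [sub_add_cancel, Matrix.smul_mul, Matrix.trace_smul, smul_eq_mul] at p2
    have e1 : -(s * (C R * exp (G R + s • C R)).trace) / (exp (G R + s • C R)).trace =
        -(s * cp R) := by
      simp only [hcp]
      rw [hGp]
      ring
    have e2 : s * (C R * exp (G R - s • C R)).trace / (exp (G R - s • C R)).trace =
        s * cm R := by
      simp only [hcm]
      rw [hGm]
      ring
    rw [e1] at p1
    rw [e2] at p2
    have f1 : (exp (G R + s • C R)).trace ≤ (exp (G R)).trace * Real.exp (s * cp R) := by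
      have := mul_le_mul_of_nonneg_right p1 (Real.exp_pos (s * cp R)).le
      rwa [mul_assoc, ← Real.exp_add, neg_add_cancel, Real.exp_zero, mul_one] at this
    have f2 : (exp (G R - s • C R)).trace ≤ (exp (G R)).trace * Real.exp (-(s * cm R)) := by
      have := mul_le_mul_of_nonneg_right p2 (Real.exp_pos (-(s * cm R))).le
      rwa [mul_assoc, ← Real.exp_add, add_neg_cancel, Real.exp_zero, mul_one] at this
    rw [duh_shift]
    simp only [hD]
    have hs2 : 0 < s ^ 2 := by positivity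
    have f3 : duh (G R) (C R) 0 ≤
        (exp (G R)).trace * ((Real.exp (s * cp R) + Real.exp (-(s * cm R)) - 2) / s ^ 2) := by
      rw [mul_div_assoc', le_div_iff₀ hs2]
      linarith
    linarith
  have lD : Tendsto D atTop (𝓝 (Z * ((Real.exp (s * gp) + Real.exp (-(s * gm)) - 2) / s ^ 2) -
      2 * g * WW (AA β U w) (eta a b) + g ^ 2 * Z)) := by
    refine Tendsto.add (Tendsto.sub (l0.mul (Tendsto.div_const (Tendsto.sub_const
      (Tendsto.add ?_ ?_) 2) _)) (l1.const_mul _)) (l0.const_mul _)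
    · exact (Real.continuous_exp.tendsto _).comp (lp.const_mul s)
    · exact (Real.continuous_exp.tendsto _).comp (lm.const_mul s).neg
  have hWe : WW (AA β U w) (eta a b) = g * Z := by
    rw [hg, div_mul_cancel₀ _ hZ.ne']
  have hW2 : WW (AA β U w) (2 • eta a b) = g2 * Z := by
    rw [hg2, div_mul_cancel₀ _ hZ.ne']
  -- the inequality of Falk and Bruch in the limit
  have hfb : ∀ᶠ R in atTop, (C R * C R * exp (G R)).trace - 2 * g * (C R * exp (G R)).trace +
      g ^ 2 * (exp (G R)).trace ≤ D R + Real.sqrt (D R * dcm (G R) (C R)) / 2 := by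
    filter_upwards [hduh] with R hR
    have h1 := falk_bruch (G R) (C R - g • 1) (hGs R)
      (by rw [Matrix.transpose_sub, Matrix.transpose_smul, hCs, Matrix.transpose_one])
    rw [sq_shift, dcm_shift] at h1
    have h2 := Real.sqrt_le_sqrt (mul_le_mul_of_nonneg_right hR h1.2.1)
    linarith [h1.2.2]
  have hlim := le_of_tendsto_of_tendsto
    (((l2.sub (l1.const_mul (2 * g))).add (l0.const_mul (g ^ 2))))
    (lD.add (((Real.continuous_sqrt.tendsto _).comp (lD.mul l3)).div_const 2)) hfb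
  rw [hWe, hW2] at hlim
  have hsq := task_sq_nonneg hβ hU hw (eta a b) (eta_charge a b)
  rw [hWe, hW2, ← hZd] at hsq
  -- conclusion
  set v0 := (Real.exp (s * gp) + Real.exp (-(s * gm)) - 2) / s ^ 2 - g ^ 2 with hv0d
  have e1 : Z * ((Real.exp (s * gp) + Real.exp (-(s * gm)) - 2) / s ^ 2) - 2 * g * (g * Z) +
      g ^ 2 * Z = Z * v0 := by
    rw [hv0d]
    ring
  rw [e1] at hlim
  have hM0 : 0 ≤ 2 * β * U * (Z - g2 * Z) := by
    have := WW_le hβ hU hw (2 • eta a b)
    rw [hW2, ← hZd] at this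
    have h2 : 0 ≤ Z - g2 * Z := by linarith
    positivity
  have hM1 : 2 * β * U * (Z - g2 * Z) ≤ 8 * β * U * (1 - g) * Z := by
    have h2 : Z - g2 * Z ≤ 4 * ((1 - g) * Z) := by linarith
    have h3 : 0 ≤ 2 * β * U := by positivity
    calc 2 * β * U * (Z - g2 * Z) ≤ 2 * β * U * (4 * ((1 - g) * Z)) :=
          mul_le_mul_of_nonneg_left h2 h3
      _ = _ := by ring
  have h1 : Z * v0 * (2 * β * U * (Z - g2 * Z)) ≤ Z ^ 2 * (v * (8 * β * U * (1 - g))) := by
    calc Z * v0 * (2 * β * U * (Z - g2 * Z)) ≤ Z * v * (2 * β * U * (Z - g2 * Z)) :=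
          mul_le_mul_of_nonneg_right (mul_le_mul_of_nonneg_left hvb hZ.le) hM0
      _ ≤ Z * v * (8 * β * U * (1 - g) * Z) :=
          mul_le_mul_of_nonneg_left hM1 (mul_nonneg hZ.le hv0)
      _ = _ := by ring
  have h2 := Real.sqrt_le_sqrt h1
  rw [Real.sqrt_mul (sq_nonneg Z), Real.sqrt_sq hZ.le] at h2
  have h3 : Z * ((1 + g2) / 2 - g ^ 2) ≤
      Z * (v + Real.sqrt (v * (8 * β * U * (1 - g))) / 2) := by
    have h4 : Z * v0 ≤ Z * v := mul_le_mul_of_nonneg_left hvb hZ.le
    calc Z * ((1 + g2) / 2 - g ^ 2) = (Z + g2 * Z) / 2 - 2 * g * (g * Z) + g ^ 2 * Z := by ring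
      _ ≤ Z * v0 + Real.sqrt (Z * v0 * (2 * β * U * (Z - g2 * Z))) / 2 := hlim
      _ ≤ Z * v + Z * Real.sqrt (v * (8 * β * U * (1 - g))) / 2 := by linarith
      _ = _ := by ring
  exact le_of_mul_le_mul_left h3 hZ

end Pool.Agent.H993.LY.P13
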