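import Mathlib
import Pool.Agent.H993.LY.Base

/-!
# Task 15a: the crude bound for the energy of one edge
-/

namespace Pool.Agent.H993.LY.P15a

open Filter Topology NormedSpace Matrix MeasureTheory
open Pool.Agent.H993.TR Pool.Agent.H993.LY
open Pool.Agent.N157
open Pool.Agent.N657.QR (ee nnw lam)
open Pool.Agent.N157.QR_FOU (ps ps_add ps_neg ps_re ps_zero norm_ps dot dot_add dot_sub dot_ee lam_pos)

/-- The symbol of the Laplacian with the real parts of the characters. -/
theorem lam_eq {d L : ℕ} [NeZero L] (k : Fin d → ZMod L) :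
    lam k = ∑ i, (2 - 2 * (ps (k i)).re) := by
  unfold lam
  exact Finset.sum_congr rfl fun i _ => by rw [ps_re]

theorem ps_re_le {L : ℕ} [NeZero L] (a : ZMod L) : (ps a).re ≤ 1 := by
  have := Complex.re_le_norm (ps a)
  rwa [norm_ps] at this

theorem neg_le_ps_re {L : ℕ} [NeZero L] (a : ZMod L) : -1 ≤ (ps a).re := by
  have h1 := Complex.abs_re_le_norm (ps a)
  rw [norm_ps] at h1
  exact (abs_le.1 h1).1

/-- `lam k ≤ 4 d`. -/
theorem lam_le {d L : ℕ} [NeZero L] (k : Fin d → ZMod L) : lam k ≤ 4 * d := by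
  rw [lam_eq]
  refine (Finset.sum_le_sum fun i _ => (?_ : (2 - 2 * (ps (k i)).re) ≤ 4)).trans (le_of_eq ?_)
  · have := neg_le_ps_re (k i)
    linarith
  · rw [Finset.sum_const, Finset.card_univ, Fintype.card_fin, nsmul_eq_mul, mul_comm]

/-- `oc k (- e_i) ≤ lam k / 2`. -/
theorem oc_edge_le {d L : ℕ} [NeZero L] (k x : Fin d → ZMod L) (i : Fin d) :
    oc k (x - (x + ee i)) ≤ lam k / 2 := by
  have e1 : x - (x + ee i) = -ee i := by abel
  have e2 : dot k (-ee i) = -k i := by
    rw [← dot_ee k i]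
    have h := dot_sub k 0 (ee i)
    have h0 : dot k (0 : Fin d → ZMod L) = 0 := by simp [dot]
    rw [zero_sub, h0, zero_sub] at h
    exact h
  have e3 : oc k (x - (x + ee i)) = (2 - 2 * (ps (k i)).re) / 2 := by
    unfold oc
    rw [e1, e2, ps_neg, Complex.conj_re]
    ring
  rw [e3, lam_eq]
  refine div_le_div_of_nonneg_right ?_ zero_le_two
  refine Finset.single_le_sum (f := fun j => 2 - 2 * (ps (k j)).re) (fun j _ => ?_)
    (Finset.mem_univ i)
  have := ps_re_le (k j)
  show 0 ≤ 2 - 2 * (ps (k j)).re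
  linarith

/-- TASK 15a. -/
theorem task_edge {d L : ℕ} [NeZero L] {U J β : ℝ} (hL : Even L) (hU : 0 < U) (hJ : 0 < J)
    (hβ : 0 < β) (x : Fin d → ZMod L) (i : Fin d) :
    WW (NN d L β U J) 0 - WW (NN d L β U J) (eta x (x + ee i)) ≤
      (4 + 2 * Real.sqrt d) * (Real.sqrt (U / J) + 1 / (β * J)) * WW (NN d L β U J) 0 := by
  have hw : ∀ x y : Fin d → ZMod L, 0 ≤ nnw J x y := nnw_nonneg hJ.le
  have h := ptw_neutral (U := U) hL hU hJ hβ x (x + ee i)
  have hZ : 0 < WW (NN d L β U J) 0 := WW_zero_pos hβ hU hw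
  have e0 : WW (NN d L β U J) 0 = TI (rs (rotK β (U • (1 : Matrix (Fin d → ZMod L)
      (Fin d → ZMod L) ℝ)) (nnw J) 0) 0) id := WW_zero hβ hU hw
  have e1 : WW (NN d L β U J) (eta x (x + ee i)) = TI (rs (rotK β (U • (1 : Matrix
      (Fin d → ZMod L) (Fin d → ZMod L) ℝ)) (nnw J) 0) 0) (sh 0 x (x + ee i)) :=
    WW_eta hβ hU hw x (x + ee i)
  rw [← e0, ← e1] at h
  set Z := WW (NN d L β U J) 0 with hZd
  set W := WW (NN d L β U J) (eta x (x + ee i)) with hWd
  set n : ℝ := (Fintype.card (Fin d → ZMod L) : ℝ) with hn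
  have hn0 : 0 < n := by
    rw [hn]
    exact_mod_cast Fintype.card_pos
  have hsU : 0 ≤ Real.sqrt (U / J) := Real.sqrt_nonneg _
  set c : ℝ := 4 / (β * J) + 2 * Real.sqrt (U / J) * Real.sqrt d with hc
  have hc0 : 0 ≤ c := by positivity
  have hk : ∀ k ∈ (Finset.univ : Finset (Fin d → ZMod L)).erase 0,
      (8 / (β * J * lam k) + 2 * Real.sqrt (U / J) / Real.sqrt (lam k)) *
        oc k (x - (x + ee i)) ≤ c := by
    intro k hk
    have hl : 0 < lam k := lam_pos k (Finset.ne_of_mem_erase hk)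
    have hs : 0 < Real.sqrt (lam k) := Real.sqrt_pos.2 hl
    have hss : Real.sqrt (lam k) * Real.sqrt (lam k) = lam k := Real.mul_self_sqrt hl.le
    have hs2 : Real.sqrt (lam k) ≤ 2 * Real.sqrt d := by
      have h4 : Real.sqrt (4 * (d : ℝ)) = 2 * Real.sqrt d := by
        rw [Real.sqrt_mul (by norm_num), show (4 : ℝ) = 2 ^ 2 by norm_num,
          Real.sqrt_sq (by norm_num)]
      rw [← h4]
      exact Real.sqrt_le_sqrt (lam_le k)
    refine (mul_le_mul_of_nonneg_left (oc_edge_le k x i) (by positivity)).trans ?_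
    have e2 : (8 / (β * J * lam k) + 2 * Real.sqrt (U / J) / Real.sqrt (lam k)) * (lam k / 2) =
        4 / (β * J) + Real.sqrt (U / J) * Real.sqrt (lam k) := by
      have e3 : 2 * Real.sqrt (U / J) / Real.sqrt (lam k) * (lam k / 2) =
          Real.sqrt (U / J) * Real.sqrt (lam k) := by
        rw [div_mul_eq_mul_div, div_eq_iff hs.ne']
        linear_combination (-Real.sqrt (U / J)) * hss
      rw [add_mul, e3]
      congr 1
      field_simp
      ring
    rw [e2, hc]
    have := mul_le_mul_of_nonneg_left hs2 hsU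
    linarith
  have hsum : ∑ k ∈ (Finset.univ : Finset (Fin d → ZMod L)).erase 0,
      (8 / (β * J * lam k) + 2 * Real.sqrt (U / J) / Real.sqrt (lam k)) *
        oc k (x - (x + ee i)) ≤ n * c := by
    refine (Finset.sum_le_sum hk).trans ?_
    rw [Finset.sum_const, nsmul_eq_mul]
    refine mul_le_mul_of_nonneg_right ?_ hc0
    rw [hn]
    exact_mod_cast Finset.card_le_univ _
  have h2 : (Z - W) * n ≤ (c * Z) * n := by
    refine (h.trans (mul_le_mul_of_nonneg_right hsum hZ.le)).trans (le_of_eq ?_)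
    ring
  have h3 : Z - W ≤ c * Z := le_of_mul_le_mul_right h2 hn0
  refine h3.trans (mul_le_mul_of_nonneg_right ?_ hZ.le)
  rw [hc]
  have hb : 0 < 1 / (β * J) := by positivity
  have hsd : 0 ≤ Real.sqrt (d : ℝ) := Real.sqrt_nonneg _
  have e5 : 4 / (β * J) = 4 * (1 / (β * J)) := by ring
  rw [e5]
  nlinarith [mul_nonneg hsd hb.le, mul_nonneg hsU hsd]

end Pool.Agent.H993.LY.P15a
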