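import Mathlib
import Pool.Agent.H993.LY.P13
import Pool.Agent.H993.LY.P15a
import Pool.Agent.H993.LY.Base

/-!
# Task 15b of the project LY: the choice of the hopping (pigeonhole)
-/

set_option autoImplicit false
set_option linter.unusedSectionVars false

namespace Pool.Agent.H993.LY.P15b

open Pool.Agent.H993.LY.P13 (task_var)
open Pool.Agent.H993.LY.P15a (task_edge)

open Filter Topology NormedSpace Matrix MeasureTheory
open Pool.Agent.H993.TR Pool.Agent.H993.LY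
open Pool.Agent.N657.QR (ee nnw lam)

/-- The hopping with `δ` added on one (oriented) edge. -/
def addE {V : Type} [DecidableEq V] (w : V → V → ℝ) (a b : V) (δ : ℝ) (x y : V) : ℝ :=
  w x y + (if x = a ∧ y = b then δ else 0)

/-- the nearest neighbour correlation -/
noncomputable def gg {V : Type} [Fintype V] [DecidableEq V] (β U : ℝ) (w : V → V → ℝ) (x y : V) :
    ℝ := WW (AA β U w) (eta x y) / WW (AA β U w) 0

theorem gg_mono {V : Type} [Fintype V] [DecidableEq V] {β U : ℝ} (hβ : 0 < β) (hU : 0 < U)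
    {w₁ w₂ : V → V → ℝ} (hw₂ : ∀ x y, 0 ≤ w₂ x y) (hw : ∀ x y, w₂ x y ≤ w₁ x y) (x y : V) :
    gg β U w₂ x y ≤ gg β U w₁ x y := by
  have hw₁ : ∀ x y, 0 ≤ w₁ x y := fun x y => (hw₂ x y).trans (hw x y)
  have hpd : (U • (1 : Matrix V V ℝ)).PosDef := Matrix.PosDef.one.smul hU
  have h0 : ((U • (1 : Matrix V V ℝ)) - U • (1 : Matrix V V ℝ)).PosSemidef := by
    rw [sub_self]
    exact Matrix.PosSemidef.zero
  have h := cmp_sec hβ (0 : V → ℝ) h0 hpd hpd hw₂ hw 0 x y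
  have e1 := WW_eta hβ hU hw₁ x y
  have e2 := WW_eta hβ hU hw₂ x y
  have e3 := WW_zero hβ hU hw₁
  have e4 := WW_zero hβ hU hw₂
  unfold gg
  rw [div_le_div_iff₀ (WW_zero_pos hβ hU hw₂) (WW_zero_pos hβ hU hw₁), e1, e2, e3, e4]
  unfold AA
  rw [mul_comm]
  exact h

theorem gg_le_one {V : Type} [Fintype V] [DecidableEq V] {β U : ℝ} (hβ : 0 < β) (hU : 0 < U)
    {w : V → V → ℝ} (hw : ∀ x y, 0 ≤ w x y) (x y : V) : gg β U w x y ≤ 1 := by
  unfold gg
  rw [div_le_one (WW_zero_pos hβ hU hw)]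
  exact WW_le hβ hU hw _

variable {d L : ℕ} [NeZero L]

theorem gg_trn {β U J : ℝ} (hβ : 0 < β) (hU : 0 < U) (hJ : 0 ≤ J) (x : Fin d → ZMod L)
    (i : Fin d) : gg β U (nnw J : (Fin d → ZMod L) → (Fin d → ZMod L) → ℝ) x (x + ee i) =
      gg β U (nnw J : (Fin d → ZMod L) → (Fin d → ZMod L) → ℝ) 0 (ee i) := by
  unfold gg
  rw [WW_eta hβ hU (nnw_nonneg hJ), WW_eta hβ hU (nnw_nonneg hJ)]
  congr 1
  have h := TI_trn (L := L) hβ hU hJ 0 x 0 (ee i)
  rw [zero_add, add_comm (ee i) x] at h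
  exact h

theorem nnw_add (J δ : ℝ) (x y : Fin d → ZMod L) : nnw (J + δ) x y = nnw J x y + nnw δ x y := by
  unfold nnw
  rw [← Finset.sum_add_distrib]
  refine Finset.sum_congr rfl fun i _ => ?_
  split_ifs <;> simp

theorem nnw_ge {δ : ℝ} (hδ : 0 ≤ δ) (x : Fin d → ZMod L) (i : Fin d) :
    δ ≤ nnw δ x (x + ee i) := by
  unfold nnw
  have h := Finset.single_le_sum (f := fun j : Fin d => if x + ee i = x + ee j then δ else 0)
    (fun j _ => by split_ifs <;> simp [hδ]) (Finset.mem_univ i)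
  simpa using h

theorem ind_le {δ : ℝ} (hδ : 0 ≤ δ) (x : Fin d → ZMod L) (i : Fin d) (u v : Fin d → ZMod L) :
    (if u = x ∧ v = x + ee i then δ else 0) ≤ nnw δ u v := by
  split_ifs with h
  · obtain ⟨rfl, rfl⟩ := h
    exact nnw_ge hδ _ _
  · exact nnw_nonneg hδ u v

theorem ee_ne (hL : Even L) (x : Fin d → ZMod L) (i : Fin d) : x ≠ x + ee i := by
  intro h
  have h1 : (ee i : Fin d → ZMod L) = 0 := by
    have h2 : x + ee i = x + 0 := by rw [add_zero]; exact h.symm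
    exact add_left_cancel h2
  have h2 : (ee i : Fin d → ZMod L) i = 1 := by
    show (Pi.single i (1 : ZMod L) : Fin d → ZMod L) i = 1
    rw [Pi.single_eq_same]
  rw [h1] at h2
  have hL1 : 1 < L := by
    rcases hL with ⟨k, hk⟩
    have : L ≠ 0 := NeZero.ne L
    omega
  have : Fact (1 < L) := ⟨hL1⟩
  have h3 : (0 : ZMod L) = 1 := h2
  exact zero_ne_one h3

/-- the bound of one edge for all hoppings between `J / 2` and `J` -/
theorem edge_half {U J β t : ℝ} (hL : Even L) (hU : 0 < U) (hJ : 0 < J) (hβ : 0 < β)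
    (ht : J / 2 ≤ t) (x : Fin d → ZMod L) (i : Fin d) :
    1 - gg β U (nnw t : (Fin d → ZMod L) → (Fin d → ZMod L) → ℝ) x (x + ee i) ≤
      2 * (4 + 2 * Real.sqrt d) * (Real.sqrt (U / J) + 1 / (β * J)) := by
  have ht0 : 0 < t := lt_of_lt_of_le (by positivity) ht
  have h := task_edge (L := L) hL hU ht0 hβ x i
  have hW : 0 < WW (NN d L β U t) 0 := WW_zero_pos hβ hU (nnw_nonneg ht0.le)
  have h1 : 1 - gg β U (nnw t : (Fin d → ZMod L) → (Fin d → ZMod L) → ℝ) x (x + ee i) ≤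
      (4 + 2 * Real.sqrt d) * (Real.sqrt (U / t) + 1 / (β * t)) := by
    have e : 1 - gg β U (nnw t : (Fin d → ZMod L) → (Fin d → ZMod L) → ℝ) x (x + ee i) =
        (WW (NN d L β U t) 0 - WW (NN d L β U t) (eta x (x + ee i))) / WW (NN d L β U t) 0 := by
      rw [sub_div, div_self hW.ne']
      rfl
    rw [e, div_le_iff₀ hW]
    exact h
  refine h1.trans ?_
  have h2 : Real.sqrt (U / t) ≤ 2 * Real.sqrt (U / J) := by
    have e : 2 * Real.sqrt (U / J) = Real.sqrt (2 ^ 2 * (U / J)) := by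
      rw [Real.sqrt_mul (by positivity), Real.sqrt_sq (by norm_num)]
    rw [e]
    apply Real.sqrt_le_sqrt
    rw [div_le_iff₀ ht0]
    calc U = 2 ^ 2 * (U / J) * (J / 4) := by field_simp; norm_num
      _ ≤ 2 ^ 2 * (U / J) * t := by
        apply mul_le_mul_of_nonneg_left _ (by positivity)
        linarith
  have h3 : 1 / (β * t) ≤ 2 * (1 / (β * J)) := by
    rw [div_le_iff₀ (by positivity)]
    calc (1 : ℝ) = 2 * (1 / (β * J)) * (β * (J / 2)) := by field_simp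
      _ ≤ 2 * (1 / (β * J)) * (β * t) := by
        apply mul_le_mul_of_nonneg_left _ (by positivity)
        exact mul_le_mul_of_nonneg_left ht hβ.le
  calc (4 + 2 * Real.sqrt d) * (Real.sqrt (U / t) + 1 / (β * t)) ≤
      (4 + 2 * Real.sqrt d) * (2 * Real.sqrt (U / J) + 2 * (1 / (β * J))) :=
        mul_le_mul_of_nonneg_left (add_le_add h2 h3) (by positivity)
    _ = _ := by ring

/-- one edge, from the bound on the increments -/
theorem one_edge {U J β J' δ a b Δ s C1 : ℝ} (hL : Even L) (hU : 0 < U) (hJ : 0 < J) (hβ : 0 < β)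
    (hδ : 0 < δ) (hJ1 : J / 2 ≤ J' - δ) (hs : s = β * δ) (hs1 : s ≤ 1)
    (hδJ : δ ≤ J') (hb : b = 1 / (β * J)) (ha : a = Real.sqrt (U / J) + b) (hC1 : 0 ≤ C1)
    (hv : Δ * (1 + s) / s + 10 * s ≤ C1 * a * b)
    (x : Fin d → ZMod L) (i : Fin d)
    (hinc : gg β U (nnw (J' + δ) : (Fin d → ZMod L) → (Fin d → ZMod L) → ℝ) 0 (ee i) -
      gg β U (nnw (J' - δ) : (Fin d → ZMod L) → (Fin d → ZMod L) → ℝ) 0 (ee i) ≤ Δ) :
    3 / 2 * WW (NN d L β U J') 0 - 2 * WW (NN d L β U J') (eta x (x + ee i)) +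
        WW (NN d L β U J') (2 • eta x (x + ee i)) / 2 ≤
      (C1 + 2 * Real.sqrt (C1 * (4 + 2 * Real.sqrt d)) + 4 * (4 + 2 * Real.sqrt d) ^ 2) * a ^ 2 *
        WW (NN d L β U J') 0 := by
  have hJ'δ : 0 ≤ J' - δ := le_trans (by positivity) hJ1
  have hJ'0 : 0 ≤ J' := by linarith
  have hs0 : 0 < s := by rw [hs]; positivity
  have hb0 : 0 < b := by rw [hb]; positivity
  have hr0 : 0 ≤ Real.sqrt (U / J) := Real.sqrt_nonneg _
  have ha0 : 0 < a := by rw [ha]; positivity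
  have hba : b ≤ a := by rw [ha]; linarith
  have hsβ : s / β = δ := by rw [hs]; field_simp
  set cd : ℝ := 4 + 2 * Real.sqrt d with hcd
  have hcd0 : 0 ≤ cd := by rw [hcd]; positivity
  set w : (Fin d → ZMod L) → (Fin d → ZMod L) → ℝ := nnw J' with hwd
  have hw : ∀ x y, 0 ≤ w x y := nnw_nonneg hJ'0
  have hZ : 0 < WW (AA β U w) 0 := WW_zero_pos hβ hU hw
  set g : ℝ := gg β U w x (x + ee i) with hg
  set g2 : ℝ := WW (AA β U w) (2 • eta x (x + ee i)) / WW (AA β U w) 0 with hg2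
  set gp : ℝ := gg β U (addE w x (x + ee i) (s / β)) x (x + ee i) with hgp
  set gm : ℝ := gg β U (addE w x (x + ee i) (-(s / β))) x (x + ee i) with hgm
  -- monotonicity
  have hw2 : ∀ u v, 0 ≤ addE w x (x + ee i) (s / β) u v := fun u v => by
    unfold addE
    rw [hsβ]
    have := hw u v
    split_ifs <;> linarith
  have hpw : ∀ u v, addE w x (x + ee i) (s / β) u v ≤ nnw (J' + δ) u v := fun u v => by
    unfold addE
    rw [hsβ, nnw_add]
    exact add_le_add le_rfl (ind_le hδ.le x i u v)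
  have hmw : ∀ u v, nnw (J' - δ) u v ≤ addE w x (x + ee i) (-(s / β)) u v := fun u v => by
    have h1 : nnw J' u v = nnw (J' - δ) u v + nnw δ u v := by
      rw [← nnw_add, sub_add_cancel]
    have h2 := ind_le hδ.le x i u v
    unfold addE
    rw [hsβ, hwd, h1]
    split_ifs at h2 ⊢ <;> linarith
  have hgp1 : gp ≤ gg β U (nnw (J' + δ) : (Fin d → ZMod L) → (Fin d → ZMod L) → ℝ) 0 (ee i) := by
    rw [← gg_trn hβ hU (by linarith : 0 ≤ J' + δ) x i]
    exact gg_mono hβ hU hw2 hpw _ _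
  have hgm1 : gg β U (nnw (J' - δ) : (Fin d → ZMod L) → (Fin d → ZMod L) → ℝ) 0 (ee i) ≤ gm := by
    rw [← gg_trn hβ hU hJ'δ x i]
    exact gg_mono hβ hU (nnw_nonneg hJ'δ) hmw _ _
  have hΔ : gp - gm ≤ Δ := by linarith
  set v : ℝ := (gp - gm) * (1 + s) / s + 10 * s with hvd
  have hv1 : v ≤ C1 * a * b := by
    refine le_trans ?_ hv
    rw [hvd]
    have : (gp - gm) * (1 + s) / s ≤ Δ * (1 + s) / s := by
      apply div_le_div_of_nonneg_right _ hs0.le
      exact mul_le_mul_of_nonneg_right hΔ (by linarith)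
    linarith
  have hvar := task_var hβ hU hw x (x + ee i) (ee_ne hL x i) s hs0 hs1 (by
    rw [hs]
    apply mul_le_mul_of_nonneg_left _ hβ.le
    exact hδJ.trans (nnw_ge hJ'0 x i)) g g2 gp gm v rfl rfl rfl rfl rfl
  have hg1 : g ≤ 1 := gg_le_one hβ hU hw _ _
  have hg2' : 1 - g ≤ 2 * cd * a := by
    rw [ha, hb]
    exact edge_half hL hU hJ hβ (by linarith) x i
  have hUJ : U / J ≤ a ^ 2 := by
    have h1 : Real.sqrt (U / J) ^ 2 ≤ a ^ 2 := by
      apply pow_le_pow_left₀ hr0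
      rw [ha]
      linarith
    rwa [Real.sq_sqrt (by positivity)] at h1
  have hC1ab : 0 ≤ C1 * a * b := by positivity
  have hsq : v * (8 * β * U * (1 - g)) ≤ (4 * a ^ 2 * Real.sqrt (C1 * cd)) ^ 2 := by
    have h1 : v * (8 * β * U * (1 - g)) ≤ (C1 * a * b) * (8 * β * U * (2 * cd * a)) := by
      have h0 : 0 ≤ 8 * β * U * (1 - g) := mul_nonneg (by positivity) (by linarith)
      calc v * (8 * β * U * (1 - g)) ≤ (C1 * a * b) * (8 * β * U * (1 - g)) :=
            mul_le_mul_of_nonneg_right hv1 h0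
        _ ≤ _ := by
            apply mul_le_mul_of_nonneg_left _ hC1ab
            exact mul_le_mul_of_nonneg_left hg2' (by positivity)
    refine h1.trans ?_
    have h2 : (C1 * a * b) * (8 * β * U * (2 * cd * a)) = 16 * C1 * cd * a ^ 2 * (U / J) := by
      rw [hb]
      field_simp
      ring
    rw [h2, mul_pow, Real.sq_sqrt (by positivity)]
    calc 16 * C1 * cd * a ^ 2 * (U / J) ≤ 16 * C1 * cd * a ^ 2 * a ^ 2 :=
          mul_le_mul_of_nonneg_left hUJ (by positivity)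
      _ = _ := by ring
  have hsq2 : Real.sqrt (v * (8 * β * U * (1 - g))) ≤ 4 * a ^ 2 * Real.sqrt (C1 * cd) := by
    apply Real.sqrt_le_iff.2
    exact ⟨by positivity, hsq⟩
  have hab : C1 * a * b ≤ C1 * a ^ 2 := by
    rw [pow_two, ← mul_assoc]
    exact mul_le_mul_of_nonneg_left hba (by positivity)
  have h1g : (1 - g) ^ 2 ≤ 4 * cd ^ 2 * a ^ 2 := by
    calc (1 - g) ^ 2 ≤ (2 * cd * a) ^ 2 := pow_le_pow_left₀ (by linarith) hg2' 2
      _ = _ := by ring
  have hq : 3 / 2 - 2 * g + g2 / 2 ≤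
      (C1 + 2 * Real.sqrt (C1 * cd) + 4 * cd ^ 2) * a ^ 2 := by
    have e : 3 / 2 - 2 * g + g2 / 2 = ((1 + g2) / 2 - g ^ 2) + (1 - g) ^ 2 := by ring
    rw [e]
    nlinarith [hvar, hsq2, hab, h1g, hv1]
  have hfin : 3 / 2 * WW (AA β U w) 0 - 2 * WW (AA β U w) (eta x (x + ee i)) +
      WW (AA β U w) (2 • eta x (x + ee i)) / 2 = (3 / 2 - 2 * g + g2 / 2) * WW (AA β U w) 0 := by
    have e1 : WW (AA β U w) (eta x (x + ee i)) = g * WW (AA β U w) 0 := by
      rw [hg]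
      unfold gg
      rw [div_mul_cancel₀ _ hZ.ne']
    have e2 : WW (AA β U w) (2 • eta x (x + ee i)) = g2 * WW (AA β U w) 0 := by
      rw [hg2, div_mul_cancel₀ _ hZ.ne']
    rw [e1, e2]
    ring
  show 3 / 2 * WW (AA β U w) 0 - 2 * WW (AA β U w) (eta x (x + ee i)) +
      WW (AA β U w) (2 • eta x (x + ee i)) / 2 ≤ _
  rw [hfin]
  exact mul_le_mul_of_nonneg_right hq hZ.le

theorem task_pig (d : ℕ) (κ : ℝ) (hκ : 0 < κ) (hκ1 : κ ≤ 1 / 2) : ∃ C : ℝ, 0 < C ∧
    ∀ (L : ℕ) [NeZero L] (U J β : ℝ), Even L → 0 < U → 0 < J → 0 < β →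
      Real.sqrt (U / J) + 1 / (β * J) ≤ 1 →
      ∃ J' : ℝ, (1 - κ) * J ≤ J' ∧ J' ≤ J ∧ ∀ (x : Fin d → ZMod L) (i : Fin d),
        3 / 2 * WW (NN d L β U J') 0 - 2 * WW (NN d L β U J') (eta x (x + ee i)) +
          WW (NN d L β U J') (2 • eta x (x + ee i)) / 2 ≤
        C * (Real.sqrt (U / J) + 1 / (β * J)) ^ 2 * WW (NN d L β U J') 0 := by
  set cd : ℝ := 4 + 2 * Real.sqrt d with hcd
  have hcd0 : 0 < cd := by rw [hcd]; positivity
  set C1 : ℝ := 8 * d * cd / κ + 10 with hC1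
  have hC10 : 0 < C1 := by rw [hC1]; positivity
  refine ⟨C1 + 2 * Real.sqrt (C1 * cd) + 4 * cd ^ 2, by positivity, ?_⟩
  intro L _ U J β hL hU hJ hβ _
  set b : ℝ := 1 / (β * J) with hb
  set a : ℝ := Real.sqrt (U / J) + b with ha
  have hb0 : 0 < b := by rw [hb]; positivity
  have ha0 : 0 < a := by rw [ha]; positivity
  set J0 : ℝ := (1 - κ) * J with hJ0
  have hJ02 : J / 2 ≤ J0 := by rw [hJ0]; nlinarith
  obtain ⟨m, hm⟩ := exists_nat_gt (1 + β * κ * J + β * κ * J / (a * b))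
  have hp1 : 0 < β * κ * J := by positivity
  have hp2 : 0 < β * κ * J / (a * b) := by positivity
  have hm0 : (0 : ℝ) < m := by linarith
  have hm1 : 0 < m := by exact_mod_cast hm0
  set δ : ℝ := κ * J / (2 * m) with hδ
  have hδ0 : 0 < δ := by rw [hδ]; positivity
  set s : ℝ := β * δ with hs
  have hs' : s = β * κ * J / (2 * m) := by rw [hs, hδ]; ring
  have hs0 : 0 < s := by rw [hs]; positivity
  have hs1 : s ≤ 1 := by
    rw [hs', div_le_one (by positivity)]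
    linarith
  have hsab : s ≤ a * b := by
    rw [hs', div_le_iff₀ (by positivity)]
    have : β * κ * J = β * κ * J / (a * b) * (a * b) := by field_simp
    rw [this]
    have h1 : β * κ * J / (a * b) ≤ 2 * m := by linarith
    calc β * κ * J / (a * b) * (a * b) ≤ 2 * m * (a * b) :=
          mul_le_mul_of_nonneg_right h1 (by positivity)
      _ = a * b * (2 * m) := by ring
  have h2mδ : 2 * (m : ℝ) * δ = κ * J := by rw [hδ]; field_simp
  -- the increasing function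
  let h : ℝ → ℝ := fun t => ∑ i : Fin d,
    gg β U (nnw t : (Fin d → ZMod L) → (Fin d → ZMod L) → ℝ) 0 (ee i)
  have hh : ∀ t, h t = ∑ i : Fin d,
    gg β U (nnw t : (Fin d → ZMod L) → (Fin d → ZMod L) → ℝ) 0 (ee i) := fun t => rfl
  have hJm : 0 ≤ J0 + 2 * m * δ := by
    have : 0 ≤ 2 * (m : ℝ) * δ := by positivity
    linarith
  have htot : h (J0 + 2 * m * δ) - h (J0 + 2 * (0 : ℕ) * δ) ≤ 2 * d * cd * a := by
    have e0 : J0 + 2 * ((0 : ℕ) : ℝ) * δ = J0 := by simp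
    rw [e0, hh, hh, ← Finset.sum_sub_distrib]
    calc ∑ i : Fin d, (gg β U (nnw (J0 + 2 * m * δ) : (Fin d → ZMod L) → (Fin d → ZMod L) → ℝ)
          0 (ee i) - gg β U (nnw J0 : (Fin d → ZMod L) → (Fin d → ZMod L) → ℝ) 0 (ee i)) ≤
        ∑ _i : Fin d, 2 * cd * a := by
          refine Finset.sum_le_sum fun i _ => ?_
          have h1 : gg β U (nnw (J0 + 2 * m * δ) : (Fin d → ZMod L) → (Fin d → ZMod L) → ℝ)
              0 (ee i) ≤ 1 := gg_le_one hβ hU (nnw_nonneg hJm) _ _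
          have h2 := edge_half hL hU hJ hβ hJ02 (0 : Fin d → ZMod L) i
          rw [zero_add] at h2
          rw [ha, hb]
          linarith
      _ = 2 * d * cd * a := by
          rw [Finset.sum_const, Finset.card_univ, Fintype.card_fin, nsmul_eq_mul]
          ring
  obtain ⟨l, hl, hinc⟩ : ∃ l ∈ Finset.range m,
      h (J0 + 2 * ((l + 1 : ℕ) : ℝ) * δ) - h (J0 + 2 * (l : ℝ) * δ) ≤ 2 * d * cd * a / m := by
    apply Finset.exists_le_of_sum_le (Finset.nonempty_range_iff.2 hm1.ne')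
    rw [Finset.sum_range_sub (fun l : ℕ => h (J0 + 2 * (l : ℝ) * δ)), Finset.sum_const,
      Finset.card_range, nsmul_eq_mul, mul_div_cancel₀ _ hm0.ne']
    exact htot
  have hlm : (l : ℝ) + 1 ≤ m := by exact_mod_cast Finset.mem_range.1 hl
  have hl0 : (0 : ℝ) ≤ l := Nat.cast_nonneg l
  have hlδ : 0 ≤ (l : ℝ) * δ := by positivity
  have hlmδ : ((l : ℝ) + 1) * δ ≤ m * δ := mul_le_mul_of_nonneg_right hlm hδ0.le
  have hJκ : J = J0 + κ * J := by rw [hJ0]; ring
  have hJa : J0 ≤ J0 + (2 * l + 1) * δ := by linarith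
  have hJb : J0 + (2 * l + 1) * δ ≤ J := by linarith
  refine ⟨J0 + (2 * l + 1) * δ, hJa, hJb, fun x i => ?_⟩
  have e1 : J0 + (2 * (l : ℝ) + 1) * δ + δ = J0 + 2 * ((l + 1 : ℕ) : ℝ) * δ := by
    push_cast
    ring
  have e2 : J0 + (2 * (l : ℝ) + 1) * δ - δ = J0 + 2 * (l : ℝ) * δ := by ring
  have hδJ : δ ≤ J / 2 := by
    have : 2 * δ ≤ 2 * m * δ := by
      apply mul_le_mul_of_nonneg_right _ hδ0.le
      have : (1 : ℝ) ≤ m := by exact_mod_cast hm1
      linarith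
    rw [h2mδ] at this
    have hκJ : κ * J ≤ J / 2 := by nlinarith
    linarith
  have hJ02l : J / 2 ≤ J0 + 2 * (l : ℝ) * δ := by linarith
  have hδJ' : δ ≤ J0 + (2 * (l : ℝ) + 1) * δ := by linarith
  have hJl : 0 ≤ J0 + 2 * (l : ℝ) * δ := by linarith
  refine one_edge (Δ := 2 * d * cd * a / m) hL hU hJ hβ hδ0 (by rw [e2]; exact hJ02l) hs hs1
    hδJ' hb ha hC10.le ?_ x i ?_
  · -- the bound of v
    have h1 : 2 * d * cd * a / m * (1 + s) / s = 2 * d * cd * a * (1 + s) * (2 * b / κ) := by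
      rw [hs', hb]
      field_simp
    rw [h1]
    have h2 : 2 * d * cd * a * (1 + s) * (2 * b / κ) ≤ 2 * d * cd * a * (1 + 1) * (2 * b / κ) := by
      apply mul_le_mul_of_nonneg_right _ (by positivity)
      apply mul_le_mul_of_nonneg_left _ (by positivity)
      linarith
    have h3 : 2 * d * cd * a * (1 + 1) * (2 * b / κ) = 8 * d * cd / κ * a * b := by ring
    have h4 : C1 * a * b = 8 * d * cd / κ * a * b + 10 * (a * b) := by rw [hC1]; ring
    rw [h4]
    linarith [h2, h3, hsab]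
  · rw [e1, e2]
    refine le_trans ?_ hinc
    rw [hh, hh, ← Finset.sum_sub_distrib]
    refine Finset.single_le_sum (f := fun i : Fin d =>
      gg β U (nnw (J0 + 2 * ((l + 1 : ℕ) : ℝ) * δ) : (Fin d → ZMod L) → (Fin d → ZMod L) → ℝ)
        0 (ee i) -
      gg β U (nnw (J0 + 2 * (l : ℝ) * δ) : (Fin d → ZMod L) → (Fin d → ZMod L) → ℝ) 0 (ee i))
      (fun j _ => ?_) (Finset.mem_univ i)
    have : gg β U (nnw (J0 + 2 * (l : ℝ) * δ) : (Fin d → ZMod L) → (Fin d → ZMod L) → ℝ)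
        0 (ee j) ≤ gg β U (nnw (J0 + 2 * ((l + 1 : ℕ) : ℝ) * δ) :
          (Fin d → ZMod L) → (Fin d → ZMod L) → ℝ) 0 (ee j) := by
      apply gg_mono hβ hU (nnw_nonneg hJl)
      intro u v
      have e : J0 + 2 * ((l + 1 : ℕ) : ℝ) * δ = (J0 + 2 * (l : ℝ) * δ) + 2 * δ := by
        push_cast
        ring
      rw [e, nnw_add (J0 + 2 * (l : ℝ) * δ) (2 * δ) u v]
      have := nnw_nonneg (L := L) (d := d) (by positivity : 0 ≤ 2 * δ) u v
      linarith
    show 0 ≤ _ - _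
    linarith

end Pool.Agent.H993.LY.P15b
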