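import Mathlib
import Pool.Agent.H993.LY.P11
import Pool.Agent.H993.LY.Base2

/-!
# Dirichlet forms of the Fourier modes, and Plancherel (LY task 16), by helper297 for helper993
-/

set_option autoImplicit false
set_option linter.unusedSectionVars false

namespace Pool.Agent.H993.LY.P16

open Pool.Agent.H993.LY.P11 (task_psd)

open Filter Topology NormedSpace Matrix MeasureTheory
open Pool.Agent.H993.TR
open Pool.Agent.H993.LY
open Pool.Agent.N157.QR_FOU (BB)
open Pool.Agent.N657.QR (ee nnw lam lap)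

section dir

variable {d L : ℕ} [NeZero L]

theorem lap_mode (k : Fin d → ZMod L) (f : (Fin d → ZMod L) → ℝ)
    (hf : f = Pool.Agent.N157.QR_FOU.cc k ∨ f = Pool.Agent.N157.QR_FOU.ss k) (x : Fin d → ZMod L) :
    lap f x = lam k * f x := by
  rcases hf with rfl | rfl
  · exact Pool.Agent.N157.QR_FOU.lap_cc k x
  · exact Pool.Agent.N157.QR_FOU.lap_ss k x

theorem sum_shift (g : (Fin d → ZMod L) → ℝ) (i : Fin d) :
    ∑ x, g (x + ee i) = ∑ x, g x :=
  Fintype.sum_equiv (Equiv.addRight (ee i : Fin d → ZMod L)) _ _ (fun _ => rfl)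

theorem sum_shift' (g : (Fin d → ZMod L) → ℝ) (i : Fin d) :
    ∑ x, g (x - ee i) = ∑ x, g x :=
  Fintype.sum_equiv (Equiv.subRight (ee i : Fin d → ZMod L)) _ _ (fun _ => rfl)

theorem sum_lap (f : (Fin d → ZMod L) → ℝ) : ∑ x, lap f x = 0 := by
  unfold lap
  rw [Finset.sum_comm]
  refine Finset.sum_eq_zero fun i _ => ?_
  rw [Finset.sum_sub_distrib, Finset.sum_sub_distrib, sum_shift, sum_shift', ← Finset.mul_sum]
  ring

theorem sum_mode (k : Fin d → ZMod L) (hk : k ≠ 0) (f : (Fin d → ZMod L) → ℝ)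
    (hf : f = Pool.Agent.N157.QR_FOU.cc k ∨ f = Pool.Agent.N157.QR_FOU.ss k) : ∑ x, f x = 0 := by
  have h1 := sum_lap f
  rw [Finset.sum_congr rfl fun x _ => lap_mode k f hf x, ← Finset.mul_sum] at h1
  rcases mul_eq_zero.1 h1 with h | h
  · exact absurd h (Pool.Agent.N157.QR_FOU.lam_pos k hk).ne'
  · exact h

theorem dir_nn (J : ℝ) (f : (Fin d → ZMod L) → ℝ) :
    ∑ x, ∑ y, nnw J x y * (f x - f y) ^ 2 = J * ∑ x, f x * lap f x := by
  have h1 : ∀ x : Fin d → ZMod L, ∑ y, nnw J x y * (f x - f y) ^ 2 =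
      ∑ i, J * (f x - f (x + ee i)) ^ 2 := by
    intro x
    unfold nnw
    simp only [Finset.sum_mul]
    rw [Finset.sum_comm]
    refine Finset.sum_congr rfl fun i _ => ?_
    simp only [ite_mul, zero_mul]
    rw [Finset.sum_ite_eq' Finset.univ (x + ee i), if_pos (Finset.mem_univ _)]
  rw [Finset.sum_congr rfl fun x _ => h1 x, Finset.sum_comm]
  have h2 : ∀ i : Fin d, ∑ x, J * (f x - f (x + ee i)) ^ 2 =
      J * ∑ x, f x * (2 * f x - f (x + ee i) - f (x - ee i)) := by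
    intro i
    rw [← Finset.mul_sum]
    congr 1
    have e1 : ∑ x, f (x + ee i) ^ 2 = ∑ x, f x ^ 2 := sum_shift (fun x => f x ^ 2) i
    have e2 : ∑ x, f x * f (x - ee i) = ∑ x, f (x + ee i) * f x := by
      have := sum_shift (fun x => f x * f (x - ee i)) i
      rw [← this]
      refine Finset.sum_congr rfl fun x _ => ?_
      rw [add_sub_cancel_right]
    have e3 : ∀ x, (f x - f (x + ee i)) ^ 2 = f x ^ 2 + f (x + ee i) ^ 2 -
        2 * (f (x + ee i) * f x) := fun x => by ring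
    have e4 : ∀ x, f x * (2 * f x - f (x + ee i) - f (x - ee i)) =
        2 * f x ^ 2 - f (x + ee i) * f x - f x * f (x - ee i) := fun x => by ring
    rw [Finset.sum_congr rfl fun x _ => e3 x, Finset.sum_congr rfl fun x _ => e4 x,
      Finset.sum_sub_distrib, Finset.sum_sub_distrib, Finset.sum_sub_distrib,
      Finset.sum_add_distrib, e1, e2, ← Finset.mul_sum, ← Finset.mul_sum]
    ring
  rw [Finset.sum_congr rfl fun i _ => h2 i, ← Finset.mul_sum, Finset.sum_comm]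
  congr 1
  refine Finset.sum_congr rfl fun x _ => ?_
  unfold lap
  rw [Finset.mul_sum]

theorem dir_mf {V : Type} [Fintype V] (f : V → ℝ) (hf : ∑ x, f x = 0) :
    ∑ x, ∑ y, (f x - f y) ^ 2 = 2 * Fintype.card V * ∑ x, f x ^ 2 := by
  have h1 : ∀ x, ∑ y, (f x - f y) ^ 2 = Fintype.card V * f x ^ 2 + ∑ y, f y ^ 2 := by
    intro x
    have h2 : ∀ y, (f x - f y) ^ 2 = f x ^ 2 - 2 * f x * f y + f y ^ 2 := fun y => by ring
    rw [Finset.sum_congr rfl fun y _ => h2 y, Finset.sum_add_distrib, Finset.sum_sub_distrib,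
      ← Finset.mul_sum, hf, Finset.sum_const, Finset.card_univ, nsmul_eq_mul]
    ring
  rw [Finset.sum_congr rfl fun x _ => h1 x, Finset.sum_add_distrib, ← Finset.mul_sum,
    Finset.sum_const, Finset.card_univ, nsmul_eq_mul]
  ring

/-- TASK 16a. The Dirichlet form of the modes. -/
theorem task_dir {d L : ℕ} [NeZero L] (J γ : ℝ) (k : Fin d → ZMod L) (hk : k ≠ 0)
    (f : (Fin d → ZMod L) → ℝ)
    (hf : f = Pool.Agent.N157.QR_FOU.cc k ∨ f = Pool.Agent.N157.QR_FOU.ss k) :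
    ∑ x, ∑ y, wgm J γ x y * (f x - f y) ^ 2 = (J * lam k + 2 * γ) * ∑ x, f x ^ 2 := by
  have hn : (Fintype.card (Fin d → ZMod L) : ℝ) ≠ 0 := by
    exact_mod_cast (Fintype.card_pos (α := Fin d → ZMod L)).ne'
  have h1 : ∑ x, ∑ y, wgm J γ x y * (f x - f y) ^ 2 =
      ∑ x, ∑ y, nnw J x y * (f x - f y) ^ 2 +
        γ / (Fintype.card (Fin d → ZMod L) : ℝ) * ∑ x, ∑ y, (f x - f y) ^ 2 := by
    rw [Finset.mul_sum, ← Finset.sum_add_distrib]
    refine Finset.sum_congr rfl fun x _ => ?_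
    rw [Finset.mul_sum, ← Finset.sum_add_distrib]
    refine Finset.sum_congr rfl fun y _ => ?_
    unfold wgm
    ring
  rw [h1, dir_nn, dir_mf f (sum_mode k hk f hf)]
  have h2 : ∑ x, f x * lap f x = lam k * ∑ x, f x ^ 2 := by
    rw [Finset.mul_sum]
    refine Finset.sum_congr rfl fun x _ => ?_
    rw [lap_mode k f hf x]
    ring
  rw [h2]
  field_simp

end dir

/-- nonnegativity of the quadratic form. -/
theorem BB_nonneg {d L : ℕ} [NeZero L] {β U : ℝ} (hβ : 0 < β) (hU : 0 < U)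
    {w : (Fin d → ZMod L) → (Fin d → ZMod L) → ℝ} (hw : ∀ x y, 0 ≤ w x y)
    (f : (Fin d → ZMod L) → ℝ) : 0 ≤ BB (fun x y => WW (AA β U w) (eta x y)) f := by
  have h1 := task_psd hβ hU hw f
    (fun x : Fin d → ZMod L => (Pi.single x 1 - Pi.single 0 1 : (Fin d → ZMod L) → ℤ))
    (fun x => by simp)
  have h2 : ∀ x y : Fin d → ZMod L, (Pi.single x 1 - Pi.single 0 1 : (Fin d → ZMod L) → ℤ) -
      (Pi.single y 1 - Pi.single 0 1) = eta x y := by
    intro x y
    unfold eta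
    abel
  simp only [h2] at h1
  exact h1

/-- TASK 16b. Plancherel: `depl A` is the mean of the modes `k ≠ 0`, and the modes are nonnegative. -/
theorem task_modes {d L : ℕ} [NeZero L] {β U : ℝ} (hβ : 0 < β) (hU : 0 < U)
    {w : (Fin d → ZMod L) → (Fin d → ZMod L) → ℝ} (hw : ∀ x y, 0 ≤ w x y) :
    (∀ k, 0 ≤ TT (AA β U w) k) ∧
    ∑ k ∈ (Finset.univ : Finset (Fin d → ZMod L)).erase 0, TT (AA β U w) k =
      (Fintype.card (Fin d → ZMod L) : ℝ) ^ 2 * WW (AA β U w) 0 * depl (AA β U w) := by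
  refine ⟨fun k => add_nonneg (BB_nonneg hβ hU hw _) (BB_nonneg hβ hU hw _), ?_⟩
  have hn : (Fintype.card (Fin d → ZMod L) : ℝ) ≠ 0 := by
    exact_mod_cast (Fintype.card_pos (α := Fin d → ZMod L)).ne'
  have hZ : WW (AA β U w) 0 ≠ 0 := (WW_zero_pos hβ hU hw).ne'
  set G : (Fin d → ZMod L) → (Fin d → ZMod L) → ℝ := fun x y => WW (AA β U w) (eta x y) with hG
  have hp := Pool.Agent.N157.QR_FOU.planch G
  have hGx : ∀ x, G x x = WW (AA β U w) 0 := by
    intro x
    simp only [hG]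
    congr 1
    unfold eta
    simp
  have h0 : ∀ x : Fin d → ZMod L, Pool.Agent.N157.QR_FOU.cc 0 x = 1 ∧
      Pool.Agent.N157.QR_FOU.ss 0 x = 0 := by
    intro x
    unfold Pool.Agent.N157.QR_FOU.cc Pool.Agent.N157.QR_FOU.ss
    have : Pool.Agent.N157.QR_FOU.dot (0 : Fin d → ZMod L) x = 0 := by
      simp [Pool.Agent.N157.QR_FOU.dot]
    rw [this, Pool.Agent.N157.QR_FOU.ps_zero]
    simp
  have hB0 : BB G (Pool.Agent.N157.QR_FOU.cc 0) + BB G (Pool.Agent.N157.QR_FOU.ss 0) =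
      ∑ x, ∑ y, G x y := by
    unfold BB
    have e1 : ∑ x, ∑ y, Pool.Agent.N157.QR_FOU.ss 0 x * Pool.Agent.N157.QR_FOU.ss 0 y * G x y
        = 0 := by
      refine Finset.sum_eq_zero fun x _ => Finset.sum_eq_zero fun y _ => ?_
      rw [(h0 x).2]
      ring
    rw [e1, add_zero]
    refine Finset.sum_congr rfl fun x _ => Finset.sum_congr rfl fun y _ => ?_
    rw [(h0 x).1, (h0 y).1]
    ring
  rw [← Finset.add_sum_erase Finset.univ _ (Finset.mem_univ (0 : Fin d → ZMod L)), hB0] at hp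
  have hsum : ∑ x, G x x = Fintype.card (Fin d → ZMod L) * WW (AA β U w) 0 := by
    rw [Finset.sum_congr rfl fun x _ => hGx x, Finset.sum_const, Finset.card_univ, nsmul_eq_mul]
  rw [hsum] at hp
  have hT : ∑ k ∈ (Finset.univ : Finset (Fin d → ZMod L)).erase 0, TT (AA β U w) k =
      ∑ k ∈ (Finset.univ : Finset (Fin d → ZMod L)).erase 0,
        (BB G (Pool.Agent.N157.QR_FOU.cc k) + BB G (Pool.Agent.N157.QR_FOU.ss k)) := rfl
  have hd : depl (AA β U w) = 1 - (∑ x, ∑ y, G x y) /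
      ((Fintype.card (Fin d → ZMod L) : ℝ) ^ 2 * WW (AA β U w) 0) := rfl
  rw [hT, hd, mul_sub, mul_one, mul_div_cancel₀ _ (mul_ne_zero (pow_ne_zero 2 hn) hZ)]
  linear_combination hp

end Pool.Agent.H993.LY.P16
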