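import Mathlib
import Pool.Agent.H993.TR.Sec

/-!
# Gaussian domination for the offsets, in the sector of charge zero
-/

namespace Pool.Agent.H993.LY.P9

open Filter Topology NormedSpace Matrix
open scoped Kronecker MatrixOrder ComplexOrder
open Pool.Agent.H993.TR

variable {V : Type} [Fintype V] [DecidableEq V]

section ops

variable (β : ℝ) (K : Matrix V V ℝ) (w : V → V → ℝ) (Δ : Finset (V → ℤ))

/-- The diagonal part. -/
noncomputable def aN (μ : V → ℝ) : Matrix Δ Δ ℝ :=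
  diagonal fun p => -(β / 2 * ∑ x, ∑ y, K x y * ((p.1 x - μ x) * (p.1 y - μ y)))

/-- The coupling of the two replicas. -/
noncomputable def bN : Matrix (Δ × Δ) (Δ × Δ) ℝ :=
  ∑ x, ∑ y, (2 * β * w x y) • (cM Δ x y ⊗ₖ cM Δ x y)

/-- The generator of the two replicas. -/
noncomputable def gN (μ₁ μ₂ : V → ℝ) : Matrix (Δ × Δ) (Δ × Δ) ℝ :=
  aN β K Δ μ₁ ⊗ₖ (1 : Matrix Δ Δ ℝ) + (1 : Matrix Δ Δ ℝ) ⊗ₖ aN β K Δ μ₂ + bN β w Δ

theorem gN_out (μ₁ μ₂ : V → ℝ) (u : Δ × Δ) (hu : u ∉ Set.range (ph Δ)) (z : RD Δ) :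
    gN β K w Δ μ₁ μ₂ u (ph Δ z) = 0 := by
  have hne : ∀ (X Y : Δ → ℝ), diagonal X u.1 (ph Δ z).1 * diagonal Y u.2 (ph Δ z).2 = 0 := by
    intro X Y
    by_cases h1 : u.1 = (ph Δ z).1
    · have h2 : u.2 ≠ (ph Δ z).2 := fun h2 => not_range Δ u hu z.1.1 z.1.2
        ⟨congrArg Subtype.val h1, congrArg Subtype.val h2⟩
      rw [Matrix.diagonal_apply_ne _ h2, mul_zero]
    · rw [Matrix.diagonal_apply_ne _ h1, zero_mul]
  have h1 : (aN β K Δ μ₁ ⊗ₖ (1 : Matrix Δ Δ ℝ)) u (ph Δ z) = 0 := by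
    rw [Matrix.kroneckerMap_apply, ← Matrix.diagonal_one]
    exact hne _ _
  have h2 : ((1 : Matrix Δ Δ ℝ) ⊗ₖ aN β K Δ μ₂) u (ph Δ z) = 0 := by
    rw [Matrix.kroneckerMap_apply, ← Matrix.diagonal_one]
    exact hne _ _
  have h4 : ∀ x y, (cM Δ x y ⊗ₖ cM Δ x y) u (ph Δ z) = 0 := by
    intro x y
    rw [Matrix.kroneckerMap_apply]
    exact (kin_out Δ x y u hu z).1
  unfold gN bN
  simp only [Matrix.add_apply, Matrix.sum_apply, Matrix.smul_apply, h1, h2, h4, smul_zero,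
    Finset.sum_const_zero, add_zero]

theorem gN_ph (ν₁ ν₂ : V → ℝ) (z z' : RD Δ) :
    gN β K w Δ (ν₁ + ν₂) (ν₁ - ν₂) (ph Δ z) (ph Δ z') =
      prodK (rotK β K w ν₁) (rotK β K w ν₂) z z' := by
  have h4 : ∀ x y, (cM Δ x y ⊗ₖ cM Δ x y) (ph Δ z) (ph Δ z') =
      (cosK x y z.1.1 z'.1.1 * (if z.1.2 = z'.1.2 then 1 else 0) +
        (if z.1.1 = z'.1.1 then 1 else 0) * cosK x y z.1.2 z'.1.2) / 2 := by
    intro x y
    rw [Matrix.kroneckerMap_apply]
    exact (kin_id Δ x y z z').1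
  have hkin : ∑ x, ∑ y, (2 * β * w x y) * ((cosK x y z.1.1 z'.1.1 *
        (if z.1.2 = z'.1.2 then 1 else 0) +
        (if z.1.1 = z'.1.1 then 1 else 0) * cosK x y z.1.2 z'.1.2) / 2) =
      (β * ∑ x, ∑ y, w x y * cosK x y z.1.1 z'.1.1) * (if z.1.2 = z'.1.2 then 1 else 0) +
      (if z.1.1 = z'.1.1 then 1 else 0) * (β * ∑ x, ∑ y, w x y * cosK x y z.1.2 z'.1.2) := by
    simp only [Finset.mul_sum, Finset.sum_mul]
    rw [← Finset.sum_add_distrib]
    refine Finset.sum_congr rfl fun x _ => ?_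
    rw [← Finset.sum_add_distrib]
    exact Finset.sum_congr rfl fun y _ => by ring
  -- the diagonal part
  have hdiag : (aN β K Δ (ν₁ + ν₂) ⊗ₖ (1 : Matrix Δ Δ ℝ)) (ph Δ z) (ph Δ z') +
      ((1 : Matrix Δ Δ ℝ) ⊗ₖ aN β K Δ (ν₁ - ν₂)) (ph Δ z) (ph Δ z') =
      (if z.1.1 = z'.1.1 then -(β * pot K ν₁ z.1.1) else 0) * (if z.1.2 = z'.1.2 then 1 else 0) +
      (if z.1.1 = z'.1.1 then 1 else 0) * (if z.1.2 = z'.1.2 then -(β * pot K ν₂ z.1.2) else 0) := by
    by_cases hz : z = z'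
    · subst hz
      simp only [Matrix.kroneckerMap_apply, Matrix.one_apply_eq, if_true, mul_one, one_mul, aN,
        Matrix.diagonal_apply_eq, ph, pot, Pi.add_apply, Pi.sub_apply]
      push_cast
      simp only [Finset.mul_sum, ← Finset.sum_neg_distrib]
      rw [← Finset.sum_add_distrib, ← Finset.sum_add_distrib]
      refine Finset.sum_congr rfl fun x _ => ?_
      rw [← Finset.sum_add_distrib, ← Finset.sum_add_distrib]
      exact Finset.sum_congr rfl fun y _ => by ring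
    · have hne : ∀ (X Y : Δ → ℝ), diagonal X (ph Δ z).1 (ph Δ z').1 *
          diagonal Y (ph Δ z).2 (ph Δ z').2 = 0 := by
        intro X Y
        by_cases h1 : (ph Δ z).1 = (ph Δ z').1
        · have h2 : (ph Δ z).2 ≠ (ph Δ z').2 := fun h2 => hz (ph_inj Δ (Prod.ext h1 h2))
          rw [Matrix.diagonal_apply_ne _ h2, mul_zero]
        · rw [Matrix.diagonal_apply_ne _ h1, zero_mul]
      have h1 : (aN β K Δ (ν₁ + ν₂) ⊗ₖ (1 : Matrix Δ Δ ℝ)) (ph Δ z) (ph Δ z') = 0 := by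
        rw [Matrix.kroneckerMap_apply, ← Matrix.diagonal_one]
        exact hne _ _
      have h2 : ((1 : Matrix Δ Δ ℝ) ⊗ₖ aN β K Δ (ν₁ - ν₂)) (ph Δ z) (ph Δ z') = 0 := by
        rw [Matrix.kroneckerMap_apply, ← Matrix.diagonal_one]
        exact hne _ _
      simp only [h1, h2, add_zero]
      by_cases h1 : z.1.1 = z'.1.1
      · have h2 : z.1.2 ≠ z'.1.2 := fun h2 => hz (Subtype.ext (Prod.ext h1 h2))
        simp [h2]
      · simp [h1]
  unfold gN bN prodK rotK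
  simp only [Matrix.add_apply, Matrix.sum_apply, Matrix.smul_apply, smul_eq_mul, h4]
  rw [hkin]
  linear_combination hdiag

theorem cone_gN {S : Type} [Fintype S] [DecidableEq S] (μ : S → V → ℝ) (hβ : 0 ≤ β)
    (hw : ∀ x y, 0 ≤ w x y) :
    Cone (fun s t : S => PM Δ * exp (gN β K w Δ (μ s) (μ t))) := by
  have h1 : Cone (fun (_ _ : S) => PM Δ) :=
    cone_of_sum (fun c : V → ZMod 2 => fun _ : S => pM Δ c)
  have h3 : Cone (fun (_ _ : S) => bN β w Δ) := by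
    unfold bN
    refine Cone.sum Finset.univ (M := fun x => fun (_ _ : S) => ∑ y,
      (2 * β * w x y) • (cM Δ x y ⊗ₖ cM Δ x y)) fun x _ => ?_
    refine Cone.sum Finset.univ (M := fun y => fun (_ _ : S) =>
      (2 * β * w x y) • (cM Δ x y ⊗ₖ cM Δ x y)) fun y _ => ?_
    exact (cone_kron (fun _ : S => cM Δ x y)).smul (by have := hw x y; positivity)
  exact h1.mul (cone_exp (fun s : S => aN β K Δ (μ s)) h3)

theorem trace_gN (ν₁ ν₂ : V → ℝ) :
    (PM Δ * exp (gN β K w Δ (ν₁ + ν₂) (ν₁ - ν₂))).trace =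
      TS (prodK (rotK β K w ν₁) (rotK β K w ν₂)) id (RD Δ) := by
  set A := prodK (rotK β K w ν₁) (rotK β K w ν₂) with hA
  have hexp : ∀ z z' : RD Δ, exp (gN β K w Δ (ν₁ + ν₂) (ν₁ - ν₂)) (ph Δ z) (ph Δ z') =
      exp (mt A (RD Δ)) z z' := fun z z' =>
    exp_emb _ (mt A (RD Δ)) (ph Δ) (ph_inj Δ)
      (fun z z' => gN_ph β K w Δ ν₁ ν₂ z z')
      (fun u hu z => gN_out β K w Δ (ν₁ + ν₂) (ν₁ - ν₂) u hu z) z z'
  set E := exp (gN β K w Δ (ν₁ + ν₂) (ν₁ - ν₂)) with hE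
  rw [PM_eq, TS_id]
  simp only [Matrix.trace, Matrix.diag_apply, Matrix.diagonal_mul]
  symm
  refine Fintype.sum_of_injective (ph Δ) (ph_inj Δ) _ _ ?_ ?_
  · intro u hu
    rw [if_neg, zero_mul]
    intro h
    have hex : ∀ a : V, ∃ k : ℤ, u.1.1 a + u.2.1 a = 2 * k := by
      intro a
      have h1 := h a
      have h2 : ((u.1.1 a + u.2.1 a : ℤ) : ZMod 2) = 0 := by
        push_cast
        rw [h1]
        exact CharTwo.add_self_eq_zero _
      exact (ZMod.intCast_zmod_eq_zero_iff_dvd _ 2).1 h2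
    choose k hk using hex
    refine not_range Δ u hu k (u.1.1 - k) ⟨?_, ?_⟩
    · funext a; simp
    · funext a
      have := hk a
      simp only [Pi.sub_apply]
      omega
  · intro z
    have hpar : ∀ a : V, (((ph Δ z).1.1 a : ℤ) : ZMod 2) = (((ph Δ z).2.1 a : ℤ) : ZMod 2) := by
      intro a
      unfold ph
      simp only [Pi.add_apply, Pi.sub_apply]
      push_cast
      rw [sub_eq_add_neg, ZMod.neg_eq_self_mod_two]
    rw [if_pos hpar, one_mul, hexp]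

/-- The doubling inequality in a finite region. -/
theorem dbl_region (hβ : 0 ≤ β) (hw : ∀ x y, 0 ≤ w x y) (ν : V → ℝ) :
    TS (prodK (rotK β K w ν) (rotK β K w ν)) id (RD Δ) ^ 2 ≤
      TS (prodK (rotK β K w (ν + ν)) (rotK β K w 0)) id (RD Δ) *
      TS (prodK (rotK β K w 0) (rotK β K w 0)) id (RD Δ) := by
  have h := (cone_gN β K w Δ (fun s : Bool => if s then 0 else ν + ν) hβ hw).trace_sq_le
    false true
  simp only [Bool.false_eq_true, if_false, if_true] at h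
  have e1 := trace_gN β K w Δ ν ν
  have e2 := trace_gN β K w Δ (ν + ν) 0
  have e3 := trace_gN β K w Δ 0 0
  simp only [sub_self, add_zero, sub_zero] at e1 e2 e3
  rwa [e1, e2, e3] at h

end ops

/-- Nonnegativity of the partition functions. -/
theorem TI_sec_nonneg {A : (V → ℤ) → (V → ℤ) → ℝ} (hA : Adm A) (hB : Bdd A) (N : ℤ) :
    0 ≤ TI (rs A N) id :=
  (TS_nonneg (rs_adm hA N) id ∅).trans
    (TS_le_TI (rs_adm hA N) (rs_bdd hA hB N) Function.injective_id _)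

/-- The doubling inequality. -/
theorem dbl {β : ℝ} (hβ : 0 < β) {K : Matrix V V ℝ} (hK : K.PosDef)
    {w : V → V → ℝ} (hw : ∀ x y, 0 ≤ w x y) (ν : V → ℝ) :
    TI (rs (rotK β K w ν) 0) id ^ 4 ≤
      TI (rs (rotK β K w (ν + ν)) 0) id * TI (rs (rotK β K w 0) 0) id ^ 3 := by
  have hAd : ∀ ν, Adm (rotK β K w ν) := fun ν => rotK_adm hβ.le K hw ν
  have hBd : ∀ ν, Bdd (rotK β K w ν) := fun ν => rotK_bdd' hβ hK hw ν
  set A := rotK β K w ν with hA
  set A2 := rotK β K w (ν + ν) with hA2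
  set A0 := rotK β K w 0 with hA0
  have key : ∀ R' : Finset (Sec V 0), TS (rs A 0) id R' ^ 4 ≤
      TI (rs A2 0) id * TI (rs A0 0) id ^ 3 := by
    intro R'
    rw [TS_rs_id]
    set R := R'.map (se V 0) with hR
    have hc : ∀ n ∈ R, ∑ x, n x = 0 := by
      intro n hn
      obtain ⟨z, _, rfl⟩ := Finset.mem_map.1 hn
      exact z.2
    set Δ : Finset (V → ℤ) := (R ×ˢ R).image (fun z => z.1 + z.2) ∪
      (R ×ˢ R).image (fun z => z.1 - z.2) with hΔ
    have hcΔ : ∀ n ∈ Δ, ∑ x, n x = 0 := by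
      intro n hn
      rw [hΔ, Finset.mem_union, Finset.mem_image, Finset.mem_image] at hn
      rcases hn with ⟨z, hz, rfl⟩ | ⟨z, hz, rfl⟩
      · have hz' := Finset.mem_product.1 hz
        simp only [Pi.add_apply, Finset.sum_add_distrib, hc _ hz'.1, hc _ hz'.2, add_zero]
      · have hz' := Finset.mem_product.1 hz
        simp only [Pi.sub_apply, Finset.sum_sub_distrib, hc _ hz'.1, hc _ hz'.2, sub_zero]
    have hsub : R ×ˢ R ⊆ RD Δ := by
      intro z hz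
      rw [mem_RD]
      exact ⟨Finset.mem_union_left _ (Finset.mem_image_of_mem (fun z => z.1 + z.2) hz),
        Finset.mem_union_right _ (Finset.mem_image_of_mem (fun z => z.1 - z.2) hz)⟩
    have hsub2 : RD Δ ⊆ (RD Δ).image Prod.fst ×ˢ (RD Δ).image Prod.snd := by
      intro z hz
      rw [Finset.mem_product]
      exact ⟨Finset.mem_image_of_mem _ hz, Finset.mem_image_of_mem _ hz⟩
    have hRD : ∀ z ∈ RD Δ, ∑ x, z.1 x = 0 ∧ ∑ x, z.2 x = 0 := by
      intro z hz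
      rw [mem_RD] at hz
      have e1 := hcΔ _ hz.1
      have e2 := hcΔ _ hz.2
      simp only [Pi.add_apply, Pi.sub_apply, Finset.sum_add_distrib,
        Finset.sum_sub_distrib] at e1 e2
      constructor <;> omega
    have hf : ∀ n ∈ (RD Δ).image Prod.fst, ∑ x, n x = 0 := by
      intro n hn
      obtain ⟨z, hz, rfl⟩ := Finset.mem_image.1 hn
      exact (hRD z hz).1
    have hg : ∀ n ∈ (RD Δ).image Prod.snd, ∑ x, n x = 0 := by
      intro n hn
      obtain ⟨z, hz, rfl⟩ := Finset.mem_image.1 hn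
      exact (hRD z hz).2
    have hid : (Prod.map id id : (V → ℤ) × (V → ℤ) → (V → ℤ) × (V → ℤ)) = id := Prod.map_id
    have hprod : ∀ ν₁ ν₂ : V → ℝ, TS (prodK (rotK β K w ν₁) (rotK β K w ν₂)) id (RD Δ) ≤
        TI (rs (rotK β K w ν₁) 0) id * TI (rs (rotK β K w ν₂) 0) id := by
      intro ν₁ ν₂
      have h3 := TS_mono (prodK_adm (hAd ν₁) (hAd ν₂)) id hsub2
      have h4 := TS_prod (rotK β K w ν₁) (rotK β K w ν₂) id id ((RD Δ).image Prod.fst)
        ((RD Δ).image Prod.snd)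
      rw [hid] at h4
      rw [h4] at h3
      refine h3.trans ?_
      by_cases hV : Nonempty V
      · obtain ⟨v⟩ := hV
        exact mul_le_mul (TS_le_sec (hAd ν₁) (hBd ν₁) 0 v v _ hf).2
          (TS_le_sec (hAd ν₂) (hBd ν₂) 0 v v _ hg).2 (TS_nonneg (hAd ν₂) _ _)
          (TI_sec_nonneg (hAd ν₁) (hBd ν₁) 0)
      · have hle : ∀ (ν : V → ℝ) (R : Finset (V → ℤ)), (∀ n ∈ R, ∑ x, n x = 0) →
            TS (rotK β K w ν) id R ≤ TI (rs (rotK β K w ν) 0) id := by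
          intro ν R hR
          have h1 : R = (R.subtype (fun n : V → ℤ => ∑ x, n x = 0)).map (se V 0) := by
            rw [← filter_eq_map, Finset.filter_true_of_mem hR]
          rw [h1, ← TS_rs_id]
          exact TS_le_TI (rs_adm (hAd ν) 0) (rs_bdd (hAd ν) (hBd ν) 0) Function.injective_id _
        exact mul_le_mul (hle ν₁ _ hf) (hle ν₂ _ hg) (TS_nonneg (hAd ν₂) _ _)
          (TI_sec_nonneg (hAd ν₁) (hBd ν₁) 0)
    have h1 : TS A id R * TS A id R ≤ TS (prodK A A) id (RD Δ) := by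
      have h4 := TS_prod A A id id R R
      rw [hid] at h4
      rw [← h4]
      exact TS_mono (prodK_adm (hAd ν) (hAd ν)) id hsub
    have h2 := dbl_region β K w Δ hβ.le hw ν
    rw [← hA, ← hA2, ← hA0] at h2
    have h3 := hprod (ν + ν) 0
    have h4 := hprod 0 0
    rw [← hA2, ← hA0] at h3
    rw [← hA0] at h4
    have h0 : 0 ≤ TS A id R := TS_nonneg (hAd ν) _ _
    calc TS A id R ^ 4 = (TS A id R * TS A id R) ^ 2 := by ring
      _ ≤ TS (prodK A A) id (RD Δ) ^ 2 := by gcongr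
      _ ≤ TS (prodK A2 A0) id (RD Δ) * TS (prodK A0 A0) id (RD Δ) := h2
      _ ≤ (TI (rs A2 0) id * TI (rs A0 0) id) * (TI (rs A0 0) id * TI (rs A0 0) id) := by
          refine mul_le_mul h3 h4 (TS_nonneg (prodK_adm (hAd 0) (hAd 0)) _ _) ?_
          exact mul_nonneg (TI_sec_nonneg (hAd _) (hBd _) 0) (TI_sec_nonneg (hAd _) (hBd _) 0)
      _ = _ := by ring
  exact le_of_tendsto' ((TS_tendsto (rs_adm (hAd ν) 0) (rs_bdd (hAd ν) (hBd ν) 0)
    Function.injective_id).pow 4) key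

/-- A bound which is uniform in the offsets. -/
theorem uni_bound {β : ℝ} (hβ : 0 < β) {K : Matrix V V ℝ} (hK : K.PosDef)
    {w : V → V → ℝ} (hw : ∀ x y, 0 ≤ w x y) :
    ∃ C : ℝ, ∀ ν : V → ℝ, TI (rs (rotK β K w ν) 0) id ≤ C := by
  obtain ⟨c, hc, hQ⟩ := Qf_low hK
  set κ : ℝ := β * c / 2 with hκ
  have hκ0 : 0 < κ := by positivity
  set N : ℝ := (Fintype.card V : ℝ) with hN
  set G : ℝ := ∑' n : V → ℤ, Real.exp (-(κ * ∑ x, (n x : ℝ) ^ 2)) with hG
  have hG0 : 0 ≤ G := tsum_nonneg fun _ => (Real.exp_pos _).le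
  refine ⟨Real.exp (β * ∑ x, ∑ y, w x y) * (Real.exp (2 * κ * N) * G), fun ν => ?_⟩
  have hAd : Adm (rotK β K w ν) := rotK_adm hβ.le K hw ν
  have hBd : Bdd (rotK β K w ν) := rotK_bdd' hβ hK hw ν
  refine le_of_tendsto' (TS_tendsto (rs_adm hAd 0) (rs_bdd hAd hBd 0) Function.injective_id)
    fun R' => ?_
  rw [TS_rs_id]
  set R := R'.map (se V 0) with hR
  have h1 := trace_le hAd (fun n => β * pot K ν n)
    (fun n m => β * ∑ x, ∑ y, w x y * cosK x y n m) (β * ∑ x, ∑ y, w x y)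
    (fun n m => rfl) (by
      intro n m
      exact mul_nonneg hβ.le (Finset.sum_nonneg fun x _ => Finset.sum_nonneg fun y _ =>
        mul_nonneg (hw x y) (cosK_nonneg x y n m))) (by
      intro n m
      congr 1
      exact Finset.sum_congr rfl fun x _ => Finset.sum_congr rfl fun y _ => by rw [cosK_symm]) (by
      intro R n
      rw [← Finset.mul_sum]
      refine mul_le_mul_of_nonneg_left ?_ hβ.le
      rw [Finset.sum_comm]
      refine Finset.sum_le_sum fun x _ => ?_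
      rw [Finset.sum_comm]
      refine Finset.sum_le_sum fun y _ => ?_
      rw [← Finset.mul_sum]
      have := mul_le_mul_of_nonneg_left (cosK_sum_le x y R n) (hw x y)
      linarith) R
  refine h1.trans (mul_le_mul_of_nonneg_left ?_ (Real.exp_pos _).le)
  -- the Gaussian sum
  set fl : V → ℤ := fun x => ⌊ν x⌋ with hfl
  have h2 : ∀ n : V → ℤ, Real.exp (-(β * pot K ν n)) ≤
      Real.exp (2 * κ * N) * Real.exp (-(κ * ∑ x, (((n - fl) x : ℤ) : ℝ) ^ 2)) := by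
    intro n
    rw [← Real.exp_add, Real.exp_le_exp]
    have h3 := hQ fun x => (n x : ℝ) - ν x
    have h4 : c * ∑ x, ((n x : ℝ) - ν x) ^ 2 ≤ pot K ν n := h3
    have h5 : (∑ x, (((n - fl) x : ℤ) : ℝ) ^ 2) / 2 - N ≤ ∑ x, ((n x : ℝ) - ν x) ^ 2 := by
      have h6 : N = ∑ _x : V, (1:ℝ) := by simp [hN]
      rw [h6, Finset.sum_div, ← Finset.sum_sub_distrib]
      refine Finset.sum_le_sum fun x _ => ?_
      have h7 := Int.floor_le (ν x)
      have h8 := Int.lt_floor_add_one (ν x)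
      simp only [Pi.sub_apply, hfl]
      push_cast
      set a : ℝ := (n x : ℝ) - ⌊ν x⌋ with ha
      set b : ℝ := ν x - ⌊ν x⌋ with hb
      have e1 : (n x : ℝ) - ν x = a - b := by rw [ha, hb]; ring
      have hb0 : 0 ≤ b := by rw [hb]; linarith
      have hb1 : b ≤ 1 := by rw [hb]; linarith
      rw [e1]
      nlinarith [sq_nonneg (a - 2 * b)]
    have h9 : β * (c * ((∑ x, (((n - fl) x : ℤ) : ℝ) ^ 2) / 2 - N)) ≤ β * pot K ν n := by
      refine mul_le_mul_of_nonneg_left (le_trans ?_ h4) hβ.le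
      exact mul_le_mul_of_nonneg_left h5 hc.le
    have h10 : β * (c * ((∑ x, (((n - fl) x : ℤ) : ℝ) ^ 2) / 2 - N)) =
        κ * (∑ x, (((n - fl) x : ℤ) : ℝ) ^ 2) - 2 * κ * N := by rw [hκ]; ring
    rw [h10] at h9
    linarith
  refine (Finset.sum_le_sum fun n _ => h2 n).trans ?_
  rw [← Finset.mul_sum]
  refine mul_le_mul_of_nonneg_left ?_ (Real.exp_pos _).le
  have h11 : ∑ n ∈ R, Real.exp (-(κ * ∑ x, (((n - fl) x : ℤ) : ℝ) ^ 2)) =
      ∑ n ∈ R.map (Equiv.subRight fl).toEmbedding, Real.exp (-(κ * ∑ x, (n x : ℝ) ^ 2)) :=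
    (Finset.sum_map R (Equiv.subRight fl).toEmbedding
      (fun n : V → ℤ => Real.exp (-(κ * ∑ x, (n x : ℝ) ^ 2)))).symm
  rw [h11]
  exact (summable_gauss (V := V) hκ0).sum_le_tsum _ fun _ _ => (Real.exp_pos _).le

/-- Gaussian domination for the offsets, general interaction. -/
theorem ngd {β : ℝ} (hβ : 0 < β) {K : Matrix V V ℝ} (hK : K.PosDef)
    {w : V → V → ℝ} (hw : ∀ x y, 0 ≤ w x y) (ν : V → ℝ) :
    TI (rs (rotK β K w ν) 0) id ≤ TI (rs (rotK β K w 0) 0) id := by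
  have hAd : ∀ ν, Adm (rotK β K w ν) := fun ν => rotK_adm hβ.le K hw ν
  have hBd : ∀ ν, Bdd (rotK β K w ν) := fun ν => rotK_bdd' hβ hK hw ν
  have : Nonempty (Sec V 0) := ⟨⟨0, by simp⟩⟩
  set Z : (V → ℝ) → ℝ := fun ν => TI (rs (rotK β K w ν) 0) id with hZ
  have hZ0 : 0 < Z 0 := TI_pos (rs_adm (hAd 0) 0) (rs_bdd (hAd 0) (hBd 0) 0)
  have hZn : ∀ ν, 0 ≤ Z ν := fun ν => TI_sec_nonneg (hAd ν) (hBd ν) 0
  obtain ⟨C, hC⟩ := uni_bound hβ hK hw
  set r : (V → ℝ) → ℝ := fun ν => Z ν / Z 0 with hr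
  have hr0 : ∀ ν, 0 ≤ r ν := fun ν => div_nonneg (hZn ν) hZ0.le
  have hr4 : ∀ ν, r ν ^ 4 ≤ r (ν + ν) := by
    intro ν
    have h := dbl hβ hK hw ν
    simp only [hr]
    rw [div_pow, div_le_div_iff₀ (by positivity) hZ0]
    have h' : Z ν ^ 4 ≤ Z (ν + ν) * Z 0 ^ 3 := h
    calc Z ν ^ 4 * Z 0 ≤ (Z (ν + ν) * Z 0 ^ 3) * Z 0 := mul_le_mul_of_nonneg_right h' hZ0.le
      _ = Z (ν + ν) * Z 0 ^ 4 := by ring
  have hrk : ∀ (k : ℕ) (ν : V → ℝ), r ν ^ (4 ^ k) ≤ C / Z 0 := by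
    intro k
    induction k with
    | zero =>
      intro ν
      rw [pow_zero, pow_one]
      exact div_le_div_of_nonneg_right (hC ν) hZ0.le
    | succ k ih =>
      intro ν
      rw [pow_succ, mul_comm, pow_mul]
      exact (pow_le_pow_left₀ (pow_nonneg (hr0 ν) 4) (hr4 ν) _).trans (ih (ν + ν))
  by_contra hcon
  push Not at hcon
  have h1 : 1 < r ν := by
    simp only [hr]
    rw [one_lt_div hZ0]
    exact hcon
  obtain ⟨k, hk⟩ := pow_unbounded_of_one_lt (C / Z 0) h1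
  have h2 : r ν ^ k ≤ r ν ^ (4 ^ k) :=
    pow_le_pow_right₀ h1.le (Nat.lt_pow_self (by norm_num : 1 < 4)).le
  linarith [hrk k ν]

/-- Task 9. -/
theorem task_ngd {V : Type} [Fintype V] [DecidableEq V] {β U : ℝ} (hβ : 0 < β) (hU : 0 < U)
    {w : V → V → ℝ} (hw : ∀ x y, 0 ≤ w x y) (ν : V → ℝ) :
    TI (rs (rotK β (U • (1 : Matrix V V ℝ)) w ν) 0) id ≤
      TI (rs (rotK β (U • (1 : Matrix V V ℝ)) w 0) 0) id :=
  ngd hβ (Matrix.PosDef.one.smul hU) hw ν

end Pool.Agent.H993.LY.P9
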