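import Mathlib
import Pool.Agent.H993.LY.P2
import Pool.Agent.H993.LY.P9
import Pool.Agent.H993.LY.Base

/-!
# LY task 14ab: Duhamel function and double commutator of `∑ f x n_x`
-/

namespace Pool.Agent.H993.LY.P14a

open Pool.Agent.H993.LY.P2 (task_qm_diag)
open Pool.Agent.H993.LY.P9 (task_ngd)

open Filter Topology NormedSpace Matrix MeasureTheory
open Pool.Agent.H993.TR Pool.Agent.H993.LY

variable {V : Type} [Fintype V] [DecidableEq V]

/-- The potential energy for the matrix `U`. -/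
theorem pot_smul_one (U : ℝ) (ν : V → ℝ) (n : V → ℤ) :
    pot (U • (1 : Matrix V V ℝ)) ν n = U * ∑ x, ((n x : ℝ) - ν x) ^ 2 := by
  unfold pot
  rw [Finset.mul_sum]
  refine Finset.sum_congr rfl fun x _ => ?_
  rw [Finset.sum_eq_single x]
  · simp only [Matrix.smul_apply, Matrix.one_apply_eq, smul_eq_mul]; ring
  · intro y _ hy
    simp [Matrix.one_apply_ne (Ne.symm hy)]
  · intro h; exact absurd (Finset.mem_univ x) h

/-- The tilted kernel. -/
theorem mt_tilt {β U : ℝ} (hβ : 0 < β) (hU : 0 < U) (w : V → V → ℝ) (f : V → ℝ) (s : ℝ)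
    (R : Finset (V → ℤ)) :
    mt (AA β U w) R + s • diagonal (fun n : R => ∑ x, f x * (n.1 x : ℝ)) =
      mt (rotK β (U • (1 : Matrix V V ℝ)) w (fun x => s * f x / (2 * β * U))) R +
        (s ^ 2 * (∑ x, f x ^ 2) / (4 * β * U)) • (1 : Matrix R R ℝ) := by
  ext n m
  simp only [Matrix.add_apply, Matrix.smul_apply, smul_eq_mul, Pool.Agent.H993.TR.mt, AA, rotK]
  by_cases h : n = m
  · subst h
    simp only [if_true, Matrix.diagonal_apply_eq, Matrix.one_apply_eq, pot_smul_one,
      Pi.zero_apply, sub_zero]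
    have h1 : ∑ x, ((n.1 x : ℝ) - s * f x / (2 * β * U)) ^ 2 =
        ∑ x, (n.1 x : ℝ) ^ 2 - s / (β * U) * ∑ x, f x * (n.1 x : ℝ) +
          s ^ 2 / (4 * β ^ 2 * U ^ 2) * ∑ x, f x ^ 2 := by
      rw [Finset.mul_sum, Finset.mul_sum, ← Finset.sum_sub_distrib, ← Finset.sum_add_distrib]
      refine Finset.sum_congr rfl fun x _ => ?_
      field_simp
      ring
    rw [h1]
    field_simp
    ring
  · have h' : (n : V → ℤ) ≠ m := fun h' => h (Subtype.ext h')
    simp only [if_neg h', Matrix.diagonal_apply_ne _ h, Matrix.one_apply_ne h]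
    ring

/-- The partition function in a region. -/
theorem trace_eq (A : (V → ℤ) → (V → ℤ) → ℝ) (R : Finset (Sec V 0)) :
    (exp (mt A (nR R))).trace = TS (rs A 0) id R := by
  rw [TS_rs_id, TS_id]
  rfl

theorem trace_le_Z {β U : ℝ} (hβ : 0 < β) (hU : 0 < U) {w : V → V → ℝ} (hw : ∀ x y, 0 ≤ w x y)
    (R : Finset (Sec V 0)) : (exp (mt (AA β U w) (nR R))).trace ≤ WW (AA β U w) 0 := by
  rw [trace_eq, WW_zero hβ hU hw]
  exact TS_le_TI (rs_adm (AA_adm hβ hw) 0) (rs_bdd (AA_adm hβ hw) (AA_bdd hβ hU hw) 0)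
    Function.injective_id R

theorem trace_tendsto {β U : ℝ} (hβ : 0 < β) (hU : 0 < U) {w : V → V → ℝ}
    (hw : ∀ x y, 0 ≤ w x y) :
    Tendsto (fun R => (exp (mt (AA β U w) (nR R))).trace) atTop (𝓝 (WW (AA β U w) 0)) := by
  simp only [trace_eq]
  rw [WW_zero hβ hU hw]
  exact TS_tendsto (rs_adm (AA_adm hβ hw) 0) (rs_bdd (AA_adm hβ hw) (AA_bdd hβ hU hw) 0)
    Function.injective_id

theorem trace_tilt {β U : ℝ} (hβ : 0 < β) (hU : 0 < U) {w : V → V → ℝ} (hw : ∀ x y, 0 ≤ w x y)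
    (f : V → ℝ) (s : ℝ) (R : Finset (Sec V 0)) :
    (exp (mt (AA β U w) (nR R) +
      s • diagonal (fun n : nR R => ∑ x, f x * (n.1 x : ℝ)))).trace ≤
      Real.exp (s ^ 2 * (∑ x, f x ^ 2) / (4 * β * U)) * WW (AA β U w) 0 := by
  rw [mt_tilt hβ hU, exp_add_smul_one, Matrix.trace_smul, smul_eq_mul]
  refine mul_le_mul_of_nonneg_left ?_ (Real.exp_pos _).le
  rw [trace_eq, WW_zero hβ hU hw]
  have hA := rotK_adm hβ.le (U • (1 : Matrix V V ℝ)) hw (fun x => s * f x / (2 * β * U))
  have hB := rotK_bdd' hβ (Matrix.PosDef.one.smul hU : (U • (1 : Matrix V V ℝ)).PosDef) hw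
    (fun x => s * f x / (2 * β * U))
  exact (TS_le_TI (rs_adm hA 0) (rs_bdd hA hB 0) Function.injective_id R).trans
    (task_ngd hβ hU hw _)

/-- TASK 14a. The Duhamel function of `∑ f x n_x`. -/
theorem task_duhn {β U : ℝ} (hβ : 0 < β) (hU : 0 < U) {w : V → V → ℝ} (hw : ∀ x y, 0 ≤ w x y)
    (f : V → ℝ) (ε : ℝ) (hε : 0 < ε) : ∀ᶠ R in atTop,
    duh (mt (AA β U w) (nR R)) (diagonal fun n => ∑ x, f x * (n.1 x : ℝ)) 0 ≤
      ((∑ x, f x ^ 2) / (2 * β * U) + ε) * WW (AA β U w) 0 := by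
  set Z := WW (AA β U w) 0 with hZ
  have hZ0 : 0 < Z := WW_zero_pos hβ hU hw
  set a : ℝ := (∑ x, f x ^ 2) / (4 * β * U) with ha
  have ha0 : 0 ≤ a := div_nonneg (Finset.sum_nonneg fun _ _ => sq_nonneg _) (by positivity)
  obtain ⟨t, ht, ht1, ht2⟩ : ∃ t : ℝ, 0 < t ∧ t * a ≤ 1 ∧ t * a ^ 2 ≤ ε / 4 := by
    refine ⟨min (1 / (a + 1)) (ε / 4 / (a ^ 2 + 1)), ?_, ?_, ?_⟩
    · exact lt_min (by positivity) (by positivity)
    · calc min (1 / (a + 1)) (ε / 4 / (a ^ 2 + 1)) * a ≤ 1 / (a + 1) * a :=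
            mul_le_mul_of_nonneg_right (min_le_left _ _) ha0
        _ ≤ 1 := by
            rw [div_mul_eq_mul_div, one_mul, div_le_one (by positivity)]
            linarith
    · calc min (1 / (a + 1)) (ε / 4 / (a ^ 2 + 1)) * a ^ 2
          ≤ ε / 4 / (a ^ 2 + 1) * a ^ 2 :=
            mul_le_mul_of_nonneg_right (min_le_right _ _) (sq_nonneg a)
        _ ≤ ε / 4 := by
            rw [div_mul_eq_mul_div, div_le_iff₀ (by positivity)]
            nlinarith [sq_nonneg a]
  have hexp : Real.exp (t * a) ≤ 1 + t * a + t * (ε / 4) := by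
    have h1 := Real.abs_exp_sub_one_sub_id_le (x := t * a) (by
      rw [abs_of_nonneg (by positivity)]; exact ht1)
    have h2 := (abs_le.1 h1).2
    have h3 : (t * a) ^ 2 ≤ t * (ε / 4) := by
      calc (t * a) ^ 2 = t * (t * a ^ 2) := by ring
        _ ≤ _ := mul_le_mul_of_nonneg_left ht2 ht.le
    linarith
  have hev : ∀ᶠ R in atTop, Z - t * (ε / 4) * Z < (exp (mt (AA β U w) (nR R))).trace := by
    refine (trace_tendsto hβ hU hw).eventually_const_lt ?_
    have : 0 < t * (ε / 4) * Z := by positivity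
    linarith
  filter_upwards [hev] with R hR
  set G := mt (AA β U w) (nR R) with hG
  set D : nR R → ℝ := fun n => ∑ x, f x * (n.1 x : ℝ) with hD
  have hs : 0 < Real.sqrt t := Real.sqrt_pos.2 ht
  have hst : Real.sqrt t ^ 2 = t := Real.sq_sqrt ht.le
  have h1 := task_qm_diag G D (mt_symm (AA_adm hβ hw) _) (mt_off (AA_adm hβ hw) _)
    (Real.sqrt t) hs
  have h2 : duh G (diagonal D) 0 = ∫ u in (0:ℝ)..1,
      (diagonal D * exp ((1 - u) • G) * diagonal D * exp (u • G)).trace := by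
    unfold duh duI
    simp only [zero_smul, add_zero]
  rw [← h2, hst] at h1
  have h3 : (exp (G + Real.sqrt t • diagonal D)).trace ≤ Real.exp (t * a) * Z := by
    have := trace_tilt hβ hU hw f (Real.sqrt t) R
    rw [hst] at this
    rw [ha, ← mul_div_assoc]
    exact this
  have h4 : (exp (G - Real.sqrt t • diagonal D)).trace ≤ Real.exp (t * a) * Z := by
    have := trace_tilt hβ hU hw f (-Real.sqrt t) R
    rw [neg_sq, hst, neg_smul, ← sub_eq_add_neg] at this
    rw [ha, ← mul_div_assoc]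
    exact this
  have h5 : t * duh G (diagonal D) 0 ≤ t * ((2 * a + ε) * Z) := by
    have h6 : Real.exp (t * a) * Z ≤ (1 + t * a + t * (ε / 4)) * Z :=
      mul_le_mul_of_nonneg_right hexp hZ0.le
    nlinarith
  have h7 := le_of_mul_le_mul_left h5 ht
  refine h7.trans (le_of_eq ?_)
  congr 2
  rw [ha]
  field_simp
  ring

/-- One direction of the hopping. -/
theorem hop_le {β U : ℝ} (hβ : 0 < β) (hU : 0 < U) {w : V → V → ℝ} (hw : ∀ x y, 0 ≤ w x y)
    (f : V → ℝ) (R : Finset (Sec V 0)) (x y : V) :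
    ∑ m : nR R, ∑ n : nR R, (∑ z, f z * (n.1 z : ℝ) - ∑ z, f z * (m.1 z : ℝ)) ^ 2 *
      (if (n : V → ℤ) = m + eta x y then 1 else 0) * exp (mt (AA β U w) (nR R)) m n ≤
      (f x - f y) ^ 2 * WW (AA β U w) 0 := by
  set A := AA β U w with hA
  have hAd : Adm A := AA_adm hβ hw
  have h1 : ∀ m n : nR R, (∑ z, f z * (n.1 z : ℝ) - ∑ z, f z * (m.1 z : ℝ)) ^ 2 *
      (if (n : V → ℤ) = m + eta x y then 1 else 0) * exp (mt A (nR R)) m n =
      (f x - f y) ^ 2 * (if (n : V → ℤ) = m + eta x y then EE A (nR R) m n else 0) := by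
    intro m n
    by_cases h : (n : V → ℤ) = m + eta x y
    · rw [if_pos h, if_pos h, mul_one, EE_eq]
      congr 2
      rw [← Finset.sum_sub_distrib, h]
      have h2 : ∀ z, f z * (((m : V → ℤ) + eta x y) z : ℤ) - f z * ((m : V → ℤ) z : ℝ) =
          (if z = x then f z else 0) - (if z = y then f z else 0) := by
        intro z
        simp only [eta, Pi.add_apply, Pi.sub_apply, Pi.single_apply]
        push_cast
        split_ifs <;> ring
      simp only [h2, Finset.sum_sub_distrib, Finset.sum_ite_eq', Finset.mem_univ, if_true]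
    · rw [if_neg h, if_neg h]; ring
  simp only [h1, ← Finset.mul_sum]
  refine mul_le_mul_of_nonneg_left ?_ (sq_nonneg _)
  have h3 : ∀ m : nR R, ∑ n : nR R, (if (n : V → ℤ) = m + eta x y then EE A (nR R) m n else 0) =
      EE A (nR R) (m + eta x y) m := by
    intro m
    rw [Finset.sum_coe_sort (nR R)
      (fun n => if n = (m : V → ℤ) + eta x y then EE A (nR R) m n else 0), Finset.sum_ite_eq']
    split_ifs with h
    · exact EE_symm hAd _ _ _
    · exact (EE_zero_left h).symm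
  simp only [h3]
  rw [Finset.sum_coe_sort (nR R) (fun m => EE A (nR R) (m + eta x y) m)]
  have h4 := TS_le hAd (σ := (· + eta x y)) (add_left_injective (eta x y)) (nR R)
  refine h4.trans ?_
  rw [TS_id]
  exact trace_le_Z hβ hU hw R

/-- TASK 14b. The double commutator of `∑ f x n_x`. -/
theorem task_dcmn {β U : ℝ} (hβ : 0 < β) (hU : 0 < U) {w : V → V → ℝ} (hw : ∀ x y, 0 ≤ w x y)
    (f : V → ℝ) (R : Finset (Sec V 0)) :
    dcm (mt (AA β U w) (nR R)) (diagonal fun n => ∑ x, f x * (n.1 x : ℝ)) ≤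
      β * (∑ x, ∑ y, w x y * (f x - f y) ^ 2) * WW (AA β U w) 0 := by
  set A := AA β U w with hA
  set G := mt A (nR R) with hG
  set D : nR R → ℝ := fun n => ∑ x, f x * (n.1 x : ℝ) with hD
  set E := exp G with hE
  set Z := WW A 0 with hZ
  have hAd : Adm A := AA_adm hβ hw
  have hEs : ∀ m n, E m n = E n m := by
    intro m n
    have := EE_symm hAd (nR R) m n
    rwa [EE_eq, EE_eq] at this
  have h1 : dcm G (diagonal D) = ∑ m, ∑ n, (D n - D m) ^ 2 * G n m * E m n := by
    unfold dcm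
    rw [Matrix.trace]
    simp only [Matrix.diag_apply, Matrix.mul_apply (N := exp G)]
    rw [Finset.sum_comm]
    refine Finset.sum_congr rfl fun m _ => Finset.sum_congr rfl fun n _ => ?_
    have h2 : (diagonal D * diagonal D * G + G * (diagonal D * diagonal D) -
        (2:ℝ) • (diagonal D * G * diagonal D)) n m = (D n - D m) ^ 2 * G n m := by
      rw [Matrix.sub_apply, Matrix.add_apply, Matrix.smul_apply, Matrix.diagonal_mul_diagonal,
        Matrix.diagonal_mul, Matrix.mul_diagonal, Matrix.mul_diagonal, Matrix.diagonal_mul,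
        smul_eq_mul]
      ring
    rw [h2]
  have h3 : ∀ m n : nR R, (D n - D m) ^ 2 * G n m * E m n =
      ∑ x, ∑ y, (β * w x y / 2) * ((D n - D m) ^ 2 *
        (if (n : V → ℤ) = m + eta x y then 1 else 0) * E m n +
        (D m - D n) ^ 2 * (if (m : V → ℤ) = n + eta x y then 1 else 0) * E n m) := by
    intro m n
    have h4 : (D n - D m) ^ 2 * G n m = (D n - D m) ^ 2 * (β * ∑ x, ∑ y, w x y *
        cosK x y n m) := by
      by_cases h : n = m
      · subst h; simp
      · have h' : (n : V → ℤ) ≠ m := fun h' => h (Subtype.ext h')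
        congr 1
        rw [hG, hA]
        simp only [Pool.Agent.H993.TR.mt, AA, rotK]
        rw [if_neg h', zero_add]
    rw [h4, Finset.mul_sum, Finset.mul_sum, Finset.sum_mul]
    refine Finset.sum_congr rfl fun x _ => ?_
    rw [Finset.mul_sum, Finset.mul_sum, Finset.sum_mul]
    refine Finset.sum_congr rfl fun y _ => ?_
    unfold cosK
    rw [hEs n m]
    ring
  have h5 : dcm G (diagonal D) = ∑ x, ∑ y, (β * w x y / 2) *
      ((∑ m, ∑ n, (D n - D m) ^ 2 * (if (n : V → ℤ) = m + eta x y then 1 else 0) * E m n) +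
       (∑ n, ∑ m, (D m - D n) ^ 2 * (if (m : V → ℤ) = n + eta x y then 1 else 0) * E n m)) := by
    rw [h1]
    simp only [h3]
    have e1 : ∀ m : nR R, ∑ n : nR R, ∑ x, ∑ y, (β * w x y / 2) * ((D n - D m) ^ 2 *
        (if (n : V → ℤ) = m + eta x y then 1 else 0) * E m n +
        (D m - D n) ^ 2 * (if (m : V → ℤ) = n + eta x y then 1 else 0) * E n m) =
        ∑ x, ∑ y, ∑ n : nR R, (β * w x y / 2) * ((D n - D m) ^ 2 *
        (if (n : V → ℤ) = m + eta x y then 1 else 0) * E m n +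
        (D m - D n) ^ 2 * (if (m : V → ℤ) = n + eta x y then 1 else 0) * E n m) := by
      intro m
      rw [Finset.sum_comm]
      exact Finset.sum_congr rfl fun x _ => Finset.sum_comm
    simp only [e1]
    rw [Finset.sum_comm]
    refine Finset.sum_congr rfl fun x _ => ?_
    rw [Finset.sum_comm]
    refine Finset.sum_congr rfl fun y _ => ?_
    simp only [← Finset.mul_sum, Finset.sum_add_distrib]
    congr 2
    rw [Finset.sum_comm]
  rw [h5]
  have h6 : β * (∑ x, ∑ y, w x y * (f x - f y) ^ 2) * Z =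
      ∑ x, ∑ y, (β * w x y / 2) * ((f x - f y) ^ 2 * Z + (f x - f y) ^ 2 * Z) := by
    rw [Finset.mul_sum, Finset.sum_mul]
    refine Finset.sum_congr rfl fun x _ => ?_
    rw [Finset.mul_sum, Finset.sum_mul]
    exact Finset.sum_congr rfl fun y _ => by ring
  rw [h6]
  refine Finset.sum_le_sum fun x _ => Finset.sum_le_sum fun y _ => ?_
  have h7 := hop_le hβ hU hw f R x y
  refine mul_le_mul_of_nonneg_left ?_ (by have := hw x y; positivity)
  exact add_le_add h7 h7

end Pool.Agent.H993.LY.P14a
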