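import Mathlib
import Pool.Agent.H993.LY.Defs
import Pool.Agent.H993.TR.FB

/-!
# Matrix inequalities: the sharp inequality of Falk and Bruch and a sharp uncertainty relation at
positive temperature (tasks 8a, 8b of the project LY)

The two inequalities for sums `task_tanh`, `task_coth` are the ones of helper360.
-/

namespace Pool.Agent.H993.LY.P8

open Filter Topology
open Pool.Agent.H993.LY

section helper360

lemma hasDerivAt_tanh (x : ℝ) : HasDerivAt Real.tanh (1 / Real.cosh x ^ 2) x := by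
  have hc : Real.cosh x ≠ 0 := (Real.cosh_pos x).ne'
  have h := (Real.hasDerivAt_sinh x).div (Real.hasDerivAt_cosh x) hc
  have he : Real.tanh = fun y => Real.sinh y / Real.cosh y := by
    funext y; exact Real.tanh_eq_sinh_div_cosh y
  rw [he]
  have e : 1 / Real.cosh x ^ 2 =
      (Real.cosh x * Real.cosh x - Real.sinh x * Real.sinh x) / Real.cosh x ^ 2 := by
    have := Real.cosh_sq x
    rw [show Real.cosh x * Real.cosh x - Real.sinh x * Real.sinh x = 1 by nlinarith]
  rw [e]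
  exact h

lemma tanh_div_anti {s t : ℝ} (hs : 0 < s) (hst : s ≤ t) :
    Real.tanh t / t ≤ Real.tanh s / s := by
  have hd : ∀ x : ℝ, 0 < x → HasDerivAt (fun y => Real.tanh y / y)
      ((1 / Real.cosh x ^ 2 * x - Real.tanh x * 1) / x ^ 2) x := fun x hx =>
    (hasDerivAt_tanh x).div (hasDerivAt_id x) hx.ne'
  have hA : AntitoneOn (fun y => Real.tanh y / y) (Set.Ioi (0:ℝ)) := by
    apply antitoneOn_of_deriv_nonpos (convex_Ioi 0)
    · intro x hx
      exact (hd x hx).continuousAt.continuousWithinAt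
    · intro x hx
      rw [interior_Ioi] at hx
      exact (hd x hx).differentiableAt.differentiableWithinAt
    · intro x hx
      rw [interior_Ioi] at hx
      rw [(hd x hx).deriv]
      have hx' : (0:ℝ) < x := hx
      apply div_nonpos_of_nonpos_of_nonneg _ (sq_nonneg x)
      have hc := Real.cosh_pos x
      have h1 : x ≤ Real.sinh x := Real.self_le_sinh_iff.2 hx'.le
      have h2 : 1 ≤ Real.cosh x := Real.one_le_cosh x
      rw [Real.tanh_eq_sinh_div_cosh]
      have : 1 / Real.cosh x ^ 2 * x - Real.sinh x / Real.cosh x * 1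
          = (x - Real.sinh x * Real.cosh x) / Real.cosh x ^ 2 := by
        field_simp
      rw [this]
      apply div_nonpos_of_nonpos_of_nonneg _ (sq_nonneg _)
      nlinarith
  exact hA hs (lt_of_lt_of_le hs hst) hst

lemma inv_cosh_anti {s t : ℝ} (hs : 0 < s) (hst : s ≤ t) :
    1 / Real.cosh t ^ 2 ≤ 1 / Real.cosh s ^ 2 := by
  apply one_div_le_one_div_of_le (by have := Real.cosh_pos s; positivity)
  apply pow_le_pow_left₀ (Real.cosh_pos s).le
  rw [Real.cosh_le_cosh, abs_of_pos hs, abs_of_pos (lt_of_lt_of_le hs hst)]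
  exact hst

/-- The tangent inequality. -/
lemma tangent (t₀ : ℝ) (h0 : 0 < t₀) : ∃ c : ℝ, 0 ≤ c ∧ 0 ≤ t₀ * Real.tanh t₀ - c * t₀ ^ 2 ∧
    ∀ t : ℝ, t * Real.tanh t ≤ t₀ * Real.tanh t₀ + c * (t ^ 2 - t₀ ^ 2) := by
  set c : ℝ := (Real.tanh t₀ / t₀ + 1 / Real.cosh t₀ ^ 2) / 2 with hc
  have hT : ∀ x : ℝ, HasDerivAt (fun y => y * Real.tanh y)
      (1 * Real.tanh x + x * (1 / Real.cosh x ^ 2)) x := fun x =>
    (hasDerivAt_id x).mul (hasDerivAt_tanh x)
  set g : ℝ → ℝ := fun t => t₀ * Real.tanh t₀ + c * (t ^ 2 - t₀ ^ 2) - t * Real.tanh t with hg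
  have hgd : ∀ x : ℝ, HasDerivAt g
      (c * (2 * x) - (1 * Real.tanh x + x * (1 / Real.cosh x ^ 2))) x := by
    intro x
    have h1 : HasDerivAt (fun t : ℝ => t₀ * Real.tanh t₀ + c * (t ^ 2 - t₀ ^ 2)) (c * (2 * x)) x := by
      have := (((hasDerivAt_pow 2 x).sub_const (t₀ ^ 2)).const_mul c).const_add (t₀ * Real.tanh t₀)
      simpa using this
    exact h1.sub (hT x)
  have hcont : Continuous g := by
    rw [continuous_iff_continuousAt]; intro x; exact (hgd x).continuousAt
  have hrew : ∀ x : ℝ, 0 < x → c * (2 * x) - (1 * Real.tanh x + x * (1 / Real.cosh x ^ 2)) =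
      x * (2 * c - (Real.tanh x / x + 1 / Real.cosh x ^ 2)) := by
    intro x hx
    field_simp
  have h2c : 2 * c = Real.tanh t₀ / t₀ + 1 / Real.cosh t₀ ^ 2 := by rw [hc]; ring
  have hg0 : g t₀ = 0 := by simp [hg]
  have hmono : MonotoneOn g (Set.Ici t₀) := by
    apply monotoneOn_of_deriv_nonneg (convex_Ici t₀) hcont.continuousOn
    · intro x _; exact (hgd x).differentiableAt.differentiableWithinAt
    · intro x hx
      rw [interior_Ici] at hx
      have hx' : t₀ < x := hx
      rw [(hgd x).deriv, hrew x (h0.trans hx'), h2c]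
      have e1 := tanh_div_anti h0 hx'.le
      have e2 := inv_cosh_anti h0 hx'.le
      apply mul_nonneg (h0.trans hx').le
      linarith
  have hanti : AntitoneOn g (Set.Icc 0 t₀) := by
    apply antitoneOn_of_deriv_nonpos (convex_Icc 0 t₀) hcont.continuousOn
    · intro x _; exact (hgd x).differentiableAt.differentiableWithinAt
    · intro x hx
      rw [interior_Icc] at hx
      rw [(hgd x).deriv, hrew x hx.1, h2c]
      have e1 := tanh_div_anti hx.1 hx.2.le
      have e2 := inv_cosh_anti hx.1 hx.2.le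
      apply mul_nonpos_of_nonneg_of_nonpos hx.1.le
      linarith
  have hpos : ∀ t : ℝ, 0 ≤ t → 0 ≤ g t := by
    intro t ht
    rcases le_total t t₀ with h | h
    · have := hanti ⟨ht, h⟩ ⟨h0.le, le_rfl⟩ h
      rw [hg0] at this; exact this
    · have := hmono (Set.mem_Ici.2 le_rfl) (Set.mem_Ici.2 h) h
      rw [hg0] at this; exact this
  refine ⟨c, ?_, ?_, ?_⟩
  · have h1 : 0 ≤ Real.tanh t₀ := by
      rw [Real.tanh_eq_sinh_div_cosh]
      exact div_nonneg (Real.sinh_nonneg_iff.2 h0.le) (Real.cosh_pos t₀).le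
    have := Real.cosh_pos t₀
    positivity
  · have := hpos 0 le_rfl
    simp only [hg] at this
    nlinarith
  · intro t
    have key : ∀ s : ℝ, 0 ≤ s → s * Real.tanh s ≤ t₀ * Real.tanh t₀ + c * (s ^ 2 - t₀ ^ 2) := by
      intro s hs
      have := hpos s hs
      simp only [hg] at this
      linarith
    rcases le_total 0 t with h | h
    · exact key t h
    · have := key (-t) (by linarith)
      rw [Real.tanh_neg] at this
      have e : -t * -Real.tanh t = t * Real.tanh t := by ring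
      rw [e, neg_sq] at this
      exact this

theorem task_tanh {ι : Type} [Fintype ι] (D δ : ι → ℝ) (b m : ℝ) (hD : ∀ i, 0 ≤ D i) (hb : 0 < b)
    (hm : 0 < m) (h1 : ∑ i, D i ≤ b) (h2 : ∑ i, D i * δ i ^ 2 ≤ m) :
    ∑ i, D i * (2 * (δ i * Real.tanh (δ i / 2))) ≤
      2 * Real.sqrt (b * m) * Real.tanh (Real.sqrt (m / b) / 2) := by
  set x₀ := Real.sqrt (m / b) with hx₀
  have hx0 : 0 < x₀ := Real.sqrt_pos.2 (by positivity)
  have hx2 : x₀ ^ 2 = m / b := Real.sq_sqrt (by positivity)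
  have hbm : Real.sqrt (b * m) = b * x₀ := by
    rw [hx₀, show b * m = b ^ 2 * (m / b) by field_simp, Real.sqrt_mul (sq_nonneg b),
      Real.sqrt_sq hb.le]
  obtain ⟨c, hc0, hc1, hc2⟩ := tangent (x₀ / 2) (by positivity)
  set A : ℝ := x₀ / 2 * Real.tanh (x₀ / 2) - c * (x₀ / 2) ^ 2 with hA
  have step : ∀ i, D i * (2 * (δ i * Real.tanh (δ i / 2))) ≤
      4 * A * D i + c * (D i * δ i ^ 2) := by
    intro i
    have := hc2 (δ i / 2)
    have h3 : δ i * Real.tanh (δ i / 2) = 2 * (δ i / 2 * Real.tanh (δ i / 2)) := by ring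
    rw [h3]
    have h4 : D i * (δ i / 2 * Real.tanh (δ i / 2)) ≤
        D i * (x₀ / 2 * Real.tanh (x₀ / 2) + c * ((δ i / 2) ^ 2 - (x₀ / 2) ^ 2)) :=
      mul_le_mul_of_nonneg_left this (hD i)
    calc D i * (2 * (2 * (δ i / 2 * Real.tanh (δ i / 2))))
        = 4 * (D i * (δ i / 2 * Real.tanh (δ i / 2))) := by ring
      _ ≤ 4 * (D i * (x₀ / 2 * Real.tanh (x₀ / 2) + c * ((δ i / 2) ^ 2 - (x₀ / 2) ^ 2))) := by
          linarith
      _ = 4 * A * D i + c * (D i * δ i ^ 2) := by rw [hA]; ring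
  have hsum : ∑ i, D i * (2 * (δ i * Real.tanh (δ i / 2))) ≤
      4 * A * ∑ i, D i + c * ∑ i, D i * δ i ^ 2 := by
    rw [Finset.mul_sum, Finset.mul_sum, ← Finset.sum_add_distrib]
    exact Finset.sum_le_sum fun i _ => step i
  have e1 : 4 * A * ∑ i, D i ≤ 4 * A * b := mul_le_mul_of_nonneg_left h1 (by linarith)
  have e2 : c * ∑ i, D i * δ i ^ 2 ≤ c * m := mul_le_mul_of_nonneg_left h2 hc0
  have e3 : 4 * A * b + c * m = 2 * Real.sqrt (b * m) * Real.tanh (x₀ / 2) := by
    rw [hbm, hA]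
    have : m = b * x₀ ^ 2 := by rw [hx2]; field_simp
    rw [this]; ring
  linarith

lemma xcoth_neg (x : ℝ) : xcoth (-x) = xcoth x := by
  unfold xcoth
  by_cases h : x = 0
  · simp [h]
  · have h' : -x ≠ 0 := neg_ne_zero.2 h
    rw [if_neg h, if_neg h', Real.cosh_neg, Real.sinh_neg, neg_mul, neg_div_neg_eq]

lemma xcoth_bounds_pos {x : ℝ} (hx : 0 < x) : 1 ≤ xcoth x ∧ xcoth x ≤ Real.cosh x := by
  unfold xcoth
  rw [if_neg hx.ne']
  have hs : 0 < Real.sinh x := Real.sinh_pos_iff.2 hx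
  have hc := Real.cosh_pos x
  constructor
  · rw [le_div_iff₀ hs, one_mul]
    have hd : ∀ y : ℝ, HasDerivAt (fun z => z * Real.cosh z - Real.sinh z) (y * Real.sinh y) y := by
      intro y
      have h := ((hasDerivAt_id y).mul (Real.hasDerivAt_cosh y)).sub (Real.hasDerivAt_sinh y)
      have e : y * Real.sinh y = 1 * Real.cosh y + id y * Real.sinh y - Real.cosh y := by
        simp
      rw [e]
      exact h
    have hmono : MonotoneOn (fun z => z * Real.cosh z - Real.sinh z) (Set.Ici (0:ℝ)) := by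
      apply monotoneOn_of_deriv_nonneg (convex_Ici 0)
      · intro y _; exact (hd y).continuousAt.continuousWithinAt
      · intro y _; exact (hd y).differentiableAt.differentiableWithinAt
      · intro y hy
        rw [interior_Ici] at hy
        rw [(hd y).deriv]
        exact mul_nonneg (le_of_lt hy) (Real.sinh_nonneg_iff.2 (le_of_lt hy))
    have := hmono (Set.mem_Ici.2 le_rfl) (Set.mem_Ici.2 hx.le) hx.le
    simp at this
    exact this
  · rw [div_le_iff₀ hs]
    have : x ≤ Real.sinh x := Real.self_le_sinh_iff.2 hx.le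
    nlinarith

lemma xcoth_bounds (x : ℝ) : 1 ≤ xcoth x ∧ xcoth x ≤ Real.cosh x := by
  rcases lt_trichotomy x 0 with h | h | h
  · have := xcoth_bounds_pos (x := -x) (by linarith)
    rwa [xcoth_neg, Real.cosh_neg] at this
  · subst h; simp [xcoth]
  · exact xcoth_bounds_pos h

lemma xcoth_double (x : ℝ) : xcoth x = xcoth (x / 2) + (x / 2) * Real.tanh (x / 2) := by
  unfold xcoth
  by_cases h : x = 0
  · simp [h]
  · have h' : x / 2 ≠ 0 := by simpa using h
    rw [if_neg h, if_neg h']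
    have e : x = 2 * (x / 2) := by ring
    set y := x / 2 with hy
    have hs : Real.sinh y ≠ 0 := by
      intro h0; exact h' (Real.sinh_eq_zero.1 h0)
    have hc : Real.cosh y ≠ 0 := (Real.cosh_pos y).ne'
    rw [e, Real.sinh_two_mul, Real.cosh_two_mul, Real.tanh_eq_sinh_div_cosh]
    field_simp

lemma xcoth_iter (x : ℝ) (n : ℕ) : xcoth x = xcoth (x / 2 ^ n) +
    ∑ j ∈ Finset.range n, (x / 2 ^ (j + 1)) * Real.tanh (x / 2 ^ (j + 1)) := by
  induction n with
  | zero => simp
  | succ n ih =>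
    rw [Finset.sum_range_succ, ih, xcoth_double (x / 2 ^ n)]
    have : x / 2 ^ n / 2 = x / 2 ^ (n + 1) := by rw [pow_succ, div_div]
    rw [this]
    ring

lemma tendsto_xcoth (x : ℝ) : Tendsto (fun n : ℕ => xcoth (x / 2 ^ n)) atTop (𝓝 1) := by
  have h1 : Tendsto (fun n : ℕ => x / 2 ^ n) atTop (𝓝 0) := by
    have : Tendsto (fun n : ℕ => x * ((1:ℝ) / 2) ^ n) atTop (𝓝 (x * 0)) :=
      (tendsto_pow_atTop_nhds_zero_of_lt_one (by norm_num) (by norm_num)).const_mul x
    rw [mul_zero] at this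
    refine this.congr fun n => ?_
    rw [one_div, inv_pow, div_eq_mul_inv]
  have h2 : Tendsto (fun n : ℕ => Real.cosh (x / 2 ^ n)) atTop (𝓝 1) := by
    have := (Real.continuous_cosh.tendsto 0).comp h1
    rwa [Real.cosh_zero] at this
  exact tendsto_of_tendsto_of_tendsto_of_le_of_le tendsto_const_nhds h2
    (fun n => (xcoth_bounds _).1) (fun n => (xcoth_bounds _).2)

theorem task_coth {ι : Type} [Fintype ι] (D δ : ι → ℝ) (b m : ℝ) (hD : ∀ i, 0 ≤ D i) (hb : 0 < b)
    (hm : 0 < m) (h1 : ∑ i, D i ≤ b) (h2 : ∑ i, D i * δ i ^ 2 ≤ m) :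
    ∑ i, D i * xcoth (δ i / 2) ≤ b * xcoth (Real.sqrt (m / b) / 2) := by
  set x₀ := Real.sqrt (m / b) with hx₀
  have hx0 : 0 < x₀ := Real.sqrt_pos.2 (by positivity)
  have hstep : ∀ j : ℕ, ∑ i, D i * (δ i / 2 / 2 ^ (j + 1) * Real.tanh (δ i / 2 / 2 ^ (j + 1))) ≤
      b * (x₀ / 2 / 2 ^ (j + 1) * Real.tanh (x₀ / 2 / 2 ^ (j + 1))) := by
    intro j
    have hp : (0:ℝ) < 2 ^ (j + 1) := by positivity
    have hm' : 0 < m / (2 ^ (j + 1)) ^ 2 := by positivity
    have := task_tanh D (fun i => δ i / 2 ^ (j + 1)) b (m / (2 ^ (j + 1)) ^ 2) hD hb hm' h1 (by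
      have e : ∀ i, D i * (δ i / 2 ^ (j + 1)) ^ 2 = (D i * δ i ^ 2) / (2 ^ (j + 1)) ^ 2 := by
        intro i; rw [div_pow]; ring
      simp only [e]
      rw [← Finset.sum_div]
      exact div_le_div_of_nonneg_right h2 (by positivity))
    have e1 : Real.sqrt (m / (2 ^ (j + 1)) ^ 2 / b) = x₀ / 2 ^ (j + 1) := by
      rw [hx₀, show m / (2 ^ (j + 1)) ^ 2 / b = (m / b) / (2 ^ (j + 1)) ^ 2 by field_simp,
        Real.sqrt_div (by positivity), Real.sqrt_sq hp.le]
    have e2 : Real.sqrt (b * (m / (2 ^ (j + 1)) ^ 2)) = b * (x₀ / 2 ^ (j + 1)) := by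
      rw [← e1, show b * (m / (2 ^ (j + 1)) ^ 2) = b ^ 2 * (m / (2 ^ (j + 1)) ^ 2 / b) by
        field_simp, Real.sqrt_mul (sq_nonneg b), Real.sqrt_sq hb.le]
    rw [e1, e2] at this
    have e3 : ∀ i, D i * (2 * (δ i / 2 ^ (j + 1) * Real.tanh (δ i / 2 ^ (j + 1) / 2))) =
        4 * (D i * (δ i / 2 / 2 ^ (j + 1) * Real.tanh (δ i / 2 / 2 ^ (j + 1)))) := by
      intro i
      rw [show δ i / 2 ^ (j + 1) / 2 = δ i / 2 / 2 ^ (j + 1) by ring]
      ring
    simp only [e3] at this
    rw [← Finset.mul_sum, show x₀ / 2 ^ (j + 1) / 2 = x₀ / 2 / 2 ^ (j + 1) by ring] at this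
    have e4 : 2 * (b * (x₀ / 2 ^ (j + 1))) * Real.tanh (x₀ / 2 / 2 ^ (j + 1)) =
        4 * (b * (x₀ / 2 / 2 ^ (j + 1) * Real.tanh (x₀ / 2 / 2 ^ (j + 1)))) := by ring
    rw [e4] at this
    linarith
  have hn : ∀ n : ℕ, ∑ i, D i * xcoth (δ i / 2) ≤
      ∑ i, D i * xcoth (δ i / 2 / 2 ^ n) + (b * xcoth (x₀ / 2) - b * xcoth (x₀ / 2 / 2 ^ n)) := by
    intro n
    have e1 : ∑ i, D i * xcoth (δ i / 2) = ∑ i, D i * xcoth (δ i / 2 / 2 ^ n) +
        ∑ j ∈ Finset.range n, ∑ i, D i *
          (δ i / 2 / 2 ^ (j + 1) * Real.tanh (δ i / 2 / 2 ^ (j + 1))) := by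
      rw [Finset.sum_comm, ← Finset.sum_add_distrib]
      refine Finset.sum_congr rfl fun i _ => ?_
      rw [← Finset.mul_sum, ← mul_add, ← xcoth_iter]
    have e2 : b * xcoth (x₀ / 2) - b * xcoth (x₀ / 2 / 2 ^ n) =
        ∑ j ∈ Finset.range n, b * (x₀ / 2 / 2 ^ (j + 1) * Real.tanh (x₀ / 2 / 2 ^ (j + 1))) := by
      rw [← Finset.mul_sum, xcoth_iter (x₀ / 2) n]
      ring
    rw [e1, e2]
    exact add_le_add_right (Finset.sum_le_sum fun j _ => hstep j) _
  have hlim : Tendsto (fun n : ℕ => ∑ i, D i * xcoth (δ i / 2 / 2 ^ n) +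
      (b * xcoth (x₀ / 2) - b * xcoth (x₀ / 2 / 2 ^ n))) atTop
      (𝓝 (∑ i, D i * 1 + (b * xcoth (x₀ / 2) - b * 1))) := by
    apply Tendsto.add
    · exact tendsto_finsetSum _ fun i _ => (tendsto_xcoth _).const_mul _
    · exact tendsto_const_nhds.sub ((tendsto_xcoth _).const_mul _)
  have := ge_of_tendsto hlim (Eventually.of_forall hn)
  simp only [mul_one] at this
  linarith


end helper360

open NormedSpace Matrix MeasureTheory
open Pool.Agent.H993.TR

variable {n : Type} [Fintype n] [DecidableEq n]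

/-- Everything in an eigenbasis. -/
theorem eigen_sums_basis (G C : Matrix n n ℝ) (hG : Gᵀ = G) (hC : Cᵀ = C) :
    ∃ (U : Matrix n n ℝ) (g : n → ℝ), Uᵀ * U = 1 ∧ U * Uᵀ = 1 ∧
      exp G = U * diagonal (fun i => Real.exp (g i)) * Uᵀ ∧
      dcm G C = ∑ i, ∑ j, (Uᵀ * C * U) i j ^ 2 *
        ((g i - g j) * (Real.exp (g i) - Real.exp (g j))) ∧
      duh G C 0 = ∑ i, ∑ j, (Uᵀ * C * U) i j ^ 2 * ddv (g i) (g j) := by
  obtain ⟨U, g, h1, h2, h3⟩ := spectral G hG
  set C' := Uᵀ * C * U with hC'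
  have hC's : C'ᵀ = C' := by
    rw [hC', Matrix.transpose_mul, Matrix.transpose_mul, hC, Matrix.transpose_transpose,
      Matrix.mul_assoc]
  set D : (n → ℝ) → Matrix n n ℝ := fun x => U * diagonal x * Uᵀ with hD
  have hDmul : ∀ x y, D x * D y = D (fun i => x i * y i) := by
    intro x y
    rw [hD]
    simp only
    calc U * diagonal x * Uᵀ * (U * diagonal y * Uᵀ)
        = U * diagonal x * (Uᵀ * U) * diagonal y * Uᵀ := by simp only [Matrix.mul_assoc]
      _ = U * (diagonal x * diagonal y) * Uᵀ := by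
          rw [h1]; simp only [Matrix.mul_assoc, Matrix.one_mul]
      _ = _ := by rw [Matrix.diagonal_mul_diagonal]
  have hD1 : D (fun _ => 1) = 1 := by
    rw [hD]
    simp only
    rw [Matrix.diagonal_one, Matrix.mul_one, h2]
  have hDG : G = D g := h3
  have hDexp : ∀ s : ℝ, exp (s • G) = D (fun i => Real.exp (s * g i)) := by
    intro s
    have : s • G = U * diagonal (fun i => s * g i) * Uᵀ := by
      rw [h3]
      have : diagonal (fun i => s * g i) = s • diagonal g := by
        rw [← Matrix.diagonal_smul]; rfl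
      rw [this, Matrix.mul_smul, Matrix.smul_mul]
    rw [this, exp_conj_orth U h1 h2, exp_diag_real]
  have hDexp1 : exp G = D (fun i => Real.exp (g i)) := by
    have := hDexp 1
    rw [one_smul] at this
    simpa using this
  have htr : ∀ x y : n → ℝ, (C * D x * C * D y).trace = ∑ i, ∑ j, C' i j ^ 2 * (x j * y i) := by
    intro x y
    have e1 : C * D x * C * D y = U * (C' * diagonal x * C' * diagonal y) * Uᵀ := by
      rw [hD, hC']
      simp only
      calc C * (U * diagonal x * Uᵀ) * C * (U * diagonal y * Uᵀ)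
          = (U * Uᵀ) * C * (U * diagonal x * Uᵀ) * C * (U * diagonal y * Uᵀ) := by
            rw [h2, Matrix.one_mul]
        _ = _ := by simp only [Matrix.mul_assoc]
    rw [e1, trace_conj_orth U h1, Matrix.trace]
    refine Finset.sum_congr rfl fun i _ => ?_
    rw [Matrix.diag_apply, Matrix.mul_diagonal, Matrix.mul_apply, Finset.sum_mul]
    refine Finset.sum_congr rfl fun j _ => ?_
    rw [Matrix.mul_diagonal]
    have : C' j i = C' i j := by
      conv_lhs => rw [← hC's]
      rfl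
    rw [this]
    ring
  refine ⟨U, g, h1, h2, hDexp1, ?_, ?_⟩
  · rw [← hC']
    unfold dcm
    have e1 : C * C * G * exp G = C * D (fun _ => 1) * C * D (fun i => g i * Real.exp (g i)) := by
      rw [hD1, Matrix.mul_one, hDexp1, Matrix.mul_assoc (C * C)]
      conv_lhs => rw [hDG]
      rw [hDmul]
    have e2 : (G * (C * C) * exp G).trace =
        (C * D (fun _ => 1) * C * D (fun i => Real.exp (g i) * g i)).trace := by
      rw [hD1, Matrix.mul_one, Matrix.mul_assoc, Matrix.trace_mul_comm, hDexp1, Matrix.mul_assoc]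
      conv_lhs => rw [hDG]
      rw [hDmul, Matrix.mul_assoc]
    have e3 : C * G * C * exp G = C * D g * C * D (fun i => Real.exp (g i)) := by
      rw [hDexp1, ← hDG]
    rw [Matrix.sub_mul, Matrix.add_mul, Matrix.trace_sub, Matrix.trace_add, e1, e2,
      Matrix.smul_mul, Matrix.trace_smul, e3, htr, htr, htr, smul_eq_mul]
    have hsym : ∀ F : n → n → ℝ, ∑ i, ∑ j, C' i j ^ 2 * F i j = ∑ i, ∑ j, C' i j ^ 2 * F j i := by
      intro F
      rw [Finset.sum_comm]
      refine Finset.sum_congr rfl fun i _ => Finset.sum_congr rfl fun j _ => ?_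
      have : C' j i = C' i j := by
        conv_lhs => rw [← hC's]
        rfl
      rw [this]
    have e4 : ∑ i, ∑ j, C' i j ^ 2 * ((g i - g j) * (Real.exp (g i) - Real.exp (g j))) =
        ∑ i, ∑ j, C' i j ^ 2 * (g i * Real.exp (g i) - g j * Real.exp (g i)) +
        ∑ i, ∑ j, C' i j ^ 2 * (g j * Real.exp (g j) - g i * Real.exp (g j)) := by
      rw [← Finset.sum_add_distrib]
      refine Finset.sum_congr rfl fun i _ => ?_
      rw [← Finset.sum_add_distrib]
      exact Finset.sum_congr rfl fun j _ => by ring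
    rw [e4, ← hsym (fun i j => g i * Real.exp (g i) - g j * Real.exp (g i))]
    have e5 : ∑ i, ∑ j, C' i j ^ 2 * (g i * Real.exp (g i) - g j * Real.exp (g i)) =
        ∑ i, ∑ j, C' i j ^ 2 * (1 * (g i * Real.exp (g i))) -
        ∑ i, ∑ j, C' i j ^ 2 * (g j * Real.exp (g i)) := by
      rw [← Finset.sum_sub_distrib]
      refine Finset.sum_congr rfl fun i _ => ?_
      rw [← Finset.sum_sub_distrib]
      exact Finset.sum_congr rfl fun j _ => by ring
    rw [e5]
    have e6 : ∑ i, ∑ j, C' i j ^ 2 * (1 * (Real.exp (g i) * g i)) =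
        ∑ i, ∑ j, C' i j ^ 2 * (1 * (g i * Real.exp (g i))) :=
      Finset.sum_congr rfl fun i _ => Finset.sum_congr rfl fun j _ => by ring
    rw [e6]
    ring
  · rw [← hC']
    unfold duh duI
    have e1 : ∀ u : ℝ, (C * exp ((1 - u) • G) * C * exp (u • (G + (0:ℝ) • C))).trace =
        ∑ i, ∑ j, C' i j ^ 2 * Real.exp ((1 - u) * g j + u * g i) := by
      intro u
      rw [zero_smul, add_zero, hDexp, hDexp, htr]
      refine Finset.sum_congr rfl fun i _ => Finset.sum_congr rfl fun j _ => ?_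
      rw [Real.exp_add]
    simp only [e1]
    rw [intervalIntegral.integral_finsetSum]
    · refine Finset.sum_congr rfl fun i _ => ?_
      rw [intervalIntegral.integral_finsetSum]
      · refine Finset.sum_congr rfl fun j _ => ?_
        rw [intervalIntegral.integral_const_mul]
        rfl
      · intro j _
        exact Continuous.intervalIntegrable (by fun_prop) _ _
    · intro i _
      exact Continuous.intervalIntegrable (by fun_prop) _ _


lemma ddv_self (x : ℝ) : ddv x x = Real.exp x := by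
  unfold ddv
  have : ∀ u : ℝ, (1 - u) * x + u * x = x := fun u => by ring
  simp [this]

lemma exp_sub_eq (x y : ℝ) :
    Real.exp x - Real.exp y = 2 * Real.exp ((x + y) / 2) * Real.sinh ((x - y) / 2) := by
  rw [Real.sinh_eq]
  have h1 : Real.exp ((x + y) / 2) * Real.exp ((x - y) / 2) = Real.exp x := by
    rw [← Real.exp_add]; congr 1; ring
  have h2 : Real.exp ((x + y) / 2) * Real.exp (-((x - y) / 2)) = Real.exp y := by
    rw [← Real.exp_add]; congr 1; ring
  rw [← h1, ← h2]; ring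

lemma exp_add_eq (x y : ℝ) :
    Real.exp x + Real.exp y = 2 * Real.exp ((x + y) / 2) * Real.cosh ((x - y) / 2) := by
  rw [Real.cosh_eq]
  have h1 : Real.exp ((x + y) / 2) * Real.exp ((x - y) / 2) = Real.exp x := by
    rw [← Real.exp_add]; congr 1; ring
  have h2 : Real.exp ((x + y) / 2) * Real.exp (-((x - y) / 2)) = Real.exp y := by
    rw [← Real.exp_add]; congr 1; ring
  rw [← h1, ← h2]; ring

lemma ddv_xcoth (x y : ℝ) : ddv x y * xcoth ((x - y) / 2) = (Real.exp x + Real.exp y) / 2 := by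
  by_cases h : x = y
  · subst h
    rw [ddv_self, sub_self, zero_div, xcoth, if_pos rfl]
    ring
  · have hne : (x - y) / 2 ≠ 0 := by
      intro h0
      exact h (by linarith)
    have hs : Real.sinh ((x - y) / 2) ≠ 0 := by
      rw [Ne, Real.sinh_eq_zero]
      exact hne
    rw [xcoth, if_neg hne]
    have h1 := ddv_mul x y
    have h2 : ddv x y * ((x - y) / 2 * Real.cosh ((x - y) / 2) / Real.sinh ((x - y) / 2)) =
        ((x - y) * ddv x y) / 2 * Real.cosh ((x - y) / 2) / Real.sinh ((x - y) / 2) := by ring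
    rw [h2, h1, exp_sub_eq, exp_add_eq]
    field_simp

lemma ddv_tanh (x y : ℝ) : ddv x y * (2 * ((x - y) * Real.tanh ((x - y) / 2))) =
    2 * (Real.exp x - Real.exp y) ^ 2 / (Real.exp x + Real.exp y) := by
  have h1 := ddv_mul x y
  have h2 : ddv x y * (2 * ((x - y) * Real.tanh ((x - y) / 2))) =
      2 * ((x - y) * ddv x y) * Real.tanh ((x - y) / 2) := by ring
  rw [h2, h1, Real.tanh_eq_sinh_div_cosh, exp_add_eq, exp_sub_eq]
  have hc := (Real.cosh_pos ((x - y) / 2)).ne'
  have he := (Real.exp_pos ((x + y) / 2)).ne'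
  field_simp

/-- TASK 8a. The sharp inequality of Falk and Bruch. -/
theorem task_fb {n : Type} [Fintype n] [DecidableEq n] (G C : Matrix n n ℝ) (hG : Gᵀ = G)
    (hC : Cᵀ = C) (b m : ℝ) (hb : 0 < b) (hm : 0 < m) (h1 : duh G C 0 ≤ b) (h2 : dcm G C ≤ m) :
    (C * C * exp G).trace ≤ b * xcoth (Real.sqrt (m / b) / 2) := by
  obtain ⟨g, a, ha, hsym, hZ, hg, hd, hb'⟩ := eigen_sums G C hG hC
  have key := task_coth (ι := n × n) (fun p => a p.1 p.2 * ddv (g p.1) (g p.2))
    (fun p => g p.1 - g p.2) b m (fun p => mul_nonneg (ha _ _) (ddv_pos _ _).le) hb hm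
    (by
      rw [Fintype.sum_prod_type, ← hb']
      exact h1)
    (by
      rw [Fintype.sum_prod_type]
      refine le_trans (le_of_eq ?_) h2
      rw [hd]
      refine Finset.sum_congr rfl fun i _ => Finset.sum_congr rfl fun j _ => ?_
      rw [← ddv_mul]
      ring)
  refine le_trans (le_of_eq ?_) key
  rw [Fintype.sum_prod_type]
  have e0 : ∀ i j, a i j * ddv (g i) (g j) * xcoth ((g i - g j) / 2) =
      a i j * ((Real.exp (g i) + Real.exp (g j)) / 2) := by
    intro i j
    rw [mul_assoc, ddv_xcoth]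
  simp only [e0]
  have e1 : ∑ i, ∑ j, a i j * Real.exp (g j) = ∑ i, ∑ j, a i j * Real.exp (g i) := by
    rw [Finset.sum_comm]
    exact Finset.sum_congr rfl fun i _ => Finset.sum_congr rfl fun j _ => by rw [hsym]
  have e2 : ∑ i, ∑ j, a i j * ((Real.exp (g i) + Real.exp (g j)) / 2) =
      (∑ i, ∑ j, a i j * Real.exp (g i) + ∑ i, ∑ j, a i j * Real.exp (g j)) / 2 := by
    rw [← Finset.sum_add_distrib, Finset.sum_div]
    refine Finset.sum_congr rfl fun i _ => ?_
    rw [← Finset.sum_add_distrib, Finset.sum_div]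
    exact Finset.sum_congr rfl fun j _ => by ring
  rw [e2, e1, hg]
  ring

/-- TASK 8b. A sharp uncertainty relation at positive temperature. -/
theorem task_cs {n : Type} [Fintype n] [DecidableEq n] (G C S : Matrix n n ℝ) (hG : Gᵀ = G)
    (hC : Cᵀ = C) (hS : Sᵀ = -S) (b m : ℝ) (hb : 0 < b) (hm : 0 < m) (h1 : duh G C 0 ≤ b)
    (h2 : dcm G C ≤ m) :
    ((S * C - C * S) * exp G).trace ^ 2 ≤
      -(S * S * exp G).trace * (2 * Real.sqrt (b * m) * Real.tanh (Real.sqrt (m / b) / 2)) := by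
  obtain ⟨U, g, hU1, hU2, hexp, hd, hb'⟩ := eigen_sums_basis G C hG hC
  set C' := Uᵀ * C * U with hC'
  set S' := Uᵀ * S * U with hS'
  set e : n → ℝ := fun i => Real.exp (g i) with he
  have hepos : ∀ i, 0 < e i := fun i => Real.exp_pos _
  have hC's : C'ᵀ = C' := by
    rw [hC', Matrix.transpose_mul, Matrix.transpose_mul, hC, Matrix.transpose_transpose,
      Matrix.mul_assoc]
  have hS's : S'ᵀ = -S' := by
    rw [hS', Matrix.transpose_mul, Matrix.transpose_mul, hS, Matrix.transpose_transpose,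
      Matrix.neg_mul, Matrix.mul_neg, Matrix.mul_assoc]
  have hCij : ∀ i j, C' j i = C' i j := by
    intro i j
    conv_lhs => rw [← hC's]
    rfl
  have hSij : ∀ i j, S' j i = -S' i j := by
    intro i j
    have := congrFun (congrFun hS's i) j
    rw [Matrix.transpose_apply, Matrix.neg_apply] at this
    exact this
  have htr : ∀ A B : Matrix n n ℝ, (A * B * exp G).trace =
      ∑ i, ∑ j, (Uᵀ * A * U) i j * (Uᵀ * B * U) j i * e i := by
    intro A B
    have e1 : A * B * exp G = U * ((Uᵀ * A * U) * (Uᵀ * B * U) * diagonal e) * Uᵀ := by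
      rw [hexp]
      calc A * B * (U * diagonal e * Uᵀ)
          = (U * Uᵀ) * A * (U * Uᵀ) * B * (U * diagonal e * Uᵀ) := by
            rw [hU2, Matrix.one_mul, Matrix.mul_one]
        _ = _ := by simp only [Matrix.mul_assoc]
    rw [e1, trace_conj_orth U hU1, Matrix.trace]
    refine Finset.sum_congr rfl fun i _ => ?_
    rw [Matrix.diag_apply, Matrix.mul_diagonal, Matrix.mul_apply, Finset.sum_mul]
  have hcomm : ((S * C - C * S) * exp G).trace = ∑ i, ∑ j, S' i j * C' i j * (e i - e j) := by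
    rw [Matrix.sub_mul, Matrix.trace_sub, htr, htr]
    have e1 : ∑ i, ∑ j, S' i j * C' j i * e i = ∑ i, ∑ j, S' i j * C' i j * e i :=
      Finset.sum_congr rfl fun i _ => Finset.sum_congr rfl fun j _ => by rw [hCij]
    have e2 : ∑ i, ∑ j, C' i j * S' j i * e i = ∑ i, ∑ j, S' i j * C' i j * e j := by
      rw [Finset.sum_comm]
      exact Finset.sum_congr rfl fun i _ => Finset.sum_congr rfl fun j _ => by
        rw [hCij]; ring
    rw [e1, e2, ← Finset.sum_sub_distrib]
    refine Finset.sum_congr rfl fun i _ => ?_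
    rw [← Finset.sum_sub_distrib]
    exact Finset.sum_congr rfl fun j _ => by ring
  have hSS : -(S * S * exp G).trace = ∑ i, ∑ j, S' i j ^ 2 * ((e i + e j) / 2) := by
    rw [htr]
    have e1 : ∑ i, ∑ j, S' i j * S' j i * e i = -∑ i, ∑ j, S' i j ^ 2 * e i := by
      rw [← Finset.sum_neg_distrib]
      refine Finset.sum_congr rfl fun i _ => ?_
      rw [← Finset.sum_neg_distrib]
      exact Finset.sum_congr rfl fun j _ => by rw [hSij]; ring
    have e2 : ∑ i, ∑ j, S' i j ^ 2 * e j = ∑ i, ∑ j, S' i j ^ 2 * e i := by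
      rw [Finset.sum_comm]
      exact Finset.sum_congr rfl fun i _ => Finset.sum_congr rfl fun j _ => by
        rw [hSij]; ring
    have e3 : ∑ i, ∑ j, S' i j ^ 2 * ((e i + e j) / 2) =
        (∑ i, ∑ j, S' i j ^ 2 * e i + ∑ i, ∑ j, S' i j ^ 2 * e j) / 2 := by
      rw [← Finset.sum_add_distrib, Finset.sum_div]
      refine Finset.sum_congr rfl fun i _ => ?_
      rw [← Finset.sum_add_distrib, Finset.sum_div]
      exact Finset.sum_congr rfl fun j _ => by ring
    rw [e1, e3, e2]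
    ring
  have key := task_tanh (ι := n × n) (fun p => C' p.1 p.2 ^ 2 * ddv (g p.1) (g p.2))
    (fun p => g p.1 - g p.2) b m (fun p => mul_nonneg (sq_nonneg _) (ddv_pos _ _).le) hb hm
    (by
      rw [Fintype.sum_prod_type, ← hb']
      exact h1)
    (by
      rw [Fintype.sum_prod_type]
      refine le_trans (le_of_eq ?_) h2
      rw [hd]
      refine Finset.sum_congr rfl fun i _ => Finset.sum_congr rfl fun j _ => ?_
      rw [← ddv_mul]
      ring)
  have hcs := Finset.sum_mul_sq_le_sq_mul_sq (Finset.univ : Finset (n × n))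
    (fun p => S' p.1 p.2 * Real.sqrt ((e p.1 + e p.2) / 2))
    (fun p => C' p.1 p.2 * ((e p.1 - e p.2) / Real.sqrt ((e p.1 + e p.2) / 2)))
  have hq : ∀ i j, 0 < (e i + e j) / 2 := fun i j => by
    have := hepos i
    have := hepos j
    linarith
  have f1 : ∑ p : n × n, S' p.1 p.2 * Real.sqrt ((e p.1 + e p.2) / 2) *
      (C' p.1 p.2 * ((e p.1 - e p.2) / Real.sqrt ((e p.1 + e p.2) / 2))) =
      ∑ i, ∑ j, S' i j * C' i j * (e i - e j) := by
    rw [Fintype.sum_prod_type]
    refine Finset.sum_congr rfl fun i _ => Finset.sum_congr rfl fun j _ => ?_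
    have := (Real.sqrt_pos.2 (hq i j)).ne'
    field_simp
  have f2 : ∑ p : n × n, (S' p.1 p.2 * Real.sqrt ((e p.1 + e p.2) / 2)) ^ 2 =
      ∑ i, ∑ j, S' i j ^ 2 * ((e i + e j) / 2) := by
    rw [Fintype.sum_prod_type]
    refine Finset.sum_congr rfl fun i _ => Finset.sum_congr rfl fun j _ => ?_
    rw [mul_pow, Real.sq_sqrt (hq i j).le]
  have f3 : ∑ p : n × n, (C' p.1 p.2 * ((e p.1 - e p.2) / Real.sqrt ((e p.1 + e p.2) / 2))) ^ 2 =
      ∑ p : n × n, C' p.1 p.2 ^ 2 * ddv (g p.1) (g p.2) *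
        (2 * ((g p.1 - g p.2) * Real.tanh ((g p.1 - g p.2) / 2))) := by
    refine Finset.sum_congr rfl fun p _ => ?_
    rw [mul_pow, div_pow, Real.sq_sqrt (hq _ _).le, mul_assoc (C' p.1 p.2 ^ 2), ddv_tanh]
    have := hepos p.1
    have := hepos p.2
    show C' p.1 p.2 ^ 2 * ((e p.1 - e p.2) ^ 2 / ((e p.1 + e p.2) / 2)) =
      C' p.1 p.2 ^ 2 * (2 * (e p.1 - e p.2) ^ 2 / (e p.1 + e p.2))
    have hne : e p.1 + e p.2 ≠ 0 := by positivity
    field_simp
  rw [f1, f2, f3] at hcs
  rw [hcomm, hSS]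
  refine le_trans hcs (mul_le_mul_of_nonneg_left key ?_)
  exact Finset.sum_nonneg fun i _ => Finset.sum_nonneg fun j _ =>
    mul_nonneg (sq_nonneg _) (hq i j).le

end Pool.Agent.H993.LY.P8
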