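import Mathlib
import Pool.Agent.H993.LY.P14a
import Pool.Agent.H993.LY.P8
import Pool.Agent.H993.LY.Base

/-!
# Tasks 14c, 14d of the project LY (helper993)
-/

set_option autoImplicit false
set_option linter.unusedSectionVars false

namespace Pool.Agent.H993.LY.P14c

open Pool.Agent.H993.LY.P8 (task_fb task_cs)
open Pool.Agent.H993.LY.P14a (task_duhn task_dcmn)

open Filter Topology NormedSpace Matrix MeasureTheory
open Pool.Agent.H993.TR Pool.Agent.H993.LY
open Pool.Agent.N657.QR (ee nnw lam)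

variable {V : Type} [Fintype V] [DecidableEq V]

/-! ### Cited earlier tasks -/

/-! ### Auxiliary lemmas -/

theorem nsq_nonneg (m : V → ℤ) : 0 ≤ nsq m := Finset.sum_nonneg fun _ _ => sq_nonneg _

/-- the linear functional -/
def lf (f : V → ℝ) (m : V → ℤ) : ℝ := ∑ x, f x * (m x : ℝ)

theorem lf_add (f : V → ℝ) (m v : V → ℤ) : lf f (m + v) = lf f m + lf f v := by
  unfold lf
  rw [← Finset.sum_add_distrib]
  refine Finset.sum_congr rfl fun x _ => ?_
  rw [Pi.add_apply]
  push_cast
  ring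

theorem lf_neg (f : V → ℝ) (v : V → ℤ) : lf f (-v) = -lf f v := by
  unfold lf
  rw [← Finset.sum_neg_distrib]
  refine Finset.sum_congr rfl fun x _ => ?_
  rw [Pi.neg_apply]
  push_cast
  ring

theorem lf_eta (f : V → ℝ) (x z : V) : lf f (eta x z) = f x - f z := by
  unfold lf eta
  simp only [Pi.sub_apply, Pi.single_apply]
  push_cast
  simp [mul_sub, Finset.sum_sub_distrib]

theorem lf_sq_le (f : V → ℝ) (m : V → ℤ) : lf f m ^ 2 ≤ (∑ x, f x ^ 2) * (1 + nsq m) := by
  have h1 := Finset.sum_mul_sq_le_sq_mul_sq (Finset.univ : Finset V) f (fun x => (m x : ℝ))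
  have h2 : 0 ≤ ∑ x, f x ^ 2 := Finset.sum_nonneg fun _ _ => sq_nonneg _
  unfold lf nsq
  nlinarith

theorem tw_one_tr (R : Finset (V → ℤ)) (v : V → ℤ) :
    (tw R (fun _ => 1) v)ᵀ = tw R (fun _ => 1) (-v) := tw_transpose R (fun _ => 1) v

theorem comm_tw (R : Finset (V → ℤ)) (f : V → ℝ) (v : V → ℤ) :
    tw R (fun _ => 1) v * (diagonal fun n : R => lf f n.1) -
      (diagonal fun n : R => lf f n.1) * tw R (fun _ => 1) v =
    (-(lf f v)) • tw R (fun _ => 1) v := by
  ext n m
  rw [Matrix.sub_apply, Matrix.mul_diagonal, Matrix.diagonal_mul, Matrix.smul_apply]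
  unfold tw
  by_cases h : (n : V → ℤ) = m + v
  · rw [if_pos h, h, lf_add, smul_eq_mul]
    ring
  · rw [if_neg h]
    simp

section lim

variable {β U : ℝ} {w : V → V → ℝ}

theorem lim_T (hβ : 0 < β) (hU : 0 < U) (hw : ∀ x y, 0 ≤ w x y) (v : V → ℤ) :
    Tendsto (fun R => (tw (nR R) (fun _ => 1) v * exp (mt (AA β U w) (nR R))).trace) atTop
      (𝓝 (WW (AA β U w) v)) := by
  have h := (lim_w hβ hU hw v (fun _ _ => 1) (fun _ => 1) 1 (fun R m => by
    have := nsq_nonneg m
    rw [abs_one]; linarith) (fun m _ => Eventually.of_forall fun R => rfl)).2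
  unfold WW
  simp only [one_mul] at h
  refine h.congr fun R => ?_
  rw [trace_tw]
  refine Finset.sum_congr rfl fun m _ => ?_
  rw [one_mul, EE_symm (AA_adm hβ hw)]

theorem lim_TT (hβ : 0 < β) (hU : 0 < U) (hw : ∀ x y, 0 ≤ w x y) (v u : V → ℤ)
    (hu : ∑ x, u x = 0) :
    Tendsto (fun R => (tw (nR R) (fun _ => 1) v * tw (nR R) (fun _ => 1) u *
      exp (mt (AA β U w) (nR R))).trace) atTop (𝓝 (WW (AA β U w) (u + v))) := by
  classical
  have h := (lim_w hβ hU hw (u + v) (fun R m => if m + u ∈ nR R then 1 else 0) (fun _ => 1) 1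
    (fun R m => by
      have := nsq_nonneg m
      split_ifs
      · rw [abs_one]; linarith
      · rw [abs_zero]; linarith)
    (fun m hm => by
      have h0 : ∑ x, (m + u) x = 0 := by
        simp only [Pi.add_apply, Finset.sum_add_distrib, hm, hu, add_zero]
      filter_upwards [eventually_mem_nR (m + u) h0] with R hR
      rw [if_pos hR])).2
  unfold WW
  simp only [one_mul] at h
  refine h.congr fun R => ?_
  rw [tw_mul, trace_tw]
  refine Finset.sum_congr rfl fun m _ => ?_
  rw [mul_one, EE_symm (AA_adm hβ hw)]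

end lim

theorem trace_sq_nonneg {n : Type} [Fintype n] [DecidableEq n] (G Y : Matrix n n ℝ) (hG : Gᵀ = G)
    (hY : Yᵀ = Y) : 0 ≤ (Y * Y * exp G).trace := by
  have h1 : exp G = exp ((1 / 2 : ℝ) • G) * exp ((1 / 2 : ℝ) • G) := by
    rw [← Matrix.exp_add_of_commute _ _ (Commute.refl _), ← add_smul]
    norm_num
  obtain ⟨E, hE⟩ : ∃ E, E = exp ((1 / 2 : ℝ) • G) := ⟨_, rfl⟩
  have h2 : Eᵀ = E := by rw [hE, ← Matrix.exp_transpose, Matrix.transpose_smul, hG]
  rw [h1, ← hE]
  have h3 : (Y * Y * (E * E)).trace = ((Y * E)ᵀ * (Y * E)).trace := by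
    rw [Matrix.transpose_mul, h2, hY, ← Matrix.mul_assoc, Matrix.trace_mul_comm]
    congr 1
    simp only [Matrix.mul_assoc]
  rw [h3]
  simp only [Matrix.trace, Matrix.diag, Matrix.mul_apply, Matrix.transpose_apply]
  exact Finset.sum_nonneg fun i _ => Finset.sum_nonneg fun j _ => mul_self_nonneg _

theorem xcoth_cont {x : ℝ} (hx : 0 < x) : ContinuousAt xcoth x := by
  have h : xcoth =ᶠ[𝓝 x] fun y => y * Real.cosh y / Real.sinh y := by
    filter_upwards [lt_mem_nhds hx] with y hy
    unfold xcoth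
    rw [if_neg hy.ne']
  refine ContinuousAt.congr ?_ h.symm
  refine ContinuousAt.div (by fun_prop) (by fun_prop) ?_
  exact (Real.sinh_pos_iff.2 hx).ne'

theorem tanh_cont : Continuous Real.tanh := by
  have h : Real.tanh = fun x => Real.sinh x / Real.cosh x := funext Real.tanh_eq_sinh_div_cosh
  rw [h]
  exact Real.continuous_sinh.div Real.continuous_cosh fun x => (Real.cosh_pos x).ne'

theorem diag_sq (R : Finset (V → ℤ)) (f : V → ℝ) :
    (diagonal fun n : R => lf f n.1) * (diagonal fun n : R => lf f n.1) =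
      tw R (fun m => lf f m ^ 2) 0 := by
  ext n m
  rw [Matrix.diagonal_mul_diagonal, Matrix.diagonal_apply]
  unfold tw
  by_cases h : n = m
  · subst h
    rw [if_pos rfl, add_zero, if_pos rfl]
    exact (sq _).symm
  · rw [if_neg h, if_neg (fun h' => h (Subtype.ext (by rw [h', add_zero])))]

theorem task_num {β U : ℝ} (hβ : 0 < β) (hU : 0 < U) {w : V → V → ℝ} (hw : ∀ x y, 0 ≤ w x y)
    (f : V → ℝ) (B M : ℝ) (hB : B = (∑ x, f x ^ 2) / (2 * β * U))
    (hM : M = β * ∑ x, ∑ y, w x y * (f x - f y) ^ 2) (hB0 : 0 < B) (hM0 : 0 < M) :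
    ∑' m : V → ℤ, (∑ x, f x * (m x : ℝ)) ^ 2 * EI (AA β U w) m m ≤
      B * xcoth (Real.sqrt (M / B) / 2) * WW (AA β U w) 0 := by
  have hZ := WW_zero_pos hβ hU hw
  obtain ⟨Z, hZe⟩ : ∃ Z, Z = WW (AA β U w) 0 := ⟨_, rfl⟩
  rw [← hZe] at hZ ⊢
  have key : ∀ ε : ℝ, 0 < ε → ∑' m : V → ℤ, (∑ x, f x * (m x : ℝ)) ^ 2 * EI (AA β U w) m m ≤
      (B + ε) * xcoth (Real.sqrt (M / (B + ε)) / 2) * Z := by
    intro ε hε
    have h1 := (lim_w hβ hU hw 0 (fun _ m => lf f m ^ 2) (fun m => lf f m ^ 2) (∑ x, f x ^ 2)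
      (fun R m => by
        rw [abs_of_nonneg (sq_nonneg _)]
        exact lf_sq_le f m) (fun m _ => Eventually.of_forall fun R => rfl)).2
    simp only [add_zero] at h1
    refine le_of_tendsto h1 ?_
    filter_upwards [task_duhn hβ hU hw f ε hε] with R hR
    have h2 := task_dcmn hβ hU hw f R
    rw [← hB, ← hZe] at hR
    rw [← hM, ← hZe] at h2
    have h3 := task_fb (mt (AA β U w) (nR R)) (diagonal fun n => ∑ x, f x * (n.1 x : ℝ))
      (mt_symm (AA_adm hβ hw) _) (Matrix.diagonal_transpose _) ((B + ε) * Z) (M * Z)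
      (by positivity) (by positivity) hR h2
    have h4 : (diagonal fun n : (nR R) => ∑ x, f x * (n.1 x : ℝ)) *
        (diagonal fun n : (nR R) => ∑ x, f x * (n.1 x : ℝ)) = tw (nR R) (fun m => lf f m ^ 2) 0 :=
      diag_sq (nR R) f
    rw [h4, trace_tw, mul_div_mul_right _ _ hZ.ne'] at h3
    simp only [add_zero] at h3
    refine h3.trans (le_of_eq (by ring))
  have hc : ContinuousAt (fun ε : ℝ => (B + ε) * xcoth (Real.sqrt (M / (B + ε)) / 2) * Z) 0 := by
    have h1 : ContinuousAt (fun ε : ℝ => Real.sqrt (M / (B + ε)) / 2) 0 := by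
      have : ContinuousAt (fun ε : ℝ => M / (B + ε)) 0 :=
        ContinuousAt.div continuousAt_const (by fun_prop) (by simpa using hB0.ne')
      exact (this.sqrt).div_const 2
    have h2 : ContinuousAt xcoth ((fun ε : ℝ => Real.sqrt (M / (B + ε)) / 2) 0) := by
      apply xcoth_cont
      simp only [add_zero]
      positivity
    have h3 : ContinuousAt (fun ε : ℝ => xcoth (Real.sqrt (M / (B + ε)) / 2)) 0 :=
      ContinuousAt.comp (g := xcoth) h2 h1
    exact (ContinuousAt.mul (by fun_prop) h3).mul continuousAt_const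
  have h5 : Tendsto (fun ε : ℝ => (B + ε) * xcoth (Real.sqrt (M / (B + ε)) / 2) * Z) (𝓝[>] 0)
      (𝓝 (B * xcoth (Real.sqrt (M / B) / 2) * Z)) := by
    have := hc.tendsto
    simp only [add_zero] at this
    exact this.mono_left nhdsWithin_le_nhds
  exact ge_of_tendsto h5 (by
    filter_upwards [self_mem_nhdsWithin] with ε hε
    exact key ε hε)

theorem task_low {β U : ℝ} (hβ : 0 < β) (hU : 0 < U) {w : V → V → ℝ} (hw : ∀ x y, 0 ≤ w x y)
    (f : V → ℝ) (z : V) (B M : ℝ) (hB : B = (∑ x, f x ^ 2) / (2 * β * U))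
    (hM : M = β * ∑ x, ∑ y, w x y * (f x - f y) ^ 2) (hB0 : 0 < B) (hM0 : 0 < M) :
    (∑ x, f x * (f x - f z) * WW (AA β U w) (eta x z)) ^ 2 ≤
      (∑ x, ∑ y, f x * f y * WW (AA β U w) (eta x y)) *
        (2 * Real.sqrt (B * M) * Real.tanh (Real.sqrt (M / B) / 2)) * WW (AA β U w) 0 := by
  have hZ := WW_zero_pos hβ hU hw
  obtain ⟨Z, hZe⟩ : ∃ Z, Z = WW (AA β U w) 0 := ⟨_, rfl⟩
  rw [← hZe] at hZ ⊢
  obtain ⟨Q, hQ⟩ : ∃ Q, Q = ∑ x, ∑ y, f x * f y * WW (AA β U w) (eta x y) := ⟨_, rfl⟩
  rw [← hQ]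
  -- the matrices
  let T : ∀ (R : Finset (Sec V 0)) (v : V → ℤ), Matrix (nR R) (nR R) ℝ :=
    fun R v => tw (nR R) (fun _ => 1) v
  let X : ∀ R : Finset (Sec V 0), Matrix (nR R) (nR R) ℝ := fun R => ∑ x, f x • T R (eta x z)
  let X' : ∀ R : Finset (Sec V 0), Matrix (nR R) (nR R) ℝ := fun R => ∑ x, f x • T R (-(eta x z))
  have hXT : ∀ R, (X R)ᵀ = X' R := by
    intro R
    simp only [X, X', Matrix.transpose_sum, Matrix.transpose_smul]
    exact Finset.sum_congr rfl fun x _ => by rw [tw_one_tr]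
  have hXT' : ∀ R, (X' R)ᵀ = X R := by
    intro R
    rw [← hXT R, Matrix.transpose_transpose]
  -- limits
  have L1 : Tendsto (fun R => (X R * X' R * exp (mt (AA β U w) (nR R))).trace) atTop (𝓝 Q) := by
    have e : ∀ R, (X R * X' R * exp (mt (AA β U w) (nR R))).trace = ∑ x, ∑ y, f x * f y *
        (T R (eta x z) * T R (-(eta y z)) * exp (mt (AA β U w) (nR R))).trace := by
      intro R
      simp only [X, X', Finset.sum_mul, Finset.mul_sum, Matrix.trace_sum, smul_mul_assoc,
        mul_smul_comm, Matrix.trace_smul, smul_eq_mul]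
      rw [Finset.sum_comm]
      exact Finset.sum_congr rfl fun x _ => Finset.sum_congr rfl fun y _ => by ring
    simp only [e, hQ]
    refine tendsto_finsetSum _ fun x _ => tendsto_finsetSum _ fun y _ => ?_
    refine Tendsto.const_mul _ ?_
    have h := lim_TT hβ hU hw (eta x z) (-(eta y z)) (by
      simp only [Pi.neg_apply, Finset.sum_neg_distrib, eta_charge, neg_zero])
    have e2 : -(eta y z) + eta x z = eta x y := by unfold eta; abel
    rwa [e2] at h
  have L2 : Tendsto (fun R => (X' R * X R * exp (mt (AA β U w) (nR R))).trace) atTop (𝓝 Q) := by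
    have e : ∀ R, (X' R * X R * exp (mt (AA β U w) (nR R))).trace = ∑ x, ∑ y, f x * f y *
        (T R (-(eta y z)) * T R (eta x z) * exp (mt (AA β U w) (nR R))).trace := by
      intro R
      simp only [X, X', Finset.sum_mul, Finset.mul_sum, Matrix.trace_sum, smul_mul_assoc,
        mul_smul_comm, Matrix.trace_smul, smul_eq_mul]
      exact Finset.sum_congr rfl fun x _ => Finset.sum_congr rfl fun y _ => by ring
    simp only [e, hQ]
    refine tendsto_finsetSum _ fun x _ => tendsto_finsetSum _ fun y _ => ?_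
    refine Tendsto.const_mul _ ?_
    have h := lim_TT hβ hU hw (-(eta y z)) (eta x z) (eta_charge x z)
    have e2 : eta x z + -(eta y z) = eta x y := by unfold eta; abel
    rwa [e2] at h
  let C : ∀ R : Finset (Sec V 0), Matrix (nR R) (nR R) ℝ := fun R =>
    diagonal fun n => ∑ x, f x * (n.1 x : ℝ)
  let S : ∀ R : Finset (Sec V 0), Matrix (nR R) (nR R) ℝ := fun R => (1 / 2 : ℝ) • (X R - X' R)
  let Y : ∀ R : Finset (Sec V 0), Matrix (nR R) (nR R) ℝ := fun R => (1 / 2 : ℝ) • (X R + X' R)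
  have hST : ∀ R, (S R)ᵀ = -S R := by
    intro R
    simp only [S, Matrix.transpose_smul, Matrix.transpose_sub, hXT, hXT']
    rw [← smul_neg, neg_sub]
  have hYT : ∀ R, (Y R)ᵀ = Y R := by
    intro R
    simp only [Y, Matrix.transpose_smul, Matrix.transpose_add, hXT, hXT']
    rw [add_comm]
  have hYY : ∀ R, Y R * Y R = S R * S R + (1 / 2 : ℝ) • (X R * X' R + X' R * X R) := by
    intro R
    simp only [S, Y, smul_mul_assoc, mul_smul_comm, add_mul, mul_add, sub_mul, mul_sub]
    module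
  have hcomm : ∀ R, S R * C R - C R * S R = -((1 / 2 : ℝ) • ∑ x, (f x * (f x - f z)) •
      (T R (eta x z) + T R (-(eta x z)))) := by
    intro R
    have h1 : X R * C R - C R * X R = ∑ x, (-(f x * (f x - f z))) • T R (eta x z) := by
      simp only [X, Finset.sum_mul, Finset.mul_sum, smul_mul_assoc, mul_smul_comm]
      rw [← Finset.sum_sub_distrib]
      refine Finset.sum_congr rfl fun x _ => ?_
      rw [← smul_sub]
      have h2 : T R (eta x z) * C R - C R * T R (eta x z) = (-(lf f (eta x z))) • T R (eta x z) :=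
        comm_tw (nR R) f (eta x z)
      rw [h2, lf_eta, smul_smul]
      congr 1
      ring
    have h1' : X' R * C R - C R * X' R = ∑ x, (f x * (f x - f z)) • T R (-(eta x z)) := by
      simp only [X', Finset.sum_mul, Finset.mul_sum, smul_mul_assoc, mul_smul_comm]
      rw [← Finset.sum_sub_distrib]
      refine Finset.sum_congr rfl fun x _ => ?_
      rw [← smul_sub]
      have h2 : T R (-(eta x z)) * C R - C R * T R (-(eta x z)) =
          (-(lf f (-(eta x z)))) • T R (-(eta x z)) := comm_tw (nR R) f (-(eta x z))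
      rw [h2, lf_neg, lf_eta, smul_smul]
      congr 1
      ring
    have h3 : S R * C R - C R * S R = (1 / 2 : ℝ) • ((X R * C R - C R * X R) -
        (X' R * C R - C R * X' R)) := by
      simp only [S, smul_mul_assoc, mul_smul_comm, sub_mul, mul_sub]
      module
    rw [h3, h1, h1', ← Finset.sum_sub_distrib, ← smul_neg, ← Finset.sum_neg_distrib]
    congr 1
    refine Finset.sum_congr rfl fun x _ => ?_
    module
  have L3 : Tendsto (fun R => ((S R * C R - C R * S R) * exp (mt (AA β U w) (nR R))).trace) atTop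
      (𝓝 (-(∑ x, f x * (f x - f z) * WW (AA β U w) (eta x z)))) := by
    have e : ∀ R, ((S R * C R - C R * S R) * exp (mt (AA β U w) (nR R))).trace =
        -(1 / 2 * ∑ x, f x * (f x - f z) *
          ((T R (eta x z) * exp (mt (AA β U w) (nR R))).trace +
          (T R (-(eta x z)) * exp (mt (AA β U w) (nR R))).trace)) := by
      intro R
      rw [hcomm]
      simp only [neg_mul, Matrix.trace_neg, smul_mul_assoc, Matrix.trace_smul, Finset.sum_mul,
        Matrix.trace_sum, add_mul, Matrix.trace_add, smul_eq_mul]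
    simp only [e]
    have h1 : ∑ x, f x * (f x - f z) * WW (AA β U w) (eta x z) = 1 / 2 * ∑ x, f x * (f x - f z) *
        (WW (AA β U w) (eta x z) + WW (AA β U w) (-(eta x z))) := by
      rw [Finset.mul_sum]
      refine Finset.sum_congr rfl fun x _ => ?_
      rw [WW_neg hβ hw]
      ring
    rw [h1]
    refine Tendsto.neg (Tendsto.const_mul _ ?_)
    refine tendsto_finsetSum _ fun x _ => Tendsto.const_mul _ ?_
    exact (lim_T hβ hU hw (eta x z)).add (lim_T hβ hU hw (-(eta x z)))
  have key : ∀ ε : ℝ, 0 < ε → (∑ x, f x * (f x - f z) * WW (AA β U w) (eta x z)) ^ 2 ≤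
      Q * (2 * Real.sqrt ((B + ε) * M) * Real.tanh (Real.sqrt (M / (B + ε)) / 2)) * Z := by
    intro ε hε
    have hBε : 0 < B + ε := by linarith
    obtain ⟨K, hK⟩ : ∃ K, K = 2 * Real.sqrt ((B + ε) * Z * (M * Z)) *
        Real.tanh (Real.sqrt (M * Z / ((B + ε) * Z)) / 2) := ⟨_, rfl⟩
    have hK0 : 0 ≤ K := by
      rw [hK]
      have : 0 ≤ Real.tanh (Real.sqrt (M * Z / ((B + ε) * Z)) / 2) := by
        rw [Real.tanh_eq_sinh_div_cosh]
        have h1 : 0 ≤ Real.sinh (Real.sqrt (M * Z / ((B + ε) * Z)) / 2) :=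
          Real.sinh_nonneg_iff.2 (by positivity)
        have h2 := Real.cosh_pos (Real.sqrt (M * Z / ((B + ε) * Z)) / 2)
        positivity
      positivity
    have hK2 : K = (2 * Real.sqrt ((B + ε) * M) * Real.tanh (Real.sqrt (M / (B + ε)) / 2)) * Z := by
      rw [hK, mul_div_mul_right _ _ hZ.ne']
      have h1 : (B + ε) * Z * (M * Z) = (B + ε) * M * Z ^ 2 := by ring
      rw [h1, Real.sqrt_mul (by positivity), Real.sqrt_sq hZ.le]
      ring
    have h := le_of_tendsto_of_tendsto (L3.pow 2) (((L1.add L2).div_const 2).mul_const K) (by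
      filter_upwards [task_duhn hβ hU hw f ε hε] with R hR
      have h2 := task_dcmn hβ hU hw f R
      rw [← hB, ← hZe] at hR
      rw [← hM, ← hZe] at h2
      have h3 := task_cs (mt (AA β U w) (nR R)) (C R) (S R) (mt_symm (AA_adm hβ hw) _)
        (Matrix.diagonal_transpose _) (hST R) ((B + ε) * Z) (M * Z)
        (by positivity) (by positivity) hR h2
      rw [← hK] at h3
      refine h3.trans (mul_le_mul_of_nonneg_right ?_ hK0)
      have h4 := trace_sq_nonneg (mt (AA β U w) (nR R)) (Y R) (mt_symm (AA_adm hβ hw) _) (hYT R)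
      have h6 : ((1 / 2 : ℝ) • (X R * X' R + X' R * X R) * exp (mt (AA β U w) (nR R))).trace =
          ((X R * X' R * exp (mt (AA β U w) (nR R))).trace +
            (X' R * X R * exp (mt (AA β U w) (nR R))).trace) / 2 := by
        rw [smul_mul_assoc, Matrix.trace_smul, add_mul, Matrix.trace_add, smul_eq_mul]
        ring
      rw [hYY R, add_mul, Matrix.trace_add, h6] at h4
      linarith)
    rw [neg_sq, hK2] at h
    refine h.trans (le_of_eq (by ring))
  have hc : ContinuousAt (fun ε : ℝ => Q * (2 * Real.sqrt ((B + ε) * M) *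
      Real.tanh (Real.sqrt (M / (B + ε)) / 2)) * Z) 0 := by
    have h1 : ContinuousAt (fun ε : ℝ => Real.sqrt (M / (B + ε)) / 2) 0 := by
      have : ContinuousAt (fun ε : ℝ => M / (B + ε)) 0 :=
        ContinuousAt.div continuousAt_const (by fun_prop) (by simpa using hB0.ne')
      exact (this.sqrt).div_const 2
    have h3 : ContinuousAt (fun ε : ℝ => Real.tanh (Real.sqrt (M / (B + ε)) / 2)) 0 :=
      (tanh_cont.continuousAt).comp h1
    exact (continuousAt_const.mul (ContinuousAt.mul (by fun_prop) h3)).mul continuousAt_const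
  have h5 : Tendsto (fun ε : ℝ => Q * (2 * Real.sqrt ((B + ε) * M) *
      Real.tanh (Real.sqrt (M / (B + ε)) / 2)) * Z) (𝓝[>] 0)
      (𝓝 (Q * (2 * Real.sqrt (B * M) * Real.tanh (Real.sqrt (M / B) / 2)) * Z)) := by
    have := hc.tendsto
    simp only [add_zero] at this
    exact this.mono_left nhdsWithin_le_nhds
  exact ge_of_tendsto h5 (by
    filter_upwards [self_mem_nhdsWithin] with ε hε
    exact key ε hε)

end Pool.Agent.H993.LY.P14c
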