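import Mathlib
import Pool.Agent.H993.LY.P14c
import Pool.Agent.H993.LY.P16
import Pool.Agent.H993.LY.Base2

/-!
# LY task 17: the sharp lower bound for the modes
-/

namespace Pool.Agent.H993.LY.P17

open Pool.Agent.H993.LY.P14c (task_low)
open Pool.Agent.H993.LY.P16 (task_dir task_modes)

open Filter Topology NormedSpace Matrix MeasureTheory
open Pool.Agent.H993.TR
open Pool.Agent.H993.LY
open Pool.Agent.N157.QR_FOU (BB)
open Pool.Agent.N657.QR (ee nnw lam)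

variable {V : Type} [Fintype V] [DecidableEq V]

/-! ### Earlier tasks -/

/-! ### Task 17 -/

omit [DecidableEq V] in
/-- The lower bound from the two inequalities for every site. -/
theorem core17 (G : V → V → ℝ) (fc fs : V → ℝ) (hcs : ∀ x, fc x ^ 2 + fs x ^ 2 = 1)
    {Z ψ D n : ℝ} (hn : n = Fintype.card V) (hn0 : 0 < n) (hZ : 0 < Z) (hψ : 0 < ψ)
    (hc : ∀ z, (∑ x, fc x * (fc x - fc z) * G x z) ^ 2 ≤
      (∑ x, ∑ y, fc x * fc y * G x y) * ((∑ x, fc x ^ 2) * ψ) * Z)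
    (hs : ∀ z, (∑ x, fs x * (fs x - fs z) * G x z) ^ 2 ≤
      (∑ x, ∑ y, fs x * fs y * G x y) * ((∑ x, fs x ^ 2) * ψ) * Z)
    (hTc : 0 ≤ ∑ x, ∑ y, fc x * fc y * G x y) (hTs : 0 ≤ ∑ x, ∑ y, fs x * fs y * G x y)
    (hT : (∑ x, ∑ y, fc x * fc y * G x y) + (∑ x, ∑ y, fs x * fs y * G x y) ≤ n ^ 2 * Z * D)
    (hG : ∑ x, ∑ y, G x y = n ^ 2 * Z * (1 - D)) (hD : D ≤ 1 / 2) :
    (1 - 2 * D) ^ 2 * (n * Z) ≤
      ψ * ((∑ x, ∑ y, fc x * fc y * G x y) + (∑ x, ∑ y, fs x * fs y * G x y)) := by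
  obtain ⟨Tc, hTc'⟩ : ∃ Tc, Tc = ∑ x, ∑ y, fc x * fc y * G x y := ⟨_, rfl⟩
  obtain ⟨Ts, hTs'⟩ : ∃ Ts, Ts = ∑ x, ∑ y, fs x * fs y * G x y := ⟨_, rfl⟩
  obtain ⟨Sc, hSc'⟩ : ∃ Sc, Sc = ∑ x, fc x ^ 2 := ⟨_, rfl⟩
  obtain ⟨Ss, hSs'⟩ : ∃ Ss, Ss = ∑ x, fs x ^ 2 := ⟨_, rfl⟩
  have hSc0 : 0 ≤ Sc := by rw [hSc']; exact Finset.sum_nonneg fun x _ => sq_nonneg _
  have hSs0 : 0 ≤ Ss := by rw [hSs']; exact Finset.sum_nonneg fun x _ => sq_nonneg _
  have hS : Sc + Ss = n := by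
    rw [hSc', hSs', ← Finset.sum_add_distrib, hn, Finset.sum_congr rfl fun x _ => hcs x]
    simp
  rw [← hTc'] at hTc hT hc ⊢
  rw [← hTs'] at hTs hT hs ⊢
  rw [← hSc'] at hc
  rw [← hSs'] at hs
  -- one site
  have h1 : ∀ z, (∑ x, fc x * (fc x - fc z) * G x z + ∑ x, fs x * (fs x - fs z) * G x z) ^ 2 ≤
      (Tc + Ts) * n * ψ * Z := by
    intro z
    obtain ⟨a, ha⟩ : ∃ a, a = ∑ x, fc x * (fc x - fc z) * G x z := ⟨_, rfl⟩
    obtain ⟨b, hb⟩ : ∃ b, b = ∑ x, fs x * (fs x - fs z) * G x z := ⟨_, rfl⟩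
    have h2 := hc z
    have h3 := hs z
    rw [← ha] at h2
    rw [← hb] at h3
    rw [← ha, ← hb]
    have hψZ : 0 < ψ * Z := mul_pos hψ hZ
    have h4 : 2 * (a * b) ≤ (Tc * Ss + Ts * Sc) * (ψ * Z) := by
      refine le_of_abs_le (abs_le_of_sq_le_sq' ?_ ?_ |> fun h => abs_le.2 h)
      · have h5 : (a * b) ^ 2 ≤ (Tc * (Sc * ψ) * Z) * (Ts * (Ss * ψ) * Z) := by
          rw [mul_pow]
          exact mul_le_mul h2 h3 (sq_nonneg _) (by positivity)
        have h6 : 0 ≤ (Tc * Ss - Ts * Sc) ^ 2 * (ψ * Z) ^ 2 := by positivity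
        nlinarith [h5, h6]
      · positivity
    have h7 : (a + b) ^ 2 = a ^ 2 + b ^ 2 + 2 * (a * b) := by ring
    rw [h7, ← hS]
    nlinarith [h2, h3, h4]
  -- the sum over the sites
  have h2 : ∑ z, (∑ x, fc x * (fc x - fc z) * G x z + ∑ x, fs x * (fs x - fs z) * G x z) =
      n ^ 2 * Z * (1 - D) - (Tc + Ts) := by
    rw [← hG, hTc', hTs', ← Finset.sum_add_distrib]
    rw [Finset.sum_comm (f := fun x y => G x y)]
    have h3 : ∀ x, ∑ y, fc x * fc y * G x y + ∑ y, fs x * fs y * G x y =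
        ∑ y, (fc x * fc y + fs x * fs y) * G x y := by
      intro x
      rw [← Finset.sum_add_distrib]
      exact Finset.sum_congr rfl fun y _ => by ring
    rw [Finset.sum_congr rfl fun x _ => h3 x, Finset.sum_comm
      (f := fun x y => (fc x * fc y + fs x * fs y) * G x y), ← Finset.sum_sub_distrib]
    refine Finset.sum_congr rfl fun z _ => ?_
    rw [← Finset.sum_add_distrib, ← Finset.sum_sub_distrib]
    refine Finset.sum_congr rfl fun x _ => ?_
    have h4 := hcs x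
    linear_combination (G x z) * h4
  have h3 : (n ^ 2 * Z * (1 - D) - (Tc + Ts)) ^ 2 ≤ n * (n * ((Tc + Ts) * n * ψ * Z)) := by
    rw [← h2]
    refine sq_sum_le_card_mul_sum_sq.trans ?_
    rw [Finset.card_univ, ← hn]
    refine mul_le_mul_of_nonneg_left ?_ hn0.le
    refine (Finset.sum_le_sum fun z _ => h1 z).trans ?_
    rw [Finset.sum_const, Finset.card_univ, nsmul_eq_mul, ← hn]
  have h4 : 0 ≤ n ^ 2 * Z * (1 - 2 * D) := by
    have : 0 ≤ 1 - 2 * D := by linarith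
    positivity
  have h5 : n ^ 2 * Z * (1 - 2 * D) ≤ n ^ 2 * Z * (1 - D) - (Tc + Ts) := by linarith
  have h6 : (n ^ 2 * Z * (1 - 2 * D)) ^ 2 ≤ n * (n * ((Tc + Ts) * n * ψ * Z)) :=
    (pow_le_pow_left₀ h4 h5 2).trans h3
  have h7 : 0 < n ^ 3 * Z := by positivity
  refine le_of_mul_le_mul_left ?_ h7
  calc n ^ 3 * Z * ((1 - 2 * D) ^ 2 * (n * Z)) = (n ^ 2 * Z * (1 - 2 * D)) ^ 2 := by ring
    _ ≤ n * (n * ((Tc + Ts) * n * ψ * Z)) := h6
    _ = n ^ 3 * Z * (ψ * (Tc + Ts)) := by ring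

/-- The factor is the inverse of Bogoliubov's value. -/
theorem sB_mul {U J β l : ℝ} (hβ : 0 < β) (hU : 0 < U) (hJ : 0 < J) (hl : 0 < l) :
    sB U J β l * (2 * Real.sqrt (J * l / (2 * U)) *
      Real.tanh (β * Real.sqrt (2 * U * J * l) / 2)) = 1 := by
  have h1 : 0 < 2 * U * J * l := by positivity
  have h2 : 0 < Real.sqrt (2 * U * J * l) := Real.sqrt_pos.2 h1
  have h3 : 0 < β * Real.sqrt (2 * U * J * l) / 2 := by positivity
  obtain ⟨x, hx⟩ : ∃ x, x = β * Real.sqrt (2 * U * J * l) / 2 := ⟨_, rfl⟩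
  have hx0 : 0 < x := by rw [hx]; exact h3
  have h4 : Real.sqrt (J * l / (2 * U)) = Real.sqrt (2 * U * J * l) / (2 * U) := by
    rw [Real.sqrt_eq_iff_mul_self_eq_of_pos (by positivity)]
    have h5 : Real.sqrt (2 * U * J * l) * Real.sqrt (2 * U * J * l) = 2 * U * J * l :=
      Real.mul_self_sqrt h1.le
    field_simp
    nlinarith [h5]
  have h5 : x * Real.sqrt (2 * U * J * l) = β * (U * J * l) := by
    have h6 : Real.sqrt (2 * U * J * l) * Real.sqrt (2 * U * J * l) = 2 * U * J * l :=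
      Real.mul_self_sqrt h1.le
    rw [hx]
    linear_combination (β / 2) * h6
  unfold sB xcoth
  rw [← hx, if_neg hx0.ne', h4, Real.tanh_eq_sinh_div_cosh]
  have h6 : 0 < Real.sinh x := Real.sinh_pos_iff.2 hx0
  have h7 : 0 < Real.cosh x := Real.cosh_pos x
  calc x * Real.cosh x / Real.sinh x / (β * J * l) *
        (2 * (Real.sqrt (2 * U * J * l) / (2 * U)) * (Real.sinh x / Real.cosh x)) =
      (x * Real.sqrt (2 * U * J * l)) / (β * (U * J * l)) := by
        field_simp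
    _ = 1 := by
        rw [h5]
        exact div_self (by positivity)

theorem task_mode {d L : ℕ} [NeZero L] {β U J γ : ℝ} (hβ : 0 < β) (hU : 0 < U) (hJ : 0 < J)
    (hγ : 0 ≤ γ) (hD : depl (AA β U (wgm (d := d) (L := L) J γ)) ≤ 1 / 2) (k : Fin d → ZMod L)
    (hk : k ≠ 0) :
    (1 - 2 * depl (AA β U (wgm (d := d) (L := L) J γ))) ^ 2 * sB U J β (lam k + 2 * γ / J) *
      ((Fintype.card (Fin d → ZMod L) : ℝ) * WW (AA β U (wgm (d := d) (L := L) J γ)) 0) ≤
      TT (AA β U (wgm (d := d) (L := L) J γ)) k := by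
  have hw : ∀ x y : Fin d → ZMod L, 0 ≤ wgm (d := d) (L := L) J γ x y := fun x y =>
    add_nonneg (nnw_nonneg hJ.le x y) (by positivity)
  have hn0 : (0 : ℝ) < Fintype.card (Fin d → ZMod L) := by exact_mod_cast Fintype.card_pos
  have hZ := WW_zero_pos hβ hU hw
  have hlk : 0 < lam k := Pool.Agent.N157.QR_FOU.lam_pos k hk
  have hl : 0 < lam k + 2 * γ / J := by positivity
  obtain ⟨m1, m2⟩ := task_modes hβ hU hw
  have hTk : TT (AA β U (wgm (d := d) (L := L) J γ)) k ≤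
      (Fintype.card (Fin d → ZMod L) : ℝ) ^ 2 * WW (AA β U (wgm (d := d) (L := L) J γ)) 0 *
        depl (AA β U (wgm (d := d) (L := L) J γ)) := by
    rw [← m2]
    exact Finset.single_le_sum (f := fun k => TT (AA β U (wgm (d := d) (L := L) J γ)) k)
      (fun j _ => m1 j) (Finset.mem_erase.2 ⟨hk, Finset.mem_univ _⟩)
  have hG : ∑ x, ∑ y, WW (AA β U (wgm (d := d) (L := L) J γ)) (eta x y) =
      (Fintype.card (Fin d → ZMod L) : ℝ) ^ 2 * WW (AA β U (wgm (d := d) (L := L) J γ)) 0 *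
        (1 - depl (AA β U (wgm (d := d) (L := L) J γ))) := by
    unfold depl
    rw [sub_sub_cancel, mul_div_cancel₀]
    positivity
  obtain ⟨ψ, hψ⟩ : ∃ ψ, ψ = 2 * Real.sqrt (J * (lam k + 2 * γ / J) / (2 * U)) *
      Real.tanh (β * Real.sqrt (2 * U * J * (lam k + 2 * γ / J)) / 2) := ⟨_, rfl⟩
  have hψ0 : 0 < ψ := by
    rw [hψ]
    have h1 : 0 < Real.sqrt (J * (lam k + 2 * γ / J) / (2 * U)) := Real.sqrt_pos.2 (by positivity)
    have h2 : 0 < Real.sqrt (2 * U * J * (lam k + 2 * γ / J)) := Real.sqrt_pos.2 (by positivity)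
    have h3 : 0 < Real.tanh (β * Real.sqrt (2 * U * J * (lam k + 2 * γ / J)) / 2) := by
      rw [Real.tanh_eq_sinh_div_cosh]
      exact div_pos (Real.sinh_pos_iff.2 (by positivity)) (Real.cosh_pos _)
    positivity
  have hsB : sB U J β (lam k + 2 * γ / J) * ψ = 1 := by
    rw [hψ]
    exact sB_mul hβ hU hJ hl
  have hJl : J * (lam k + 2 * γ / J) = J * lam k + 2 * γ := by field_simp
  -- the inequality for every site
  have key : ∀ f : (Fin d → ZMod L) → ℝ,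
      (f = Pool.Agent.N157.QR_FOU.cc k ∨ f = Pool.Agent.N157.QR_FOU.ss k) →
      (∀ z, (∑ x, f x * (f x - f z) * WW (AA β U (wgm (d := d) (L := L) J γ)) (eta x z)) ^ 2 ≤
        (∑ x, ∑ y, f x * f y * WW (AA β U (wgm (d := d) (L := L) J γ)) (eta x y)) *
          ((∑ x, f x ^ 2) * ψ) * WW (AA β U (wgm (d := d) (L := L) J γ)) 0) ∧
      0 ≤ ∑ x, ∑ y, f x * f y * WW (AA β U (wgm (d := d) (L := L) J γ)) (eta x y) := by
    intro f hf
    obtain ⟨S, hS⟩ : ∃ S, S = ∑ x, f x ^ 2 := ⟨_, rfl⟩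
    have hS0 : 0 ≤ S := by rw [hS]; exact Finset.sum_nonneg fun x _ => sq_nonneg _
    rcases hS0.eq_or_lt with h0 | h0
    · have hf0 : ∀ x, f x = 0 := by
        intro x
        have h1 := (Finset.sum_eq_zero_iff_of_nonneg (fun x _ => sq_nonneg (f x))).1
          (hS ▸ h0.symm : ∑ x, f x ^ 2 = 0) x (Finset.mem_univ x)
        exact pow_eq_zero_iff (two_ne_zero) |>.1 h1
      constructor
      · intro z
        simp [hf0]
      · simp [hf0]
    · have hdir := task_dir J γ k hk f hf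
      have hlow := fun z => task_low hβ hU hw f z (S / (2 * β * U))
        (β * ((J * lam k + 2 * γ) * S)) (by rw [hS]) (by rw [hdir, hS]) (by positivity)
        (by positivity)
      have hBM : 2 * Real.sqrt (S / (2 * β * U) * (β * ((J * lam k + 2 * γ) * S))) *
          Real.tanh (Real.sqrt (β * ((J * lam k + 2 * γ) * S) / (S / (2 * β * U))) / 2) =
          S * ψ := by
        have h1 : S / (2 * β * U) * (β * ((J * lam k + 2 * γ) * S)) =
            S ^ 2 * (J * (lam k + 2 * γ / J) / (2 * U)) := by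
          rw [hJl]
          field_simp
        have h2 : β * ((J * lam k + 2 * γ) * S) / (S / (2 * β * U)) =
            β ^ 2 * (2 * U * J * (lam k + 2 * γ / J)) := by
          rw [mul_assoc (2 * U) J, hJl]
          field_simp
        rw [h1, h2, Real.sqrt_mul (sq_nonneg _), Real.sqrt_mul (sq_nonneg _),
          Real.sqrt_sq h0.le, Real.sqrt_sq hβ.le, hψ]
        ring
      rw [← hS]
      have h3 : ∀ z, (∑ x, f x * (f x - f z) *
          WW (AA β U (wgm (d := d) (L := L) J γ)) (eta x z)) ^ 2 ≤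
          (∑ x, ∑ y, f x * f y * WW (AA β U (wgm (d := d) (L := L) J γ)) (eta x y)) *
          (S * ψ) * WW (AA β U (wgm (d := d) (L := L) J γ)) 0 := by
        intro z
        have h4 := hlow z
        rw [hBM] at h4
        exact h4
      refine ⟨h3, ?_⟩
      have h5 := (sq_nonneg _).trans (h3 0)
      rw [mul_assoc] at h5
      exact nonneg_of_mul_nonneg_left h5 (by positivity)
  obtain ⟨c1, c2⟩ := key _ (Or.inl rfl)
  obtain ⟨s1, s2⟩ := key _ (Or.inr rfl)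
  have hfin := core17 (fun x y => WW (AA β U (wgm (d := d) (L := L) J γ)) (eta x y))
    (Pool.Agent.N157.QR_FOU.cc k) (Pool.Agent.N157.QR_FOU.ss k)
    (Pool.Agent.N157.QR_FOU.cs_sq k) rfl hn0 hZ hψ0 c1 s1 c2 s2 hTk hG hD
  have hTT : TT (AA β U (wgm (d := d) (L := L) J γ)) k =
      (∑ x, ∑ y, Pool.Agent.N157.QR_FOU.cc k x * Pool.Agent.N157.QR_FOU.cc k y *
        WW (AA β U (wgm (d := d) (L := L) J γ)) (eta x y)) +
      (∑ x, ∑ y, Pool.Agent.N157.QR_FOU.ss k x * Pool.Agent.N157.QR_FOU.ss k y *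
        WW (AA β U (wgm (d := d) (L := L) J γ)) (eta x y)) := rfl
  rw [← hTT] at hfin
  have hsB0 : 0 < sB U J β (lam k + 2 * γ / J) := (mul_pos_iff_of_pos_right hψ0).1
    (by rw [hsB]; exact one_pos)
  calc (1 - 2 * depl (AA β U (wgm (d := d) (L := L) J γ))) ^ 2 * sB U J β (lam k + 2 * γ / J) *
      ((Fintype.card (Fin d → ZMod L) : ℝ) * WW (AA β U (wgm (d := d) (L := L) J γ)) 0) =
      sB U J β (lam k + 2 * γ / J) * ((1 - 2 * depl (AA β U (wgm (d := d) (L := L) J γ))) ^ 2 *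
      ((Fintype.card (Fin d → ZMod L) : ℝ) *
        WW (AA β U (wgm (d := d) (L := L) J γ)) 0)) := by ring
    _ ≤ sB U J β (lam k + 2 * γ / J) * (ψ * TT (AA β U (wgm (d := d) (L := L) J γ)) k) :=
        mul_le_mul_of_nonneg_left hfin hsB0.le
    _ = (sB U J β (lam k + 2 * γ / J) * ψ) * TT (AA β U (wgm (d := d) (L := L) J γ)) k := by ring
    _ = TT (AA β U (wgm (d := d) (L := L) J γ)) k := by rw [hsB, one_mul]

end Pool.Agent.H993.LY.P17
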