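import Mathlib
import Pool.Agent.H993.LY.Base

/-!
# The virial inequality for quantum rotors (LY task 12), by helper297 for helper993
-/

set_option autoImplicit false
set_option linter.unusedSectionVars false

namespace Pool.Agent.H993.LY.P12

open Filter Topology NormedSpace Matrix MeasureTheory
open Pool.Agent.H993.TR
open Pool.Agent.H993.LY

variable {V : Type} [Fintype V] [DecidableEq V]

/-- difference of two occupation numbers. -/
def dv (x z : V) (m : V → ℤ) : ℝ := (m x : ℝ) - m z

/-- the weight of the shift. -/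
def av (x z : V) (m : V → ℤ) : ℝ := dv x z m + 1

/-- the trace of a commutator. -/
noncomputable def cm {n : Type} [Fintype n] [DecidableEq n] (E X Y : Matrix n n ℝ) : ℝ :=
  ((X * Y - Y * X) * E).trace

section cm
variable {n : Type} [Fintype n] [DecidableEq n]

theorem cm_add_left (E X X' Y : Matrix n n ℝ) : cm E (X + X') Y = cm E X Y + cm E X' Y := by
  unfold cm
  rw [← Matrix.trace_add, ← Matrix.add_mul]
  congr 2
  rw [Matrix.add_mul, Matrix.mul_add]
  abel

theorem cm_smul_left (E X Y : Matrix n n ℝ) (c : ℝ) : cm E (c • X) Y = c * cm E X Y := by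
  unfold cm
  rw [Matrix.smul_mul, Matrix.mul_smul, ← smul_sub, Matrix.smul_mul, Matrix.trace_smul,
    smul_eq_mul]

theorem cm_sum_left {ι : Type} (s : Finset ι) (E : Matrix n n ℝ) (X : ι → Matrix n n ℝ)
    (Y : Matrix n n ℝ) : cm E (∑ i ∈ s, X i) Y = ∑ i ∈ s, cm E (X i) Y := by
  unfold cm
  rw [Finset.sum_mul, Finset.mul_sum, ← Finset.sum_sub_distrib, Finset.sum_mul,
    Matrix.trace_sum]

theorem cm_sum_right {ι : Type} (s : Finset ι) (E X : Matrix n n ℝ) (Y : ι → Matrix n n ℝ) :
    cm E X (∑ i ∈ s, Y i) = ∑ i ∈ s, cm E X (Y i) := by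
  unfold cm
  rw [Finset.sum_mul, Finset.mul_sum, ← Finset.sum_sub_distrib, Finset.sum_mul,
    Matrix.trace_sum]

theorem cm_self (G P : Matrix n n ℝ) : cm (exp G) G P = 0 := by
  unfold cm
  rw [Matrix.sub_mul, Matrix.trace_sub]
  have e1 : (G * P * exp G).trace = (P * G * exp G).trace := by
    rw [Matrix.mul_assoc, Matrix.trace_mul_comm, Matrix.mul_assoc, comm_exp, ← Matrix.mul_assoc]
  rw [e1, sub_self]

end cm

theorem nsq_nonneg (m : V → ℤ) : 0 ≤ nsq m := Finset.sum_nonneg fun _ _ => sq_nonneg _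

theorem sq_le_nsq (m : V → ℤ) (x : V) : (m x : ℝ) ^ 2 ≤ nsq m :=
  Finset.single_le_sum (f := fun x => (m x : ℝ) ^ 2) (fun _ _ => sq_nonneg _) (Finset.mem_univ x)

theorem abs_dv_le (x z : V) (m : V → ℤ) : |dv x z m| ≤ 1 + nsq m := by
  have h1 := sq_le_nsq m x
  have h2 := sq_le_nsq m z
  unfold dv
  rw [abs_le]
  constructor <;> nlinarith [sq_nonneg ((m x : ℝ) - 1), sq_nonneg ((m x : ℝ) + 1),
    sq_nonneg ((m z : ℝ) - 1), sq_nonneg ((m z : ℝ) + 1)]

theorem dv_add (x z : V) (m u : V → ℤ) : dv x z (m + u) = dv x z m + dv x z u := by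
  unfold dv
  simp only [Pi.add_apply]
  push_cast
  ring

theorem dv_eta {x z : V} (h : x ≠ z) : dv x z (eta x z) = 2 := by
  unfold dv eta
  simp only [Pi.sub_apply, Pi.single_eq_same, Pi.single_eq_of_ne h, Pi.single_eq_of_ne h.symm]
  norm_num

theorem nsq_add_eta {x z : V} (h : x ≠ z) (m : V → ℤ) :
    nsq (m + eta x z) = nsq m + 2 * av x z m := by
  unfold nsq
  have h1 : ∀ y : V, (((m + eta x z) y : ℤ) : ℝ) ^ 2 = (m y : ℝ) ^ 2 +
      ((if y = x then 2 * (m y : ℝ) + 1 else 0) + (if y = z then - (2 * (m y : ℝ)) + 1 else 0)) := by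
    intro y
    unfold eta
    simp only [Pi.add_apply, Pi.sub_apply]
    by_cases hx : y = x
    · subst hx
      have hz : ¬ y = z := h
      simp only [Pi.single_eq_same, Pi.single_eq_of_ne h, if_true, if_neg hz]
      push_cast
      ring
    · by_cases hz : y = z
      · subst hz
        simp only [Pi.single_eq_same, Pi.single_eq_of_ne hx, if_true, if_neg hx]
        push_cast
        ring
      · simp only [Pi.single_eq_of_ne hx, Pi.single_eq_of_ne hz, if_neg hx, if_neg hz]
        push_cast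
        ring
  rw [Finset.sum_congr rfl fun y _ => h1 y, Finset.sum_add_distrib, Finset.sum_add_distrib,
    Finset.sum_ite_eq' Finset.univ x, Finset.sum_ite_eq' Finset.univ z,
    if_pos (Finset.mem_univ _), if_pos (Finset.mem_univ _)]
  unfold av dv
  ring

/-- a sum over shifted points. -/
theorem sum_shift_le (R : Finset (V → ℤ)) (f : (V → ℤ) → ℝ) (hf : ∀ n, 0 ≤ f n)
    (hf0 : ∀ n, n ∉ R → f n = 0) (u : V → ℤ) : ∑ m ∈ R, f (m + u) ≤ ∑ n ∈ R, f n := by
  have h1 : ∑ m ∈ R, f (m + u) = ∑ m ∈ R.filter (fun m => m + u ∈ R), f (m + u) := by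
    symm
    refine Finset.sum_subset (Finset.filter_subset _ _) fun m hm hm' => ?_
    apply hf0
    intro h
    exact hm' (Finset.mem_filter.2 ⟨hm, h⟩)
  have h2 : ∑ m ∈ R.filter (fun m => m + u ∈ R), f (m + u) =
      ∑ n ∈ (R.filter (fun m => m + u ∈ R)).image (fun m => m + u), f n := by
    rw [Finset.sum_image]
    intro a _ b _ hab
    exact add_right_cancel hab
  rw [h1, h2]
  refine Finset.sum_le_sum_of_subset_of_nonneg ?_ fun _ _ _ => hf _
  intro n hn
  obtain ⟨m, hm, rfl⟩ := Finset.mem_image.1 hn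
  exact (Finset.mem_filter.1 hm).2

/-- the diagonal part. -/
theorem D_part {β U : ℝ} (hβ : 0 < β) (hU : 0 < U) {w : V → V → ℝ} (hw : ∀ x y, 0 ≤ w x y)
    (R : Finset (V → ℤ)) (x z : V) :
    -cm (exp (mt (AA β U w) R)) (tw R (fun m => -(β * U * nsq m)) 0)
        (tw R (av x z) (eta x z)) ≤
      2 * β * U * ∑ n ∈ R, ((dv x z n) ^ 2 + 1) * EE (AA β U w) R n n := by
  have hA := AA_adm (U := U) hβ hw
  have hEn : ∀ a b, 0 ≤ EE (AA β U w) R a b := EE_nonneg hA R
  have hcm : cm (exp (mt (AA β U w) R)) (tw R (fun m => -(β * U * nsq m)) 0)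
        (tw R (av x z) (eta x z)) =
      ∑ m ∈ R, ((-(β * U * nsq (m + eta x z)) + β * U * nsq m) * av x z m) *
        EE (AA β U w) R m (m + eta x z) := by
    unfold cm
    rw [Matrix.sub_mul, Matrix.trace_sub, tw_mul, tw_mul, add_zero, zero_add, trace_tw, trace_tw,
      ← Finset.sum_sub_distrib]
    refine Finset.sum_congr rfl fun m hm => ?_
    by_cases h : m + eta x z ∈ R
    · rw [if_pos h, if_pos (by rw [add_zero]; exact hm), add_zero]
      ring
    · rw [EE_zero_right h]
      ring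
  rw [hcm]
  by_cases hxz : x = z
  · subst hxz
    have h0 : eta x x = (0 : V → ℤ) := by unfold eta; simp
    have h1 : ∑ m ∈ R, ((-(β * U * nsq (m + eta x x)) + β * U * nsq m) * av x x m) *
        EE (AA β U w) R m (m + eta x x) = 0 := by
      refine Finset.sum_eq_zero fun m _ => ?_
      rw [h0, add_zero]
      ring
    rw [h1, neg_zero]
    refine mul_nonneg (by positivity) (Finset.sum_nonneg fun n _ => ?_)
    exact mul_nonneg (by positivity) (hEn _ _)
  · have h1 : ∀ m ∈ R, -(((-(β * U * nsq (m + eta x z)) + β * U * nsq m) * av x z m) *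
        EE (AA β U w) R m (m + eta x z)) ≤
        β * U * ((dv x z m + 1) ^ 2 * EE (AA β U w) R m m) +
        β * U * ((dv x z (m + eta x z) - 1) ^ 2 *
          EE (AA β U w) R (m + eta x z) (m + eta x z)) := by
      intro m _
      rw [nsq_add_eta hxz]
      have h2 : dv x z (m + eta x z) - 1 = av x z m := by
        rw [dv_add, dv_eta hxz]
        unfold av
        ring
      rw [h2]
      have h3 : dv x z m + 1 = av x z m := rfl
      rw [h3]
      have h4 := EE_le hA R m (m + eta x z)
      have h5 : 0 ≤ β * U * (av x z m) ^ 2 := by positivity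
      have h6 := mul_le_mul_of_nonneg_left h4 h5
      nlinarith
    rw [← Finset.sum_neg_distrib]
    refine (Finset.sum_le_sum h1).trans ?_
    rw [Finset.sum_add_distrib, ← Finset.mul_sum, ← Finset.mul_sum]
    have h7 := sum_shift_le R (fun n => (dv x z n - 1) ^ 2 * EE (AA β U w) R n n)
      (fun n => mul_nonneg (sq_nonneg _) (hEn _ _))
      (fun n hn => by rw [EE_zero_left hn, mul_zero]) (eta x z)
    have h8 : 0 ≤ β * U := by positivity
    have h9 : ∑ n ∈ R, (dv x z n + 1) ^ 2 * EE (AA β U w) R n n +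
        ∑ n ∈ R, (dv x z n - 1) ^ 2 * EE (AA β U w) R n n =
        2 * ∑ n ∈ R, ((dv x z n) ^ 2 + 1) * EE (AA β U w) R n n := by
      rw [← Finset.sum_add_distrib, Finset.mul_sum]
      refine Finset.sum_congr rfl fun n _ => ?_
      ring
    have h10 := mul_le_mul_of_nonneg_left h7 h8
    nlinarith

/-- neutral configurations: the sum of the squares of the differences. -/
theorem sum_dv_sq (n : V → ℤ) (hn : ∑ x, n x = 0) :
    ∑ x, ∑ z, ((dv x z n) ^ 2 + 1) = 2 * Fintype.card V * nsq n + (Fintype.card V : ℝ) ^ 2 := by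
  have hn' : ∑ x, (n x : ℝ) = 0 := by exact_mod_cast hn
  have h1 : ∀ x, ∑ z, ((dv x z n) ^ 2 + 1) =
      Fintype.card V * (n x : ℝ) ^ 2 + nsq n + Fintype.card V := by
    intro x
    have h2 : ∀ z, (dv x z n) ^ 2 + 1 = ((n x : ℝ) ^ 2 + 1) - 2 * (n x : ℝ) * (n z : ℝ) +
        (n z : ℝ) ^ 2 := by
      intro z
      unfold dv
      ring
    rw [Finset.sum_congr rfl fun z _ => h2 z, Finset.sum_add_distrib, Finset.sum_sub_distrib,
      ← Finset.mul_sum, hn', Finset.sum_const, Finset.card_univ, nsmul_eq_mul]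
    unfold nsq
    ring
  rw [Finset.sum_congr rfl fun x _ => h1 x, Finset.sum_add_distrib, Finset.sum_add_distrib,
    ← Finset.mul_sum, Finset.sum_const, Finset.sum_const, Finset.card_univ, nsmul_eq_mul,
    nsmul_eq_mul]
  unfold nsq
  ring

/-- one shift. -/
theorem lim_comm {β U : ℝ} (hβ : 0 < β) (hU : 0 < U) {w : V → V → ℝ} (hw : ∀ x y, 0 ≤ w x y)
    (u : V → ℤ) (hu : ∑ x, u x = 0) (x z : V) :
    Tendsto (fun R : Finset (Sec V 0) => cm (exp (mt (AA β U w) (nR R)))
      (tw (nR R) (fun _ => 1) u) (tw (nR R) (av x z) (eta x z))) atTop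
      (𝓝 (-(dv x z u) * WW (AA β U w) (u + eta x z))) := by
  have hA := AA_adm (U := U) hβ hw
  have heta : ∑ y, (eta x z) y = 0 := by
    unfold eta
    simp
  have h1 := lim_w hβ hU hw (eta x z + u)
    (fun R m => (if m + eta x z ∈ nR R then 1 else 0) * av x z m -
      (if m + u ∈ nR R then av x z (m + u) else 0) * 1) (fun _ => -(dv x z u))
    (4 + |dv x z u|) (by
      intro R m
      have h2 := abs_dv_le x z m
      have h3 := nsq_nonneg m
      have h4 : |(if m + eta x z ∈ nR R then (1 : ℝ) else 0) * av x z m| ≤ 2 + nsq m := by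
        have h5 : |av x z m| ≤ 2 + nsq m := by
          unfold av
          refine (abs_add_le _ _).trans ?_
          rw [abs_one]
          linarith
        split_ifs
        · rw [one_mul]
          exact h5
        · rw [zero_mul, abs_zero]
          linarith
      have h6 : |(if m + u ∈ nR R then av x z (m + u) else 0) * 1| ≤
          2 + nsq m + |dv x z u| := by
        rw [mul_one]
        split_ifs
        · unfold av
          rw [dv_add]
          refine (abs_add_le _ _).trans ?_
          rw [abs_one]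
          have := abs_add_le (dv x z m) (dv x z u)
          linarith
        · rw [abs_zero]
          positivity
      have h7 := abs_sub ((if m + eta x z ∈ nR R then (1 : ℝ) else 0) * av x z m)
        ((if m + u ∈ nR R then av x z (m + u) else 0) * 1)
      have h8 : 0 ≤ |dv x z u| := abs_nonneg _
      nlinarith) (by
      intro m hm
      have h2 : ∑ y, (m + eta x z) y = 0 := by
        simp only [Pi.add_apply, Finset.sum_add_distrib, hm, heta, add_zero]
      have h3 : ∑ y, (m + u) y = 0 := by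
        simp only [Pi.add_apply, Finset.sum_add_distrib, hm, hu, add_zero]
      filter_upwards [eventually_mem_nR (m + eta x z) h2, eventually_mem_nR (m + u) h3]
        with R hR1 hR2
      rw [if_pos hR1, if_pos hR2]
      unfold av
      rw [dv_add]
      ring)
  have h2 := h1.2
  have h3 : ∑' m, -(dv x z u) * EI (AA β U w) (m + (eta x z + u)) m =
      -(dv x z u) * WW (AA β U w) (u + eta x z) := by
    rw [tsum_mul_left, add_comm (eta x z) u]
    rfl
  rw [h3] at h2
  refine h2.congr fun R => ?_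
  unfold cm
  rw [Matrix.sub_mul, Matrix.trace_sub, tw_mul, tw_mul, trace_tw, trace_tw, add_comm u (eta x z),
    ← Finset.sum_sub_distrib]
  refine Finset.sum_congr rfl fun m _ => ?_
  rw [EE_symm hA (nR R) m (m + (eta x z + u))]
  ring

/-- the sum over the sites. -/
theorem lim_Q {β U : ℝ} (hβ : 0 < β) (hU : 0 < U) {w : V → V → ℝ} (hw : ∀ x y, 0 ≤ w x y)
    (u : V → ℤ) (hu : ∑ x, u x = 0) :
    Tendsto (fun R : Finset (Sec V 0) => cm (exp (mt (AA β U w) (nR R)))
      (tw (nR R) (fun _ => 1) u) (∑ x, ∑ z, tw (nR R) (av x z) (eta x z))) atTop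
      (𝓝 (-∑ x, ∑ z, dv x z u * WW (AA β U w) (u + eta x z))) := by
  simp only [cm_sum_right]
  rw [← Finset.sum_neg_distrib]
  refine tendsto_finsetSum _ fun x _ => ?_
  rw [← Finset.sum_neg_distrib]
  refine tendsto_finsetSum _ fun z _ => ?_
  have := lim_comm hβ hU hw u hu x z
  rwa [neg_mul] at this

/-- the limit is even. -/
theorem S_neg {β U : ℝ} (hβ : 0 < β) {w : V → V → ℝ} (hw : ∀ x y, 0 ≤ w x y)
    (u : V → ℤ) :
    ∑ x, ∑ z, dv x z (-u) * WW (AA β U w) (-u + eta x z) =
      ∑ x, ∑ z, dv x z u * WW (AA β U w) (u + eta x z) := by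
  rw [Finset.sum_comm]
  refine Finset.sum_congr rfl fun x _ => Finset.sum_congr rfl fun z _ => ?_
  have h1 : dv z x (-u) = dv x z u := by
    unfold dv
    simp only [Pi.neg_apply]
    push_cast
    ring
  have h2 : -u + eta z x = -(u + eta x z) := by
    unfold eta
    abel
  rw [h1, h2, WW_neg hβ hw]

/-- the limit for the shift `eta a b`. -/
theorem S_eta {β U : ℝ} (hβ : 0 < β) {w : V → V → ℝ} (hw : ∀ x y, 0 ≤ w x y) (a b : V) :
    -∑ x, ∑ z, dv x z (eta a b) * WW (AA β U w) (eta a b + eta x z) =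
      ∑ z, (WW (AA β U w) (eta a z) + WW (AA β U w) (eta b z) -
      WW (AA β U w) (eta a b + eta a z) - WW (AA β U w) (eta a b - eta b z)) := by
  set W := WW (AA β U w) with hW
  have h1 : ∀ x z, dv x z (eta a b) * W (eta a b + eta x z) =
      (((if x = a then W (eta a b + eta x z) else 0) -
        (if x = b then W (eta a b + eta x z) else 0)) -
      ((if z = a then W (eta a b + eta x z) else 0) -
        (if z = b then W (eta a b + eta x z) else 0))) := by
    intro x z
    unfold dv
    have h2 : ∀ y : V, ((eta a b y : ℤ) : ℝ) = (if y = a then 1 else 0) - (if y = b then 1 else 0) := by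
      intro y
      unfold eta
      simp only [Pi.sub_apply, Pi.single_apply]
      push_cast
      rfl
    rw [h2, h2]
    split_ifs <;> ring
  have h3 : ∑ x, ∑ z, dv x z (eta a b) * W (eta a b + eta x z) =
      ((∑ z, W (eta a b + eta a z)) - ∑ z, W (eta a b + eta b z)) -
      ((∑ x, W (eta a b + eta x a)) - ∑ x, W (eta a b + eta x b)) := by
    simp only [h1, Finset.sum_sub_distrib]
    congr 1
    · congr 1
      · rw [Finset.sum_comm]
        refine Finset.sum_congr rfl fun z _ => ?_
        rw [Finset.sum_ite_eq' Finset.univ a, if_pos (Finset.mem_univ _)]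
      · rw [Finset.sum_comm]
        refine Finset.sum_congr rfl fun z _ => ?_
        rw [Finset.sum_ite_eq' Finset.univ b, if_pos (Finset.mem_univ _)]
    · congr 1
      · refine Finset.sum_congr rfl fun x _ => ?_
        rw [Finset.sum_ite_eq' Finset.univ a, if_pos (Finset.mem_univ _)]
      · refine Finset.sum_congr rfl fun x _ => ?_
        rw [Finset.sum_ite_eq' Finset.univ b, if_pos (Finset.mem_univ _)]
  rw [h3]
  have h4 : ∀ z, W (eta a b + eta b z) = W (eta a z) := by
    intro z
    congr 1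
    unfold eta
    abel
  have h5 : ∀ x, W (eta a b + eta x a) = W (eta b x) := by
    intro x
    have : eta a b + eta x a = -(eta b x) := by
      unfold eta
      abel
    rw [this, hW, WW_neg hβ hw]
  have h6 : ∀ x, W (eta a b + eta x b) = W (eta a b - eta b x) := by
    intro x
    congr 1
    unfold eta
    abel
  simp only [h4, h5, h6]
  rw [Finset.sum_sub_distrib, Finset.sum_sub_distrib, Finset.sum_add_distrib]
  ring

/-- the commutator identity in a finite region. -/
theorem region {β U : ℝ} (w : V → V → ℝ) (R : Finset (V → ℤ)) (P : Matrix R R ℝ) :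
    β * ∑ a, ∑ b, w a b * ((cm (exp (mt (AA β U w) R)) (tw R (fun _ => 1) (eta a b)) P +
      cm (exp (mt (AA β U w) R)) (tw R (fun _ => 1) (-eta a b)) P) / 2) =
      -cm (exp (mt (AA β U w) R)) (tw R (fun m => -(β * U * nsq m)) 0) P := by
  have h0 := cm_self (mt (AA β U w) R) P
  have h1 : cm (exp (mt (AA β U w) R)) (mt (AA β U w) R) P =
      cm (exp (mt (AA β U w) R)) (tw R (fun m => -(β * U * nsq m)) 0 +
      β • ∑ x, ∑ y, w x y • mt (cosK x y) R) P := by
    conv_lhs => rw [show cm (exp (mt (AA β U w) R)) (mt (AA β U w) R) P =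
      cm (exp (mt (AA β U w) R)) (id (mt (AA β U w) R)) P from rfl]
    congr 1
    exact mt_AA β U w R
  rw [h1, cm_add_left, cm_smul_left, cm_sum_left] at h0
  have h2 : ∀ x, cm (exp (mt (AA β U w) R)) (∑ y, w x y • mt (cosK x y) R) P =
      ∑ y, w x y * ((cm (exp (mt (AA β U w) R)) (tw R (fun _ => 1) (eta x y)) P +
      cm (exp (mt (AA β U w) R)) (tw R (fun _ => 1) (-eta x y)) P) / 2) := by
    intro x
    rw [cm_sum_left]
    refine Finset.sum_congr rfl fun y _ => ?_
    rw [cm_smul_left, mt_cosK, cm_smul_left, cm_add_left]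
    ring
  simp only [h2] at h0
  linarith

end Pool.Agent.H993.LY.P12

namespace Pool.Agent.H993.LY.P12

open Filter Topology NormedSpace Matrix MeasureTheory
open Pool.Agent.H993.TR
open Pool.Agent.H993.LY

variable {V : Type} [Fintype V] [DecidableEq V]

/-- TASK 12. The virial inequality. -/
theorem task_vir {β U : ℝ} (hβ : 0 < β) (hU : 0 < U) {w : V → V → ℝ} (hw : ∀ x y, 0 ≤ w x y) :
    ∑ a, ∑ b, w a b * ((∑ z, (WW (AA β U w) (eta a z) + WW (AA β U w) (eta b z) -
      WW (AA β U w) (eta a b + eta a z) - WW (AA β U w) (eta a b - eta b z))) /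
        (2 * Fintype.card V)) ≤
      U * (2 * M2 (AA β U w) + Fintype.card V * WW (AA β U w) 0) := by
  have hA := AA_adm (U := U) hβ hw
  have hM2 : 0 ≤ M2 (AA β U w) := by
    unfold M2
    exact tsum_nonneg fun m => mul_nonneg (nsq_nonneg m) (EI_nonneg hβ hw _ _)
  have hW0 : 0 ≤ WW (AA β U w) 0 := WW_nonneg hβ hw 0
  rcases isEmpty_or_nonempty V with hV | hV
  · rw [Finset.univ_eq_empty, Finset.sum_empty]
    positivity
  have hcard : (0 : ℝ) < Fintype.card V := by exact_mod_cast Fintype.card_pos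
  set P : ∀ R : Finset (V → ℤ), Matrix R R ℝ := fun R => ∑ x, ∑ z, tw R (av x z) (eta x z)
    with hP
  have hneta : ∀ a b : V, ∑ y, (eta a b) y = 0 := by
    intro a b
    unfold eta
    simp
  have hneta' : ∀ a b : V, ∑ y, (-eta a b) y = 0 := by
    intro a b
    simp only [Pi.neg_apply, Finset.sum_neg_distrib, hneta, neg_zero]
  -- the left side
  have hL : Tendsto (fun R : Finset (Sec V 0) => β * ∑ a, ∑ b, w a b *
      ((cm (exp (mt (AA β U w) (nR R))) (tw (nR R) (fun _ => 1) (eta a b)) (P (nR R)) +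
      cm (exp (mt (AA β U w) (nR R))) (tw (nR R) (fun _ => 1) (-eta a b)) (P (nR R))) / 2)) atTop
      (𝓝 (β * ∑ a, ∑ b, w a b * ((∑ z, (WW (AA β U w) (eta a z) + WW (AA β U w) (eta b z) -
      WW (AA β U w) (eta a b + eta a z) - WW (AA β U w) (eta a b - eta b z)))))) := by
    refine Tendsto.const_mul β ?_
    refine tendsto_finsetSum _ fun a _ => tendsto_finsetSum _ fun b _ => ?_
    refine Tendsto.const_mul _ ?_
    have h1 := lim_Q hβ hU hw (eta a b) (hneta a b)
    have h2 := lim_Q hβ hU hw (-eta a b) (hneta' a b)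
    rw [S_neg hβ hw] at h2
    rw [S_eta hβ hw] at h1 h2
    have h3 := (h1.add h2).div_const 2
    rw [add_self_div_two] at h3
    exact h3
  -- the right side
  have hS1 := lim_w hβ hU hw 0 (fun _ m => nsq m) nsq 1 (by
    intro R m
    rw [abs_of_nonneg (nsq_nonneg m)]
    linarith) (fun m _ => Eventually.of_forall fun _ => rfl)
  have hS2 := lim_w hβ hU hw 0 (fun _ _ => 1) (fun _ => 1) 1 (by
    intro R m
    rw [abs_one]
    have := nsq_nonneg m
    linarith) (fun m _ => Eventually.of_forall fun _ => rfl)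
  have hT : Tendsto (fun R : Finset (Sec V 0) => 2 * β * U * (2 * Fintype.card V *
      ∑ m ∈ nR R, nsq m * EE (AA β U w) (nR R) (m + 0) m + (Fintype.card V : ℝ) ^ 2 *
      ∑ m ∈ nR R, 1 * EE (AA β U w) (nR R) (m + 0) m)) atTop
      (𝓝 (2 * β * U * (2 * Fintype.card V * ∑' m, nsq m * EI (AA β U w) (m + 0) m +
        (Fintype.card V : ℝ) ^ 2 * ∑' m, 1 * EI (AA β U w) (m + 0) m))) :=
    Tendsto.const_mul _ ((hS1.2.const_mul _).add (hS2.2.const_mul _))
  have hM2e : ∑' m, nsq m * EI (AA β U w) (m + 0) m = M2 (AA β U w) := by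
    unfold M2
    simp only [add_zero]
  have hW0e : ∑' m : V → ℤ, 1 * EI (AA β U w) (m + 0) m = WW (AA β U w) 0 := by
    unfold WW
    simp only [one_mul]
  rw [hM2e, hW0e] at hT
  have hle : ∀ R : Finset (Sec V 0), β * ∑ a, ∑ b, w a b *
      ((cm (exp (mt (AA β U w) (nR R))) (tw (nR R) (fun _ => 1) (eta a b)) (P (nR R)) +
      cm (exp (mt (AA β U w) (nR R))) (tw (nR R) (fun _ => 1) (-eta a b)) (P (nR R))) / 2) ≤
      2 * β * U * (2 * Fintype.card V *
      ∑ m ∈ nR R, nsq m * EE (AA β U w) (nR R) (m + 0) m + (Fintype.card V : ℝ) ^ 2 *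
      ∑ m ∈ nR R, 1 * EE (AA β U w) (nR R) (m + 0) m) := by
    intro R
    rw [region w (nR R) (P (nR R))]
    simp only [hP, cm_sum_right]
    rw [← Finset.sum_neg_distrib]
    simp only [← Finset.sum_neg_distrib]
    have h1 : ∑ x : V, ∑ z : V, -cm (exp (mt (AA β U w) (nR R)))
        (tw (nR R) (fun m => -(β * U * nsq m)) 0) (tw (nR R) (av x z) (eta x z)) ≤
        ∑ x : V, ∑ z : V, 2 * β * U * ∑ n ∈ nR R, ((dv x z n) ^ 2 + 1) *
          EE (AA β U w) (nR R) n n :=
      Finset.sum_le_sum fun x _ => Finset.sum_le_sum fun z _ => D_part hβ hU hw (nR R) x z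
    refine h1.trans (le_of_eq ?_)
    simp only [← Finset.mul_sum]
    congr 1
    have h2 : ∑ x : V, ∑ z : V, ∑ n ∈ nR R, ((dv x z n) ^ 2 + 1) * EE (AA β U w) (nR R) n n =
        ∑ n ∈ nR R, (∑ x : V, ∑ z : V, ((dv x z n) ^ 2 + 1)) * EE (AA β U w) (nR R) n n := by
      simp only [Finset.sum_mul]
      rw [Finset.sum_congr rfl fun x _ => Finset.sum_comm]
      rw [Finset.sum_comm]
    have h3 : ∀ n ∈ nR R, (∑ x : V, ∑ z : V, ((dv x z n) ^ 2 + 1)) * EE (AA β U w) (nR R) n n =
        2 * Fintype.card V * (nsq n * EE (AA β U w) (nR R) (n + 0) n) +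
          (Fintype.card V : ℝ) ^ 2 * (1 * EE (AA β U w) (nR R) (n + 0) n) := by
      intro n hn
      obtain ⟨hn0, _⟩ := (mem_nR R n).1 hn
      rw [sum_dv_sq n hn0, add_zero]
      ring
    rw [h2, Finset.sum_congr rfl h3, Finset.sum_add_distrib, ← Finset.mul_sum, ← Finset.mul_sum]
    simp only [one_mul]
  have hfin := le_of_tendsto_of_tendsto' hL hT hle
  -- conclusion
  have e1 : ∑ a, ∑ b, w a b * ((∑ z, (WW (AA β U w) (eta a z) + WW (AA β U w) (eta b z) -
      WW (AA β U w) (eta a b + eta a z) - WW (AA β U w) (eta a b - eta b z))) /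
        (2 * Fintype.card V)) =
      (∑ a, ∑ b, w a b * ((∑ z, (WW (AA β U w) (eta a z) + WW (AA β U w) (eta b z) -
      WW (AA β U w) (eta a b + eta a z) - WW (AA β U w) (eta a b - eta b z))))) /
        (2 * Fintype.card V) := by
    rw [Finset.sum_div]
    refine Finset.sum_congr rfl fun a _ => ?_
    rw [Finset.sum_div]
    refine Finset.sum_congr rfl fun b _ => ?_
    rw [mul_div_assoc]
  rw [e1, div_le_iff₀ (by positivity)]
  have h2 : (∑ a, ∑ b, w a b * ((∑ z, (WW (AA β U w) (eta a z) + WW (AA β U w) (eta b z) -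
      WW (AA β U w) (eta a b + eta a z) - WW (AA β U w) (eta a b - eta b z))))) ≤
      2 * U * (2 * Fintype.card V * M2 (AA β U w) +
        (Fintype.card V : ℝ) ^ 2 * WW (AA β U w) 0) := by
    have h3 : β * (∑ a, ∑ b, w a b * ((∑ z, (WW (AA β U w) (eta a z) + WW (AA β U w) (eta b z) -
      WW (AA β U w) (eta a b + eta a z) - WW (AA β U w) (eta a b - eta b z))))) ≤
      β * (2 * U * (2 * Fintype.card V * M2 (AA β U w) +
        (Fintype.card V : ℝ) ^ 2 * WW (AA β U w) 0)) := by
      refine hfin.trans (le_of_eq ?_)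
      ring
    exact le_of_mul_le_mul_left h3 hβ
  refine h2.trans (le_of_eq ?_)
  ring

end Pool.Agent.H993.LY.P12
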