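import Mathlib
import Pool.Agent.H993.LY.P14c
import Pool.Agent.H993.LY.P16
import Pool.Agent.H993.LY.Base2

/-!
# Project LY, task 18: potential and kinetic energy in Fourier space
-/

namespace Pool.Agent.H993.LY.P18

open Pool.Agent.H993.LY.P14c (task_num)
open Pool.Agent.H993.LY.P16 (task_dir)

open Filter Topology NormedSpace Matrix MeasureTheory
open Pool.Agent.H993.TR Pool.Agent.H993.LY
open Pool.Agent.N157.QR_FOU (BB)
open Pool.Agent.N657.QR (ee nnw lam)

variable {V : Type} [Fintype V] [DecidableEq V]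

/-! ### cited tasks -/

/-! ### task 18 -/

open Pool.Agent.N157 Pool.Agent.N157.QR_FOU in
/-- The number fluctuations in one mode. -/
theorem mode_num {d L : ℕ} [NeZero L] {β U J : ℝ} (hβ : 0 < β) (hU : 0 < U) (hJ : 0 < J)
    (k : Fin d → ZMod L) (hk : k ≠ 0) (f : (Fin d → ZMod L) → ℝ)
    (hf : f = QR_FOU.cc k ∨ f = QR_FOU.ss k) :
    ∑' m : (Fin d → ZMod L) → ℤ, (∑ x, f x * (m x : ℝ)) ^ 2 * EI (NN d L β U J) m m ≤
      (∑ x, f x ^ 2) / (2 * U) * (J * (lam k * sB U J β (lam k))) * WW (NN d L β U J) 0 := by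
  have hl : 0 < lam k := QR_FOU.lam_pos k hk
  have hw : ∀ x y : Fin d → ZMod L, 0 ≤ nnw J x y := nnw_nonneg hJ.le
  have hS0 : 0 ≤ ∑ x, f x ^ 2 := Finset.sum_nonneg fun _ _ => sq_nonneg _
  rcases hS0.eq_or_lt with hS | hS
  · have hf0 : ∀ x, f x = 0 := by
      intro x
      have h := (Finset.sum_eq_zero_iff_of_nonneg (fun x _ => sq_nonneg (f x))).1 hS.symm x
        (Finset.mem_univ x)
      exact pow_eq_zero_iff (two_ne_zero) |>.1 h
    simp [hf0]
  · have hdir := task_dir J 0 k hk f hf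
    have hwg : ∀ x y : Fin d → ZMod L, wgm J 0 x y = nnw J x y := by
      intro x y; unfold wgm; simp
    simp only [hwg, mul_zero, add_zero] at hdir
    set S := ∑ x, f x ^ 2 with hSdef
    have hB0 : 0 < S / (2 * β * U) := by positivity
    have hM : β * (J * lam k * S) = β * ∑ x, ∑ y, nnw J x y * (f x - f y) ^ 2 := by rw [hdir]
    have hM0 : 0 < β * (J * lam k * S) := by positivity
    have h := task_num (w := nnw J) hβ hU hw f (S / (2 * β * U)) (β * (J * lam k * S)) rfl hM hB0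
      hM0
    have e1 : Real.sqrt (β * (J * lam k * S) / (S / (2 * β * U))) =
        β * Real.sqrt (2 * U * J * lam k) := by
      have : β * (J * lam k * S) / (S / (2 * β * U)) = β ^ 2 * (2 * U * J * lam k) := by
        field_simp
      rw [this, Real.sqrt_mul (sq_nonneg β), Real.sqrt_sq hβ.le]
    rw [e1] at h
    refine h.trans (le_of_eq ?_)
    unfold sB
    show S / (2 * β * U) * xcoth (β * Real.sqrt (2 * U * J * lam k) / 2) * WW (AA β U (nnw J)) 0 =
      S / (2 * U) * (J * (lam k * (xcoth (β * Real.sqrt (2 * U * J * lam k) / 2) /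
        (β * J * lam k)))) * WW (AA β U (nnw J)) 0
    field_simp

theorem mode_summable {d L : ℕ} [NeZero L] {β U J : ℝ} (hβ : 0 < β) (hU : 0 < U) (hJ : 0 < J)
    (f : (Fin d → ZMod L) → ℝ) :
    Summable fun m : (Fin d → ZMod L) → ℤ => (∑ x, f x * (m x : ℝ)) ^ 2 * EI (NN d L β U J) m m := by
  have hw : ∀ x y : Fin d → ZMod L, 0 ≤ nnw J x y := nnw_nonneg hJ.le
  have hs := (mom_summable hβ hU hw).mul_left (∑ x, f x ^ 2)
  refine Summable.of_nonneg_of_le (fun m => mul_nonneg (sq_nonneg _) (EI_nonneg hβ hw m m))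
    (fun m => ?_) hs
  show _ ≤ (∑ x, f x ^ 2) * ((1 + nsq m) * EI (AA β U (nnw J)) m m)
  have h1 := Finset.sum_mul_sq_le_sq_mul_sq Finset.univ f (fun x => (m x : ℝ))
  have h2 : (∑ x, f x ^ 2) * ∑ x, (m x : ℝ) ^ 2 ≤ (∑ x, f x ^ 2) * (1 + nsq m) := by
    refine mul_le_mul_of_nonneg_left ?_ (Finset.sum_nonneg fun _ _ => sq_nonneg _)
    unfold nsq; linarith
  rw [← mul_assoc]
  exact mul_le_mul_of_nonneg_right (h1.trans h2) (EI_nonneg hβ hw m m)

open Pool.Agent.N157 Pool.Agent.N157.QR_FOU in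
theorem sum_modes {d L : ℕ} [NeZero L] (m : (Fin d → ZMod L) → ℤ) :
    ∑ k : Fin d → ZMod L, ((∑ x, QR_FOU.cc k x * (m x : ℝ)) ^ 2 +
      (∑ x, QR_FOU.ss k x * (m x : ℝ)) ^ 2) = (Fintype.card (Fin d → ZMod L) : ℝ) * nsq m := by
  have h1 : ∀ k : Fin d → ZMod L, (∑ x, QR_FOU.cc k x * (m x : ℝ)) ^ 2 +
      (∑ x, QR_FOU.ss k x * (m x : ℝ)) ^ 2 = ∑ x, ∑ y,
        (QR_FOU.cc k x * QR_FOU.cc k y + QR_FOU.ss k x * QR_FOU.ss k y) * ((m x : ℝ) * m y) := by
    intro k
    rw [sq, sq, Finset.sum_mul_sum, Finset.sum_mul_sum, ← Finset.sum_add_distrib]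
    refine Finset.sum_congr rfl fun x _ => ?_
    rw [← Finset.sum_add_distrib]
    refine Finset.sum_congr rfl fun y _ => ?_
    ring
  simp only [h1]
  rw [Finset.sum_comm]
  unfold nsq
  rw [Finset.mul_sum]
  refine Finset.sum_congr rfl fun x _ => ?_
  rw [Finset.sum_comm]
  have h2 : ∀ y : Fin d → ZMod L, ∑ k : Fin d → ZMod L,
      (QR_FOU.cc k x * QR_FOU.cc k y + QR_FOU.ss k x * QR_FOU.ss k y) * ((m x : ℝ) * m y) =
      if x = y then (Fintype.card (Fin d → ZMod L) : ℝ) * ((m x : ℝ) * m y) else 0 := by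
    intro y
    rw [← Finset.sum_mul, QR_FOU.ortho]
    split_ifs <;> simp
  simp only [h2]
  rw [Finset.sum_ite_eq, if_pos (Finset.mem_univ x)]
  ring

open Pool.Agent.N157 Pool.Agent.N157.QR_FOU in
/-- TASK 18a. -/
theorem task_pot {d L : ℕ} [NeZero L] {β U J : ℝ} (hβ : 0 < β) (hU : 0 < U) (hJ : 0 < J) :
    2 * U * M2 (NN d L β U J) ≤
      J * (∑ k ∈ (Finset.univ : Finset (Fin d → ZMod L)).erase 0, lam k * sB U J β (lam k)) *
        WW (NN d L β U J) 0 := by
  set n : ℝ := (Fintype.card (Fin d → ZMod L) : ℝ) with hn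
  have hn0 : 0 < n := by rw [hn]; exact_mod_cast Fintype.card_pos
  have hw : ∀ x y : Fin d → ZMod L, 0 ≤ nnw J x y := nnw_nonneg hJ.le
  set A := NN d L β U J with hA
  have hsum := fun f => mode_summable (d := d) (L := L) (β := β) (U := U) (J := J) hβ hU hJ f
  -- one momentum
  have hk : ∀ k : Fin d → ZMod L, k ≠ 0 →
      ∑' m : (Fin d → ZMod L) → ℤ, ((∑ x, QR_FOU.cc k x * (m x : ℝ)) ^ 2 +
        (∑ x, QR_FOU.ss k x * (m x : ℝ)) ^ 2) * EI A m m ≤
      n / (2 * U) * (J * (lam k * sB U J β (lam k))) * WW A 0 := by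
    intro k hk
    have h1 := mode_num hβ hU hJ k hk (QR_FOU.cc k) (Or.inl rfl)
    have h2 := mode_num hβ hU hJ k hk (QR_FOU.ss k) (Or.inr rfl)
    simp only [add_mul]
    rw [(hsum (QR_FOU.cc k)).tsum_add (hsum (QR_FOU.ss k))]
    have h3 : (∑ x, QR_FOU.cc k x ^ 2) + (∑ x, QR_FOU.ss k x ^ 2) = n := by
      rw [← Finset.sum_add_distrib]
      simp only [QR_FOU.cs_sq]
      simp [hn]
    rw [← h3]
    refine (add_le_add h1 h2).trans (le_of_eq ?_)
    rw [← hA]
    ring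
  -- the left side
  have hM2 : n * M2 A = ∑ k ∈ (Finset.univ : Finset (Fin d → ZMod L)).erase 0,
      ∑' m : (Fin d → ZMod L) → ℤ, ((∑ x, QR_FOU.cc k x * (m x : ℝ)) ^ 2 +
        (∑ x, QR_FOU.ss k x * (m x : ℝ)) ^ 2) * EI A m m := by
    have hs : ∀ k ∈ (Finset.univ : Finset (Fin d → ZMod L)).erase 0,
        Summable fun m : (Fin d → ZMod L) → ℤ => ((∑ x, QR_FOU.cc k x * (m x : ℝ)) ^ 2 +
        (∑ x, QR_FOU.ss k x * (m x : ℝ)) ^ 2) * EI A m m := by
      intro k _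
      simp only [add_mul]
      exact (hsum (QR_FOU.cc k)).add (hsum (QR_FOU.ss k))
    rw [← Summable.tsum_finsetSum hs]
    unfold M2
    rw [← tsum_mul_left]
    refine tsum_congr fun m => ?_
    rw [← mul_assoc, ← sum_modes m, ← Finset.sum_mul]
    by_cases hm : ∑ x, m x = 0
    · congr 1
      rw [← Finset.add_sum_erase _ _ (Finset.mem_univ (0 : Fin d → ZMod L))]
      have h0 : (∑ x, QR_FOU.cc (0 : Fin d → ZMod L) x * (m x : ℝ)) ^ 2 +
        (∑ x, QR_FOU.ss (0 : Fin d → ZMod L) x * (m x : ℝ)) ^ 2 = 0 := by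
        have hc : ∀ x : Fin d → ZMod L, QR_FOU.cc 0 x = 1 := by
          intro x
          have : QR_FOU.dot (0 : Fin d → ZMod L) x = 0 := by simp [QR_FOU.dot]
          simp [QR_FOU.cc, this, QR_FOU.ps_zero]
        have hs' : ∀ x : Fin d → ZMod L, QR_FOU.ss 0 x = 0 := by
          intro x
          have : QR_FOU.dot (0 : Fin d → ZMod L) x = 0 := by simp [QR_FOU.dot]
          simp [QR_FOU.ss, this, QR_FOU.ps_zero]
        simp only [hc, hs', one_mul, zero_mul, Finset.sum_const_zero]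
        have : (∑ x, (m x : ℝ)) = 0 := by exact_mod_cast hm
        rw [this]; norm_num
      rw [h0, zero_add]
    · rw [show EI A m m = 0 from EI_zero_right hm, mul_zero, mul_zero]
  have hle : n * M2 A ≤ n / (2 * U) * (J * ∑ k ∈ (Finset.univ : Finset (Fin d → ZMod L)).erase 0,
      lam k * sB U J β (lam k)) * WW A 0 := by
    rw [hM2, Finset.mul_sum, Finset.mul_sum, Finset.sum_mul]
    exact Finset.sum_le_sum fun k hk' => hk k (Finset.ne_of_mem_erase hk')
  have h4 : n * (2 * U * M2 A) ≤ n * (J * (∑ k ∈ (Finset.univ : Finset (Fin d → ZMod L)).erase 0,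
      lam k * sB U J β (lam k)) * WW A 0) := by
    have := mul_le_mul_of_nonneg_left hle (by positivity : (0:ℝ) ≤ 2 * U)
    calc n * (2 * U * M2 A) = 2 * U * (n * M2 A) := by ring
      _ ≤ _ := this
      _ = _ := by field_simp
  exact le_of_mul_le_mul_left h4 hn0

open Pool.Agent.N157 Pool.Agent.N157.QR_FOU in
/-- TASK 18b. -/
theorem task_kin {d L : ℕ} [NeZero L] {β U : ℝ} (hβ : 0 < β) (hU : 0 < U)
    {w : (Fin d → ZMod L) → (Fin d → ZMod L) → ℝ} (hw : ∀ x y, 0 ≤ w x y) :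
    ∑ k ∈ (Finset.univ : Finset (Fin d → ZMod L)).erase 0, lam k * Pool.Agent.H993.LY.TT (AA β U w) k =
      2 * (Fintype.card (Fin d → ZMod L) : ℝ) *
        ∑ x, ∑ i, (WW (AA β U w) 0 - WW (AA β U w) (eta x (x + ee i))) := by
  have hlam : ∀ k : Fin d → ZMod L, lam k = ∑ i, 2 * oc k (ee i) := by
    intro k
    unfold lam oc
    refine Finset.sum_congr rfl fun i _ => ?_
    rw [QR_FOU.dot_ee, QR_FOU.ps_re]
    ring
  have h0 : lam (0 : Fin d → ZMod L) * Pool.Agent.H993.LY.TT (AA β U w) 0 = 0 := by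
    rw [hlam]
    simp [oc_zero]
  rw [Finset.sum_erase (f := fun k => lam k * Pool.Agent.H993.LY.TT (AA β U w) k) Finset.univ h0]
  have h1 : ∀ k : Fin d → ZMod L, lam k * Pool.Agent.H993.LY.TT (AA β U w) k =
      ∑ i, 2 * (Pool.Agent.H993.LY.TT (AA β U w) k * oc k (ee i)) := by
    intro k
    rw [hlam, Finset.sum_mul]
    refine Finset.sum_congr rfl fun i _ => ?_
    ring
  simp only [h1]
  rw [Finset.sum_comm]
  have h2 : ∀ i : Fin d, ∑ k : Fin d → ZMod L, 2 * (Pool.Agent.H993.LY.TT (AA β U w) k * oc k (ee i)) =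
      2 * ((Fintype.card (Fin d → ZMod L) : ℝ) *
        ∑ x, (WW (AA β U w) 0 - WW (AA β U w) (eta x (x + ee i)))) := by
    intro i
    rw [← Finset.mul_sum]
    congr 1
    have h := planch_oc (fun x y => WW (AA β U w) (eta x y)) (ee i : Fin d → ZMod L)
    unfold Pool.Agent.H993.LY.TT
    rw [h]
    congr 1
    refine Finset.sum_congr rfl fun x _ => ?_
    have e1 : eta x x = (0 : (Fin d → ZMod L) → ℤ) := by unfold eta; simp
    have e2 : eta (x + ee i) x = -eta x (x + ee i) := by unfold eta; abel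
    rw [e1, e2, WW_neg hβ hw]
    ring
  simp only [h2]
  rw [← Finset.mul_sum, ← Finset.mul_sum, Finset.sum_comm, mul_assoc]

end Pool.Agent.H993.LY.P18
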