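import Mathlib
import Pool.Agent.H993.LY.P11
import Pool.Agent.H993.LY.P12
import Pool.Agent.H993.LY.P18
import Pool.Agent.H993.LY.Base2

/-!
# Task 19 of the project LY (helper993): the virial inequality for the modes
-/

set_option autoImplicit false
set_option linter.unusedSectionVars false

namespace Pool.Agent.H993.LY.P19

open Pool.Agent.H993.LY.P11 (task_psd task_cs2)
open Pool.Agent.H993.LY.P12 (task_vir)
open Pool.Agent.H993.LY.P18 (task_pot task_kin)

open Filter Topology NormedSpace Matrix MeasureTheory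
open Pool.Agent.H993.TR Pool.Agent.H993.LY
open Pool.Agent.N157.QR_FOU (BB)
open Pool.Agent.N657.QR (ee nnw lam)

section gen

variable {V : Type} [Fintype V] [DecidableEq V]

/-! ### Cited earlier tasks -/

theorem q1_nonneg {β U : ℝ} (hβ : 0 < β) (hU : 0 < U) {w : V → V → ℝ} (hw : ∀ x y, 0 ≤ w x y)
    (u : V → ℤ) (hu : ∑ x, u x = 0) :
    0 ≤ 3 / 2 * WW (AA β U w) 0 - 2 * WW (AA β U w) u + WW (AA β U w) (2 • u) / 2 := by
  have h := task_psd hβ hU hw (ι := Fin 3) ![1, -1/2, -1/2] ![0, u, -u] (by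
    intro i
    fin_cases i
    · simp
    · simpa using hu
    · simp [Finset.sum_neg_distrib, hu])
  simp only [Fin.sum_univ_three, Matrix.cons_val_zero, Matrix.cons_val_one, Matrix.cons_val_two,
    Matrix.head_cons, Matrix.tail_cons] at h
  rw [sub_zero, zero_sub, zero_sub, sub_zero, sub_self, sub_zero, neg_neg, sub_neg_eq_add, sub_self,
    WW_neg hβ hw u, ← two_smul ℕ u, show -u - u = -(2 • u) by rw [two_smul]; abel,
    WW_neg hβ hw (2 • u)] at h
  linarith

theorem q1_le {β U : ℝ} (hβ : 0 < β) (hU : 0 < U) {w : V → V → ℝ} (hw : ∀ x y, 0 ≤ w x y)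
    (u : V → ℤ) :
    3 / 2 * WW (AA β U w) 0 - 2 * WW (AA β U w) u + WW (AA β U w) (2 • u) / 2 ≤
      2 * (WW (AA β U w) 0 - WW (AA β U w) u) := by
  have := WW_le hβ hU hw (2 • u)
  linarith

/-- the Cauchy-Schwarz step -/
theorem cs_step {β U : ℝ} (hβ : 0 < β) (hU : 0 < U) {w : V → V → ℝ} (hw : ∀ x y, 0 ≤ w x y)
    (u v : V → ℤ) (hu : ∑ x, u x = 0) (hv : ∑ x, v x = 0) (Q : ℝ)
    (hQ : 3 / 2 * WW (AA β U w) 0 - 2 * WW (AA β U w) u + WW (AA β U w) (2 • u) / 2 ≤ Q) :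
    WW (AA β U w) 0 - WW (AA β U w) u - WW (AA β U w) v +
        (WW (AA β U w) (u + v) + WW (AA β U w) (u - v)) / 2 ≤
      Real.sqrt Q * Real.sqrt (2 * (WW (AA β U w) 0 - WW (AA β U w) v)) := by
  have h1 := q1_nonneg hβ hU hw u hu
  have h2 := q1_nonneg hβ hU hw v hv
  have h3 := q1_le hβ hU hw v
  have h4 := task_cs2 hβ hU hw u v hu hv
  rw [← Real.sqrt_mul (h1.trans hQ)]
  refine Real.le_sqrt_of_sq_le (h4.trans ?_)
  exact mul_le_mul hQ h3 h2 (h1.trans hQ)

theorem stuff {β U : ℝ} (hβ : 0 < β) (hU : 0 < U) {w : V → V → ℝ} (hw : ∀ x y, 0 ≤ w x y)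
    (a b z : V) (Q : ℝ)
    (hQ : 3 / 2 * WW (AA β U w) 0 - 2 * WW (AA β U w) (eta a b) +
      WW (AA β U w) (2 • eta a b) / 2 ≤ Q) :
    4 * (WW (AA β U w) 0 - WW (AA β U w) (eta a b)) - 2 * Real.sqrt Q *
      (Real.sqrt (2 * (WW (AA β U w) 0 - WW (AA β U w) (eta a z))) +
        Real.sqrt (2 * (WW (AA β U w) 0 - WW (AA β U w) (eta b z)))) ≤
    WW (AA β U w) (eta a z) + WW (AA β U w) (eta b z) -
      WW (AA β U w) (eta a b + eta a z) - WW (AA β U w) (eta a b - eta b z) := by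
  have h1 := cs_step hβ hU hw (eta a b) (eta a z) (eta_charge a b) (eta_charge a z) Q hQ
  have h2 := cs_step hβ hU hw (eta a b) (eta b z) (eta_charge a b) (eta_charge b z) Q hQ
  have e1 : eta a b - eta a z = -(eta b z) := by unfold eta; abel
  have e2 : eta a b + eta b z = eta a z := by unfold eta; abel
  rw [e1, WW_neg hβ hw] at h1
  rw [e2] at h2
  nlinarith

end gen

/-! ### Cited earlier tasks on the torus -/

theorem task_vird {d L : ℕ} [NeZero L] {β U J q : ℝ} (hβ : 0 < β) (hU : 0 < U) (hJ : 0 < J)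
    (hq0 : 0 ≤ q)
    (hq : ∀ (x : Fin d → ZMod L) (i : Fin d),
        3 / 2 * WW (NN d L β U J) 0 - 2 * WW (NN d L β U J) (eta x (x + ee i)) +
          WW (NN d L β U J) (2 • eta x (x + ee i)) / 2 ≤ q * WW (NN d L β U J) 0) :
    ∑ k ∈ (Finset.univ : Finset (Fin d → ZMod L)).erase 0, lam k * TT (NN d L β U J) k ≤
      (∑ k ∈ (Finset.univ : Finset (Fin d → ZMod L)).erase 0, lam k * sB U J β (lam k) +
        (Fintype.card (Fin d → ZMod L) : ℝ) *
          (U / J + 2 * d * Real.sqrt (2 * q * depl (NN d L β U J)))) *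
        ((Fintype.card (Fin d → ZMod L) : ℝ) * WW (NN d L β U J) 0) := by
  have hw : ∀ x y : Fin d → ZMod L, 0 ≤ nnw J x y := nnw_nonneg hJ.le
  have hZ : 0 < WW (NN d L β U J) 0 := WW_zero_pos hβ hU hw
  have hvir := task_vir (V := Fin d → ZMod L) hβ hU hw
  have hkin := task_kin (d := d) (L := L) hβ hU hw
  have hpot := task_pot (d := d) (L := L) hβ hU hJ
  have hst : ∀ (a z : Fin d → ZMod L) (i : Fin d), _ := fun a z i =>
    stuff hβ hU hw a (a + ee i) z _ (hq a i)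
  have hWle : ∀ t, WW (NN d L β U J) t ≤ WW (NN d L β U J) 0 := WW_le hβ hU hw
  change ∑ a, ∑ b, nnw J a b * ((∑ z, (WW (NN d L β U J) (eta a z) + WW (NN d L β U J) (eta b z) -
      WW (NN d L β U J) (eta a b + eta a z) - WW (NN d L β U J) (eta a b - eta b z))) /
        (2 * Fintype.card (Fin d → ZMod L))) ≤
      U * (2 * M2 (NN d L β U J) + Fintype.card (Fin d → ZMod L) * WW (NN d L β U J) 0) at hvir
  change ∑ k ∈ (Finset.univ : Finset (Fin d → ZMod L)).erase 0, lam k * TT (NN d L β U J) k =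
      2 * (Fintype.card (Fin d → ZMod L) : ℝ) *
        ∑ x, ∑ i, (WW (NN d L β U J) 0 - WW (NN d L β U J) (eta x (x + ee i))) at hkin
  change ∀ (a z : Fin d → ZMod L) (i : Fin d),
    4 * (WW (NN d L β U J) 0 - WW (NN d L β U J) (eta a (a + ee i))) -
      2 * Real.sqrt (q * WW (NN d L β U J) 0) *
      (Real.sqrt (2 * (WW (NN d L β U J) 0 - WW (NN d L β U J) (eta a z))) +
        Real.sqrt (2 * (WW (NN d L β U J) 0 - WW (NN d L β U J) (eta (a + ee i) z)))) ≤
    WW (NN d L β U J) (eta a z) + WW (NN d L β U J) (eta (a + ee i) z) -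
      WW (NN d L β U J) (eta a (a + ee i) + eta a z) -
        WW (NN d L β U J) (eta a (a + ee i) - eta (a + ee i) z) at hst
  obtain ⟨W, hW⟩ : ∃ W, W = WW (NN d L β U J) := ⟨_, rfl⟩
  obtain ⟨Z, hZe⟩ : ∃ Z, Z = W 0 := ⟨_, rfl⟩
  obtain ⟨n, hn⟩ : ∃ n : ℝ, n = (Fintype.card (Fin d → ZMod L) : ℝ) := ⟨_, rfl⟩
  obtain ⟨D, hD⟩ : ∃ D, D = depl (NN d L β U J) := ⟨_, rfl⟩
  obtain ⟨m2, hm2⟩ : ∃ m, m = M2 (NN d L β U J) := ⟨_, rfl⟩
  rw [hkin, ← hD]
  rw [← hW] at hvir hst hpot hWle ⊢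
  rw [← hZe] at hvir hst hpot hWle ⊢
  rw [← hn] at hvir ⊢
  rw [← hm2] at hvir hpot
  have hn0 : 0 < n := by
    rw [hn]
    exact_mod_cast Fintype.card_pos
  have hZ0 : 0 < Z := by rw [hZe, hW]; exact hZ
  have hDn : n ^ 2 * Z * D = ∑ a, ∑ z, (Z - W (eta a z)) := by
    rw [hD]
    unfold depl
    rw [← hn, ← hW, ← hZe]
    have : ∑ a : Fin d → ZMod L, ∑ z : Fin d → ZMod L, (Z - W (eta a z)) =
        n ^ 2 * Z - ∑ x, ∑ y, W (eta x y) := by
      simp only [Finset.sum_sub_distrib, Finset.sum_const, Finset.card_univ, nsmul_eq_mul, ← hn]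
      ring
    rw [this]
    have hZ' : Z ≠ 0 := hZ0.ne'
    field_simp
  obtain ⟨P, hP⟩ : ∃ P : (Fin d → ZMod L) → (Fin d → ZMod L) → ℝ,
      ∀ a z, P a z = Real.sqrt (2 * (Z - W (eta a z))) := ⟨_, fun _ _ => rfl⟩
  obtain ⟨r, hr⟩ : ∃ r, r = Real.sqrt (q * Z) := ⟨_, rfl⟩
  have hr0 : 0 ≤ r := by rw [hr]; exact Real.sqrt_nonneg _
  simp only [← hP, ← hr] at hst
  obtain ⟨SP, hSP⟩ : ∃ SP, SP = ∑ a, ∑ z, P a z := ⟨_, rfl⟩
  obtain ⟨s, hs⟩ : ∃ s, s = ∑ a : Fin d → ZMod L, ∑ i, (Z - W (eta a (a + ee i))) := ⟨_, rfl⟩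
  rw [← hs]
  -- step 1 and 2
  have h1 : ∀ F : (Fin d → ZMod L) → (Fin d → ZMod L) → ℝ,
      ∑ a, ∑ b, nnw J a b * F a b = ∑ a, ∑ i, J * F a (a + ee i) := by
    intro F
    refine Finset.sum_congr rfl fun a _ => ?_
    unfold nnw
    simp only [Finset.sum_mul]
    rw [Finset.sum_comm]
    refine Finset.sum_congr rfl fun i _ => ?_
    simp only [ite_mul, zero_mul, Finset.sum_ite_eq', Finset.mem_univ, if_true]
  rw [h1] at hvir
  have h2 : ∀ (a : Fin d → ZMod L) (i : Fin d),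
      J * (2 * (Z - W (eta a (a + ee i))) - r / n * (∑ z, P a z + ∑ z, P (a + ee i) z)) ≤
      J * ((∑ z, (W (eta a z) + W (eta (a + ee i) z) - W (eta a (a + ee i) + eta a z) -
        W (eta a (a + ee i) - eta (a + ee i) z))) / (2 * n)) := by
    intro a i
    refine mul_le_mul_of_nonneg_left ?_ hJ.le
    rw [le_div_iff₀ (by positivity)]
    have h3 := Finset.sum_le_sum fun z (_ : z ∈ (Finset.univ : Finset (Fin d → ZMod L))) =>
      hst a z i
    refine le_trans (le_of_eq ?_) h3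
    simp only [Finset.sum_sub_distrib, Finset.sum_const, Finset.card_univ, nsmul_eq_mul, ← hn,
      ← Finset.mul_sum, Finset.sum_add_distrib]
    field_simp
    ring
  have h3 : 2 * J * s - J * (r / n) * (2 * d * SP) ≤ U * (2 * m2 + n * Z) := by
    refine le_trans (le_of_eq ?_) ((Finset.sum_le_sum fun a _ => Finset.sum_le_sum fun i _ =>
      h2 a i).trans hvir)
    have e1 : ∑ a : Fin d → ZMod L, ∑ i : Fin d, ∑ z, P a z = d * SP := by
      simp only [Finset.sum_const, Finset.card_univ, Fintype.card_fin, nsmul_eq_mul, hSP,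
        Finset.mul_sum]
    have e2 : ∑ a : Fin d → ZMod L, ∑ i : Fin d, ∑ z, P (a + ee i) z = d * SP := by
      rw [Finset.sum_comm]
      have : ∀ i : Fin d, ∑ a : Fin d → ZMod L, ∑ z, P (a + ee i) z = SP := by
        intro i
        rw [hSP]
        exact Equiv.sum_comp (Equiv.addRight (ee i)) (fun a => ∑ z, P a z)
      simp only [this, Finset.sum_const, Finset.card_univ, Fintype.card_fin, nsmul_eq_mul]
    have e3 : ∑ a : Fin d → ZMod L, ∑ i : Fin d,
        J * (2 * (Z - W (eta a (a + ee i))) - r / n * (∑ z, P a z + ∑ z, P (a + ee i) z)) =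
        J * 2 * s - J * (r / n) * (∑ a : Fin d → ZMod L, ∑ i : Fin d, ∑ z, P a z +
          ∑ a : Fin d → ZMod L, ∑ i : Fin d, ∑ z, P (a + ee i) z) := by
      rw [hs, Finset.mul_sum, ← Finset.sum_add_distrib, Finset.mul_sum, ← Finset.sum_sub_distrib]
      refine Finset.sum_congr rfl fun a _ => ?_
      rw [Finset.mul_sum, ← Finset.sum_add_distrib, Finset.mul_sum, ← Finset.sum_sub_distrib]
      refine Finset.sum_congr rfl fun i _ => ?_
      ring
    rw [e3, e1, e2]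
    ring
  -- step 4
  have hDnn : 0 ≤ D := by
    have h4 : 0 ≤ ∑ a : Fin d → ZMod L, ∑ z, (Z - W (eta a z)) :=
      Finset.sum_nonneg fun a _ => Finset.sum_nonneg fun z _ => sub_nonneg.2 (hWle _)
    rw [← hDn] at h4
    exact (mul_nonneg_iff_of_pos_left (by positivity)).1 h4
  have h4 : SP ≤ n ^ 2 * Real.sqrt (2 * Z * D) := by
    have h5 : SP ^ 2 ≤ n ^ 2 * (2 * (n ^ 2 * Z * D)) := by
      have h6 := sq_sum_le_card_mul_sum_sq
        (s := (Finset.univ : Finset ((Fin d → ZMod L) × (Fin d → ZMod L))))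
        (f := fun p => P p.1 p.2)
      rw [Fintype.sum_prod_type, Fintype.sum_prod_type, ← hSP, Finset.card_univ,
        Fintype.card_prod, Nat.cast_mul, ← hn, ← sq] at h6
      refine h6.trans (le_of_eq ?_)
      congr 1
      rw [hDn, Finset.mul_sum]
      refine Finset.sum_congr rfl fun a _ => ?_
      rw [Finset.mul_sum]
      refine Finset.sum_congr rfl fun z _ => ?_
      have := hWle (eta a z)
      simp only [hP]
      rw [Real.sq_sqrt (by linarith)]
    have h6 := Real.abs_le_sqrt h5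
    have h7 : n ^ 2 * (2 * (n ^ 2 * Z * D)) = (n ^ 2) ^ 2 * (2 * Z * D) := by ring
    rw [h7, Real.sqrt_mul (by positivity), Real.sqrt_sq (by positivity)] at h6
    exact (le_abs_self _).trans h6
  have h5 : r * Real.sqrt (2 * Z * D) = Z * Real.sqrt (2 * q * D) := by
    rw [hr, ← Real.sqrt_mul (by positivity)]
    have : q * Z * (2 * Z * D) = Z ^ 2 * (2 * q * D) := by ring
    rw [this, Real.sqrt_mul (by positivity), Real.sqrt_sq hZ0.le]
  obtain ⟨Sg, hSg⟩ : ∃ Sg, Sg = ∑ k ∈ (Finset.univ : Finset (Fin d → ZMod L)).erase 0,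
    lam k * sB U J β (lam k) := ⟨_, rfl⟩
  rw [← hSg] at hpot ⊢
  have h6 : J * (r / n) * (2 * d * SP) ≤ 2 * J * d * n * (Z * Real.sqrt (2 * q * D)) := by
    rw [← h5]
    have h7 : J * (r / n) * (2 * d * SP) ≤ J * (r / n) * (2 * d * (n ^ 2 * Real.sqrt (2 * Z * D))) := by
      gcongr
    refine h7.trans (le_of_eq ?_)
    field_simp
  have h7 : 2 * J * s ≤ J * Sg * Z + U * (n * Z) + 2 * J * d * n * (Z * Real.sqrt (2 * q * D)) := by
    nlinarith
  have h8 : 2 * s ≤ (Sg + n * (U / J + 2 * d * Real.sqrt (2 * q * D))) * Z := by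
    have h9 : J * (2 * s) ≤ J * ((Sg + n * (U / J + 2 * d * Real.sqrt (2 * q * D))) * Z) := by
      refine le_trans (le_of_eq (by ring)) (h7.trans (le_of_eq ?_))
      field_simp
      ring
    exact le_of_mul_le_mul_left h9 hJ
  calc 2 * n * s = n * (2 * s) := by ring
    _ ≤ n * ((Sg + n * (U / J + 2 * d * Real.sqrt (2 * q * D))) * Z) :=
        mul_le_mul_of_nonneg_left h8 hn0.le
    _ = _ := by ring

end Pool.Agent.H993.LY.P19
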