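import Mathlib
import Pool.Agent.H993.LY.Base2
import Pool.Agent.H993.TR.Fin2

/-!
# LY task 20: comparison and infrared bound (by helper872 for helper993)
-/

namespace Pool.Agent.H993.LY.P20

open Filter Topology NormedSpace Matrix MeasureTheory
open Pool.Agent.H993.TR
open Pool.Agent.H993.LY
open Pool.Agent.N157
open Pool.Agent.N157.QR_FOU (BB)
open Pool.Agent.N657.QR (ee nnw lam lap)

variable {V : Type} [Fintype V] [DecidableEq V]

theorem one_sub_depl {β U : ℝ} (hβ : 0 < β) (hU : 0 < U) {w : V → V → ℝ}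
    (hw : ∀ x y, 0 ≤ w x y) :
    1 - depl (AA β U w) = (∑ x, ∑ y, TI (rs (rotK β (U • (1 : Matrix V V ℝ)) w 0) 0) (sh 0 x y)) /
      ((Fintype.card V : ℝ) ^ 2 * TI (rs (rotK β (U • (1 : Matrix V V ℝ)) w 0) 0) id) := by
  unfold depl
  rw [WW_zero hβ hU hw]
  have h : ∀ x y : V, WW (AA β U w) (eta x y) =
      TI (rs (rotK β (U • (1 : Matrix V V ℝ)) w 0) 0) (sh 0 x y) := fun x y => WW_eta hβ hU hw x y
  simp only [h, sub_sub_cancel]
  rfl

theorem Zpos {β U : ℝ} (hβ : 0 < β) (hU : 0 < U) {w : V → V → ℝ} (hw : ∀ x y, 0 ≤ w x y) :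
    0 < TI (rs (rotK β (U • (1 : Matrix V V ℝ)) w 0) 0) id := by
  have h := WW_zero_pos hβ hU hw
  rw [WW_zero hβ hU hw] at h
  exact h

/-- TASK 20a. -/
theorem task_cmp {V : Type} [Fintype V] [DecidableEq V] [Nonempty V] {β U : ℝ} (hβ : 0 < β)
    (hU : 0 < U) {K : Matrix V V ℝ} (hK : K.PosDef)
    (hUK : (U • (1 : Matrix V V ℝ) - K).PosSemidef) {w w' : V → V → ℝ} (hw' : ∀ x y, 0 ≤ w' x y)
    (hww : ∀ x y, w' x y ≤ w x y) (ν : V → ℝ) (N : ℤ) :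
    (1 - depl (AA β U w')) * ((Fintype.card V : ℝ) ^ 2 * TI (rs (rotK β K w ν) N) id) ≤
      ∑ x, ∑ y, TI (rs (rotK β K w ν) N) (sh N x y) := by
  have hpd : (U • (1 : Matrix V V ℝ)).PosDef := Matrix.PosDef.one.smul hU
  have hZ := Zpos hβ hU hw'
  rw [one_sub_depl hβ hU hw']
  set A₀ := rotK β (U • (1 : Matrix V V ℝ)) w' 0 with hA₀
  set A₁ := rotK β K w ν with hA₁
  have hn : (0:ℝ) < (Fintype.card V : ℝ) ^ 2 := by
    have : (0:ℝ) < (Fintype.card V : ℝ) := by exact_mod_cast Fintype.card_pos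
    positivity
  have h2 : TI (rs A₁ N) id * ∑ x, ∑ y, TI (rs A₀ 0) (sh 0 x y) ≤
      (∑ x, ∑ y, TI (rs A₁ N) (sh N x y)) * TI (rs A₀ 0) id := by
    rw [Finset.mul_sum, Finset.sum_mul]
    refine Finset.sum_le_sum fun x _ => ?_
    rw [Finset.mul_sum, Finset.sum_mul]
    refine Finset.sum_le_sum fun y _ => ?_
    exact cmp_sec hβ ν hUK hK hpd hw' hww N x y
  have h3 : (∑ x, ∑ y, TI (rs A₀ 0) (sh 0 x y)) / ((Fintype.card V : ℝ) ^ 2 * TI (rs A₀ 0) id) *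
      ((Fintype.card V : ℝ) ^ 2 * TI (rs A₁ N) id) =
      (TI (rs A₁ N) id * ∑ x, ∑ y, TI (rs A₀ 0) (sh 0 x y)) / TI (rs A₀ 0) id := by
    field_simp
  rw [h3, div_le_iff₀ hZ]
  exact h2

/-- TASK 20b. -/
theorem task_depl_mono {V : Type} [Fintype V] [DecidableEq V] [Nonempty V] {β U : ℝ}
    (hβ : 0 < β) (hU : 0 < U) {w w' : V → V → ℝ} (hw' : ∀ x y, 0 ≤ w' x y)
    (hww : ∀ x y, w' x y ≤ w x y) : depl (AA β U w) ≤ depl (AA β U w') := by
  have hpd : (U • (1 : Matrix V V ℝ)).PosDef := Matrix.PosDef.one.smul hU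
  have hw : ∀ x y, 0 ≤ w x y := fun x y => (hw' x y).trans (hww x y)
  have hUK : (U • (1 : Matrix V V ℝ) - U • (1 : Matrix V V ℝ)).PosSemidef := by
    rw [sub_self]
    exact Matrix.PosSemidef.zero
  have h := task_cmp hβ hU hpd hUK hw' hww 0 0
  have hZ := Zpos hβ hU hw
  have hn : (0:ℝ) < (Fintype.card V : ℝ) ^ 2 := by
    have : (0:ℝ) < (Fintype.card V : ℝ) := by exact_mod_cast Fintype.card_pos
    positivity
  have h1 := one_sub_depl hβ hU hw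
  have h2 : 1 - depl (AA β U w') ≤ 1 - depl (AA β U w) := by
    rw [h1, le_div_iff₀ (mul_pos hn hZ)]
    exact h
  linarith

/-- TASK 20c. -/
theorem task_crude (d : ℕ) (hd : 3 ≤ d) : ∃ C : ℝ, 0 < C ∧ ∀ (L : ℕ) [NeZero L] (U J β : ℝ),
    Even L → 0 < U → 0 < J → 0 < β →
    depl (NN d L β U J) ≤ C * (Real.sqrt (U / J) + 1 / (β * J)) := by
  obtain ⟨C, hC, h⟩ := neutral_cond0 d hd
  refine ⟨C, hC, ?_⟩
  intro L _ U J β hL hU hJ hβ
  have h1 := h L U J β hL hU hJ hβ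
  have hw : ∀ x y, 0 ≤ (nnw J : (Fin d → ZMod L) → (Fin d → ZMod L) → ℝ) x y := nnw_nonneg hJ.le
  have hZ := Zpos hβ hU hw
  have hn : (0:ℝ) < (Fintype.card (Fin d → ZMod L) : ℝ) ^ 2 := by
    have : (0:ℝ) < (Fintype.card (Fin d → ZMod L) : ℝ) := by exact_mod_cast Fintype.card_pos
    positivity
  have h2 := one_sub_depl hβ hU hw
  have h3 : 1 - C * (Real.sqrt (U / J) + 1 / (β * J)) ≤
      1 - depl (AA β U (nnw J : (Fin d → ZMod L) → (Fin d → ZMod L) → ℝ)) := by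
    rw [h2, le_div_iff₀ (mul_pos hn hZ)]
    refine le_trans (le_of_eq ?_) h1
    ring
  have h4 : depl (NN d L β U J) =
      depl (AA β U (nnw J : (Fin d → ZMod L) → (Fin d → ZMod L) → ℝ)) := rfl
  rw [h4]
  linarith

/-- TASK 20d. -/
theorem task_ir {d L : ℕ} [NeZero L] {β U J : ℝ} (hL : Even L) (hβ : 0 < β) (hU : 0 < U)
    (hJ : 0 < J) (k : Fin d → ZMod L) (hk : k ≠ 0) :
    Pool.Agent.H993.LY.TT (NN d L β U J) k ≤ (8 / (β * J * lam k) + 2 * Real.sqrt (U / J) / Real.sqrt (lam k)) *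
      ((Fintype.card (Fin d → ZMod L) : ℝ) * WW (NN d L β U J) 0) := by
  have hw : ∀ x y, 0 ≤ (nnw J : (Fin d → ZMod L) → (Fin d → ZMod L) → ℝ) x y := nnw_nonneg hJ.le
  have hW0 : WW (NN d L β U J) 0 = TI (rs (rotK β (U • (1 : Matrix (Fin d → ZMod L)
      (Fin d → ZMod L) ℝ)) (nnw J) 0) 0) id := WW_zero hβ hU hw
  have hWe : ∀ x y : Fin d → ZMod L, WW (NN d L β U J) (eta x y) =
      TI (rs (rotK β (U • (1 : Matrix (Fin d → ZMod L) (Fin d → ZMod L) ℝ)) (nnw J) 0) 0)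
        (sh 0 x y) := fun x y => WW_eta hβ hU hw x y
  unfold Pool.Agent.H993.LY.TT
  simp only [hWe, hW0]
  set A := rotK β (U • (1 : Matrix (Fin d → ZMod L) (Fin d → ZMod L) ℝ)) (nnw J) 0 with hA
  set Z := TI (rs A 0) id with hZd
  set G : (Fin d → ZMod L) → (Fin d → ZMod L) → ℝ := fun x y => TI (rs A 0) (sh 0 x y) with hG
  have hir : ∀ (l : ℝ) (f : (Fin d → ZMod L) → ℝ), 0 < l → (∀ x, lap f x = l * f x) →
      (∑ x, ∑ y, f x * f y * G x y) ≤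
        (8 / (β * J * l) + 2 * Real.sqrt (U / J) / Real.sqrt l) * (∑ x, f x ^ 2) * Z := by
    intro l f hl hf
    have h1 := ir_sec' (U := U) hβ hU (nnw_self hL J) (nnw_nonneg hJ.le) (hrefl_nnw hL J β)
      (f := f) (l := β * J * l) (by positivity) (by
        intro x
        rw [wg_lap, hf]; ring)
    have h3 : Real.sqrt (β * U / (β * J * l)) = Real.sqrt (U / J) / Real.sqrt l := by
      rw [← Real.sqrt_div' _ hl.le]
      congr 1
      field_simp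
    rw [h3, ← mul_div_assoc] at h1
    exact h1
  have h1 := hir (lam k) (QR_FOU.cc k) (Pool.Agent.N157.QR_FOU.lam_pos k hk)
    (fun x => Pool.Agent.N157.QR_FOU.lap_cc k x)
  have h2 := hir (lam k) (QR_FOU.ss k) (Pool.Agent.N157.QR_FOU.lam_pos k hk)
    (fun x => Pool.Agent.N157.QR_FOU.lap_ss k x)
  have h3 : (∑ x, QR_FOU.cc k x ^ 2) + ∑ x, QR_FOU.ss k x ^ 2 =
      (Fintype.card (Fin d → ZMod L) : ℝ) := by
    rw [← Finset.sum_add_distrib, Finset.sum_congr rfl fun x _ => QR_FOU.cs_sq k x]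
    simp
  unfold BB
  refine (add_le_add h1 h2).trans (le_of_eq ?_)
  rw [← h3]
  ring

end Pool.Agent.H993.LY.P20
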