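import Mathlib
import Pool.Agent.H993.LY.Base2

/-!
# LY tasks 21a and 21c (for helper993): offsets
-/

namespace Pool.Agent.H993.LY.P21a

open Filter Topology NormedSpace Matrix MeasureTheory
open Pool.Agent.H993.TR Pool.Agent.H993.LY

variable {V : Type} [Fintype V] [DecidableEq V]

/-- The potential energy for a diagonal interaction. -/
theorem pot_diag (U : ℝ) (ν : V → ℝ) (n : V → ℤ) :
    pot (U • (1 : Matrix V V ℝ)) ν n = U * ∑ x, ((n x : ℝ) - ν x) ^ 2 := by
  unfold pot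
  rw [Finset.mul_sum]
  refine Finset.sum_congr rfl fun x _ => ?_
  rw [Finset.sum_eq_single x]
  · rw [Matrix.smul_apply, Matrix.one_apply_eq]
    simp only [smul_eq_mul, mul_one]
    ring
  · intro y _ hy
    rw [Matrix.smul_apply, Matrix.one_apply_ne (Ne.symm hy)]
    simp
  · intro hx
    exact absurd (Finset.mem_univ _) hx

/-! ### Task 21a -/

/-- Negation in the neutral sector. -/
def ng (n : Sec V 0) : Sec V 0 := ⟨-n.1, by
  simp only [Pi.neg_apply, Finset.sum_neg_distrib, n.2, neg_zero]⟩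

theorem ng_ng (n : Sec V 0) : ng (ng n) = n := Subtype.ext (neg_neg n.1)

theorem cosK_neg (x y : V) (n m : V → ℤ) : cosK x y (-n) (-m) = cosK x y n m := by
  unfold cosK
  have h1 : (-n = -m + eta x y) ↔ (m = n + eta x y) := by
    constructor
    · intro h
      have h2 : m = n + eta x y + (-n - (-m + eta x y)) := by abel
      rw [h2, h]
      abel
    · intro h
      rw [h]
      abel
  have h2 : (-m = -n + eta x y) ↔ (n = m + eta x y) := by
    constructor
    · intro h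
      have h2 : n = m + eta x y + (-m - (-n + eta x y)) := by abel
      rw [h2, h]
      abel
    · intro h
      rw [h]
      abel
  simp only [h1, h2]
  rw [add_comm]

theorem rotK_neg (β U : ℝ) (w : V → V → ℝ) (n m : V → ℤ) :
    rotK β (U • (1 : Matrix V V ℝ)) w 0 (-n) (-m) =
      rotK β (U • (1 : Matrix V V ℝ)) w 0 n m := by
  unfold rotK
  rw [pot_neutral, pot_neutral]
  simp only [cosK_neg, neg_inj, Pi.neg_apply, Int.cast_neg, neg_sq]

theorem task_zlow {β U : ℝ} (hβ : 0 < β) (hU : 0 < U) {w : V → V → ℝ} (hw : ∀ x y, 0 ≤ w x y)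
    (ν : V → ℝ) (hν : ∀ x, |ν x| ≤ 1) :
    Real.exp (-(β * U * Fintype.card V)) * TI (rs (rotK β (U • (1 : Matrix V V ℝ)) w 0) 0) id ≤
      TI (rs (rotK β (U • (1 : Matrix V V ℝ)) w ν) 0) id := by
  have hpd : (U • (1 : Matrix V V ℝ)).PosDef := Matrix.PosDef.one.smul hU
  have hA0 : Adm (rotK β (U • (1 : Matrix V V ℝ)) w 0) := rotK_adm hβ.le _ hw 0
  have hAν : Adm (rotK β (U • (1 : Matrix V V ℝ)) w ν) := rotK_adm hβ.le _ hw ν
  have hBν : Bdd (rotK β (U • (1 : Matrix V V ℝ)) w ν) := rotK_bdd' hβ hpd hw ν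
  unfold TI
  rw [Real.mul_iSup_of_nonneg (Real.exp_pos _).le]
  refine ciSup_le fun R => ?_
  -- a symmetric region
  set R' : Finset (Sec V 0) := R ∪ R.image ng with hR'
  have hsub : R ⊆ R' := Finset.subset_union_left
  have hsym : ∀ n ∈ R', ng n ∈ R' := by
    intro n hn
    rw [hR', Finset.mem_union, Finset.mem_image] at hn ⊢
    rcases hn with hn | ⟨m, hm, rfl⟩
    · exact Or.inr ⟨n, hn, rfl⟩
    · left
      rw [ng_ng]
      exact hm
  let eR : R' ≃ R' := ⟨fun n => ⟨ng n.1, hsym n.1 n.2⟩, fun n => ⟨ng n.1, hsym n.1 n.2⟩,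
    fun n => Subtype.ext (ng_ng n.1), fun n => Subtype.ext (ng_ng n.1)⟩
  refine (mul_le_mul_of_nonneg_left (TS_mono (rs_adm hA0 0) id hsub) (Real.exp_pos _).le).trans ?_
  refine le_trans ?_ (TS_le_TI (rs_adm hAν 0) (rs_bdd hAν hBν 0) Function.injective_id R')
  rw [TS_id, TS_id]
  set G : Matrix R' R' ℝ := mt (rs (rotK β (U • (1 : Matrix V V ℝ)) w 0) 0) R' with hG
  set Y : Matrix R' R' ℝ := Matrix.diagonal
    (fun n => 2 * β * U * ∑ x, ν x * ((n.1.1 x : ℤ) : ℝ)) with hY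
  set s : ℝ := -(β * U * ∑ x, ν x ^ 2) with hs
  have h1 : mt (rs (rotK β (U • (1 : Matrix V V ℝ)) w ν) 0) R' = (G + Y) + s • 1 := by
    ext n m
    rw [Matrix.add_apply, Matrix.add_apply, Matrix.smul_apply, hG, hY]
    unfold Pool.Agent.H993.TR.mt rs rotK
    rw [pot_diag, pot_neutral]
    by_cases h : n = m
    · subst h
      rw [if_pos rfl, if_pos rfl, Matrix.diagonal_apply_eq, Matrix.one_apply_eq, smul_eq_mul,
        mul_one, hs]
      have e1 : ∑ x, (((n.1.1 x : ℤ) : ℝ) - ν x) ^ 2 = ∑ x, ((n.1.1 x : ℤ) : ℝ) ^ 2 -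
          2 * ∑ x, ν x * ((n.1.1 x : ℤ) : ℝ) + ∑ x, ν x ^ 2 := by
        rw [Finset.mul_sum, ← Finset.sum_sub_distrib, ← Finset.sum_add_distrib]
        exact Finset.sum_congr rfl fun x _ => by ring
      rw [e1]
      ring
    · have h' : (n.1.1 : V → ℤ) ≠ m.1.1 := fun h' => h (Subtype.ext (Subtype.ext h'))
      rw [if_neg h', if_neg h', Matrix.diagonal_apply_ne _ h, Matrix.one_apply_ne h]
      simp
  rw [h1, exp_add_smul_one, Matrix.trace_smul, smul_eq_mul]
  have hGs : Gᵀ = G := mt_symm (rs_adm hA0 0) R'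
  have hYs : Yᵀ = Y := by rw [hY, Matrix.diagonal_transpose]
  have h2 := trace_exp_convex G Y hGs hYs
  have hGe : G.submatrix eR eR = G := by
    ext n m
    exact rotK_neg β U w n.1.1 m.1.1
  have hEe : ∀ n : R', exp G (eR n) (eR n) = exp G n n := by
    intro n
    have h3 := exp_submatrix_equiv eR G
    rw [hGe] at h3
    conv_rhs => rw [h3]
    rfl
  have h3 : (Y * exp G).trace = 0 := by
    have h4 : (Y * exp G).trace = ∑ n : R', (2 * β * U * ∑ x, ν x * ((n.1.1 x : ℤ) : ℝ)) *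
        exp G n n := by
      unfold Matrix.trace
      refine Finset.sum_congr rfl fun n _ => ?_
      rw [Matrix.diag_apply, hY, Matrix.diagonal_mul]
    have h5 := Equiv.sum_comp eR (fun n : R' => (2 * β * U * ∑ x, ν x * ((n.1.1 x : ℤ) : ℝ)) *
        exp G n n)
    have h6 : ∀ n : R', (2 * β * U * ∑ x, ν x * (((eR n).1.1 x : ℤ) : ℝ)) *
        exp G (eR n) (eR n) = -((2 * β * U * ∑ x, ν x * ((n.1.1 x : ℤ) : ℝ)) * exp G n n) := by
      intro n
      rw [hEe n]
      have h7 : ∑ x, ν x * (((eR n).1.1 x : ℤ) : ℝ) = -∑ x, ν x * ((n.1.1 x : ℤ) : ℝ) := by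
        rw [← Finset.sum_neg_distrib]
        refine Finset.sum_congr rfl fun x _ => ?_
        have h8 : (eR n).1.1 x = -(n.1.1 x) := rfl
        rw [h8]
        push_cast
        ring
      rw [h7]
      ring
    simp only [h6, Finset.sum_neg_distrib] at h5
    rw [← h4] at h5
    linarith
  rw [h3, add_zero] at h2
  have h4 : 0 ≤ (exp G).trace := by
    rw [← TS_id]
    exact TS_nonneg (rs_adm hA0 0) _ _
  have h5 : ∑ x, ν x ^ 2 ≤ Fintype.card V := by
    have h6 : ∑ x : V, ν x ^ 2 ≤ ∑ x : V, (1 : ℝ) := by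
      refine Finset.sum_le_sum fun x _ => ?_
      have h7 := abs_le.1 (hν x)
      nlinarith
    simpa using h6
  refine mul_le_mul ?_ h2 h4 (Real.exp_pos _).le
  rw [Real.exp_le_exp, hs, neg_le_neg_iff]
  exact mul_le_mul_of_nonneg_left h5 (by positivity)

/-! ### Task 21c -/

/-- Integers with a given sum close to given reals. -/
theorem exists_round [Nonempty V] (ν : V → ℝ) (N : ℤ) (h : ∑ x, ν x = N) :
    ∃ m : V → ℤ, ∑ x, m x = N ∧ ∀ x, |ν x - m x| ≤ 1 := by
  have h1 : ∑ x, ⌊ν x⌋ ≤ N := by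
    have h2 : ((∑ x, ⌊ν x⌋ : ℤ) : ℝ) ≤ N := by
      rw [← h, Int.cast_sum]
      exact Finset.sum_le_sum fun x _ => Int.floor_le (ν x)
    exact_mod_cast h2
  have h3 : N ≤ ∑ x, ⌊ν x⌋ + Fintype.card V := by
    have h2 : (N : ℝ) ≤ ((∑ x, ⌊ν x⌋ + Fintype.card V : ℤ) : ℝ) := by
      rw [← h]
      push_cast
      have h4 : ((Fintype.card V : ℕ) : ℝ) = ∑ x : V, (1 : ℝ) := by simp
      rw [h4, ← Finset.sum_add_distrib]
      exact Finset.sum_le_sum fun x _ => (Int.lt_floor_add_one (ν x)).le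
    exact_mod_cast h2
  obtain ⟨k, hk⟩ := Int.eq_ofNat_of_zero_le (sub_nonneg.2 h1)
  have hkc : k ≤ (Finset.univ : Finset V).card := by
    rw [Finset.card_univ]
    omega
  obtain ⟨T, -, hT⟩ := Finset.exists_subset_card_eq hkc
  refine ⟨fun x => ⌊ν x⌋ + (if x ∈ T then 1 else 0), ?_, ?_⟩
  · rw [Finset.sum_add_distrib, Finset.sum_ite_mem, Finset.univ_inter, Finset.sum_const, hT,
      nsmul_eq_mul, mul_one]
    have : ((k : ℕ) : ℤ) = N - ∑ x, ⌊ν x⌋ := hk.symm
    rw [this]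
    ring
  · intro x
    have h4 := Int.floor_le (ν x)
    have h5 := Int.lt_floor_add_one (ν x)
    rw [abs_le]
    push_cast
    split_ifs
    · push_cast
      constructor <;> linarith
    · push_cast
      constructor <;> linarith

/-- Kernels which differ by a multiple of the identity. -/
theorem EE_const {Ω : Type} [DecidableEq Ω] {A A' : Ω → Ω → ℝ} {s : ℝ}
    (h : ∀ a b, A a b = A' a b + if a = b then s else 0) (R : Finset Ω) (a b : Ω) :
    EE A R a b = Real.exp s * EE A' R a b := by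
  have h1 : mt A R = mt A' R + s • 1 := by
    ext x y
    rw [Matrix.add_apply, Matrix.smul_apply]
    unfold Pool.Agent.H993.TR.mt
    rw [h]
    by_cases hxy : x = y
    · subst hxy
      rw [if_pos rfl, Matrix.one_apply_eq, smul_eq_mul, mul_one]
    · rw [if_neg fun h' => hxy (Subtype.ext h'), Matrix.one_apply_ne hxy, smul_zero]
  unfold EE
  split_ifs with h2
  · rw [h1, exp_add_smul_one]
    rfl
  · rw [mul_zero]

theorem TI_const {Ω : Type} [DecidableEq Ω] {A A' : Ω → Ω → ℝ} {s : ℝ}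
    (h : ∀ a b, A a b = A' a b + if a = b then s else 0) (σ : Ω → Ω) :
    TI A σ = Real.exp s * TI A' σ := by
  unfold TI
  rw [Real.mul_iSup_of_nonneg (Real.exp_pos _).le]
  congr 1
  funext R
  unfold TS
  rw [Finset.mul_sum]
  exact Finset.sum_congr rfl fun a _ => EE_const h R _ _

/-- Translation by `m`. -/
def tl (m : V → ℤ) (N : ℤ) (hm : ∑ x, m x = N) : Sec V 0 ≃ Sec V N where
  toFun n := ⟨n.1 + m, by
    simp only [Pi.add_apply, Finset.sum_add_distrib, n.2, hm, zero_add]⟩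
  invFun n := ⟨n.1 - m, by
    simp only [Pi.sub_apply, Finset.sum_sub_distrib, n.2, hm, sub_self]⟩
  left_inv n := Subtype.ext (add_sub_cancel_right n.1 m)
  right_inv n := Subtype.ext (sub_add_cancel n.1 m)

theorem TI_equiv {Ω Ω' : Type} [DecidableEq Ω] [DecidableEq Ω'] (φ : Ω' ≃ Ω) (A : Ω → Ω → ℝ)
    (A' : Ω' → Ω' → ℝ) (hA : ∀ a b, A (φ a) (φ b) = A' a b) (σ : Ω → Ω) (σ' : Ω' → Ω')
    (h : ∀ a, σ (φ a) = φ (σ' a)) : TI A σ = TI A' σ' := by
  have h1 : ∀ R' : Finset Ω', TS A' σ' R' = TS A σ (R'.map φ.toEmbedding) := by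
    intro R'
    have h2 := TS_map φ.toEmbedding A σ σ' h R'
    rw [← h2]
    congr 1
    funext a b
    exact (hA a b).symm
  unfold TI
  have h3 : (fun R' : Finset Ω' => TS A' σ' R') = (fun R => TS A σ R) ∘
      (Equiv.finsetCongr φ) := by
    funext R'
    exact h1 R'
  calc (⨆ R, TS A σ R) = ⨆ R', TS A σ (Equiv.finsetCongr φ R') :=
        ((Equiv.finsetCongr φ).surjective.iSup_comp (fun R => TS A σ R)).symm
    _ = ⨆ R', TS A' σ' R' := by
        congr 1
        funext R'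
        exact (h1 R').symm

theorem cosK_add (x y : V) (m n n' : V → ℤ) :
    cosK x y (n + m) (n' + m) = cosK x y n n' := by
  unfold cosK
  have h1 : (n + m = n' + m + eta x y) ↔ (n = n' + eta x y) := by
    rw [add_right_comm n' m]
    exact add_left_inj m
  have h2 : (n' + m = n + m + eta x y) ↔ (n' = n + eta x y) := by
    rw [add_right_comm n m]
    exact add_left_inj m
  simp only [h1, h2]

theorem task_red {β U : ℝ} (hβ : 0 < β) (hU : 0 < U) {w : V → V → ℝ} (hw : ∀ x y, 0 ≤ w x y)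
    [Nonempty V] (ν : V → ℝ) (N : ℤ) : ∃ (ν' : V → ℝ) (c : ℝ), (∀ x, |ν' x| ≤ 1) ∧ 0 < c ∧
    TI (rs (rotK β (U • (1 : Matrix V V ℝ)) w ν) N) id =
      c * TI (rs (rotK β (U • (1 : Matrix V V ℝ)) w ν') 0) id ∧
    ∀ x y, TI (rs (rotK β (U • (1 : Matrix V V ℝ)) w ν) N) (sh N x y) =
      c * TI (rs (rotK β (U • (1 : Matrix V V ℝ)) w ν') 0) (sh 0 x y) := by
  have hn0 : (0 : ℝ) < Fintype.card V := by exact_mod_cast Fintype.card_pos
  set s : ℝ := ((N : ℝ) - ∑ x, ν x) / Fintype.card V with hs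
  set ν₁ : V → ℝ := fun x => ν x + s with hν₁
  have hsum : ∑ x, ν₁ x = N := by
    rw [hν₁, Finset.sum_add_distrib, Finset.sum_const, Finset.card_univ, nsmul_eq_mul, hs]
    field_simp
    ring
  obtain ⟨m, hm, hmν⟩ := exists_round ν₁ N hsum
  set c' : ℝ := -(β * (U * (Fintype.card V * s ^ 2))) with hc'
  have hk1 : ∀ a b : Sec V N, rs (rotK β (U • (1 : Matrix V V ℝ)) w ν) N a b =
      rs (rotK β (U • (1 : Matrix V V ℝ)) w ν₁) N a b + if a = b then c' else 0 := by
    intro a b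
    unfold rs rotK
    by_cases hab : a = b
    · subst hab
      rw [if_pos rfl, if_pos rfl, if_pos rfl, pot_diag, pot_diag, hc']
      have e1 : ∑ x, (((a.1 x : ℤ) : ℝ) - ν x) ^ 2 = ∑ x, (((a.1 x : ℤ) : ℝ) - ν₁ x) ^ 2 +
          2 * s * (∑ x, (((a.1 x : ℤ) : ℝ) - ν₁ x)) + Fintype.card V * s ^ 2 := by
        have e2 : (Fintype.card V : ℝ) * s ^ 2 = ∑ x : V, s ^ 2 := by
          rw [Finset.sum_const, Finset.card_univ, nsmul_eq_mul]
        rw [e2, Finset.mul_sum, ← Finset.sum_add_distrib, ← Finset.sum_add_distrib]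
        exact Finset.sum_congr rfl fun x _ => by rw [hν₁]; ring
      have e3 : ∑ x, (((a.1 x : ℤ) : ℝ) - ν₁ x) = 0 := by
        rw [Finset.sum_sub_distrib, hsum, ← Int.cast_sum, a.2, sub_self]
      rw [e1, e3]
      ring
    · have hab' : (a.1 : V → ℤ) ≠ b.1 := fun h => hab (Subtype.ext h)
      rw [if_neg hab', if_neg hab', if_neg hab, add_zero]
  have hk2 : ∀ a b : Sec V 0, rs (rotK β (U • (1 : Matrix V V ℝ)) w ν₁) N (tl m N hm a)
      (tl m N hm b) = rs (rotK β (U • (1 : Matrix V V ℝ)) w (fun x => ν₁ x - m x)) 0 a b := by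
    intro a b
    show rotK β (U • (1 : Matrix V V ℝ)) w ν₁ (a.1 + m) (b.1 + m) =
      rotK β (U • (1 : Matrix V V ℝ)) w (fun x => ν₁ x - m x) a.1 b.1
    have e4 : ∑ x, ((((a.1 + m) x : ℤ) : ℝ) - ν₁ x) ^ 2 =
        ∑ x, (((a.1 x : ℤ) : ℝ) - (ν₁ x - m x)) ^ 2 := by
      refine Finset.sum_congr rfl fun x _ => ?_
      rw [Pi.add_apply]
      push_cast
      ring
    unfold rotK
    simp only [cosK_add, pot_diag, add_left_inj]
    rw [e4]
  refine ⟨fun x => ν₁ x - m x, Real.exp c', hmν, Real.exp_pos _, ?_, ?_⟩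
  · rw [TI_const hk1]
    congr 1
    exact TI_equiv (tl m N hm) _ _ hk2 id id fun _ => rfl
  · intro x y
    rw [TI_const hk1]
    congr 1
    refine TI_equiv (tl m N hm) _ _ hk2 (sh N x y) (sh 0 x y) fun a => ?_
    apply Subtype.ext
    show a.1 + m + eta x y = a.1 + eta x y + m
    abel

end Pool.Agent.H993.LY.P21a
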