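import Mathlib
import Pool.Agent.H993.LY.P13
import Pool.Agent.H993.LY.P21a
import Pool.Agent.H993.LY.P9
import Pool.Agent.H993.LY.Base2

/-!
# LY task 21bd (helper52): the mean field term
-/

namespace Pool.Agent.H993.LY.P21b

open Pool.Agent.H993.LY.P13 (task_pb)
open Pool.Agent.H993.LY.P9 (task_ngd)
open Pool.Agent.H993.LY.P21a (task_zlow task_red)

open Filter Topology NormedSpace Matrix MeasureTheory
open Pool.Agent.H993.TR
open Pool.Agent.H993.LY
open Pool.Agent.N157.QR_FOU (BB)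
open Pool.Agent.N657.QR (ee nnw lam)

/-! ### Earlier tasks -/

section gen

variable {Ω : Type} [DecidableEq Ω]

/-- The hopping terms. -/
noncomputable def hop {ι : Type} [Fintype ι] (σ : ι → Ω → Ω) (c : ℝ) (a b : Ω) : ℝ :=
  c * ∑ i, ((if a = σ i b then (1 : ℝ) else 0) + (if b = σ i a then 1 else 0)) / 2

theorem hop_symm {ι : Type} [Fintype ι] (σ : ι → Ω → Ω) (c : ℝ) (a b : Ω) :
    hop σ c a b = hop σ c b a := by
  unfold hop
  congr 1
  exact Finset.sum_congr rfl fun i _ => by rw [add_comm]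

theorem trace_hop {ι : Type} [Fintype ι] (σ : ι → Ω → Ω) (c : ℝ) {A : Ω → Ω → ℝ} (hA : Adm A)
    (R : Finset Ω) :
    ((mt (hop σ c) R : Matrix R R ℝ) * exp (mt A R)).trace = c * ∑ i, TS A (σ i) R := by
  have h1 : ∀ i, ∑ a : R, ∑ b : R, (if (a : Ω) = σ i b then (1 : ℝ) else 0) * EE A R b a =
      TS A (σ i) R := by
    intro i
    rw [Finset.sum_comm]
    unfold TS
    rw [← Finset.sum_coe_sort R]
    refine Finset.sum_congr rfl fun b _ => ?_
    by_cases h : σ i b ∈ R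
    · rw [Finset.sum_eq_single (⟨σ i b, h⟩ : R)]
      · rw [if_pos rfl, one_mul, EE_symm hA]
      · intro a _ ha
        rw [if_neg (fun h' : (a : Ω) = σ i b => ha (Subtype.ext h')), zero_mul]
      · intro h'; exact absurd (Finset.mem_univ _) h'
    · rw [EE_zero_left h]
      refine Finset.sum_eq_zero fun a _ => ?_
      rw [if_neg (fun h' : (a : Ω) = σ i b => h (h' ▸ a.2)), zero_mul]
  have h2 : ∀ i, ∑ a : R, ∑ b : R, (if (b : Ω) = σ i a then (1 : ℝ) else 0) * EE A R b a =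
      TS A (σ i) R := by
    intro i
    rw [Finset.sum_comm, ← h1 i]
    refine Finset.sum_congr rfl fun b _ => Finset.sum_congr rfl fun a _ => ?_
    rw [EE_symm hA]
  have h3 : ((mt (hop σ c) R : Matrix R R ℝ) * exp (mt A R)).trace =
      ∑ a : R, ∑ b : R, c * ∑ i, (((if (a : Ω) = σ i b then (1 : ℝ) else 0) * EE A R b a +
        (if (b : Ω) = σ i a then 1 else 0) * EE A R b a) / 2) := by
    rw [Matrix.trace]
    simp only [Matrix.diag_apply, Matrix.mul_apply]
    refine Finset.sum_congr rfl fun a _ => Finset.sum_congr rfl fun b _ => ?_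
    rw [← EE_eq A R b a]
    show hop σ c a b * _ = _
    unfold hop
    rw [mul_assoc, Finset.sum_mul]
    congr 1
    exact Finset.sum_congr rfl fun i _ => by ring
  rw [h3]
  simp only [← Finset.mul_sum]
  congr 1
  have h4 : ∀ a : R, ∑ b : R, ∑ i, (((if (a : Ω) = σ i b then (1 : ℝ) else 0) * EE A R b a +
        (if (b : Ω) = σ i a then 1 else 0) * EE A R b a) / 2) =
      ∑ i, ∑ b : R, (((if (a : Ω) = σ i b then (1 : ℝ) else 0) * EE A R b a +
        (if (b : Ω) = σ i a then 1 else 0) * EE A R b a) / 2) := fun a => Finset.sum_comm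
  simp only [h4]
  rw [Finset.sum_comm]
  refine Finset.sum_congr rfl fun i _ => ?_
  simp only [← Finset.sum_div, Finset.sum_add_distrib]
  rw [h1, h2]
  ring

/-- Peierls-Bogoliubov in the limit. -/
theorem mf_gen [Nonempty Ω] {ι : Type} [Fintype ι] (σ : ι → Ω → Ω)
    (hσ : ∀ i, Function.Injective (σ i)) (c : ℝ) {A B : Ω → Ω → ℝ} (hA : Adm A) (hB : Adm B)
    (bA : Bdd A) (bB : Bdd B) (h : ∀ a b, B a b = A a b + hop σ c a b) :
    TI A id * Real.exp (c * ((∑ i, TI A (σ i)) / TI A id)) ≤ TI B id := by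
  have hpos := TI_pos hA bA
  have h0 := TS_tendsto hA bA (Function.injective_id : Function.Injective (id : Ω → Ω))
  have h1 : Tendsto (fun R => ∑ i, TS A (σ i) R) atTop (𝓝 (∑ i, TI A (σ i))) :=
    tendsto_finsetSum _ fun i _ => TS_tendsto hA bA (hσ i)
  have h2 : Tendsto (fun R => TS A id R * Real.exp (c * ((∑ i, TS A (σ i) R) / TS A id R))) atTop
      (𝓝 (TI A id * Real.exp (c * ((∑ i, TI A (σ i)) / TI A id)))) :=
    h0.mul ((Real.continuous_exp.tendsto _).comp ((h1.div h0 hpos.ne').const_mul c))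
  refine le_of_tendsto h2 ?_
  obtain ⟨z⟩ := (inferInstance : Nonempty Ω)
  filter_upwards [eventually_ge_atTop ({z} : Finset Ω)] with R hR
  have : Nonempty R := ⟨⟨z, hR (Finset.mem_singleton_self z)⟩⟩
  have h3 := task_pb (mt A R) (mt (hop σ c) R) (mt_symm hA R)
    (by ext a b; exact hop_symm σ c _ _)
  rw [trace_hop σ c hA R] at h3
  have h4 : mt A R + mt (hop σ c) R = mt B R := by
    ext a b
    exact (h a b).symm
  rw [h4, ← TS_id, ← TS_id, mul_div_assoc] at h3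
  exact h3.trans (TS_le_TI hB bB Function.injective_id R)

end gen

variable {V : Type} [Fintype V] [DecidableEq V]

theorem rs_hop {β γ : ℝ} (K : Matrix V V ℝ) (w : V → V → ℝ) (ν : V → ℝ) (N : ℤ)
    (a b : Sec V N) :
    rs (rotK β K (fun x y => w x y + γ) ν) N a b = rs (rotK β K w ν) N a b +
      hop (fun p : V × V => sh N p.1 p.2) (β * γ) a b := by
  unfold rs rotK hop
  rw [Fintype.sum_prod_type]
  have h1 : ∀ x y : V, ((if a = sh N x y b then (1 : ℝ) else 0) + (if b = sh N x y a then 1 else 0)) / 2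
      = cosK x y a.1 b.1 := by
    intro x y
    unfold cosK
    have e1 : (a = sh N x y b) ↔ (a.1 = b.1 + eta x y) := Subtype.ext_iff
    have e2 : (b = sh N x y a) ↔ (b.1 = a.1 + eta x y) := Subtype.ext_iff
    simp only [e1, e2]
  simp only [h1, add_mul, Finset.sum_add_distrib, ← Finset.mul_sum]
  ring

theorem task_mf {β U γ : ℝ} (hβ : 0 < β) (hU : 0 < U) (hγ : 0 ≤ γ) {w : V → V → ℝ}
    (hw : ∀ x y, 0 ≤ w x y) (ν : V → ℝ) :
    TI (rs (rotK β (U • (1 : Matrix V V ℝ)) w ν) 0) id *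
      Real.exp (β * (γ / Fintype.card V) *
        ((∑ x, ∑ y, TI (rs (rotK β (U • (1 : Matrix V V ℝ)) w ν) 0) (sh 0 x y)) /
          TI (rs (rotK β (U • (1 : Matrix V V ℝ)) w ν) 0) id)) ≤
      TI (rs (rotK β (U • (1 : Matrix V V ℝ)) (fun x y => w x y + γ / Fintype.card V) ν) 0) id ∧
    TI (rs (rotK β (U • (1 : Matrix V V ℝ)) (fun x y => w x y + γ / Fintype.card V) ν) 0) id ≤
      TI (rs (rotK β (U • (1 : Matrix V V ℝ)) w ν) 0) id *
      Real.exp (β * (γ / Fintype.card V) *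
        ((∑ x, ∑ y, TI (rs (rotK β (U • (1 : Matrix V V ℝ))
          (fun x y => w x y + γ / Fintype.card V) ν) 0) (sh 0 x y)) /
          TI (rs (rotK β (U • (1 : Matrix V V ℝ)) (fun x y => w x y + γ / Fintype.card V) ν) 0)
            id)) := by
  have hK : (U • (1 : Matrix V V ℝ)).PosDef := Matrix.PosDef.one.smul hU
  have hγ' : 0 ≤ γ / (Fintype.card V : ℝ) := by positivity
  set g := γ / (Fintype.card V : ℝ) with hg
  have hw' : ∀ x y, 0 ≤ w x y + g := fun x y => add_nonneg (hw x y) hγ'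
  have hne : Nonempty (Sec V 0) := ⟨⟨0, by simp⟩⟩
  have a0 := rs_adm (rotK_adm hβ.le (U • (1 : Matrix V V ℝ)) hw ν) 0
  have a1 := rs_adm (rotK_adm hβ.le (U • (1 : Matrix V V ℝ)) hw' ν) 0
  have b0 := rs_bdd (rotK_adm hβ.le (U • (1 : Matrix V V ℝ)) hw ν) (rotK_bdd' hβ hK hw ν) 0
  have b1 := rs_bdd (rotK_adm hβ.le (U • (1 : Matrix V V ℝ)) hw' ν) (rotK_bdd' hβ hK hw' ν) 0
  have hσ : ∀ p : V × V, Function.Injective (sh 0 p.1 p.2) := fun p => sh_inj 0 p.1 p.2
  have m0 := mf_gen (fun p : V × V => sh 0 p.1 p.2) hσ (β * g) a0 a1 b0 b1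
    (fun a b => rs_hop _ w ν 0 a b)
  have m1 := mf_gen (fun p : V × V => sh 0 p.1 p.2) hσ (-(β * g)) a1 a0 b1 b0
    (fun a b => by
      rw [rs_hop _ w ν 0 a b]
      unfold hop
      ring)
  simp only [Fintype.sum_prod_type] at m0 m1
  refine ⟨m0, ?_⟩
  rw [neg_mul, Real.exp_neg, ← div_eq_mul_inv, div_le_iff₀ (Real.exp_pos _)] at m1
  exact m1

theorem task_sector {β U γ : ℝ} (hβ : 0 < β) (hU : 0 < U) (hγ : 0 < γ) {w : V → V → ℝ}
    (hw : ∀ x y, 0 ≤ w x y) [Nonempty V] (ν : V → ℝ) (N : ℤ) :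
    ∑ x, ∑ y, TI (rs (rotK β (U • (1 : Matrix V V ℝ)) w ν) N) (sh N x y) ≤
      (1 - depl (AA β U (fun x y => w x y + γ / Fintype.card V)) + U / γ) *
        ((Fintype.card V : ℝ) ^ 2 * TI (rs (rotK β (U • (1 : Matrix V V ℝ)) w ν) N) id) := by
  obtain ⟨ν', c, hν', hc, hid, hsh⟩ := task_red hβ hU hw ν N
  simp only [hid, hsh, ← Finset.mul_sum]
  have hn : (0 : ℝ) < Fintype.card V := by exact_mod_cast Fintype.card_pos
  have hK : (U • (1 : Matrix V V ℝ)).PosDef := Matrix.PosDef.one.smul hU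
  have hγ' : 0 ≤ γ / (Fintype.card V : ℝ) := by positivity
  have hw' : ∀ x y, 0 ≤ w x y + γ / (Fintype.card V : ℝ) := fun x y => add_nonneg (hw x y) hγ'
  have hne : Nonempty (Sec V 0) := ⟨⟨0, by simp⟩⟩
  have p0 := TI_pos (rs_adm (rotK_adm hβ.le (U • (1 : Matrix V V ℝ)) hw ν') 0)
    (rs_bdd (rotK_adm hβ.le (U • (1 : Matrix V V ℝ)) hw ν') (rotK_bdd' hβ hK hw ν') 0)
  have h1 := (task_mf hβ hU hγ.le hw ν').1
  have h2 := task_ngd hβ hU hw' ν'
  have h3 := (task_mf hβ hU hγ.le hw (0 : V → ℝ)).2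
  have h4 := task_zlow hβ hU hw ν' hν'
  have h5 : (∑ x, ∑ y, TI (rs (rotK β (U • (1 : Matrix V V ℝ))
      (fun x y => w x y + γ / Fintype.card V) 0) 0) (sh 0 x y)) /
        TI (rs (rotK β (U • (1 : Matrix V V ℝ)) (fun x y => w x y + γ / Fintype.card V) 0) 0) id =
      (Fintype.card V : ℝ) ^ 2 *
        (1 - depl (AA β U (fun x y => w x y + γ / Fintype.card V))) := by
    unfold depl
    rw [WW_zero hβ hU hw']
    simp only [WW_eta hβ hU hw']
    have p1 := TI_pos (rs_adm (AA_adm (U := U) hβ hw') 0)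
      (rs_bdd (AA_adm (U := U) hβ hw') (AA_bdd hβ hU hw') 0)
    unfold AA at p1 ⊢
    generalize (∑ x, ∑ y, TI (rs (rotK β (U • (1 : Matrix V V ℝ))
      (fun x y => w x y + γ / Fintype.card V) 0) 0) (sh 0 x y)) = S'
    generalize TI (rs (rotK β (U • (1 : Matrix V V ℝ)) (fun x y => w x y + γ / Fintype.card V) 0) 0)
      id = Z' at p1 ⊢
    generalize (Fintype.card V : ℝ) = n at hn ⊢
    field_simp
    ring
  rw [h5] at h3
  generalize 1 - depl (AA β U (fun x y => w x y + γ / Fintype.card V)) = E at h3 ⊢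
  generalize (∑ x, ∑ y, TI (rs (rotK β (U • (1 : Matrix V V ℝ)) w ν') 0) (sh 0 x y)) = S at h1 ⊢
  generalize TI (rs (rotK β (U • (1 : Matrix V V ℝ)) w ν') 0) id = Z at h1 h2 h4 p0 ⊢
  generalize TI (rs (rotK β (U • (1 : Matrix V V ℝ)) w 0) 0) id = Z0 at h3 h4
  generalize TI (rs (rotK β (U • (1 : Matrix V V ℝ)) (fun x y => w x y + γ / Fintype.card V) ν') 0)
    id = Z1 at h1 h2
  generalize TI (rs (rotK β (U • (1 : Matrix V V ℝ)) (fun x y => w x y + γ / Fintype.card V) 0) 0)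
    id = Z2 at h2 h3
  generalize (Fintype.card V : ℝ) = n at *
  have h6 : Z0 ≤ Real.exp (β * U * n) * Z := by
    have := mul_le_mul_of_nonneg_left h4 (Real.exp_pos (β * U * n)).le
    rwa [← mul_assoc, ← Real.exp_add, add_neg_cancel, Real.exp_zero, one_mul] at this
  have h7 : Z * Real.exp (β * (γ / n) * (S / Z)) ≤
      Z * Real.exp (β * U * n + β * (γ / n) * (n ^ 2 * E)) := by
    refine h1.trans (h2.trans (h3.trans ?_))
    rw [Real.exp_add]
    calc Z0 * Real.exp (β * (γ / n) * (n ^ 2 * E)) ≤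
        (Real.exp (β * U * n) * Z) * Real.exp (β * (γ / n) * (n ^ 2 * E)) :=
          mul_le_mul_of_nonneg_right h6 (Real.exp_pos _).le
      _ = _ := by ring
  have h8 := Real.exp_le_exp.1 (le_of_mul_le_mul_left h7 p0)
  have h9 : S / Z ≤ (E + U / γ) * n ^ 2 := by
    have e1 : β * (γ / n) * ((E + U / γ) * n ^ 2) = β * U * n + β * (γ / n) * (n ^ 2 * E) := by
      field_simp
      ring
    rw [← e1] at h8
    exact le_of_mul_le_mul_left h8 (by positivity)
  have h10 : S ≤ (E + U / γ) * n ^ 2 * Z := (div_le_iff₀ p0).1 h9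
  calc c * S ≤ c * ((E + U / γ) * n ^ 2 * Z) := mul_le_mul_of_nonneg_left h10 hc.le
    _ = _ := by ring

end Pool.Agent.H993.LY.P21b
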