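import Mathlib
import Pool.Agent.H993.LY.Defs

/-!
# Mode sums of Bogoliubov's formula (LY tasks 5, 6, 7)
-/

namespace Pool.Agent.H993.LY.P5

open Filter Topology NormedSpace Matrix MeasureTheory

lemma xcoth_pos_eq {x : ℝ} (hx : 0 < x) : xcoth x = x * Real.cosh x / Real.sinh x := by
  rw [xcoth, if_neg hx.ne']

/-- `x ≤ sinh x cosh x`. -/
lemma self_le_sinh_mul_cosh {x : ℝ} (hx : 0 ≤ x) : x ≤ Real.sinh x * Real.cosh x := by
  have h1 : x ≤ Real.sinh x := Real.self_le_sinh_iff.2 hx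
  have h2 : 1 ≤ Real.cosh x := Real.one_le_cosh x
  nlinarith

lemma xcoth_mono_pos : MonotoneOn (fun x : ℝ => x * Real.cosh x / Real.sinh x) (Set.Ioi 0) := by
  apply monotoneOn_of_deriv_nonneg (convex_Ioi 0)
  · apply ContinuousOn.div
    · exact (continuous_id.mul Real.continuous_cosh).continuousOn
    · exact Real.continuous_sinh.continuousOn
    · intro x hx
      exact (Real.sinh_pos_iff.2 hx).ne'
  · rw [interior_Ioi]
    intro x hx
    have hs : Real.sinh x ≠ 0 := (Real.sinh_pos_iff.2 hx).ne'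
    exact (((hasDerivAt_id x).mul (Real.hasDerivAt_cosh x)).div
      (Real.hasDerivAt_sinh x) hs).differentiableAt.differentiableWithinAt
  · rw [interior_Ioi]
    intro x hx
    have hx0 : (0:ℝ) < x := hx
    have hs : 0 < Real.sinh x := Real.sinh_pos_iff.2 hx
    have hd := (((hasDerivAt_id x).mul (Real.hasDerivAt_cosh x)).div
      (Real.hasDerivAt_sinh x) hs.ne')
    have hd' : deriv (fun x : ℝ => x * Real.cosh x / Real.sinh x) x
        = ((1 * Real.cosh x + x * Real.sinh x) * Real.sinh x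
            - (x * Real.cosh x) * Real.cosh x) / Real.sinh x ^ 2 := hd.deriv
    rw [hd']
    apply div_nonneg _ (by positivity)
    have h1 := self_le_sinh_mul_cosh hx0.le
    have h2 := Real.cosh_sq x
    nlinarith

lemma xcoth_one_le {x : ℝ} (hx : 0 ≤ x) : 1 ≤ xcoth x := by
  rcases hx.eq_or_lt with h | h
  · rw [xcoth, if_pos h.symm]
  · rw [xcoth_pos_eq h, le_div_iff₀ (Real.sinh_pos_iff.2 h), one_mul]
    -- sinh x ≤ x cosh x
    have key : MonotoneOn (fun x : ℝ => x * Real.cosh x - Real.sinh x) (Set.Ici 0) := by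
      apply monotoneOn_of_deriv_nonneg (convex_Ici 0)
      · exact ((continuous_id.mul Real.continuous_cosh).sub Real.continuous_sinh).continuousOn
      · intro y _
        exact (((hasDerivAt_id y).mul (Real.hasDerivAt_cosh y)).sub
          (Real.hasDerivAt_sinh y)).differentiableAt.differentiableWithinAt
      · rw [interior_Ici]
        intro y hy
        have hd := (((hasDerivAt_id y).mul (Real.hasDerivAt_cosh y)).sub
          (Real.hasDerivAt_sinh y))
        have hd' : deriv (fun x : ℝ => x * Real.cosh x - Real.sinh x) y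
          = (1 * Real.cosh y + y * Real.sinh y) - Real.cosh y := hd.deriv
        rw [hd']
        have hy0 : (0:ℝ) < y := hy
        have := Real.sinh_pos_iff.2 hy0
        nlinarith [mul_pos hy0 this]
    have h3 := key (Set.mem_Ici.2 le_rfl) (Set.mem_Ici.2 h.le) h.le
    simp at h3
    exact h3

lemma le_xcoth {x : ℝ} (hx : 0 ≤ x) : x ≤ xcoth x := by
  rcases hx.eq_or_lt with h | h
  · rw [xcoth, if_pos h.symm, ← h]; norm_num
  · rw [xcoth_pos_eq h, le_div_iff₀ (Real.sinh_pos_iff.2 h)]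
    exact mul_le_mul_of_nonneg_left (Real.sinh_lt_cosh x).le h.le

lemma xcoth_le {x : ℝ} (hx : 0 ≤ x) : xcoth x ≤ 1 + x := by
  rcases hx.eq_or_lt with h | h
  · rw [xcoth, if_pos h.symm, ← h]; norm_num
  · rw [xcoth_pos_eq h, div_le_iff₀ (Real.sinh_pos_iff.2 h)]
    rw [Real.cosh_eq, Real.sinh_eq]
    have h1 : 2 * x + 1 ≤ Real.exp (2 * x) := Real.add_one_le_exp _
    have h2 : Real.exp (2 * x) = Real.exp x * Real.exp x := by
      rw [← Real.exp_add]; ring_nf
    have h3 : Real.exp x * Real.exp (-x) = 1 := by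
      rw [← Real.exp_add]; simp
    have h4 : 0 < Real.exp (-x) := Real.exp_pos _
    have h5 : (2 * x + 1) * Real.exp (-x) ≤ Real.exp x := by
      calc (2 * x + 1) * Real.exp (-x) ≤ Real.exp (2 * x) * Real.exp (-x) :=
            mul_le_mul_of_nonneg_right h1 h4.le
        _ = Real.exp x := by rw [h2, mul_assoc, h3, mul_one]
    nlinarith

lemma xcoth_mono {x y : ℝ} (hx : 0 ≤ x) (hxy : x ≤ y) : xcoth x ≤ xcoth y := by
  rcases hx.eq_or_lt with h | h
  · have : xcoth x = 1 := by rw [xcoth, if_pos h.symm]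
    rw [this]
    exact xcoth_one_le (hx.trans hxy)
  · rw [xcoth_pos_eq h, xcoth_pos_eq (h.trans_le hxy)]
    exact xcoth_mono_pos h (Set.mem_Ioi.2 (h.trans_le hxy)) hxy

/-- the coefficient of the ground state part -/
lemma arg_div (U J β l : ℝ) (hU : 0 < U) (hJ : 0 < J) (hβ : 0 < β) (hl : 0 < l) :
    (β * Real.sqrt (2 * U * J * l) / 2) / (β * J * l)
      = Real.sqrt 2 / 2 * (Real.sqrt (U / J) / Real.sqrt l) := by
  have e1 : 2 * U * J * l = (2 * (U / J)) * (J ^ 2 * l) := by field_simp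
  have e2 : Real.sqrt (2 * U * J * l) = Real.sqrt 2 * Real.sqrt (U / J) * (J * Real.sqrt l) := by
    rw [e1, Real.sqrt_mul (by positivity), Real.sqrt_mul (by positivity),
      Real.sqrt_mul (by positivity), Real.sqrt_sq hJ.le]
  rw [e2]
  have h3 : 0 < Real.sqrt l := Real.sqrt_pos.2 hl
  have h4 : Real.sqrt l * Real.sqrt l = l := Real.mul_self_sqrt hl.le
  rw [div_div, div_mul_div_comm, div_eq_div_iff (by positivity) (by positivity)]
  have : β * (Real.sqrt 2 * Real.sqrt (U / J) * (J * Real.sqrt l)) * (2 * Real.sqrt l)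
    = β * (Real.sqrt 2 * Real.sqrt (U / J) * J * 2) * (Real.sqrt l * Real.sqrt l) := by ring
  rw [this, h4]
  ring

lemma arg_nonneg (U J β l : ℝ) (hβ : 0 < β) :
    0 ≤ β * Real.sqrt (2 * U * J * l) / 2 := by positivity

theorem task_sB_up (U J β l : ℝ) (hU : 0 < U) (hJ : 0 < J) (hβ : 0 < β) (hl : 0 < l) :
    sB U J β l ≤ Real.sqrt (U / J) / Real.sqrt l + 1 / (β * J * l) := by
  have h1 := xcoth_le (arg_nonneg U J β l hβ)
  have hp : 0 < β * J * l := by positivity
  have h2 : sB U J β l ≤ (1 + β * Real.sqrt (2 * U * J * l) / 2) / (β * J * l) :=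
    div_le_div_of_nonneg_right h1 hp.le
  rw [add_div, arg_div U J β l hU hJ hβ hl] at h2
  have h3 : Real.sqrt 2 / 2 ≤ 1 := by
    have : Real.sqrt 2 ≤ 2 := by
      rw [Real.sqrt_le_left (by norm_num)]; norm_num
    linarith
  have h4 : 0 ≤ Real.sqrt (U / J) / Real.sqrt l := by positivity
  have h5 : Real.sqrt 2 / 2 * (Real.sqrt (U / J) / Real.sqrt l)
    ≤ 1 * (Real.sqrt (U / J) / Real.sqrt l) := mul_le_mul_of_nonneg_right h3 h4
  linarith

lemma sB_ge_half (U J β l : ℝ) (hU : 0 < U) (hJ : 0 < J) (hβ : 0 < β) (hl : 0 < l) :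
    1 / 4 * (Real.sqrt (U / J) / Real.sqrt l + 1 / (β * J * l)) ≤ sB U J β l := by
  have hp : 0 < β * J * l := by positivity
  have h1 : 1 / (β * J * l) ≤ sB U J β l :=
    div_le_div_of_nonneg_right (xcoth_one_le (arg_nonneg U J β l hβ)) hp.le
  have h2 : (β * Real.sqrt (2 * U * J * l) / 2) / (β * J * l) ≤ sB U J β l :=
    div_le_div_of_nonneg_right (le_xcoth (arg_nonneg U J β l hβ)) hp.le
  rw [arg_div U J β l hU hJ hβ hl] at h2
  have h3 : 1 / 2 ≤ Real.sqrt 2 / 2 := by
    have : 1 ≤ Real.sqrt 2 := by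
      rw [Real.le_sqrt' (by norm_num)]; norm_num
    linarith
  have h4 : 0 ≤ Real.sqrt (U / J) / Real.sqrt l := by positivity
  have h5 : 1 / 2 * (Real.sqrt (U / J) / Real.sqrt l)
    ≤ Real.sqrt 2 / 2 * (Real.sqrt (U / J) / Real.sqrt l) := mul_le_mul_of_nonneg_right h3 h4
  have h6 : 0 ≤ 1 / (β * J * l) := by positivity
  linarith

lemma sB_nonneg (U J β l : ℝ) (hU : 0 < U) (hJ : 0 < J) (hβ : 0 < β) (hl : 0 < l) :
    0 ≤ sB U J β l := by
  refine le_trans ?_ (sB_ge_half U J β l hU hJ hβ hl)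
  positivity

theorem task_sB_low (D₀ : ℝ) (hD : 0 < D₀) : ∃ c : ℝ, 0 < c ∧ ∀ (U J β l : ℝ), 0 < U → 0 < J →
    0 < β → 0 < l → l ≤ D₀ → c * (Real.sqrt (U / J) + 1 / (β * J)) ≤ sB U J β l := by
  refine ⟨1 / 4 * min (1 / Real.sqrt D₀) (1 / D₀), by positivity, ?_⟩
  intro U J β l hU hJ hβ hl hlD
  refine le_trans ?_ (sB_ge_half U J β l hU hJ hβ hl)
  set c := min (1 / Real.sqrt D₀) (1 / D₀) with hc
  have hsl : 0 < Real.sqrt l := Real.sqrt_pos.2 hl
  have h1 : c ≤ 1 / Real.sqrt l := (min_le_left _ _).trans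
    (one_div_le_one_div_of_le hsl (Real.sqrt_le_sqrt hlD))
  have h2 : c ≤ 1 / l := (min_le_right _ _).trans (one_div_le_one_div_of_le hl hlD)
  have h3 : c * Real.sqrt (U / J) ≤ Real.sqrt (U / J) / Real.sqrt l := by
    calc c * Real.sqrt (U / J) ≤ 1 / Real.sqrt l * Real.sqrt (U / J) :=
          mul_le_mul_of_nonneg_right h1 (Real.sqrt_nonneg _)
      _ = _ := by ring
  have h4 : c * (1 / (β * J)) ≤ 1 / (β * J * l) := by
    calc c * (1 / (β * J)) ≤ 1 / l * (1 / (β * J)) :=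
          mul_le_mul_of_nonneg_right h2 (by positivity)
      _ = _ := by field_simp
  nlinarith

theorem task_sB_J (U J J' β l : ℝ) (hU : 0 < U) (hJ : 0 < J) (hJ' : 0 < J') (hle : J' ≤ J)
    (hβ : 0 < β) (hl : 0 < l) : sB U J' β l ≤ J / J' * sB U J β l := by
  have h1 : xcoth (β * Real.sqrt (2 * U * J' * l) / 2) ≤ xcoth (β * Real.sqrt (2 * U * J * l) / 2) := by
    apply xcoth_mono (arg_nonneg U J' β l hβ)
    have : Real.sqrt (2 * U * J' * l) ≤ Real.sqrt (2 * U * J * l) := by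
      apply Real.sqrt_le_sqrt
      have : 2 * U * J' ≤ 2 * U * J := by nlinarith
      exact mul_le_mul_of_nonneg_right this hl.le
    have := mul_le_mul_of_nonneg_left this hβ.le
    linarith
  have h2 : sB U J' β l ≤ xcoth (β * Real.sqrt (2 * U * J * l) / 2) / (β * J' * l) :=
    div_le_div_of_nonneg_right h1 (by positivity)
  refine h2.trans (le_of_eq ?_)
  rw [sB]
  field_simp

/-- `l * sB l` is increasing in `l`. -/
lemma sB_shift (U J β l g : ℝ) (hU : 0 < U) (hJ : 0 < J) (hβ : 0 < β) (hl : 0 < l) (hg : 0 ≤ g) :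
    l / (l + g) * sB U J β l ≤ sB U J β (l + g) := by
  have h1 : xcoth (β * Real.sqrt (2 * U * J * l) / 2)
      ≤ xcoth (β * Real.sqrt (2 * U * J * (l + g)) / 2) := by
    apply xcoth_mono (arg_nonneg U J β l hβ)
    have : Real.sqrt (2 * U * J * l) ≤ Real.sqrt (2 * U * J * (l + g)) := by
      apply Real.sqrt_le_sqrt
      have : 0 < 2 * U * J := by positivity
      nlinarith
    have := mul_le_mul_of_nonneg_left this hβ.le
    linarith
  have hlg : 0 < l + g := by linarith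
  have h2 : xcoth (β * Real.sqrt (2 * U * J * l) / 2) / (β * J * (l + g)) ≤ sB U J β (l + g) :=
    div_le_div_of_nonneg_right h1 (by positivity)
  refine le_trans (le_of_eq ?_) h2
  rw [sB]
  field_simp

lemma rpow_small {l r : ℝ} (hl : 0 < l) (hlr : l ≤ r) (hr : r ≤ 1) :
    1 / l ≤ r ^ (1 / 4 : ℝ) * l ^ (-(5 / 4) : ℝ) ∧
    1 / Real.sqrt l ≤ r ^ (1 / 4 : ℝ) * l ^ (-(5 / 4) : ℝ) := by
  have h1 : 1 / l = l ^ (1 / 4 : ℝ) * l ^ (-(5 / 4) : ℝ) := by
    rw [← Real.rpow_add hl]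
    norm_num
    rw [Real.rpow_neg_one]
  have h2 : l ^ (1 / 4 : ℝ) ≤ r ^ (1 / 4 : ℝ) :=
    Real.rpow_le_rpow hl.le hlr (by norm_num)
  have h3 : 1 / l ≤ r ^ (1 / 4 : ℝ) * l ^ (-(5 / 4) : ℝ) := by
    rw [h1]
    exact mul_le_mul_of_nonneg_right h2 (Real.rpow_nonneg hl.le _)
  refine ⟨h3, le_trans ?_ h3⟩
  apply one_div_le_one_div_of_le hl
  have hl1 : l ≤ 1 := hlr.trans hr
  rw [Real.le_sqrt' hl]
  nlinarith

open Classical in
/-- Sum over the small modes. -/
lemma small_sum {ι : Type} [Fintype ι] (C₀ N r A B : ℝ) (l : ι → ℝ)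
    (hr0 : 0 < r) (hr : r ≤ 1) (hA : 0 ≤ A) (hB : 0 ≤ B) (hl : ∀ i, 0 < l i)
    (hs : ∑ i, l i ^ (-(5 / 4) : ℝ) ≤ C₀ * N) :
    ∑ i ∈ Finset.univ.filter (fun i => l i < r), (A / Real.sqrt (l i) + B / l i)
      ≤ (A + B) * r ^ (1 / 4 : ℝ) * (C₀ * N) := by
  have hr4 : 0 ≤ r ^ (1 / 4 : ℝ) := Real.rpow_nonneg hr0.le _
  calc ∑ i ∈ Finset.univ.filter (fun i => l i < r), (A / Real.sqrt (l i) + B / l i)
      ≤ ∑ i ∈ Finset.univ.filter (fun i => l i < r),
          ((A + B) * r ^ (1 / 4 : ℝ)) * l i ^ (-(5 / 4) : ℝ) := by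
        apply Finset.sum_le_sum
        intro i hi
        have hi' := (Finset.mem_filter.1 hi).2
        obtain ⟨h1, h2⟩ := rpow_small (hl i) hi'.le hr
        have h3 : A / Real.sqrt (l i) ≤ A * (r ^ (1 / 4 : ℝ) * l i ^ (-(5 / 4) : ℝ)) := by
          rw [div_eq_mul_one_div]
          exact mul_le_mul_of_nonneg_left h2 hA
        have h4 : B / l i ≤ B * (r ^ (1 / 4 : ℝ) * l i ^ (-(5 / 4) : ℝ)) := by
          rw [div_eq_mul_one_div]
          exact mul_le_mul_of_nonneg_left h1 hB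
        linarith
    _ = ((A + B) * r ^ (1 / 4 : ℝ)) * ∑ i ∈ Finset.univ.filter (fun i => l i < r),
          l i ^ (-(5 / 4) : ℝ) := by rw [Finset.mul_sum]
    _ ≤ ((A + B) * r ^ (1 / 4 : ℝ)) * ∑ i, l i ^ (-(5 / 4) : ℝ) := by
        apply mul_le_mul_of_nonneg_left _ (by positivity)
        apply Finset.sum_le_sum_of_subset_of_nonneg (Finset.filter_subset _ _)
        intro i _ _
        exact Real.rpow_nonneg (hl i).le _
    _ ≤ _ := mul_le_mul_of_nonneg_left hs (by positivity)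

/-- Lower bound of the whole sum. -/
lemma sum_lower {ι : Type} [Fintype ι] (D₀ c N U J β : ℝ) (l : ι → ℝ) (hc : 0 < c)
    (hlow : ∀ (U J β l : ℝ), 0 < U → 0 < J →
      0 < β → 0 < l → l ≤ D₀ → c * (Real.sqrt (U / J) + 1 / (β * J)) ≤ sB U J β l)
    (hU : 0 < U) (hJ : 0 < J) (hβ : 0 < β) (hl : ∀ i, 0 < l i) (hlD : ∀ i, l i ≤ D₀)
    (hN : N / 2 ≤ Fintype.card ι) :
    (Real.sqrt (U / J) + 1 / (β * J)) * N ≤ 2 / c * ∑ i, sB U J β (l i) := by
  set a := Real.sqrt (U / J) + 1 / (β * J) with ha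
  have ha0 : 0 < a := by positivity
  have h1 : (Fintype.card ι : ℝ) * (c * a) ≤ ∑ i, sB U J β (l i) := by
    calc (Fintype.card ι : ℝ) * (c * a) = ∑ _i : ι, c * a := by
          rw [Finset.sum_const, Finset.card_univ, nsmul_eq_mul]
      _ ≤ _ := Finset.sum_le_sum fun i _ => hlow U J β (l i) hU hJ hβ (hl i) (hlD i)
  have h2 : N / 2 * (c * a) ≤ ∑ i, sB U J β (l i) :=
    (mul_le_mul_of_nonneg_right hN (by positivity)).trans h1
  have h3 : 2 / c * (N / 2 * (c * a)) ≤ 2 / c * ∑ i, sB U J β (l i) :=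
    mul_le_mul_of_nonneg_left h2 (by positivity)
  refine le_trans (le_of_eq ?_) h3
  field_simp

/-- choose a small radius -/
lemma exists_small (κ : ℝ) (hκ : 0 < κ) : ∃ r : ℝ, 0 < r ∧ r ≤ 1 ∧ r ^ (1 / 4 : ℝ) ≤ κ := by
  refine ⟨min 1 (κ ^ (4 : ℝ)), by positivity, min_le_left _ _, ?_⟩
  have h1 : (min 1 (κ ^ (4 : ℝ))) ^ (1 / 4 : ℝ) ≤ (κ ^ (4 : ℝ)) ^ (1 / 4 : ℝ) :=
    Real.rpow_le_rpow (by positivity) (min_le_right _ _) (by norm_num)
  refine h1.trans (le_of_eq ?_)
  rw [← Real.rpow_mul hκ.le]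
  norm_num

theorem task_asm1 (C₀ D₀ ε : ℝ) (hC : 0 < C₀) (hD : 0 < D₀) (hε : 0 < ε) :
    ∃ δ : ℝ, 0 < δ ∧ ∀ (ι : Type) [Fintype ι] (N U J β θ E : ℝ) (l S : ι → ℝ), 0 < N → 0 < U →
      0 < J → 0 < β → (∀ i, 0 < l i) → (∀ i, l i ≤ D₀) → N / 2 ≤ Fintype.card ι →
      (Fintype.card ι : ℝ) ≤ N → ∑ i, l i ^ (-(5 / 4) : ℝ) ≤ C₀ * N → 0 ≤ θ → 1 - δ ≤ θ →
      E ≤ δ * (Real.sqrt (U / J) + 1 / (β * J)) * N →
      (∀ i, θ * sB U J β (l i) ≤ S i) →
      (∀ i, S i ≤ 8 / (β * J * l i) + 2 * Real.sqrt (U / J) / Real.sqrt (l i)) →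
      ∑ i, l i * S i ≤ ∑ i, l i * sB U J β (l i) + E →
      ∑ i, S i ≤ (1 + ε) * ∑ i, sB U J β (l i) := by
  classical
  obtain ⟨c, hc, hlow⟩ := task_sB_low D₀ hD
  obtain ⟨r, hr0, hr1, hr4⟩ := exists_small (c * ε / (32 * C₀)) (by positivity)
  refine ⟨r * (c * ε) / (4 * (Real.sqrt D₀ + 2)), by positivity, ?_⟩
  set δ := r * (c * ε) / (4 * (Real.sqrt D₀ + 2)) with hδ
  have hδ0 : 0 < δ := by positivity
  intro ι _ N U J β θ E l S hN hU hJ hβ hl hlD hN1 hN2 hsum hθ0 hθ hE hS1 hS2 hS3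
  set a := Real.sqrt (U / J) + 1 / (β * J) with ha
  have ha0 : 0 < a := by positivity
  have hfull := sum_lower D₀ c N U J β l hc hlow hU hJ hβ hl hlD hN1
  rw [← ha] at hfull
  have hB0 : ∀ i, 0 ≤ sB U J β (l i) := fun i => sB_nonneg U J β (l i) hU hJ hβ (hl i)
  set T := ∑ i, sB U J β (l i) with hT
  have hT0 : 0 ≤ T := Finset.sum_nonneg fun i _ => hB0 i
  -- replace theta by min theta 1
  set t := min θ 1 with ht
  have ht0 : 0 ≤ t := le_min hθ0 zero_le_one
  have ht1 : t ≤ 1 := min_le_right _ _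
  have ht2 : 1 - δ ≤ t := le_min hθ (by linarith)
  have hS1' : ∀ i, t * sB U J β (l i) ≤ S i := fun i =>
    (mul_le_mul_of_nonneg_right (min_le_left _ _) (hB0 i)).trans (hS1 i)
  -- the sum of l * sB
  have hlB : ∑ i, l i * sB U J β (l i) ≤ (Real.sqrt D₀ + 1) * a * N := by
    calc ∑ i, l i * sB U J β (l i) ≤ ∑ _i : ι, (Real.sqrt D₀ + 1) * a := by
          apply Finset.sum_le_sum
          intro i _
          have h1 := task_sB_up U J β (l i) hU hJ hβ (hl i)
          have h2 : l i * sB U J β (l i)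
              ≤ l i * (Real.sqrt (U / J) / Real.sqrt (l i) + 1 / (β * J * l i)) :=
            mul_le_mul_of_nonneg_left h1 (hl i).le
          have hsl : 0 < Real.sqrt (l i) := Real.sqrt_pos.2 (hl i)
          have h3 : l i * (Real.sqrt (U / J) / Real.sqrt (l i) + 1 / (β * J * l i))
              = Real.sqrt (U / J) * Real.sqrt (l i) + 1 / (β * J) := by
            have h5 : l i / Real.sqrt (l i) = Real.sqrt (l i) := Real.div_sqrt
            have h6 : l i ≠ 0 := (hl i).ne'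
            calc l i * (Real.sqrt (U / J) / Real.sqrt (l i) + 1 / (β * J * l i))
                = Real.sqrt (U / J) * (l i / Real.sqrt (l i)) + l i * (1 / (β * J * l i)) := by
                  ring
              _ = _ := by
                  rw [h5]
                  congr 1
                  field_simp
          rw [h3] at h2
          have h4 : Real.sqrt (l i) ≤ Real.sqrt D₀ := Real.sqrt_le_sqrt (hlD i)
          have h5 : Real.sqrt (U / J) * Real.sqrt (l i) ≤ Real.sqrt (U / J) * Real.sqrt D₀ :=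
            mul_le_mul_of_nonneg_left h4 (Real.sqrt_nonneg _)
          have h6 : 0 ≤ Real.sqrt (U / J) := Real.sqrt_nonneg _
          have h7 : 0 ≤ 1 / (β * J) := by positivity
          have h8 : 0 ≤ Real.sqrt D₀ := Real.sqrt_nonneg _
          have h9 := mul_nonneg h8 h7
          rw [ha]
          nlinarith
      _ = (Fintype.card ι : ℝ) * ((Real.sqrt D₀ + 1) * a) := by
          rw [Finset.sum_const, Finset.card_univ, nsmul_eq_mul]
      _ ≤ N * ((Real.sqrt D₀ + 1) * a) := mul_le_mul_of_nonneg_right hN2 (by positivity)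
      _ = _ := by ring
  -- large modes
  have hlarge : ∑ i ∈ Finset.univ.filter (fun i => ¬ l i < r), (S i - t * sB U J β (l i))
      ≤ c * ε / 4 * (a * N) := by
    have h1 : r * ∑ i ∈ Finset.univ.filter (fun i => ¬ l i < r), (S i - t * sB U J β (l i))
        ≤ ∑ i, l i * (S i - t * sB U J β (l i)) := by
      rw [Finset.mul_sum]
      calc ∑ i ∈ Finset.univ.filter (fun i => ¬ l i < r), r * (S i - t * sB U J β (l i))
          ≤ ∑ i ∈ Finset.univ.filter (fun i => ¬ l i < r), l i * (S i - t * sB U J β (l i)) := by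
            apply Finset.sum_le_sum
            intro i hi
            have hi' := not_lt.1 (Finset.mem_filter.1 hi).2
            exact mul_le_mul_of_nonneg_right hi' (sub_nonneg.2 (hS1' i))
        _ ≤ _ := by
            apply Finset.sum_le_sum_of_subset_of_nonneg (Finset.filter_subset _ _)
            intro i _ _
            exact mul_nonneg (hl i).le (sub_nonneg.2 (hS1' i))
    have h2 : ∑ i, l i * (S i - t * sB U J β (l i))
        = ∑ i, l i * S i - t * ∑ i, l i * sB U J β (l i) := by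
      rw [Finset.mul_sum, ← Finset.sum_sub_distrib]
      apply Finset.sum_congr rfl
      intro i _
      ring
    have hX0 : 0 ≤ ∑ i, l i * sB U J β (l i) :=
      Finset.sum_nonneg fun i _ => mul_nonneg (hl i).le (hB0 i)
    have h3 : ∑ i, l i * (S i - t * sB U J β (l i)) ≤ δ * (Real.sqrt D₀ + 2) * (a * N) := by
      rw [h2]
      have h4 : (1 - t) * ∑ i, l i * sB U J β (l i) ≤ δ * ∑ i, l i * sB U J β (l i) :=
        mul_le_mul_of_nonneg_right (by linarith) hX0
      have h5 : δ * ∑ i, l i * sB U J β (l i) ≤ δ * ((Real.sqrt D₀ + 1) * a * N) :=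
        mul_le_mul_of_nonneg_left hlB hδ0.le
      nlinarith
    have h6 : r * ∑ i ∈ Finset.univ.filter (fun i => ¬ l i < r), (S i - t * sB U J β (l i))
        ≤ r * (c * ε / 4 * (a * N)) := by
      refine (h1.trans h3).trans (le_of_eq ?_)
      rw [hδ]
      have : Real.sqrt D₀ + 2 ≠ 0 := by positivity
      field_simp
    exact le_of_mul_le_mul_left h6 hr0
  -- small modes
  have hsmall : ∑ i ∈ Finset.univ.filter (fun i => l i < r), S i ≤ c * ε / 4 * (a * N) := by
    have h1 := small_sum C₀ N r (2 * Real.sqrt (U / J)) (8 / (β * J)) l hr0 hr1 (by positivity)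
      (by positivity) hl hsum
    have h2 : ∑ i ∈ Finset.univ.filter (fun i => l i < r), S i
        ≤ ∑ i ∈ Finset.univ.filter (fun i => l i < r),
          (2 * Real.sqrt (U / J) / Real.sqrt (l i) + 8 / (β * J) / l i) := by
      apply Finset.sum_le_sum
      intro i _
      have := hS2 i
      rw [div_div]
      linarith
    refine (h2.trans h1).trans ?_
    have h3 : 2 * Real.sqrt (U / J) + 8 / (β * J) ≤ 8 * a := by
      have : 0 ≤ Real.sqrt (U / J) := Real.sqrt_nonneg _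
      rw [ha, mul_add, ← mul_div_assoc, mul_one]
      linarith
    calc (2 * Real.sqrt (U / J) + 8 / (β * J)) * r ^ (1 / 4 : ℝ) * (C₀ * N)
        ≤ (8 * a) * (c * ε / (32 * C₀)) * (C₀ * N) := by
          apply mul_le_mul_of_nonneg_right _ (by positivity)
          exact mul_le_mul h3 hr4 (Real.rpow_nonneg hr0.le _) (by positivity)
      _ = _ := by field_simp; norm_num
  -- total
  have hsplit : ∑ i, S i = ∑ i ∈ Finset.univ.filter (fun i => l i < r), S i
      + ∑ i ∈ Finset.univ.filter (fun i => ¬ l i < r), S i :=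
    (Finset.sum_filter_add_sum_filter_not _ _ _).symm
  have hlarge2 : ∑ i ∈ Finset.univ.filter (fun i => ¬ l i < r), S i
      ≤ T + c * ε / 4 * (a * N) := by
    have h1 : ∑ i ∈ Finset.univ.filter (fun i => ¬ l i < r), (S i - t * sB U J β (l i))
        = ∑ i ∈ Finset.univ.filter (fun i => ¬ l i < r), S i
          - t * ∑ i ∈ Finset.univ.filter (fun i => ¬ l i < r), sB U J β (l i) := by
      rw [Finset.mul_sum, ← Finset.sum_sub_distrib]
    rw [h1] at hlarge
    have h2 : ∑ i ∈ Finset.univ.filter (fun i => ¬ l i < r), sB U J β (l i) ≤ T := by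
      apply Finset.sum_le_sum_of_subset_of_nonneg (Finset.filter_subset _ _)
      intro i _ _
      exact hB0 i
    have h3 : 0 ≤ ∑ i ∈ Finset.univ.filter (fun i => ¬ l i < r), sB U J β (l i) :=
      Finset.sum_nonneg fun i _ => hB0 i
    nlinarith
  have hfinal : c * ε / 2 * (a * N) ≤ ε * T := by
    calc c * ε / 2 * (a * N) ≤ c * ε / 2 * (2 / c * T) :=
          mul_le_mul_of_nonneg_left hfull (by positivity)
      _ = ε * T := by field_simp
  rw [hsplit]
  linarith

theorem task_asm2 (C₀ D₀ ε : ℝ) (hC : 0 < C₀) (hD : 0 < D₀) (hε : 0 < ε) :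
    ∃ g : ℝ, 0 < g ∧ ∀ (ι : Type) [Fintype ι] (N U J β : ℝ) (l : ι → ℝ), 0 < N → 0 < U →
      0 < J → 0 < β → (∀ i, 0 < l i) → (∀ i, l i ≤ D₀) → N / 2 ≤ Fintype.card ι →
      (Fintype.card ι : ℝ) ≤ N → ∑ i, l i ^ (-(5 / 4) : ℝ) ≤ C₀ * N →
      (1 - ε) * ∑ i, sB U J β (l i) ≤ ∑ i, sB U J β (l i + g) := by
  classical
  obtain ⟨c, hc, hlow⟩ := task_sB_low D₀ hD
  obtain ⟨r, hr0, hr1, hr4⟩ := exists_small (c * ε / (4 * C₀)) (by positivity)
  refine ⟨r * (ε / 2), by positivity, ?_⟩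
  set g := r * (ε / 2) with hg
  have hg0 : 0 < g := by positivity
  intro ι _ N U J β l hN hU hJ hβ hl hlD hN1 hN2 hsum
  set a := Real.sqrt (U / J) + 1 / (β * J) with ha
  have ha0 : 0 < a := by positivity
  have hfull := sum_lower D₀ c N U J β l hc hlow hU hJ hβ hl hlD hN1
  rw [← ha] at hfull
  have hB0 : ∀ i, 0 ≤ sB U J β (l i) := fun i => sB_nonneg U J β (l i) hU hJ hβ (hl i)
  set T := ∑ i, sB U J β (l i) with hT
  have hT0 : 0 ≤ T := Finset.sum_nonneg fun i _ => hB0 i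
  have hBg0 : ∀ i, 0 ≤ sB U J β (l i + g) := fun i =>
    sB_nonneg U J β (l i + g) hU hJ hβ (by linarith [hl i])
  by_cases hε1 : 1 ≤ ε
  · have h1 : (1 - ε) * T ≤ 0 := mul_nonpos_of_nonpos_of_nonneg (by linarith) hT0
    exact h1.trans (Finset.sum_nonneg fun i _ => hBg0 i)
  push Not at hε1
  have hsmall : ∑ i ∈ Finset.univ.filter (fun i => l i < r), sB U J β (l i) ≤ ε / 2 * T := by
    have h1 := small_sum C₀ N r (Real.sqrt (U / J)) (1 / (β * J)) l hr0 hr1 (by positivity)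
      (by positivity) hl hsum
    have h2 : ∑ i ∈ Finset.univ.filter (fun i => l i < r), sB U J β (l i)
        ≤ ∑ i ∈ Finset.univ.filter (fun i => l i < r),
          (Real.sqrt (U / J) / Real.sqrt (l i) + 1 / (β * J) / l i) := by
      apply Finset.sum_le_sum
      intro i _
      have := task_sB_up U J β (l i) hU hJ hβ (hl i)
      rw [div_div]
      linarith
    refine (h2.trans h1).trans ?_
    rw [← ha]
    calc a * r ^ (1 / 4 : ℝ) * (C₀ * N) ≤ a * (c * ε / (4 * C₀)) * (C₀ * N) := by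
          apply mul_le_mul_of_nonneg_right _ (by positivity)
          exact mul_le_mul_of_nonneg_left hr4 ha0.le
      _ = c * ε / 4 * (a * N) := by field_simp
      _ ≤ c * ε / 4 * (2 / c * T) := mul_le_mul_of_nonneg_left hfull (by positivity)
      _ = ε / 2 * T := by field_simp; norm_num
  have hsplit : T = ∑ i ∈ Finset.univ.filter (fun i => l i < r), sB U J β (l i)
      + ∑ i ∈ Finset.univ.filter (fun i => ¬ l i < r), sB U J β (l i) :=
    (Finset.sum_filter_add_sum_filter_not _ _ _).symm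
  have hlarge : (1 - ε / 2) * ∑ i ∈ Finset.univ.filter (fun i => ¬ l i < r), sB U J β (l i)
      ≤ ∑ i, sB U J β (l i + g) := by
    rw [Finset.mul_sum]
    calc ∑ i ∈ Finset.univ.filter (fun i => ¬ l i < r), (1 - ε / 2) * sB U J β (l i)
        ≤ ∑ i ∈ Finset.univ.filter (fun i => ¬ l i < r), sB U J β (l i + g) := by
          apply Finset.sum_le_sum
          intro i hi
          have hi' := not_lt.1 (Finset.mem_filter.1 hi).2
          refine le_trans ?_ (sB_shift U J β (l i) g hU hJ hβ (hl i) hg0.le)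
          apply mul_le_mul_of_nonneg_right _ (hB0 i)
          have hlg : 0 < l i + g := by linarith [hl i]
          rw [le_div_iff₀ hlg]
          have : g ≤ l i * (ε / 2) := by
            rw [hg]
            exact mul_le_mul_of_nonneg_right hi' (by positivity)
          nlinarith
      _ ≤ _ := by
          apply Finset.sum_le_sum_of_subset_of_nonneg (Finset.filter_subset _ _)
          intro i _ _
          exact hBg0 i
  refine le_trans ?_ hlarge
  have h1 : (1 - ε / 2) * T ≤ ∑ i ∈ Finset.univ.filter (fun i => ¬ l i < r), sB U J β (l i) := by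
    linarith
  have h2 : (1 - ε / 2) * ((1 - ε / 2) * T)
      ≤ (1 - ε / 2) * ∑ i ∈ Finset.univ.filter (fun i => ¬ l i < r), sB U J β (l i) :=
    mul_le_mul_of_nonneg_left h1 (by linarith)
  refine le_trans ?_ h2
  nlinarith [mul_nonneg (sq_nonneg ε) hT0]

end Pool.Agent.H993.LY.P5
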