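import Mathlib
import Pool.Agent.H993.LY.Base2
import Pool.Agent.H993.LY.P15b
import Pool.Agent.H993.LY.P16
import Pool.Agent.H993.LY.P17
import Pool.Agent.H993.LY.P19
import Pool.Agent.H993.LY.P20
import Pool.Agent.H993.LY.P21b
import Pool.Agent.H993.LY.P4
import Pool.Agent.H993.LY.P5

/-!
# Assembly of Bogoliubov's law
-/

namespace Pool.Agent.H993.LY

open Filter Topology NormedSpace Matrix MeasureTheory
open Pool.Agent.H993.TR
open Pool.Agent.N157.QR_FOU (BB lam_pos)
open Pool.Agent.N657.QR (ee nnw lam)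
open P4 (task_lat)
open P5 (task_sB_low task_sB_J task_asm1 task_asm2)
open P15b (task_pig)
open P16 (task_modes)
open P17 (task_mode)
open P19 (task_vird)
open P20 (task_depl_mono task_crude task_ir task_cmp)
open P21b (task_sector)

section

variable {d L : ℕ} [NeZero L]

theorem lam_le (k : Fin d → ZMod L) : lam k ≤ 4 * d := by
  unfold lam
  calc ∑ i : Fin d, (2 - 2 * Real.cos (2 * Real.pi * ((k i).val : ℝ) / (L : ℝ)))
      ≤ ∑ _i : Fin d, (4:ℝ) := Finset.sum_le_sum fun i _ => by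
        have := Real.neg_one_le_cos (2 * Real.pi * ((k i).val : ℝ) / (L : ℝ))
        linarith
    _ = 4 * d := by simp; ring

theorem card_pow : (Fintype.card (Fin d → ZMod L) : ℝ) = (L : ℝ) ^ d := by
  simp [ZMod.card]

theorem card_two (hd : 3 ≤ d) (hL : Even L) : (2:ℝ) ≤ (Fintype.card (Fin d → ZMod L) : ℝ) := by
  rw [card_pow]
  have h2 : 2 ≤ L := by
    have h0 : L ≠ 0 := NeZero.ne L
    obtain ⟨m, hm⟩ := hL
    omega
  have h2' : (2:ℝ) ≤ L := by exact_mod_cast h2
  calc (2:ℝ) ≤ (L:ℝ) ^ 1 := by simpa using h2'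
    _ ≤ (L:ℝ) ^ d := pow_le_pow_right₀ (by linarith) (by omega)

/-- The modes. -/
abbrev Md (d L : ℕ) : Type := {k : Fin d → ZMod L // k ≠ 0}

noncomputable instance : Fintype (Md d L) := by
  unfold Md
  infer_instance

theorem sum_modes (F : (Fin d → ZMod L) → ℝ) :
    ∑ k ∈ (Finset.univ : Finset (Fin d → ZMod L)).erase 0, F k = ∑ k : Md d L, F k.1 := by
  refine Finset.sum_subtype _ (fun k => ?_) F
  simp

theorem card_modes : (Fintype.card (Md d L) : ℝ) = (Fintype.card (Fin d → ZMod L) : ℝ) - 1 := by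
  have h := sum_modes (d := d) (L := L) (fun _ => (1:ℝ))
  rw [Finset.sum_const, Finset.sum_const, Finset.card_erase_of_mem (Finset.mem_univ _),
    Finset.card_univ, Finset.card_univ, nsmul_eq_mul, nsmul_eq_mul, mul_one, mul_one] at h
  rw [← h, Nat.cast_sub, Nat.cast_one]
  exact Fintype.card_pos

theorem nnw_nn {J : ℝ} (hJ : 0 ≤ J) (x y : Fin d → ZMod L) : 0 ≤ nnw J x y :=
  nnw_nonneg hJ x y

theorem wgm_nn {J γ : ℝ} (hJ : 0 ≤ J) (hγ : 0 ≤ γ) (x y : Fin d → ZMod L) :
    0 ≤ wgm J γ x y :=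
  add_nonneg (nnw_nn hJ x y) (by positivity)

theorem nnw_mono {J J' : ℝ} (h : J' ≤ J) (x y : Fin d → ZMod L) : nnw J' x y ≤ nnw J x y := by
  unfold nnw
  refine Finset.sum_le_sum fun i _ => ?_
  split_ifs
  · exact h
  · exact le_rfl

theorem sB_pos {U J β l : ℝ} (hU : 0 < U) (hJ : 0 < J) (hβ : 0 < β) (hl : 0 < l) :
    0 < sB U J β l := by
  obtain ⟨c, hc, h⟩ := task_sB_low l hl
  have h1 := h U J β l hU hJ hβ hl le_rfl
  refine lt_of_lt_of_le ?_ h1
  have : 0 ≤ Real.sqrt (U / J) := Real.sqrt_nonneg _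
  positivity

theorem bog_nonneg {U J β : ℝ} (hU : 0 < U) (hJ : 0 < J) (hβ : 0 < β) : 0 ≤ bog d L U J β := by
  unfold bog
  refine div_nonneg (Finset.sum_nonneg fun k hk => ?_) (by positivity)
  exact (sB_pos hU hJ hβ (lam_pos k (Finset.ne_of_mem_erase hk))).le

/-- Bogoliubov's value is at least of the order `√(U/J) + 1/(βJ)`. -/
theorem bog_low (d : ℕ) (hd : 3 ≤ d) : ∃ c : ℝ, 0 < c ∧ ∀ (L : ℕ) [NeZero L] (U J β : ℝ),
    Even L → 0 < U → 0 < J → 0 < β →
    c * (Real.sqrt (U / J) + 1 / (β * J)) ≤ bog d L U J β := by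
  have hd0 : (0:ℝ) < d := by
    have : 0 < d := by omega
    exact_mod_cast this
  obtain ⟨c, hc, h⟩ := task_sB_low (4 * d) (by positivity)
  refine ⟨c / 2, by positivity, ?_⟩
  intro L _ U J β hL hU hJ hβ
  have hn2 := card_two (L := L) hd hL
  set n : ℝ := (Fintype.card (Fin d → ZMod L) : ℝ) with hn
  unfold bog
  rw [le_div_iff₀ (by linarith), sum_modes]
  have h1 : ∑ _k : Md d L, c * (Real.sqrt (U / J) + 1 / (β * J)) ≤
      ∑ k : Md d L, sB U J β (lam k.1) := by
    refine Finset.sum_le_sum fun k _ => ?_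
    exact h U J β (lam k.1) hU hJ hβ (lam_pos k.1 k.2) (lam_le k.1)
  rw [Finset.sum_const, Finset.card_univ, nsmul_eq_mul, card_modes, ← hn] at h1
  refine le_trans ?_ h1
  have ha : 0 ≤ c * (Real.sqrt (U / J) + 1 / (β * J)) := by positivity
  nlinarith

end

/-- The upper bound for the neutral system. -/
theorem neutral_upper (d : ℕ) (hd : 3 ≤ d) (ε : ℝ) (hε : 0 < ε) : ∃ δ : ℝ, 0 < δ ∧
    ∀ (L : ℕ) [NeZero L] (U J β : ℝ), Even L → 0 < U → 0 < J → 0 < β →
    Real.sqrt (U / J) + 1 / (β * J) ≤ δ →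
    depl (NN d L β U J) ≤ (1 + ε) * bog d L U J β := by
  have hd0 : (0:ℝ) < d := by
    have : 0 < d := by omega
    exact_mod_cast this
  set e : ℝ := min ε 1 / 3 with he
  have he0 : 0 < e := by
    have : 0 < min ε 1 := lt_min hε one_pos
    positivity
  have he1 : e ≤ 1 / 3 := by
    have : min ε 1 ≤ 1 := min_le_right _ _
    rw [he]; linarith
  have heε : 3 * e ≤ ε := by
    have : min ε 1 ≤ ε := min_le_left _ _
    rw [he]; linarith
  set κ : ℝ := e / (1 + e) with hκ
  have hκ0 : 0 < κ := by positivity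
  have hκ1 : κ ≤ 1 / 2 := by
    rw [hκ, div_le_iff₀ (by linarith)]
    linarith
  have hκe : 1 / (1 - κ) = 1 + e := by
    rw [hκ]
    field_simp
    ring
  obtain ⟨Cp, hCp, pig⟩ := task_pig d κ hκ0 hκ1
  obtain ⟨Cc, hCc, crude⟩ := task_crude d hd
  obtain ⟨C0, hC0, lat⟩ := task_lat d hd
  obtain ⟨δ1, hδ1, asm⟩ := task_asm1 C0 (4 * d) e hC0 (by positivity) he0
  set δ : ℝ := min (min 1 (1 / (4 * Cc))) (min (δ1 / (8 * Cc))
    (min (δ1 / 4) ((δ1 / (8 * d)) ^ 2 / (Cp * Cc)))) with hδ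
  have hδ0 : 0 < δ := by
    rw [hδ]
    refine lt_min (lt_min one_pos (by positivity)) (lt_min (by positivity)
      (lt_min (by positivity) (by positivity)))
  have d1 : δ ≤ 1 := (min_le_left _ _).trans (min_le_left _ _)
  have d2 : δ ≤ 1 / (4 * Cc) := (min_le_left _ _).trans (min_le_right _ _)
  have d3 : δ ≤ δ1 / (8 * Cc) := (min_le_right _ _).trans (min_le_left _ _)
  have d4 : δ ≤ δ1 / 4 := (min_le_right _ _).trans ((min_le_right _ _).trans (min_le_left _ _))
  have d5 : δ ≤ (δ1 / (8 * d)) ^ 2 / (Cp * Cc) :=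
    (min_le_right _ _).trans ((min_le_right _ _).trans (min_le_right _ _))
  refine ⟨δ, hδ0, ?_⟩
  intro L _ U J β hL hU hJ hβ ha
  set a : ℝ := Real.sqrt (U / J) + 1 / (β * J) with had
  have ha0 : 0 < a := by
    have : 0 ≤ Real.sqrt (U / J) := Real.sqrt_nonneg _
    have : 0 < 1 / (β * J) := by positivity
    rw [had]; linarith
  obtain ⟨J', hJl, hJu, hq⟩ := pig L U J β hL hU hJ hβ (ha.trans d1)
  have hκ2 : 0 < 1 - κ := by linarith
  have hJ' : 0 < J' := lt_of_lt_of_le (mul_pos hκ2 hJ) hJl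
  have hratio : J / J' ≤ 1 + e := by
    rw [← hκe, div_le_div_iff₀ hJ' hκ2]
    linarith
  set a' : ℝ := Real.sqrt (U / J') + 1 / (β * J') with ha'd
  have haa' : a ≤ a' := by
    rw [had, ha'd]
    refine add_le_add (Real.sqrt_le_sqrt ?_) ?_
    · exact div_le_div_of_nonneg_left hU.le hJ' hJu
    · exact div_le_div_of_nonneg_left (by norm_num) (by positivity)
        (mul_le_mul_of_nonneg_left hJu hβ.le)
  have ha'0 : 0 < a' := lt_of_lt_of_le ha0 haa'
  have ha'2 : a' ≤ 2 * a := by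
    have hJ2 : J ≤ 2 * J' := by
      have : (1 / 2) * J ≤ (1 - κ) * J := mul_le_mul_of_nonneg_right (by linarith) hJ.le
      linarith
    have e1 : Real.sqrt (U / J') ≤ 2 * Real.sqrt (U / J) := by
      have h4 : (2:ℝ) = Real.sqrt 4 := by
        rw [show (4:ℝ) = 2 ^ 2 by norm_num, Real.sqrt_sq (by norm_num)]
      rw [h4, ← Real.sqrt_mul (by norm_num)]
      refine Real.sqrt_le_sqrt ?_
      rw [div_le_iff₀ hJ']
      have : 4 * (U / J) * J' = (2 * U) * (2 * J' / J) := by field_simp; ring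
      rw [this]
      have h5 : 1 ≤ 2 * J' / J := by rw [le_div_iff₀ hJ]; linarith
      nlinarith
    have e2 : 1 / (β * J') ≤ 2 * (1 / (β * J)) := by
      rw [mul_one_div, div_le_div_iff₀ (by positivity) (by positivity)]
      nlinarith
    rw [had, ha'd]; linarith
  -- the depletion at J'
  set A := NN d L β U J' with hA
  set Z := WW A 0 with hZd
  have hZ : 0 < Z := WW_zero_pos hβ hU (nnw_nn hJ'.le)
  set n : ℝ := (Fintype.card (Fin d → ZMod L) : ℝ) with hn
  have hn2 : 2 ≤ n := card_two hd hL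
  have hn0 : 0 < n := by linarith
  set D := depl A with hD
  have hDc : D ≤ Cc * a' := crude L U J' β hL hU hJ' hβ
  have hwg : wgm (d := d) (L := L) J' 0 = nnw J' := by
    funext x y
    unfold wgm
    rw [zero_div, add_zero]
  have hmd := task_modes (d := d) (L := L) hβ hU (nnw_nn (d := d) (L := L) hJ'.le)
  have hD0 : 0 ≤ D := by
    have h1 := hmd.2
    have h2 : 0 ≤ ∑ k ∈ (Finset.univ : Finset (Fin d → ZMod L)).erase 0,
        TT (AA β U (nnw J')) k := Finset.sum_nonneg fun k _ => hmd.1 k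
    rw [h1] at h2
    have h3 : 0 < n ^ 2 * Z := by positivity
    exact nonneg_of_mul_nonneg_right h2 h3
  have hD1 : D ≤ 1 / 2 := by
    have h1 : Cc * a' ≤ Cc * (2 * (1 / (4 * Cc))) :=
      mul_le_mul_of_nonneg_left (by linarith [ha.trans d2]) hCc.le
    have h2 : Cc * (2 * (1 / (4 * Cc))) = 1 / 2 := by field_simp; norm_num
    linarith
  set θ := (1 - 2 * D) ^ 2 with hθ
  have hθ0 : 0 ≤ θ := sq_nonneg _
  have hθ1 : 1 - δ1 ≤ θ := by
    have h1 : Cc * a' ≤ Cc * (2 * (δ1 / (8 * Cc))) :=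
      mul_le_mul_of_nonneg_left (by linarith [ha.trans d3]) hCc.le
    have h2 : Cc * (2 * (δ1 / (8 * Cc))) = δ1 / 4 := by field_simp; norm_num
    have h3 : D ≤ δ1 / 4 := by linarith
    rw [hθ]
    nlinarith [sq_nonneg D]
  set E : ℝ := n * (U / J' + 2 * d * Real.sqrt (2 * (Cp * a ^ 2) * D)) with hE
  have hE1 : E ≤ δ1 * a' * n := by
    have h1 : U / J' ≤ δ1 / 2 * a' := by
      have e1 : Real.sqrt (U / J') ^ 2 = U / J' := Real.sq_sqrt (by positivity)
      have e2 : Real.sqrt (U / J') ≤ a' := by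
        rw [ha'd]; have : 0 < 1 / (β * J') := by positivity
        linarith
      have e3 : U / J' ≤ a' * a' := by
        rw [← e1, sq]
        exact mul_le_mul e2 e2 (Real.sqrt_nonneg _) ha'0.le
      have e4 : a' ≤ δ1 / 2 := by linarith [ha.trans d4]
      exact e3.trans (mul_le_mul_of_nonneg_right e4 ha'0.le)
    have h2 : 2 * d * Real.sqrt (2 * (Cp * a ^ 2) * D) ≤ δ1 / 2 * a' := by
      have e1 : 2 * (Cp * a ^ 2) * D ≤ (2 * a') ^ 2 * (Cp * Cc * a) := by
        have f1 : D ≤ Cc * (2 * a) := hDc.trans (mul_le_mul_of_nonneg_left ha'2 hCc.le)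
        have f2 : 2 * (Cp * a ^ 2) * D ≤ 2 * (Cp * a ^ 2) * (Cc * (2 * a)) :=
          mul_le_mul_of_nonneg_left f1 (by positivity)
        have f3 : 2 * (Cp * a ^ 2) * (Cc * (2 * a)) = (2 * a) ^ 2 * (Cp * Cc * a) := by ring
        rw [f3] at f2
        refine f2.trans (mul_le_mul_of_nonneg_right ?_ (by positivity))
        exact pow_le_pow_left₀ (by positivity) (by linarith) 2
      have e2 : Real.sqrt (2 * (Cp * a ^ 2) * D) ≤ (2 * a') * (δ1 / (8 * d)) := by
        have g1 : Cp * Cc * a ≤ (δ1 / (8 * d)) ^ 2 := by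
          have := ha.trans d5
          rw [le_div_iff₀ (by positivity)] at this
          linarith
        have g2 : 2 * (Cp * a ^ 2) * D ≤ ((2 * a') * (δ1 / (8 * d))) ^ 2 := by
          rw [mul_pow]
          exact e1.trans (mul_le_mul_of_nonneg_left g1 (sq_nonneg _))
        exact Real.sqrt_le_iff.2 ⟨by positivity, g2⟩
      calc 2 * d * Real.sqrt (2 * (Cp * a ^ 2) * D) ≤ 2 * d * ((2 * a') * (δ1 / (8 * d))) :=
            mul_le_mul_of_nonneg_left e2 (by positivity)
        _ = δ1 / 2 * a' := by field_simp; norm_num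
    rw [hE]
    have : n * (U / J' + 2 * d * Real.sqrt (2 * (Cp * a ^ 2) * D)) ≤
        n * (δ1 / 2 * a' + δ1 / 2 * a') := mul_le_mul_of_nonneg_left (by linarith) hn0.le
    refine this.trans (le_of_eq ?_)
    ring
  have hnZ : 0 < n * Z := by positivity
  have hkey := asm (Md d L) n U J' β θ E (fun k => lam k.1) (fun k => TT A k.1 / (n * Z))
    hn0 hU hJ' hβ (fun k => lam_pos k.1 k.2) (fun k => lam_le k.1)
    (by rw [card_modes, ← hn]; linarith) (by rw [card_modes, ← hn]; linarith)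
    (by
      have h1 := lat L
      have h2 := sum_modes (d := d) (L := L) (fun k => (lam k) ^ (-(5 / 4) : ℝ))
      rw [← h2, hn, card_pow]
      exact h1)
    hθ0 hθ1 hE1
    (by
      intro k
      rw [le_div_iff₀ hnZ]
      have h := task_mode (d := d) (L := L) (γ := 0) hβ hU hJ' le_rfl (by rw [hwg]; exact hD1)
        k.1 k.2
      rw [hwg] at h
      have e1 : lam k.1 + 2 * 0 / J' = lam k.1 := by rw [mul_zero, zero_div, add_zero]
      rw [e1] at h
      exact h)
    (by
      intro k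
      rw [div_le_iff₀ hnZ]
      exact task_ir hL hβ hU hJ' k.1 k.2)
    (by
      have h := task_vird (d := d) (L := L) (q := Cp * a ^ 2) hβ hU hJ' (by positivity) hq
      have h1 := sum_modes (d := d) (L := L) (fun k => lam k * TT A k)
      have h2 := sum_modes (d := d) (L := L) (fun k => lam k * sB U J' β (lam k))
      rw [h1, h2] at h
      have h3 : ∑ k : Md d L, lam k.1 * (TT A k.1 / (n * Z)) =
          (∑ k : Md d L, lam k.1 * TT A k.1) / (n * Z) := by
        rw [Finset.sum_div]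
        exact Finset.sum_congr rfl fun k _ => by ring
      rw [h3, div_le_iff₀ hnZ]
      exact h)
  -- conclusion at J'
  have hDn : D * n = ∑ k : Md d L, TT A k.1 / (n * Z) := by
    have h1 := hmd.2
    rw [sum_modes] at h1
    have h3 : ∑ k : Md d L, TT A k.1 / (n * Z) = (∑ k : Md d L, TT A k.1) / (n * Z) := by
      rw [Finset.sum_div]
    rw [h3, eq_div_iff hnZ.ne']
    have h4 : ∑ k : Md d L, TT A k.1 = n ^ 2 * Z * D := h1
    rw [h4]; ring
  rw [← hDn] at hkey
  have hsBJ : ∑ k : Md d L, sB U J' β (lam k.1) ≤ (1 + e) * ∑ k : Md d L, sB U J β (lam k.1) := by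
    rw [Finset.mul_sum]
    refine Finset.sum_le_sum fun k _ => ?_
    have h1 := task_sB_J U J J' β (lam k.1) hU hJ hJ' hJu hβ (lam_pos k.1 k.2)
    exact h1.trans (mul_le_mul_of_nonneg_right hratio
      (sB_pos hU hJ hβ (lam_pos k.1 k.2)).le)
  have hbog : n * bog d L U J β = ∑ k : Md d L, sB U J β (lam k.1) := by
    unfold bog
    rw [sum_modes, ← hn]
    field_simp
  have hb0 : 0 ≤ bog d L U J β := bog_nonneg hU hJ hβ
  have hDJ' : D ≤ (1 + e) * ((1 + e) * bog d L U J β) := by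
    have h1 : D * n ≤ ((1 + e) * ((1 + e) * bog d L U J β)) * n := by
      refine hkey.trans ?_
      rw [← hbog] at hsBJ
      have := mul_le_mul_of_nonneg_left hsBJ (by linarith : (0:ℝ) ≤ 1 + e)
      refine this.trans (le_of_eq ?_)
      ring
    exact le_of_mul_le_mul_right h1 hn0
  have hmono : depl (NN d L β U J) ≤ D :=
    task_depl_mono hβ hU (nnw_nn hJ'.le) (nnw_mono hJu)
  refine hmono.trans (hDJ'.trans ?_)
  have : (1 + e) * ((1 + e) * bog d L U J β) = ((1 + e) * (1 + e)) * bog d L U J β := by ring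
  rw [this]
  refine mul_le_mul_of_nonneg_right ?_ hb0
  nlinarith

/-- The lower bound in every sector. -/
theorem sector_lower (d : ℕ) (hd : 3 ≤ d) (ε : ℝ) (hε : 0 < ε) : ∃ δ : ℝ, 0 < δ ∧
    ∀ (L : ℕ) [NeZero L] (U J β : ℝ) (ν : (Fin d → ZMod L) → ℝ) (N : ℤ),
    Even L → 0 < U → 0 < J → 0 < β → Real.sqrt (U / J) + 1 / (β * J) ≤ δ →
    ∑ x, ∑ y, TI (rs (rotK β (U • (1 : Matrix (Fin d → ZMod L) (Fin d → ZMod L) ℝ)) (nnw J) ν) N)
        (sh N x y) ≤
      (1 - (1 - ε) * bog d L U J β) * ((Fintype.card (Fin d → ZMod L) : ℝ) ^ 2 *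
        TI (rs (rotK β (U • (1 : Matrix (Fin d → ZMod L) (Fin d → ZMod L) ℝ)) (nnw J) ν) N) id) := by
  have hd0 : (0:ℝ) < d := by
    have : 0 < d := by omega
    exact_mod_cast this
  set e : ℝ := min ε 1 / 3 with he
  have he0 : 0 < e := by
    have : 0 < min ε 1 := lt_min hε one_pos
    positivity
  have he1 : e ≤ 1 / 3 := by
    have : min ε 1 ≤ 1 := min_le_right _ _
    rw [he]; linarith
  have heε : 3 * e ≤ ε := by
    have : min ε 1 ≤ ε := min_le_left _ _
    rw [he]; linarith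
  obtain ⟨Cc, hCc, crude⟩ := task_crude d hd
  obtain ⟨C0, hC0, lat⟩ := task_lat d hd
  obtain ⟨g, hg, asm⟩ := task_asm2 C0 (4 * d) e hC0 (by positivity) he0
  obtain ⟨c, hc, low⟩ := bog_low d hd
  set δ : ℝ := min (min 1 (1 / (2 * Cc))) (min (e / (4 * Cc)) (e * c * g / 2)) with hδ
  have hδ0 : 0 < δ := by
    rw [hδ]
    exact lt_min (lt_min one_pos (by positivity)) (lt_min (by positivity) (by positivity))
  have d2 : δ ≤ 1 / (2 * Cc) := (min_le_left _ _).trans (min_le_right _ _)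
  have d3 : δ ≤ e / (4 * Cc) := (min_le_right _ _).trans (min_le_left _ _)
  have d4 : δ ≤ e * c * g / 2 := (min_le_right _ _).trans (min_le_right _ _)
  refine ⟨δ, hδ0, ?_⟩
  intro L _ U J β ν N hL hU hJ hβ ha
  set a : ℝ := Real.sqrt (U / J) + 1 / (β * J) with had
  have ha0 : 0 < a := by
    have : 0 ≤ Real.sqrt (U / J) := Real.sqrt_nonneg _
    have : 0 < 1 / (β * J) := by positivity
    rw [had]; linarith
  set n : ℝ := (Fintype.card (Fin d → ZMod L) : ℝ) with hn
  have hn2 : 2 ≤ n := card_two hd hL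
  have hn0 : 0 < n := by linarith
  set γ : ℝ := g * J / 2 with hγ
  have hγ0 : 0 < γ := by positivity
  have hsec := task_sector (γ := γ) hβ hU hγ0 (nnw_nn (d := d) (L := L) hJ.le) ν N
  have hwg : (fun x y : Fin d → ZMod L => nnw J x y + γ / (Fintype.card (Fin d → ZMod L) : ℝ)) =
      wgm J γ := rfl
  rw [hwg] at hsec
  set D := depl (AA β U (wgm (d := d) (L := L) J γ)) with hD
  have hw := wgm_nn (d := d) (L := L) hJ.le hγ0.le
  have hDc : D ≤ Cc * a := by
    have h1 : D ≤ depl (NN d L β U J) := task_depl_mono hβ hU (nnw_nn hJ.le) fun x y => by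
      unfold wgm
      have : 0 ≤ γ / (Fintype.card (Fin d → ZMod L) : ℝ) := by positivity
      linarith
    exact h1.trans (crude L U J β hL hU hJ hβ)
  have hD1 : D ≤ 1 / 2 := by
    have h1 : Cc * a ≤ Cc * (1 / (2 * Cc)) :=
      mul_le_mul_of_nonneg_left (ha.trans d2) hCc.le
    have h2 : Cc * (1 / (2 * Cc)) = 1 / 2 := by field_simp
    linarith
  have hD2 : 4 * D ≤ e := by
    have h1 : Cc * a ≤ Cc * (e / (4 * Cc)) :=
      mul_le_mul_of_nonneg_left (ha.trans d3) hCc.le
    have h2 : Cc * (e / (4 * Cc)) = e / 4 := by field_simp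
    linarith
  set Z := WW (AA β U (wgm (d := d) (L := L) J γ)) 0 with hZd
  have hZ : 0 < Z := WW_zero_pos hβ hU hw
  have hnZ : 0 < n * Z := by positivity
  have hmd := task_modes (d := d) (L := L) hβ hU hw
  have hθ : (1 - 2 * D) ^ 2 ≥ 1 - e := by nlinarith [sq_nonneg D]
  have hDl : (1 - e) * ((1 - e) * bog d L U J β) ≤ D := by
    have h1 : ∀ k : Md d L, (1 - 2 * D) ^ 2 * sB U J β (lam k.1 + g) ≤
        TT (AA β U (wgm J γ)) k.1 / (n * Z) := by
      intro k
      rw [le_div_iff₀ hnZ]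
      have h := task_mode (d := d) (L := L) hβ hU hJ hγ0.le hD1 k.1 k.2
      have e1 : 2 * γ / J = g := by rw [hγ]; field_simp
      rw [e1] at h
      exact h
    have h2 : ∑ k : Md d L, (1 - 2 * D) ^ 2 * sB U J β (lam k.1 + g) ≤ D * n := by
      refine (Finset.sum_le_sum fun k _ => h1 k).trans (le_of_eq ?_)
      have h1 := hmd.2
      rw [sum_modes] at h1
      rw [← Finset.sum_div, div_eq_iff hnZ.ne']
      have h4 : ∑ k : Md d L, TT (AA β U (wgm J γ)) k.1 = n ^ 2 * Z * D := h1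
      rw [h4]; ring
    have h3 := asm (Md d L) n U J β (fun k => lam k.1) hn0 hU hJ hβ
      (fun k => lam_pos k.1 k.2) (fun k => lam_le k.1)
      (by rw [card_modes, ← hn]; linarith) (by rw [card_modes, ← hn]; linarith)
      (by
        have h1 := lat L
        have h2 := sum_modes (d := d) (L := L) (fun k => (lam k) ^ (-(5 / 4) : ℝ))
        rw [← h2, hn, card_pow]
        exact h1)
    have hbog : n * bog d L U J β = ∑ k : Md d L, sB U J β (lam k.1) := by
      unfold bog
      rw [sum_modes, ← hn]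
      field_simp
    rw [← hbog] at h3
    have hs0 : 0 ≤ ∑ k : Md d L, sB U J β (lam k.1 + g) :=
      Finset.sum_nonneg fun k _ => (sB_pos hU hJ hβ (by have := lam_pos k.1 k.2; linarith)).le
    rw [← Finset.mul_sum] at h2
    have h4 : (1 - e) * ((1 - e) * (n * bog d L U J β)) ≤ D * n := by
      refine le_trans ?_ h2
      refine (mul_le_mul_of_nonneg_left h3 (by linarith)).trans ?_
      exact mul_le_mul_of_nonneg_right hθ hs0
    have h5 : ((1 - e) * ((1 - e) * bog d L U J β)) * n ≤ D * n := by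
      refine le_trans (le_of_eq ?_) h4
      ring
    exact le_of_mul_le_mul_right h5 hn0
  have hUγ : U / γ ≤ e * bog d L U J β := by
    have h1 := low L U J β hL hU hJ hβ
    have e1 : U / γ = 2 / g * (U / J) := by rw [hγ]; field_simp
    have e2 : U / J ≤ a * a := by
      have f1 : Real.sqrt (U / J) ^ 2 = U / J := Real.sq_sqrt (by positivity)
      have f2 : Real.sqrt (U / J) ≤ a := by
        rw [had]; have : 0 < 1 / (β * J) := by positivity
        linarith
      rw [← f1, sq]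
      exact mul_le_mul f2 f2 (Real.sqrt_nonneg _) ha0.le
    have e3 : a * a ≤ (e * c * g / 2) * a := mul_le_mul_of_nonneg_right (ha.trans d4) ha0.le
    rw [e1]
    calc 2 / g * (U / J) ≤ 2 / g * ((e * c * g / 2) * a) :=
          mul_le_mul_of_nonneg_left (e2.trans e3) (by positivity)
      _ = e * (c * a) := by field_simp
      _ ≤ e * bog d L U J β := mul_le_mul_of_nonneg_left h1 he0.le
  have hb0 : 0 ≤ bog d L U J β := bog_nonneg hU hJ hβ
  have hTI : 0 ≤ n ^ 2 * TI (rs (rotK β (U • (1 : Matrix (Fin d → ZMod L) (Fin d → ZMod L) ℝ))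
      (nnw J) ν) N) id := by
    have hA := rotK_adm hβ.le (U • (1 : Matrix (Fin d → ZMod L) (Fin d → ZMod L) ℝ))
      (nnw_nn (d := d) (L := L) hJ.le) ν
    have hB := rotK_bdd' hβ (Matrix.PosDef.one.smul hU) (nnw_nn (d := d) (L := L) hJ.le) ν
    refine mul_nonneg (by positivity) ?_
    exact (TS_nonneg (rs_adm hA N) id ∅).trans
      (TS_le_TI (rs_adm hA N) (rs_bdd hA hB N) Function.injective_id _)
  refine hsec.trans (mul_le_mul_of_nonneg_right ?_ hTI)
  have g1 := mul_nonneg (sub_nonneg.2 heε) hb0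
  have g2 := mul_nonneg (sq_nonneg e) hb0
  have g3 : (1 - e) * ((1 - e) * bog d L U J β) =
      bog d L U J β - 2 * (e * bog d L U J β) + e ^ 2 * bog d L U J β := by ring
  have g4 : (ε - 3 * e) * bog d L U J β = ε * bog d L U J β - 3 * (e * bog d L U J β) := by ring
  rw [g3] at hDl
  rw [g4] at g1
  linarith

end Pool.Agent.H993.LY
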