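import Mathlib
import Pool.Agent.H993.LY.Main
import Pool.Agent.H993.LY.P22

/-!
# The one-particle density matrix: Bogoliubov's profile
-/

namespace Pool.Agent.H993.LY

open Filter Topology NormedSpace Matrix MeasureTheory
open Pool.Agent.H993.TR
open Pool.Agent.N157.QR_FOU (BB lam_pos)
open Pool.Agent.N657.QR (ee nnw lam)
open P16 (task_modes)
open P17 (task_mode)
open P20 (task_crude)
open P22 (task_set)

section

variable {d L : ℕ} [NeZero L]

/-- Bogoliubov's value of `1 - G(z)`. -/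
noncomputable def prof (d L : ℕ) [NeZero L] (U J β : ℝ) (z : Fin d → ZMod L) : ℝ :=
  (∑ k ∈ (Finset.univ : Finset (Fin d → ZMod L)).erase 0, sB U J β (lam k) * oc k z) /
    (Fintype.card (Fin d → ZMod L) : ℝ)

/-- The correlations at the neutral point in terms of the modes. -/
theorem neutral_modes {U J β : ℝ} (hU : 0 < U) (hJ : 0 < J) (hβ : 0 < β)
    (x y : Fin d → ZMod L) :
    ∑ k ∈ (Finset.univ : Finset (Fin d → ZMod L)).erase 0,
      TT (NN d L β U J) k * oc k (x - y) =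
    (Fintype.card (Fin d → ZMod L) : ℝ) * ((Fintype.card (Fin d → ZMod L) : ℝ) *
      (WW (NN d L β U J) 0 - WW (NN d L β U J) (eta x y))) := by
  have hw : ∀ x y, 0 ≤ (nnw J : (Fin d → ZMod L) → (Fin d → ZMod L) → ℝ) x y := nnw_nonneg hJ.le
  have hpd : (U • (1 : Matrix (Fin d → ZMod L) (Fin d → ZMod L) ℝ)).PosDef :=
    Matrix.PosDef.one.smul hU
  set A := NN d L β U J with hA
  set G : (Fin d → ZMod L) → (Fin d → ZMod L) → ℝ := fun x y => WW A (eta x y) with hG
  have hGT : ∀ x y, G x y = TI (rs (rotK β (U • (1 : Matrix (Fin d → ZMod L) (Fin d → ZMod L) ℝ))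
      (nnw J) 0) 0) (sh 0 x y) := fun x y => WW_eta hβ hU hw x y
  have hdiag : ∀ x, G x x = WW A 0 := by
    intro x
    show WW A (eta x x) = WW A 0
    have : eta x x = 0 := by unfold eta; simp
    rw [this]
  set z := x - y with hz
  have htr : ∀ u : Fin d → ZMod L, G (u + z) u = G x y ∧ G u (u + z) = G x y := by
    intro u
    have h1 : G (u + z) u = G x y := by
      have h := TI_trn (L := L) hβ hU hJ.le 0 (u - y) x y
      have e1 : x + (u - y) = u + z := by rw [hz]; abel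
      have e2 : y + (u - y) = u := by abel
      rw [e1, e2] at h
      rw [hGT, hGT]
      exact h
    refine ⟨h1, ?_⟩
    rw [← h1, hGT, hGT]
    exact TI_swap hβ hpd (nnw_nonneg hJ.le) 0 0 (u + z) u
  have hpl := planch_oc G z
  have hright : ∑ x', (G x' x' - (G (x' + z) x' + G x' (x' + z)) / 2) =
      (Fintype.card (Fin d → ZMod L) : ℝ) * (WW A 0 - G x y) := by
    have : ∀ x', G x' x' - (G (x' + z) x' + G x' (x' + z)) / 2 = WW A 0 - G x y := by
      intro x'
      rw [hdiag, (htr x').1, (htr x').2]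
      ring
    simp only [this]
    rw [Finset.sum_const, Finset.card_univ, nsmul_eq_mul]
  rw [hright, ← Finset.add_sum_erase _ _ (Finset.mem_univ (0 : Fin d → ZMod L)), oc_zero,
    mul_zero, zero_add] at hpl
  exact hpl

/-- The profile at the neutral point, uniformly in the distance. -/
theorem neutral_profile (d : ℕ) (hd : 3 ≤ d) (ε : ℝ) (hε : 0 < ε) : ∃ δ : ℝ, 0 < δ ∧
    ∀ (L : ℕ) [NeZero L] (U J β : ℝ), Even L → 0 < U → 0 < J → 0 < β →
    Real.sqrt (U / J) + 1 / (β * J) ≤ δ → ∀ x y : Fin d → ZMod L,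
    |1 - WW (NN d L β U J) (eta x y) / WW (NN d L β U J) 0 - prof d L U J β (x - y)| ≤
      ε * bog d L U J β := by
  set e : ℝ := min ε 1 / 8 with he
  have he0 : 0 < e := by
    have : 0 < min ε 1 := lt_min hε one_pos
    positivity
  have he1 : 8 * e ≤ ε := by
    have : min ε 1 ≤ ε := min_le_left _ _
    rw [he]; linarith
  have he2 : e ≤ 1 / 8 := by
    have : min ε 1 ≤ 1 := min_le_right _ _
    rw [he]; linarith
  obtain ⟨δ₁, hδ₁, hup⟩ := neutral_upper d hd e he0
  obtain ⟨C, hC, hcr⟩ := task_crude d hd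
  refine ⟨min δ₁ (e / (4 * C)), lt_min hδ₁ (by positivity), ?_⟩
  intro L _ U J β hL hU hJ hβ ha x y
  have hD := hup L U J β hL hU hJ hβ (ha.trans (min_le_left _ _))
  have hc := hcr L U J β hL hU hJ hβ
  have hw : ∀ x y, 0 ≤ (nnw J : (Fin d → ZMod L) → (Fin d → ZMod L) → ℝ) x y := nnw_nonneg hJ.le
  have hb := bog_nonneg (d := d) (L := L) hU hJ hβ
  set A := NN d L β U J with hA
  set Z := WW A 0 with hZd
  have hZ : 0 < Z := WW_zero_pos hβ hU hw
  set n : ℝ := (Fintype.card (Fin d → ZMod L) : ℝ) with hn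
  have hn0 : 0 < n := by rw [hn]; exact_mod_cast Fintype.card_pos
  have hnZ : 0 < n * Z := by positivity
  set D := depl A with hDd
  have hDe : D ≤ e / 4 := by
    have h1 := mul_le_mul_of_nonneg_left (ha.trans (min_le_right _ _)) hC.le
    have h2 : C * (e / (4 * C)) = e / 4 := by field_simp
    linarith
  obtain ⟨m1, m2⟩ := task_modes (d := d) (L := L) hβ hU hw
  have hwg : wgm (d := d) (L := L) J 0 = nnw J := by
    funext x y
    unfold wgm
    rw [zero_div, add_zero]
  have hD0 : 0 ≤ D := by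
    have h2 : 0 ≤ ∑ k ∈ (Finset.univ : Finset (Fin d → ZMod L)).erase 0,
        TT (AA β U (nnw J)) k := Finset.sum_nonneg fun k _ => m1 k
    rw [m2] at h2
    have h3 : 0 < n ^ 2 * Z := by positivity
    exact nonneg_of_mul_nonneg_right h2 h3
  -- the modes
  set S : (Fin d → ZMod L) → ℝ := fun k => TT A k / (n * Z) with hS
  have hlow : ∀ k ∈ (Finset.univ : Finset (Fin d → ZMod L)).erase 0,
      (1 - e) * sB U J β (lam k) ≤ S k := by
    intro k hk
    have hk0 := Finset.ne_of_mem_erase hk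
    rw [hS]
    simp only
    rw [le_div_iff₀ hnZ]
    have h := task_mode (d := d) (L := L) (γ := 0) hβ hU hJ le_rfl
      (by rw [hwg]; exact le_trans hDe (by linarith)) k hk0
    rw [hwg] at h
    have e1 : lam k + 2 * 0 / J = lam k := by rw [mul_zero, zero_div, add_zero]
    rw [e1] at h
    have hs := sB_pos hU hJ hβ (lam_pos k hk0)
    have h3 : 1 - e ≤ (1 - 2 * D) ^ 2 := by nlinarith [sq_nonneg D]
    refine le_trans ?_ h
    exact mul_le_mul_of_nonneg_right (mul_le_mul_of_nonneg_right h3 hs.le) hnZ.le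
  have hsumS : ∑ k ∈ (Finset.univ : Finset (Fin d → ZMod L)).erase 0, S k = n * D := by
    have h3 : ∑ k ∈ (Finset.univ : Finset (Fin d → ZMod L)).erase 0, S k =
        (∑ k ∈ (Finset.univ : Finset (Fin d → ZMod L)).erase 0, TT A k) / (n * Z) := by
      rw [Finset.sum_div]
    have h4 : ∑ k ∈ (Finset.univ : Finset (Fin d → ZMod L)).erase 0, TT A k =
        n ^ 2 * Z * D := m2
    rw [h3, h4]
    field_simp
  have hsumB : ∑ k ∈ (Finset.univ : Finset (Fin d → ZMod L)).erase 0, sB U J β (lam k) =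
      n * bog d L U J β := by
    unfold bog
    rw [← hn]
    field_simp
  -- the correlation
  have hcor : 1 - WW A (eta x y) / Z =
      (∑ k ∈ (Finset.univ : Finset (Fin d → ZMod L)).erase 0, S k * oc k (x - y)) / n := by
    have h := neutral_modes (d := d) (L := L) hU hJ hβ x y
    have h1 : ∑ k ∈ (Finset.univ : Finset (Fin d → ZMod L)).erase 0, S k * oc k (x - y) =
        (∑ k ∈ (Finset.univ : Finset (Fin d → ZMod L)).erase 0, TT A k * oc k (x - y)) /
          (n * Z) := by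
      rw [Finset.sum_div]
      exact Finset.sum_congr rfl fun k _ => by rw [hS]; ring
    have h2 : ∑ k ∈ (Finset.univ : Finset (Fin d → ZMod L)).erase 0, TT A k * oc k (x - y) =
        n * (n * (Z - WW A (eta x y))) := h
    rw [h1, h2]
    field_simp
  have hpr : prof d L U J β (x - y) =
      (∑ k ∈ (Finset.univ : Finset (Fin d → ZMod L)).erase 0, sB U J β (lam k) * oc k (x - y)) / n :=
    rfl
  rw [hcor, hpr, ← sub_div, ← Finset.sum_sub_distrib, abs_div, abs_of_pos hn0, div_le_iff₀ hn0]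
  calc |∑ k ∈ (Finset.univ : Finset (Fin d → ZMod L)).erase 0,
        (S k * oc k (x - y) - sB U J β (lam k) * oc k (x - y))|
      ≤ ∑ k ∈ (Finset.univ : Finset (Fin d → ZMod L)).erase 0,
        |S k * oc k (x - y) - sB U J β (lam k) * oc k (x - y)| := Finset.abs_sum_le_sum_abs _ _
    _ ≤ ∑ k ∈ (Finset.univ : Finset (Fin d → ZMod L)).erase 0,
        2 * (S k - sB U J β (lam k) + 2 * e * sB U J β (lam k)) := by
        refine Finset.sum_le_sum fun k hk => ?_
        have h1 := hlow k hk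
        have h2 := oc_nonneg k (x - y)
        have h3 := oc_le k (x - y)
        have hs := sB_pos hU hJ hβ (lam_pos k (Finset.ne_of_mem_erase hk))
        have h4 : |S k - sB U J β (lam k)| ≤ S k - sB U J β (lam k) + 2 * e * sB U J β (lam k) := by
          rw [abs_le]
          constructor
          · nlinarith
          · nlinarith [mul_pos he0 hs]
        rw [← sub_mul, abs_mul, abs_of_nonneg h2, mul_comm]
        have h5 : 0 ≤ |S k - sB U J β (lam k)| := abs_nonneg _
        calc oc k (x - y) * |S k - sB U J β (lam k)| ≤ 2 * |S k - sB U J β (lam k)| :=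
              mul_le_mul_of_nonneg_right h3 h5
          _ ≤ _ := mul_le_mul_of_nonneg_left h4 (by norm_num)
    _ = 2 * (n * D - n * bog d L U J β + 2 * e * (n * bog d L U J β)) := by
        rw [← Finset.mul_sum, Finset.sum_add_distrib, Finset.sum_sub_distrib, ← Finset.mul_sum,
          hsumS, hsumB]
    _ ≤ ε * bog d L U J β * n := by
        have h1 : n * D ≤ n * ((1 + e) * bog d L U J β) := mul_le_mul_of_nonneg_left hD hn0.le
        have h2 : 0 ≤ n * bog d L U J β := by positivity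
        have h3 : 8 * e * (n * bog d L U J β) ≤ ε * (n * bog d L U J β) :=
          mul_le_mul_of_nonneg_right he1 h2
        nlinarith

/-- The lower bound for the correlations in general. -/
theorem general_low (d : ℕ) (hd : 3 ≤ d) (ε : ℝ) (hε : 0 < ε) : ∃ δ : ℝ, 0 < δ ∧
    ∀ (L : ℕ) [NeZero L] (U J β : ℝ) (K : Matrix (Fin d → ZMod L) (Fin d → ZMod L) ℝ)
    (w : (Fin d → ZMod L) → (Fin d → ZMod L) → ℝ) (ν : (Fin d → ZMod L) → ℝ) (N : ℤ),
    Even L → 0 < U → 0 < J → 0 < β → Real.sqrt (U / J) + 1 / (β * J) ≤ δ →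
    K.PosDef → (U • (1 : Matrix (Fin d → ZMod L) (Fin d → ZMod L) ℝ) - K).PosSemidef →
    (∀ x y, 0 ≤ w x y) → (∀ x y, nnw J x y ≤ w x y) → ∀ x y : Fin d → ZMod L,
    (1 - (prof d L U J β (x - y) + ε * bog d L U J β)) * TI (rs (rotK β K w ν) N) id ≤
      TI (rs (rotK β K w ν) N) (sh N x y) := by
  obtain ⟨δ, hδ, h⟩ := neutral_profile d hd ε hε
  refine ⟨δ, hδ, ?_⟩
  intro L _ U J β K w ν N hL hU hJ hβ ha hK hUK hw hwJ x y
  have h1 := h L U J β hL hU hJ hβ ha x y
  have hw0 : ∀ x y, 0 ≤ (nnw J : (Fin d → ZMod L) → (Fin d → ZMod L) → ℝ) x y := nnw_nonneg hJ.le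
  have hpd : (U • (1 : Matrix (Fin d → ZMod L) (Fin d → ZMod L) ℝ)).PosDef :=
    Matrix.PosDef.one.smul hU
  have hZ : 0 < WW (NN d L β U J) 0 := WW_zero_pos hβ hU hw0
  have hcmp := cmp_sec hβ ν hUK hK hpd hw0 hwJ N x y
  have e1 : TI (rs (rotK β (U • (1 : Matrix (Fin d → ZMod L) (Fin d → ZMod L) ℝ)) (nnw J) 0) 0)
      (sh 0 x y) = WW (NN d L β U J) (eta x y) := (WW_eta hβ hU hw0 x y).symm
  have e2 : TI (rs (rotK β (U • (1 : Matrix (Fin d → ZMod L) (Fin d → ZMod L) ℝ)) (nnw J) 0) 0)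
      id = WW (NN d L β U J) 0 := (WW_zero hβ hU hw0).symm
  rw [e1, e2] at hcmp
  have h2 := (abs_le.1 h1).2
  have h3 : (1 - (prof d L U J β (x - y) + ε * bog d L U J β)) * WW (NN d L β U J) 0 ≤
      WW (NN d L β U J) (eta x y) := by
    rw [← le_div_iff₀ hZ]
    linarith
  have hZ₁ : 0 ≤ TI (rs (rotK β K w ν) N) id :=
    (TS_nonneg (rs_adm (rotK_adm hβ.le _ hw ν) N) id ∅).trans
      (TS_le_TI (rs_adm (rotK_adm hβ.le _ hw ν) N)
        (rs_bdd (rotK_adm hβ.le _ hw ν) (rotK_bdd' hβ hK hw ν) N) Function.injective_id _)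
  have h5 := mul_le_mul_of_nonneg_left h3 hZ₁
  have h6 : (1 - (prof d L U J β (x - y) + ε * bog d L U J β)) *
      TI (rs (rotK β K w ν) N) id * WW (NN d L β U J) 0 ≤
      TI (rs (rotK β K w ν) N) (sh N x y) * WW (NN d L β U J) 0 := by
    refine le_trans (le_of_eq ?_) (h5.trans hcmp)
    ring
  exact le_of_mul_le_mul_right h6 hZ

end

/-- From sectors to ensembles, for one pair of points. -/
theorem set_bound_pt {V : Type} [Fintype V] [DecidableEq V] {β : ℝ} (hβ : 0 < β)
    {K : Matrix V V ℝ} (hK : K.PosDef) {w : V → V → ℝ}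
    (hw : ∀ x y, 0 ≤ w x y) (ν : V → ℝ) (T : Set ℤ) (c : ℝ) (x y : V)
    (h : ∀ N, c * TI (rs (rotK β K w ν) N) id ≤ TI (rs (rotK β K w ν) N) (sh N x y)) :
    c * TI (rt (rotK β K w ν) T) id ≤ TI (rt (rotK β K w ν) T) (sht T x y) := by
  classical
  have hA := rotK_adm hβ.le K hw ν
  have hB := rotK_bdd' hβ hK hw ν
  set A := rotK β K w ν with hAd
  have hnn : 0 ≤ TI (rt A T) (sht T x y) :=
    (TS_nonneg (rt_adm hA T) _ ∅).trans
      (TS_le_TI (rt_adm hA T) (rt_bdd hA hB T) (sht_inj T x y) _)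
  have hlim := (TS_tendsto (rt_adm hA T) (rt_bdd hA hB T) Function.injective_id).const_mul c
  refine le_of_tendsto' hlim fun R => ?_
  rcases le_total c 0 with hc | hc
  · exact (mul_nonpos_of_nonpos_of_nonneg hc (TS_nonneg (rt_adm hA T) _ _)).trans hnn
  set Q : Finset ℤ := R.image (fun n : CT V T => ∑ x, n.1 x) with hQ
  have hQT : ∀ N ∈ Q, N ∈ T := by
    intro N hN
    obtain ⟨n, _, rfl⟩ := Finset.mem_image.1 hN
    exact n.2
  rw [TS_rt_id, TS_split_id β K w ν (R.map (te V T)) Q (by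
    intro n hn
    obtain ⟨z, hz, rfl⟩ := Finset.mem_map.1 hn
    exact Finset.mem_image_of_mem _ hz)]
  calc c * ∑ N ∈ Q, TS A id ((R.map (te V T)).filter (fun n => ∑ x, n x = N))
      ≤ c * ∑ N ∈ Q, TI (rs A N) id := by
        refine mul_le_mul_of_nonneg_left (Finset.sum_le_sum fun N _ => ?_) hc
        rw [filter_eq_map, ← TS_rs_id]
        exact TS_le_TI (rs_adm hA N) (rs_bdd hA hB N) Function.injective_id _
    _ = ∑ N ∈ Q, c * TI (rs A N) id := by rw [Finset.mul_sum]
    _ ≤ ∑ N ∈ Q, TI (rs A N) (sh N x y) := Finset.sum_le_sum fun N _ => h N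
    _ ≤ _ := sec_le_set hβ hK hw ν T Q hQT x y

section

variable {d L : ℕ} [NeZero L]

/-- The upper bound for Bogoliubov's value. -/
theorem bog_up (d : ℕ) (hd : 3 ≤ d) : ∃ C : ℝ, 0 < C ∧ ∀ (L : ℕ) [NeZero L] (U J β : ℝ),
    0 < U → 0 < J → 0 < β → bog d L U J β ≤ C * (Real.sqrt (U / J) + 1 / (β * J)) := by
  obtain ⟨C, hC, h⟩ := lat_both d hd
  refine ⟨C, hC, ?_⟩
  intro L _ U J β hU hJ hβ
  have h1 := h L (Real.sqrt (U / J)) (2 * (β * J)) (Real.sqrt_nonneg _) (by positivity)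
  have hn0 : (0:ℝ) < (Fintype.card (Fin d → ZMod L) : ℝ) := by exact_mod_cast Fintype.card_pos
  unfold bog
  rw [div_le_iff₀ hn0]
  have h2 : ∑ k ∈ (Finset.univ : Finset (Fin d → ZMod L)).erase 0, sB U J β (lam k) ≤
      ∑ k ∈ (Finset.univ : Finset (Fin d → ZMod L)).erase 0,
        (2 / (2 * (β * J) * lam k) + Real.sqrt (U / J) / Real.sqrt (lam k)) := by
    refine Finset.sum_le_sum fun k hk => ?_
    have hl := lam_pos k (Finset.ne_of_mem_erase hk)
    refine (P5.task_sB_up U J β (lam k) hU hJ hβ hl).trans (le_of_eq ?_)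
    rw [add_comm]
    congr 1
    field_simp
  refine h2.trans (h1.trans ?_)
  refine mul_le_mul_of_nonneg_right (mul_le_mul_of_nonneg_left ?_ hC.le) hn0.le
  have h3 : 1 / (2 * (β * J)) ≤ 1 / (β * J) :=
    one_div_le_one_div_of_le (by positivity) (by nlinarith [mul_pos hβ hJ])
  linarith

theorem oc_sum (z : Fin d → ZMod L) (hz : z ≠ 0) :
    ∑ k ∈ (Finset.univ : Finset (Fin d → ZMod L)).erase 0, oc k z =
      (Fintype.card (Fin d → ZMod L) : ℝ) := by
  have h1 := Pool.Agent.N157.QR_FOU.sum_char z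
  rw [if_neg hz] at h1
  have h3 : ∑ k : Fin d → ZMod L, (Pool.Agent.N157.QR_FOU.ps
      (Pool.Agent.N157.QR_FOU.dot k z)).re = 0 := by
    rw [← Complex.re_sum, h1, Complex.zero_re]
  have h4 : ∑ k : Fin d → ZMod L, oc k z = (Fintype.card (Fin d → ZMod L) : ℝ) := by
    unfold oc
    rw [Finset.sum_sub_distrib, h3]
    simp
  rw [← h4, ← Finset.add_sum_erase _ _ (Finset.mem_univ (0 : Fin d → ZMod L)), oc_zero, zero_add]

/-- The lower bound for the profile. -/
theorem prof_low (d : ℕ) (hd : 3 ≤ d) : ∃ c : ℝ, 0 < c ∧ ∀ (L : ℕ) [NeZero L] (U J β : ℝ),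
    0 < U → 0 < J → 0 < β → ∀ z : Fin d → ZMod L, z ≠ 0 →
    c * (Real.sqrt (U / J) + 1 / (β * J)) ≤ prof d L U J β z := by
  have hd0 : (0:ℝ) < d := by
    have : 0 < d := by omega
    exact_mod_cast this
  obtain ⟨c, hc, h⟩ := P5.task_sB_low (4 * d) (by positivity)
  refine ⟨c, hc, ?_⟩
  intro L _ U J β hU hJ hβ z hz
  have hn0 : (0:ℝ) < (Fintype.card (Fin d → ZMod L) : ℝ) := by exact_mod_cast Fintype.card_pos
  unfold prof
  rw [le_div_iff₀ hn0, ← oc_sum z hz, Finset.mul_sum]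
  refine Finset.sum_le_sum fun k hk => ?_
  exact mul_le_mul_of_nonneg_right
    (h U J β (lam k) hU hJ hβ (lam_pos k (Finset.ne_of_mem_erase hk)) (lam_le k)) (oc_nonneg k z)

theorem prof_zero (U J β : ℝ) : prof d L U J β 0 = 0 := by
  unfold prof
  have : ∀ k : Fin d → ZMod L, oc k 0 = 0 := by
    intro k
    unfold oc
    have h : Pool.Agent.N157.QR_FOU.dot k (0 : Fin d → ZMod L) = 0 := by
      simp [Pool.Agent.N157.QR_FOU.dot]
    rw [h, Pool.Agent.N157.QR_FOU.ps_zero]
    simp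
  simp [this]

/-- The profile at the neutral point with a relative error. -/
theorem neutral_relative (d : ℕ) (hd : 3 ≤ d) (ε : ℝ) (hε : 0 < ε) : ∃ δ : ℝ, 0 < δ ∧
    ∀ (L : ℕ) [NeZero L] (U J β : ℝ), Even L → 0 < U → 0 < J → 0 < β →
    Real.sqrt (U / J) + 1 / (β * J) ≤ δ → ∀ x y : Fin d → ZMod L,
    |1 - WW (NN d L β U J) (eta x y) / WW (NN d L β U J) 0 - prof d L U J β (x - y)| ≤
      ε * prof d L U J β (x - y) := by
  obtain ⟨C, hC, hup⟩ := bog_up d hd
  obtain ⟨c, hc, hlow⟩ := prof_low d hd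
  obtain ⟨δ, hδ, h⟩ := neutral_profile d hd (ε * c / C) (by positivity)
  refine ⟨δ, hδ, ?_⟩
  intro L _ U J β hL hU hJ hβ ha x y
  by_cases hxy : x = y
  · subst hxy
    have hw : ∀ x y, 0 ≤ (nnw J : (Fin d → ZMod L) → (Fin d → ZMod L) → ℝ) x y := nnw_nonneg hJ.le
    have hZ : 0 < WW (NN d L β U J) 0 := WW_zero_pos hβ hU hw
    have h0 : eta x x = 0 := by unfold eta; simp
    rw [sub_self, prof_zero, h0, div_self hZ.ne']
    simp
  · have h1 := h L U J β hL hU hJ hβ ha x y
    refine h1.trans ?_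
    have h2 := hup L U J β hU hJ hβ
    have h3 := hlow L U J β hU hJ hβ (x - y) (sub_ne_zero.2 hxy)
    have h4 : ε * c / C * bog d L U J β ≤
        ε * c / C * (C * (Real.sqrt (U / J) + 1 / (β * J))) :=
      mul_le_mul_of_nonneg_left h2 (by positivity)
    have h5 : ε * c / C * (C * (Real.sqrt (U / J) + 1 / (β * J))) =
        ε * (c * (Real.sqrt (U / J) + 1 / (β * J))) := by
      field_simp
    have h6 := mul_le_mul_of_nonneg_left h3 hε.le
    linarith

end

end Pool.Agent.H993.LY
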