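import Mathlib
import Pool.Agent.H993.LY.Off

/-!
# The momentum distribution at positive temperature
-/

namespace Pool.Agent.H993.LY

open Filter Topology NormedSpace Matrix MeasureTheory
open Pool.Agent.H993.TR
open Pool.Agent.N157.QR_FOU (BB lam_pos)
open Pool.Agent.N657.QR (ee nnw lam)
open P16 (task_modes)
open P17 (task_mode)
open P20 (task_crude)
open P22 (task_set)

section

variable {d L : ℕ} [NeZero L]

/-- The occupation numbers of the modes at the neutral point: lower bound for every mode, and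
convergence in the mean. -/
theorem neutral_mom (d : ℕ) (hd : 3 ≤ d) (ε : ℝ) (hε : 0 < ε) : ∃ δ : ℝ, 0 < δ ∧
    ∀ (L : ℕ) [NeZero L] (U J β : ℝ), Even L → 0 < U → 0 < J → 0 < β →
    Real.sqrt (U / J) + 1 / (β * J) ≤ δ →
    (∀ k : Fin d → ZMod L, k ≠ 0 → (1 - ε) * sB U J β (lam k) ≤
      TT (NN d L β U J) k / ((Fintype.card (Fin d → ZMod L) : ℝ) * WW (NN d L β U J) 0)) ∧
    ∑ k ∈ (Finset.univ : Finset (Fin d → ZMod L)).erase 0,
      |TT (NN d L β U J) k / ((Fintype.card (Fin d → ZMod L) : ℝ) * WW (NN d L β U J) 0) -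
        sB U J β (lam k)| ≤
      ε * ∑ k ∈ (Finset.univ : Finset (Fin d → ZMod L)).erase 0, sB U J β (lam k) := by
  set e : ℝ := min ε 1 / 8 with he
  have he0 : 0 < e := by
    have : 0 < min ε 1 := lt_min hε one_pos
    positivity
  have he1 : 8 * e ≤ ε := by
    have : min ε 1 ≤ ε := min_le_left _ _
    rw [he]; linarith
  have he2 : e ≤ 1 / 8 := by
    have : min ε 1 ≤ 1 := min_le_right _ _
    rw [he]; linarith
  obtain ⟨δ₁, hδ₁, hup⟩ := neutral_upper d hd e he0
  obtain ⟨C, hC, hcr⟩ := task_crude d hd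
  refine ⟨min δ₁ (e / (4 * C)), lt_min hδ₁ (by positivity), ?_⟩
  intro L _ U J β hL hU hJ hβ ha
  have hD := hup L U J β hL hU hJ hβ (ha.trans (min_le_left _ _))
  have hc := hcr L U J β hL hU hJ hβ
  have hw : ∀ x y, 0 ≤ (nnw J : (Fin d → ZMod L) → (Fin d → ZMod L) → ℝ) x y := nnw_nonneg hJ.le
  have hb := bog_nonneg (d := d) (L := L) hU hJ hβ
  set A := NN d L β U J with hA
  set Z := WW A 0 with hZd
  have hZ : 0 < Z := WW_zero_pos hβ hU hw
  set n : ℝ := (Fintype.card (Fin d → ZMod L) : ℝ) with hn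
  have hn0 : 0 < n := by rw [hn]; exact_mod_cast Fintype.card_pos
  have hnZ : 0 < n * Z := by positivity
  set D := depl A with hDd
  have hDe : D ≤ e / 4 := by
    have h1 := mul_le_mul_of_nonneg_left (ha.trans (min_le_right _ _)) hC.le
    have h2 : C * (e / (4 * C)) = e / 4 := by field_simp
    linarith
  obtain ⟨m1, m2⟩ := task_modes (d := d) (L := L) hβ hU hw
  have hwg : wgm (d := d) (L := L) J 0 = nnw J := by
    funext x y
    unfold wgm
    rw [zero_div, add_zero]
  have hD0 : 0 ≤ D := by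
    have h2 : 0 ≤ ∑ k ∈ (Finset.univ : Finset (Fin d → ZMod L)).erase 0,
        TT (AA β U (nnw J)) k := Finset.sum_nonneg fun k _ => m1 k
    rw [m2] at h2
    have h3 : 0 < n ^ 2 * Z := by positivity
    exact nonneg_of_mul_nonneg_right h2 h3
  -- the modes
  set S : (Fin d → ZMod L) → ℝ := fun k => TT A k / (n * Z) with hS
  have hlow : ∀ k ∈ (Finset.univ : Finset (Fin d → ZMod L)).erase 0,
      (1 - e) * sB U J β (lam k) ≤ S k := by
    intro k hk
    have hk0 := Finset.ne_of_mem_erase hk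
    rw [hS]
    simp only
    rw [le_div_iff₀ hnZ]
    have h := task_mode (d := d) (L := L) (γ := 0) hβ hU hJ le_rfl
      (by rw [hwg]; exact le_trans hDe (by linarith)) k hk0
    rw [hwg] at h
    have e1 : lam k + 2 * 0 / J = lam k := by rw [mul_zero, zero_div, add_zero]
    rw [e1] at h
    have hs := sB_pos hU hJ hβ (lam_pos k hk0)
    have h3 : 1 - e ≤ (1 - 2 * D) ^ 2 := by nlinarith [sq_nonneg D]
    refine le_trans ?_ h
    exact mul_le_mul_of_nonneg_right (mul_le_mul_of_nonneg_right h3 hs.le) hnZ.le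
  have hsumS : ∑ k ∈ (Finset.univ : Finset (Fin d → ZMod L)).erase 0, S k = n * D := by
    have h3 : ∑ k ∈ (Finset.univ : Finset (Fin d → ZMod L)).erase 0, S k =
        (∑ k ∈ (Finset.univ : Finset (Fin d → ZMod L)).erase 0, TT A k) / (n * Z) := by
      rw [Finset.sum_div]
    have h4 : ∑ k ∈ (Finset.univ : Finset (Fin d → ZMod L)).erase 0, TT A k =
        n ^ 2 * Z * D := m2
    rw [h3, h4]
    field_simp
  have hsumB : ∑ k ∈ (Finset.univ : Finset (Fin d → ZMod L)).erase 0, sB U J β (lam k) =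
      n * bog d L U J β := by
    unfold bog
    rw [← hn]
    field_simp
  refine ⟨fun k hk => ?_, ?_⟩
  · have h1 := hlow k (Finset.mem_erase.2 ⟨hk, Finset.mem_univ k⟩)
    have hs := sB_pos hU hJ hβ (lam_pos k hk)
    have h2 : (1 - ε) * sB U J β (lam k) ≤ (1 - e) * sB U J β (lam k) :=
      mul_le_mul_of_nonneg_right (by linarith) hs.le
    exact h2.trans h1
  · show ∑ k ∈ (Finset.univ : Finset (Fin d → ZMod L)).erase 0, |S k - sB U J β (lam k)| ≤ _
    have q1 : ∑ k ∈ (Finset.univ : Finset (Fin d → ZMod L)).erase 0, |S k - sB U J β (lam k)| ≤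
        ∑ k ∈ (Finset.univ : Finset (Fin d → ZMod L)).erase 0,
        (S k - sB U J β (lam k) + 2 * e * sB U J β (lam k)) := by
      refine Finset.sum_le_sum fun k hk => ?_
      have h1 := hlow k hk
      have hs := sB_pos hU hJ hβ (lam_pos k (Finset.ne_of_mem_erase hk))
      rw [abs_le]
      constructor
      · nlinarith
      · nlinarith [mul_pos he0 hs]
    have q2 : ∑ k ∈ (Finset.univ : Finset (Fin d → ZMod L)).erase 0,
        (S k - sB U J β (lam k) + 2 * e * sB U J β (lam k)) =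
        n * D - n * bog d L U J β + 2 * e * (n * bog d L U J β) := by
      rw [Finset.sum_add_distrib, Finset.sum_sub_distrib, ← Finset.mul_sum,
          hsumS, hsumB]
    have q3 : n * D - n * bog d L U J β + 2 * e * (n * bog d L U J β) ≤
        ε * ∑ k ∈ (Finset.univ : Finset (Fin d → ZMod L)).erase 0, sB U J β (lam k) := by
      rw [hsumB]
      have h1 : n * D ≤ n * ((1 + e) * bog d L U J β) := mul_le_mul_of_nonneg_left hD hn0.le
      have h2 : 0 ≤ n * bog d L U J β := by positivity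
      have h3 : 8 * e * (n * bog d L U J β) ≤ ε * (n * bog d L U J β) :=
        mul_le_mul_of_nonneg_right he1 h2
      nlinarith [mul_nonneg he0.le h2]
    exact (q1.trans (le_of_eq q2)).trans q3

open Pool.Agent.N157.QR_FOU in
/-- The modes as Fourier transforms. -/
theorem TT_cos (A : ((Fin d → ZMod L) → ℤ) → ((Fin d → ZMod L) → ℤ) → ℝ) (k : Fin d → ZMod L) :
    TT A k = ∑ x, ∑ y, Real.cos (2 * Real.pi * ((∑ i, k i * (x - y) i : ZMod L).val : ℝ) / L) *
      WW A (eta x y) := by
  unfold TT BB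
  rw [← Finset.sum_add_distrib]
  refine Finset.sum_congr rfl fun x _ => ?_
  rw [← Finset.sum_add_distrib]
  refine Finset.sum_congr rfl fun y _ => ?_
  have h1 : Real.cos (2 * Real.pi * ((∑ i, k i * (x - y) i : ZMod L).val : ℝ) / L) =
      (ps (dot k (x - y))).re := (ps_re _).symm
  rw [h1, dot_sub, sub_eq_add_neg, ps_add, ps_neg]
  unfold Pool.Agent.N157.QR_FOU.cc Pool.Agent.N157.QR_FOU.ss
  rw [Complex.mul_re, Complex.conj_re, Complex.conj_im]
  ring

end

end Pool.Agent.H993.LY
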